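import Pool.Agent.Lib.MP_0b748d_nt.P.Defs

set_option autoImplicit false

/-!
# Finite Fourier analysis: the abstract contradiction
-/

namespace Pool.Agent.Lib.MP_0b748d_nt

open Zsqrtd

noncomputable section

namespace FourierCore

/-! ### the additive character -/

lemma ee_nat (n : ℕ) (x : ℝ) : ee (n * x) = ee x ^ n := by
  simp only [ee]
  rw [← Complex.exp_nat_mul]
  congr 1
  push_cast
  ring

lemma ee_eq_one {x : ℝ} (h : ee x = 1) : ∃ n : ℤ, x = n := by
  simp only [ee] at h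
  rw [Complex.exp_eq_one_iff] at h
  obtain ⟨n, hn⟩ := h
  refine ⟨n, ?_⟩
  have h2 : (2 * Real.pi * Complex.I : ℂ) ≠ 0 := by simp [Real.pi_ne_zero]
  have h3 : (x : ℂ) = n := by
    have : (2 * Real.pi * Complex.I : ℂ) * x = (2 * Real.pi * Complex.I) * n := by
      rw [mul_comm _ (n : ℂ), ← hn]; ring
    exact mul_left_cancel₀ h2 this
  exact_mod_cast h3

lemma orth (N : ℕ) (hN : 0 < N) (m : ℤ) (hm : ¬ (N : ℤ) ∣ m) :
    ∑ j ∈ Finset.range N, ee (m * (j / N : ℝ)) = 0 := by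
  have hN' : (N : ℝ) ≠ 0 := by positivity
  set z := ee (m / N) with hz
  have h1 : ∀ j : ℕ, ee (m * (j / N : ℝ)) = z ^ j := by
    intro j
    rw [hz, ← ee_nat]
    congr 1
    ring
  have hz1 : z ≠ 1 := by
    intro h
    obtain ⟨n, hn⟩ := ee_eq_one h
    apply hm
    refine ⟨n, ?_⟩
    have : (m : ℝ) = N * n := by
      rw [← hn]; field_simp
    exact_mod_cast this
  have hzN : z ^ N = 1 := by
    rw [hz, ← ee_nat, mul_div_cancel₀ _ hN']
    exact ee_int m
  rw [Finset.sum_congr rfl (fun j _ => h1 j), geom_sum_eq hz1, hzN]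
  simp

lemma norm_ee_sub_one (x : ℝ) : 4 * |x - round x| ≤ ‖ee x - 1‖ := by
  set y := x - round x with hy
  have h1 : ee x = ee y := by
    have : x = y + round x := by rw [hy]; ring
    conv_lhs => rw [this]
    rw [ee_add, ee_int, mul_one]
  have h2 : |y| ≤ 1 / 2 := abs_sub_round x
  rw [h1]
  have h3 : ee y = Complex.exp (Complex.I * ((2 * Real.pi * y : ℝ) : ℂ)) := by
    simp only [ee]
    congr 1
    push_cast
    ring
  rw [h3, Complex.norm_exp_I_mul_ofReal_sub_one]
  have h4 : 2 * Real.pi * y / 2 = Real.pi * y := by ring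
  rw [h4, Real.norm_eq_abs, abs_mul, abs_two]
  have h5 : |Real.sin (Real.pi * y)| = Real.sin (Real.pi * |y|) := by
    rcases abs_cases y with ⟨h, h'⟩ | ⟨h, h'⟩
    · rw [h]
      apply abs_of_nonneg
      apply Real.sin_nonneg_of_nonneg_of_le_pi
      · positivity
      · rw [h] at h2
        nlinarith only [h2, Real.pi_pos]
    · rw [h]
      rw [show Real.pi * y = -(Real.pi * -y) by ring, Real.sin_neg, abs_neg]
      apply abs_of_nonneg
      apply Real.sin_nonneg_of_nonneg_of_le_pi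
      · have : 0 ≤ -y := by linarith
        positivity
      · rw [h] at h2
        nlinarith [Real.pi_pos]
  rw [h5]
  have h6 := Real.mul_le_sin (x := Real.pi * |y|) (by positivity)
    (by nlinarith [Real.pi_pos])
  have h7 : 2 / Real.pi * (Real.pi * |y|) = 2 * |y| := by
    field_simp
  rw [h7] at h6
  linarith

/-! ### the Fejer kernel -/

def K (T : ℕ) (x : ℝ) : ℝ := ‖∑ k ∈ Finset.range T, ee (k * x)‖ ^ 2 / T

lemma K_nonneg (T : ℕ) (x : ℝ) : 0 ≤ K T x := by unfold K; positivity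

/-- frequency of a pair -/
def fq (p : ℕ × ℕ) : ℤ := (p.1 : ℤ) - p.2

lemma K_eq (T : ℕ) (x : ℝ) : (K T x : ℂ) =
    (∑ p ∈ Finset.range T ×ˢ Finset.range T, ee (fq p * x)) / T := by
  unfold K
  push_cast
  congr 1
  rw [← Complex.mul_conj', map_sum, Finset.sum_mul_sum, ← Finset.sum_product']
  apply Finset.sum_congr rfl
  intro p _
  rw [← ee_neg, ← ee_add]
  congr 1
  simp only [fq]
  push_cast
  ring

lemma K_le (T : ℕ) (x η : ℝ) (hη : 0 < η) (h : η ≤ |x - round x|) :
    K T x ≤ 1 / (4 * T * η ^ 2) := by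
  have h1 := norm_ee_sub_one x
  have h2 : 4 * η ≤ ‖ee x - 1‖ := by linarith
  have h3 : ‖∑ k ∈ Finset.range T, ee (k * x)‖ * ‖ee x - 1‖ ≤ 2 := by
    rw [← _root_.norm_mul]
    have h4 : (∑ k ∈ Finset.range T, ee (k * x)) = ∑ k ∈ Finset.range T, ee x ^ k :=
      Finset.sum_congr rfl (fun k _ => ee_nat k x)
    rw [h4, geom_sum_mul]
    calc ‖ee x ^ T - 1‖ ≤ ‖ee x ^ T‖ + ‖(1 : ℂ)‖ := norm_sub_le _ _
      _ = 2 := by rw [norm_pow, norm_ee]; norm_num
  have h4 : ‖∑ k ∈ Finset.range T, ee (k * x)‖ ≤ 1 / (2 * η) := by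
    rw [le_div_iff₀ (by positivity)]
    have h5 : ‖∑ k ∈ Finset.range T, ee (k * x)‖ * (4 * η) ≤ 2 :=
      le_trans (mul_le_mul_of_nonneg_left h2 (norm_nonneg _)) h3
    linarith
  have h5 : ‖∑ k ∈ Finset.range T, ee (k * x)‖ ^ 2 ≤ (1 / (2 * η)) ^ 2 :=
    pow_le_pow_left₀ (norm_nonneg _) h4 2
  unfold K
  calc ‖∑ k ∈ Finset.range T, ee (k * x)‖ ^ 2 / T ≤ (1 / (2 * η)) ^ 2 / T :=
        div_le_div_of_nonneg_right h5 (by positivity)
    _ = 1 / (4 * T * η ^ 2) := by
        rw [div_pow, div_div, one_pow]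
        congr 1
        ring

/-! ### coefficients and the smoothed function -/

def C (N : ℕ) (f : ℕ → ℝ) (m : ℤ) : ℂ :=
  (∑ j ∈ Finset.range N, (f j : ℂ) * ee (-(m * (j / N : ℝ)))) / N

def S (T N : ℕ) (f : ℕ → ℝ) (x : ℝ) : ℝ :=
  (∑ j ∈ Finset.range N, K T (x - j / N) * f j) / N

lemma S_eq (T N : ℕ) (f : ℕ → ℝ) (x : ℝ) : (S T N f x : ℂ) =
    (∑ p ∈ Finset.range T ×ˢ Finset.range T, C N f (fq p) * ee (fq p * x)) / T := by
  unfold S C
  push_cast
  simp only [K_eq]
  rw [Finset.sum_div, Finset.sum_div]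
  simp_rw [div_mul_eq_mul_div, Finset.sum_mul, Finset.sum_div]
  rw [Finset.sum_comm]
  apply Finset.sum_congr rfl
  intro p _
  apply Finset.sum_congr rfl
  intro j _
  have : ee (fq p * (x - j / N)) = ee (-(fq p * (j / N : ℝ))) * ee (fq p * x) := by
    rw [← ee_add]
    congr 1
    ring
  rw [this]
  ring

lemma S_one (T N : ℕ) (hT : 0 < T) (hTN : T ≤ N) (x : ℝ) : S T N (fun _ => 1) x = 1 := by
  have hN : 0 < N := lt_of_lt_of_le hT hTN
  have hN' : (N : ℂ) ≠ 0 := by exact_mod_cast hN.ne'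
  have hT' : (T : ℂ) ≠ 0 := by exact_mod_cast hT.ne'
  have h : (S T N (fun _ => 1) x : ℂ) = 1 := by
    rw [S_eq]
    have h1 : ∀ p ∈ Finset.range T ×ˢ Finset.range T,
        C N (fun _ => 1) (fq p) * ee (fq p * x) = if p.1 = p.2 then 1 else 0 := by
      intro p hp
      rw [Finset.mem_product, Finset.mem_range, Finset.mem_range] at hp
      split_ifs with h
      · have : fq p = 0 := by simp [fq, h]
        rw [this]
        simp [C, ee_zero, hN']
      · have h2 : ¬ (N : ℤ) ∣ -(fq p) := by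
          intro hd
          have h3 : fq p ≠ 0 := by
            simp only [fq]; omega
          have h4 := Int.le_of_dvd (a := (N : ℤ)) (b := |fq p|) (abs_pos.mpr h3)
            ((dvd_abs _ _).mpr ((dvd_neg).mp hd))
          have h5 : |fq p| < T := by
            rw [abs_lt]; simp only [fq]; constructor <;> omega
          omega
        have h3 := orth N hN _ h2
        have h4 : C N (fun _ => 1) (fq p) = 0 := by
          unfold C
          rw [div_eq_zero_iff]
          left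
          rw [← h3]
          apply Finset.sum_congr rfl
          intro j _
          push_cast
          rw [one_mul]
          congr 1
          ring
        rw [h4, zero_mul]
    rw [Finset.sum_congr rfl h1, Finset.sum_product]
    have h2 : ∀ i ∈ Finset.range T,
        (∑ j ∈ Finset.range T, if (i, j).1 = (i, j).2 then (1 : ℂ) else 0) = 1 := by
      intro i hi
      simp only
      rw [Finset.sum_ite_eq]
      simp [hi]
    rw [Finset.sum_congr rfl h2]
    simp [hT']
  exact_mod_cast h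

lemma S_abs_le (T N : ℕ) (hT : 0 < T) (hTN : T ≤ N) (f : ℕ → ℝ) (x B : ℝ)
    (hf : ∀ j, |f j| ≤ B) : |S T N f x| ≤ B := by
  have hN : 0 < N := lt_of_lt_of_le hT hTN
  have hN' : (0 : ℝ) < N := by exact_mod_cast hN
  have h1 := S_one T N hT hTN x
  have h2 : |S T N f x| ≤ B * S T N (fun _ => 1) x := by
    unfold S
    rw [abs_div, abs_of_pos hN', mul_div_assoc', Finset.mul_sum]
    apply div_le_div_of_nonneg_right _ hN'.le
    refine (Finset.abs_sum_le_sum_abs _ _).trans ?_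
    apply Finset.sum_le_sum
    intro j _
    rw [abs_mul, abs_of_nonneg (K_nonneg _ _), mul_one, mul_comm B]
    exact mul_le_mul_of_nonneg_left (hf j) (K_nonneg _ _)
  rw [h1, mul_one] at h2
  exact h2

lemma S_sub (T N : ℕ) (f : ℕ → ℝ) (x c : ℝ) (hT : 0 < T) (hTN : T ≤ N) :
    S T N f x - c = (∑ j ∈ Finset.range N, K T (x - j / N) * (f j - c)) / N := by
  have h1 := S_one T N hT hTN x
  have : S T N f x - c = S T N f x - c * S T N (fun _ => 1) x := by rw [h1, mul_one]
  rw [this]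
  unfold S
  rw [mul_div_assoc', Finset.mul_sum, ← sub_div, ← Finset.sum_sub_distrib]
  congr 1
  apply Finset.sum_congr rfl
  intro j _
  ring

lemma per_int (sg : ℝ → ℝ) (hper : ∀ x, sg (x + 1) = sg x) (n : ℤ) (x : ℝ) :
    sg (x + n) = sg x := by
  induction n using Int.induction_on with
  | zero => simp
  | succ k ih =>
    have h : x + ((k + 1 : ℤ) : ℝ) = (x + (k : ℤ)) + 1 := by push_cast; ring
    rw [h, hper]
    exact ih
  | pred k ih =>
    have h : x + ((-(k : ℤ) : ℤ) : ℝ) = (x + ((-(k : ℤ) - 1 : ℤ) : ℝ)) + 1 := by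
      push_cast; ring
    rw [h, hper] at ih
    exact ih

lemma S_close (T N : ℕ) (hT : 0 < T) (hTN : T ≤ N) (sg : ℝ → ℝ)
    (hsg : ∀ x, sg x = 1 ∨ sg x = -1) (hper : ∀ x, sg (x + 1) = sg x) (η x : ℝ) (hη : 0 < η)
    (h : ∀ x', |x' - x| ≤ η → sg x' = sg x) :
    |S T N (fun j => sg (j / N)) x - sg x| ≤ 1 / (2 * T * η ^ 2) := by
  have hN : 0 < N := lt_of_lt_of_le hT hTN
  have hN' : (0 : ℝ) < N := by exact_mod_cast hN
  have hT' : (0 : ℝ) < T := by exact_mod_cast hT
  rw [S_sub T N _ x _ hT hTN, abs_div, abs_of_pos hN', div_le_iff₀ hN']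
  refine (Finset.abs_sum_le_sum_abs _ _).trans ?_
  have h1 : ∀ j ∈ Finset.range N, |K T (x - j / N) * (sg (j / N) - sg x)| ≤
      1 / (2 * T * η ^ 2) := by
    intro j _
    rw [abs_mul, abs_of_nonneg (K_nonneg _ _)]
    set y := x - j / N with hy
    by_cases hc : |y - round y| ≤ η
    · have h2 : sg (j / N + round y) = sg x := by
        apply h
        have : (j / N : ℝ) + round y - x = -(y - round y) := by rw [hy]; ring
        rw [this, abs_neg]
        exact hc
      rw [per_int sg hper] at h2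
      rw [h2, sub_self, abs_zero, mul_zero]
      positivity
    · push Not at hc
      have h2 := K_le T y η hη hc.le
      have h3 : |sg (j / N) - sg x| ≤ 2 := by
        rcases hsg (j / N) with h4 | h4 <;> rcases hsg x with h5 | h5 <;> rw [h4, h5] <;>
          norm_num
      calc K T y * |sg (j / N) - sg x| ≤ 1 / (4 * T * η ^ 2) * 2 :=
            mul_le_mul h2 h3 (abs_nonneg _) (by positivity)
        _ = 1 / (2 * T * η ^ 2) := by
            field_simp
            norm_num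
  refine (Finset.sum_le_sum h1).trans ?_
  rw [Finset.sum_const, Finset.card_range, nsmul_eq_mul, mul_comm]

/-! ### the coefficients are at most `1 / √2` -/

lemma C_norm_le_one (N : ℕ) (hN : 0 < N) (f : ℕ → ℝ) (hf : ∀ j, |f j| ≤ 1) (m : ℤ) :
    ‖C N f m‖ ≤ 1 := by
  have hN' : (0 : ℝ) < N := by exact_mod_cast hN
  unfold C
  rw [norm_div, Complex.norm_natCast, div_le_one hN']
  refine (norm_sum_le _ _).trans ?_
  have : ∀ j ∈ Finset.range N, ‖(f j : ℂ) * ee (-(m * (j / N : ℝ)))‖ ≤ 1 := by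
    intro j _
    rw [_root_.norm_mul, norm_ee, mul_one, Complex.norm_real]
    exact hf j
  refine (Finset.sum_le_sum this).trans ?_
  simp

lemma C_sq_le (N : ℕ) (hN : 0 < N) (f : ℕ → ℝ) (hf : ∀ j, f j ^ 2 = 1) (m : ℤ)
    (hm : ¬ (N : ℤ) ∣ 2 * m) : ‖C N f m‖ ^ 2 ≤ 1 / 2 := by
  have hN' : (0 : ℝ) < N := by exact_mod_cast hN
  have hNC : (N : ℂ) ≠ 0 := by exact_mod_cast hN.ne'
  set c := C N f m with hc
  have h1 : ∀ j ∈ Finset.range N, 0 ≤ 1 - 4 * (f j * (c * ee (m * (j / N : ℝ))).re) +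
      2 * ‖c‖ ^ 2 + 2 * (c ^ 2 * ee ((2 * m : ℤ) * (j / N : ℝ))).re := by
    intro j _
    set z := c * ee (m * (j / N : ℝ)) with hz
    have h2 : c ^ 2 * ee ((2 * m : ℤ) * (j / N : ℝ)) = z ^ 2 := by
      rw [hz, mul_pow, ← ee_nat]
      congr 2
      push_cast
      ring
    have h3 : ‖c‖ ^ 2 = z.re ^ 2 + z.im ^ 2 := by
      have : ‖c‖ = ‖z‖ := by rw [hz, _root_.norm_mul, norm_ee, mul_one]
      rw [this, Complex.sq_norm, Complex.normSq_apply]
      ring
    have h4 : (z ^ 2).re = z.re ^ 2 - z.im ^ 2 := by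
      rw [sq, Complex.mul_re]; ring
    rw [h2, h3, h4]
    have h5 := sq_nonneg (f j - 2 * z.re)
    have h6 := hf j
    linarith only [h5, h6]
  have h2 := Finset.sum_nonneg h1
  rw [Finset.sum_add_distrib, Finset.sum_add_distrib, Finset.sum_sub_distrib] at h2
  have h3 : ∑ j ∈ Finset.range N, 2 * (c ^ 2 * ee ((2 * m : ℤ) * (j / N : ℝ))).re = 0 := by
    rw [← Finset.mul_sum, ← Complex.re_sum, ← Finset.mul_sum, orth N hN _ hm]
    simp
  have h4 : ∑ j ∈ Finset.range N, 4 * (f j * (c * ee (m * (j / N : ℝ))).re) =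
      4 * N * ‖c‖ ^ 2 := by
    rw [← Finset.mul_sum]
    have h5 : ∀ j ∈ Finset.range N, f j * (c * ee (m * (j / N : ℝ))).re =
        (c * ((f j : ℂ) * ee (m * (j / N : ℝ)))).re := by
      intro j _
      rw [show c * ((f j : ℂ) * ee (m * (j / N : ℝ))) =
        (f j : ℂ) * (c * ee (m * (j / N : ℝ))) by ring, Complex.re_ofReal_mul]
    rw [Finset.sum_congr rfl h5, ← Complex.re_sum, ← Finset.mul_sum]
    have h6 : ∑ j ∈ Finset.range N, (f j : ℂ) * ee (m * (j / N : ℝ)) =
        (starRingEnd ℂ) (N * c) := by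
      rw [hc]
      unfold C
      rw [mul_div_cancel₀ _ hNC, map_sum]
      apply Finset.sum_congr rfl
      intro j _
      rw [map_mul, Complex.conj_ofReal, ← ee_neg, neg_neg]
    rw [h6, map_mul, Complex.conj_natCast]
    have h7 : c * ((N : ℂ) * (starRingEnd ℂ) c) = ((N * ‖c‖ ^ 2 : ℝ) : ℂ) := by
      push_cast
      rw [← Complex.mul_conj']
      ring
    rw [h7, Complex.ofReal_re]
    ring
  rw [h3, h4] at h2
  simp only [Finset.sum_const, Finset.card_range, nsmul_eq_mul, mul_one] at h2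
  have h5 : 0 ≤ (N : ℝ) * (1 - 2 * ‖c‖ ^ 2) := by
    linarith only [h2]
  have h6 : 0 ≤ 1 - 2 * ‖c‖ ^ 2 := by
    by_contra h
    push Not at h
    have := mul_neg_of_pos_of_neg hN' h
    linarith
  linarith

/-! ### averaging with an exceptional set -/

lemma bad {α : Type*} (P : Finset α) (F : α → ℝ) (Bad : α → Prop) [DecidablePred Bad]
    (B e β : ℝ) (hB : 0 ≤ B) (he : 0 ≤ e) (h1 : ∀ p ∈ P, Bad p → |F p| ≤ B)
    (h2 : ∀ p ∈ P, ¬ Bad p → |F p| ≤ e) (h3 : ((P.filter Bad).card : ℝ) ≤ β) :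
    |∑ p ∈ P, F p| ≤ B * β + e * P.card := by
  refine (Finset.abs_sum_le_sum_abs _ _).trans ?_
  have h4 : ∀ p ∈ P, |F p| ≤ (if Bad p then B else 0) + e := by
    intro p hp
    split_ifs with h
    · exact (h1 p hp h).trans (by linarith)
    · exact (h2 p hp h).trans (by linarith)
  refine (Finset.sum_le_sum h4).trans ?_
  rw [Finset.sum_add_distrib, Finset.sum_const, nsmul_eq_mul, ← Finset.sum_filter,
    Finset.sum_const, nsmul_eq_mul]
  nlinarith

/-! ### the spectral iteration -/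

def zh {κ : Type*} (U : Finset κ) (be t : κ → ℝ) (m : ℤ) : ℝ :=
  1 / 2 + (∑ u ∈ U, t u * Real.cos (2 * Real.pi * (m * be u))) / (2 * U.card)

def Gr {κ π : Type*} (U : Finset κ) (be t : κ → ℝ) (P : Finset π) (w : π → ℂ) (fr : π → ℤ)
    (n : ℕ) (τ : ℝ) : ℂ :=
  ∑ p ∈ P, w p * (zh U be t (fr p) : ℂ) ^ n * ee (fr p * τ)

lemma two_cos (x : ℝ) : (2 * Real.cos (2 * Real.pi * x) : ℂ) = ee x + ee (-x) := by
  rw [ee_neg, Complex.add_conj, ee_re]
  push_cast
  ring

lemma Gr_succ {κ π : Type*} (U : Finset κ) (hU : U.Nonempty) (be t : κ → ℝ) (P : Finset π)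
    (w : π → ℂ) (fr : π → ℤ) (n : ℕ) (τ : ℝ) :
    Gr U be t P w fr (n + 1) τ = Gr U be t P w fr n τ / 2 +
      (∑ u ∈ U, (t u : ℂ) * (Gr U be t P w fr n (τ + be u) + Gr U be t P w fr n (τ - be u))) /
        (4 * U.card) := by
  have hU' : (U.card : ℂ) ≠ 0 := by
    exact_mod_cast (Finset.card_pos.mpr hU).ne'
  unfold Gr
  have h1 : ∀ u ∈ U, (t u : ℂ) * ((∑ p ∈ P, w p * (zh U be t (fr p) : ℂ) ^ n *
      ee (fr p * (τ + be u))) + ∑ p ∈ P, w p * (zh U be t (fr p) : ℂ) ^ n *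
      ee (fr p * (τ - be u))) = ∑ p ∈ P, w p * (zh U be t (fr p) : ℂ) ^ n * ee (fr p * τ) *
        ((t u : ℂ) * (2 * Real.cos (2 * Real.pi * (fr p * be u)))) := by
    intro u _
    rw [← Finset.sum_add_distrib, Finset.mul_sum]
    apply Finset.sum_congr rfl
    intro p _
    have := two_cos (fr p * be u)
    rw [this, mul_add (fr p : ℝ), mul_sub (fr p : ℝ), sub_eq_add_neg, ee_add, ee_add]
    ring
  rw [Finset.sum_congr rfl h1, Finset.sum_comm, Finset.sum_div, Finset.sum_div,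
    ← Finset.sum_add_distrib]
  apply Finset.sum_congr rfl
  intro p _
  rw [← Finset.mul_sum, pow_succ]
  have h2 : (zh U be t (fr p) : ℂ) = 1 / 2 +
      (∑ u ∈ U, (t u : ℂ) * (2 * Real.cos (2 * Real.pi * (fr p * be u)))) / (4 * U.card) := by
    unfold zh
    push_cast
    congr 1
    rw [show (∑ u ∈ U, (t u : ℂ) * (2 * Complex.cos (2 * Real.pi * (fr p * be u)))) =
      2 * ∑ u ∈ U, (t u : ℂ) * Complex.cos (2 * Real.pi * (fr p * be u)) by
        rw [Finset.mul_sum]
        apply Finset.sum_congr rfl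
        intro u _
        ring]
    field_simp
    ring
  generalize (zh U be t (fr p) : ℂ) ^ n = zn
  rw [h2]
  ring

lemma Gr_step {κ π : Type*} (U : Finset κ) (hU : U.Nonempty) (be t : κ → ℝ)
    (ht : ∀ u, t u = 1 ∨ t u = -1) (P : Finset π)
    (w : π → ℂ) (fr : π → ℤ) (δ : ℝ)
    (h : ∀ τ, ‖Gr U be t P w fr 1 τ - Gr U be t P w fr 0 τ‖ ≤ δ) (n : ℕ) :
    ∀ τ, ‖Gr U be t P w fr (n + 1) τ - Gr U be t P w fr n τ‖ ≤ δ := by
  induction n with
  | zero => simpa using h
  | succ n ih =>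
    intro τ
    have hU' : (0 : ℝ) < U.card := by
      exact_mod_cast (Finset.card_pos.mpr hU)
    rw [Gr_succ U hU be t P w fr (n + 1) τ]
    have h0 := Gr_succ U hU be t P w fr n τ
    have h1 : Gr U be t P w fr (n + 1) τ / 2 + (∑ u ∈ U, (t u : ℂ) *
        (Gr U be t P w fr (n + 1) (τ + be u) + Gr U be t P w fr (n + 1) (τ - be u))) /
        (4 * U.card) - Gr U be t P w fr (n + 1) τ =
        (Gr U be t P w fr (n + 1) τ - Gr U be t P w fr n τ) / 2 + (∑ u ∈ U, (t u : ℂ) *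
        ((Gr U be t P w fr (n + 1) (τ + be u) - Gr U be t P w fr n (τ + be u)) +
        (Gr U be t P w fr (n + 1) (τ - be u) - Gr U be t P w fr n (τ - be u)))) /
        (4 * U.card) := by
      have h2 : (∑ u ∈ U, (t u : ℂ) *
        ((Gr U be t P w fr (n + 1) (τ + be u) - Gr U be t P w fr n (τ + be u)) +
        (Gr U be t P w fr (n + 1) (τ - be u) - Gr U be t P w fr n (τ - be u)))) =
        (∑ u ∈ U, (t u : ℂ) *
        (Gr U be t P w fr (n + 1) (τ + be u) + Gr U be t P w fr (n + 1) (τ - be u))) -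
        (∑ u ∈ U, (t u : ℂ) *
        (Gr U be t P w fr n (τ + be u) + Gr U be t P w fr n (τ - be u))) := by
        rw [← Finset.sum_sub_distrib]
        apply Finset.sum_congr rfl
        intro u _
        ring
      rw [h2, sub_div]
      conv_lhs => rw [sub_eq_add_neg]
      conv_lhs =>
        arg 2
        rw [h0]
      ring
    rw [h1]
    have h2 : ‖∑ u ∈ U, (t u : ℂ) *
        ((Gr U be t P w fr (n + 1) (τ + be u) - Gr U be t P w fr n (τ + be u)) +
        (Gr U be t P w fr (n + 1) (τ - be u) - Gr U be t P w fr n (τ - be u)))‖ ≤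
        U.card * (2 * δ) := by
      refine (norm_sum_le _ _).trans ?_
      rw [← nsmul_eq_mul]
      apply Finset.sum_le_card_nsmul
      intro u _
      rw [_root_.norm_mul]
      have h3 : ‖(t u : ℂ)‖ = 1 := by
        rw [Complex.norm_real]
        rcases ht u with h | h <;> rw [h] <;> simp
      rw [h3, one_mul]
      refine (norm_add_le _ _).trans ?_
      have := ih (τ + be u)
      have := ih (τ - be u)
      linarith
    refine (norm_add_le _ _).trans ?_
    rw [norm_div, norm_div]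
    have h3 : ‖(2 : ℂ)‖ = 2 := by simp
    have h4 : ‖(4 * U.card : ℂ)‖ = 4 * U.card := by
      rw [_root_.norm_mul, Complex.norm_natCast]; simp
    rw [h3, h4]
    have h5 := ih τ
    have h6 : ‖∑ u ∈ U, (t u : ℂ) *
        ((Gr U be t P w fr (n + 1) (τ + be u) - Gr U be t P w fr n (τ + be u)) +
        (Gr U be t P w fr (n + 1) (τ - be u) - Gr U be t P w fr n (τ - be u)))‖ /
        (4 * U.card) ≤ δ / 2 := by
      rw [div_le_iff₀ (by positivity)]
      linarith only [h2]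
    linarith only [h5, h6]

lemma Gr_total {κ π : Type*} (U : Finset κ) (hU : U.Nonempty) (be t : κ → ℝ)
    (ht : ∀ u, t u = 1 ∨ t u = -1) (P : Finset π)
    (w : π → ℂ) (fr : π → ℤ) (δ : ℝ)
    (h : ∀ τ, ‖Gr U be t P w fr 1 τ - Gr U be t P w fr 0 τ‖ ≤ δ) (n : ℕ) (τ : ℝ) :
    ‖Gr U be t P w fr n τ - Gr U be t P w fr 0 τ‖ ≤ n * δ := by
  induction n with
  | zero => simp
  | succ n ih =>
    have h1 := Gr_step U hU be t ht P w fr δ h n τ
    have h2 := norm_add_le (Gr U be t P w fr (n + 1) τ - Gr U be t P w fr n τ)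
      (Gr U be t P w fr n τ - Gr U be t P w fr 0 τ)
    rw [sub_add_sub_cancel] at h2
    push_cast
    linarith

/-! ### bounds for the multiplier -/

lemma zh_eq {κ : Type*} (U : Finset κ) (hU : U.Nonempty) (be t : κ → ℝ) (m : ℤ) :
    ∑ u ∈ U, (1 - t u * Real.cos (2 * Real.pi * (m * be u))) =
      2 * U.card * (1 - zh U be t m) := by
  have hU0 : (U.card : ℝ) ≠ 0 := by exact_mod_cast (Finset.card_pos.mpr hU).ne'
  rw [Finset.sum_sub_distrib, Finset.sum_const, nsmul_eq_mul, mul_one]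
  unfold zh
  field_simp
  ring

lemma tcos_le {t x : ℝ} (ht : t = 1 ∨ t = -1) : |t * Real.cos x| ≤ 1 := by
  have h1 := Real.abs_cos_le_one x
  rcases ht with h | h <;> rw [h, abs_mul] <;> simpa using h1

lemma zh_le_one {κ : Type*} (U : Finset κ) (hU : U.Nonempty) (be t : κ → ℝ)
    (ht : ∀ u, t u = 1 ∨ t u = -1) (m : ℤ) : zh U be t m ≤ 1 := by
  have hU0 : (0 : ℝ) < U.card := by exact_mod_cast (Finset.card_pos.mpr hU)
  have h1 : 0 ≤ ∑ u ∈ U, (1 - t u * Real.cos (2 * Real.pi * (m * be u))) := by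
    apply Finset.sum_nonneg
    intro u _
    have := (abs_le.mp (tcos_le (x := 2 * Real.pi * (m * be u)) (ht u))).2
    linarith
  rw [zh_eq U hU] at h1
  by_contra h
  push Not at h
  have := mul_neg_of_pos_of_neg (show (0 : ℝ) < 2 * U.card by positivity)
    (show 1 - zh U be t m < 0 by linarith)
  linarith

lemma zh_nonneg {κ : Type*} (U : Finset κ) (hU : U.Nonempty) (be t : κ → ℝ)
    (ht : ∀ u, t u = 1 ∨ t u = -1) (m : ℤ) : 0 ≤ zh U be t m := by
  have hU0 : (0 : ℝ) < U.card := by exact_mod_cast (Finset.card_pos.mpr hU)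
  unfold zh
  have h1 : -(U.card : ℝ) ≤ ∑ u ∈ U, t u * Real.cos (2 * Real.pi * (m * be u)) := by
    have h2 : ∑ u ∈ U, (-1 : ℝ) ≤ ∑ u ∈ U, t u * Real.cos (2 * Real.pi * (m * be u)) := by
      apply Finset.sum_le_sum
      intro u _
      exact (abs_le.mp (tcos_le (x := 2 * Real.pi * (m * be u)) (ht u))).1
    simpa using h2
  have h2 : -(1 / 2) ≤ (∑ u ∈ U, t u * Real.cos (2 * Real.pi * (m * be u))) /
      (2 * U.card) := by
    rw [le_div_iff₀ (by positivity)]
    linarith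
  linarith

lemma dist_ee (x t : ℝ) (ht : t = 1 ∨ t = -1)
    (h : 1 - t * Real.cos (2 * Real.pi * x) ≤ 1 / 512) : ‖ee x - t‖ ≤ 1 / 16 := by
  have h1 : ‖ee x - t‖ ^ 2 = 2 * (1 - t * Real.cos (2 * Real.pi * x)) := by
    rw [Complex.sq_norm, Complex.normSq_apply, Complex.sub_re, Complex.sub_im,
      Complex.ofReal_re, Complex.ofReal_im, ee_re, ee_im]
    have h2 := Real.sin_sq_add_cos_sq (2 * Real.pi * x)
    rcases ht with h | h <;> rw [h] <;> linarith only [h2]
  have h2 : ‖ee x - t‖ ^ 2 ≤ (1 / 16) ^ 2 := by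
    rw [h1]
    norm_num
    linarith
  exact le_of_sq_le_sq h2 (by norm_num)

lemma near_of_large {κ : Type*} (U : Finset κ) (hU : U.Nonempty) (be t : κ → ℝ)
    (ht : ∀ u, t u = 1 ∨ t u = -1) (T r : ℕ) (hT : 100 ≤ T)
    (hr : 2048 * (U.card : ℝ) * Real.log T ≤ r) (m : ℤ)
    (hm : ((T : ℝ) ^ 2)⁻¹ ≤ zh U be t m ^ r) (u : κ) (hu : u ∈ U) :
    ‖ee (m * be u) - t u‖ ≤ 1 / 16 := by
  have hTR : (0 : ℝ) < T := by exact_mod_cast (by omega : 0 < T)
  have hlog : 0 < Real.log T := Real.log_pos (by exact_mod_cast (by omega : 1 < T))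
  have hU0 : (0 : ℝ) < U.card := by exact_mod_cast (Finset.card_pos.mpr hU)
  have hr0 : (0 : ℝ) < r := lt_of_lt_of_le (by positivity) hr
  have hr1 : r ≠ 0 := by
    rintro rfl
    simp at hr0
  have hz0 := zh_nonneg U hU be t ht m
  have hzpos : 0 < zh U be t m := by
    rcases hz0.lt_or_eq with h | h
    · exact h
    · rw [← h, zero_pow hr1] at hm
      have : (0 : ℝ) < ((T : ℝ) ^ 2)⁻¹ := by positivity
      linarith
  have h1 := Real.log_le_log (by positivity) hm
  rw [Real.log_inv, Real.log_pow, Real.log_pow] at h1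
  have h2 := Real.log_le_sub_one_of_pos hzpos
  push_cast at h1
  have h3 : r * (1 - zh U be t m) ≤ 2 * Real.log T := by
    have := mul_le_mul_of_nonneg_left h2 hr0.le
    linarith only [h1, this]
  have h4 : (2048 * (U.card : ℝ) * Real.log T) * (1 - zh U be t m) ≤ 2 * Real.log T := by
    refine le_trans (mul_le_mul_of_nonneg_right hr ?_) h3
    have := zh_le_one U hU be t ht m
    linarith
  have h5 : 2 * (U.card : ℝ) * (1 - zh U be t m) ≤ 1 / 512 := by
    by_contra h
    push Not at h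
    have := mul_lt_mul_of_pos_left h (show 0 < 1024 * Real.log T by positivity)
    linarith only [h4, this]
  rw [← zh_eq U hU] at h5
  apply dist_ee _ _ (ht u)
  refine le_trans ?_ h5
  exact Finset.single_le_sum (f := fun u => 1 - t u * Real.cos (2 * Real.pi * (m * be u)))
    (fun u _ => by
      have := (abs_le.mp (tcos_le (x := 2 * Real.pi * (m * be u)) (ht u))).2
      linarith) hu

/-- number of pairs with a given frequency -/
lemma fiber_card (T : ℕ) (m : ℤ) :
    ((Finset.range T ×ˢ Finset.range T).filter (fun p => fq p = m)).card ≤ T := by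
  have h : ((Finset.range T ×ˢ Finset.range T).filter (fun p => fq p = m)).card ≤
      (Finset.range T).card := by
    apply Finset.card_le_card_of_injOn (fun p => p.1)
    · intro p hp
      rw [Finset.mem_coe, Finset.mem_filter, Finset.mem_product] at hp
      exact hp.1.1
    · intro p hp q hq hpq
      rw [Finset.mem_coe, Finset.mem_filter] at hp hq
      have h1 := hp.2
      have h2 := hq.2
      simp only at hpq
      simp only [fq] at h1 h2
      apply Prod.ext hpq
      omega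
  simpa using h

lemma sum_fq_le (T : ℕ) (φ : ℤ → ℝ) (hφ : ∀ m, 0 ≤ φ m) :
    ∑ p ∈ Finset.range T ×ˢ Finset.range T, φ (fq p) ≤
      T * ∑ m ∈ Finset.Ioo (-(T : ℤ)) T, φ m := by
  have hmaps : ∀ p ∈ Finset.range T ×ˢ Finset.range T, fq p ∈ Finset.Ioo (-(T : ℤ)) T := by
    intro p hp
    rw [Finset.mem_product, Finset.mem_range, Finset.mem_range] at hp
    rw [Finset.mem_Ioo]
    simp only [fq]
    omega
  rw [← Finset.sum_fiberwise_of_maps_to hmaps, Finset.mul_sum]
  apply Finset.sum_le_sum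
  intro m _
  have h1 : ∀ p ∈ (Finset.range T ×ˢ Finset.range T).filter (fun p => fq p = m),
      φ (fq p) = φ m := by
    intro p hp
    rw [(Finset.mem_filter.mp hp).2]
  rw [Finset.sum_congr rfl h1, Finset.sum_const, nsmul_eq_mul]
  apply mul_le_mul_of_nonneg_right _ (hφ m)
  exact_mod_cast fiber_card T m

end FourierCore

open FourierCore in
open Classical in
theorem fourier_core {ι κ : Type*} (Zs : Finset ι) (hZ : Zs.Nonempty) (a : ι → ℝ) (s : ι → ℝ)
    (hs : ∀ i, s i = 1 ∨ s i = -1) (U : Finset κ) (be : κ → ℝ) (t : κ → ℝ)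
    (ht : ∀ u, t u = 1 ∨ t u = -1) (u0 : κ) (hu0 : u0 ∈ U) (htu0 : t u0 = -1)
    (sg : ℝ → ℝ) (hsg : ∀ x, sg x = 1 ∨ sg x = -1) (hper : ∀ x, sg (x + 1) = sg x)
    (Safe : ℝ → Prop) (T r : ℕ) (η b : ℝ) (hη : 0 < η) (hb : 0 ≤ b) (hT : 100 ≤ T)
    (H1 : ∀ x, Safe x → ∀ x', |x' - x| ≤ η → sg x' = sg x)
    (H2 : ∀ x, ∀ u ∈ U, Safe x → Safe (x + be u) → sg (x + be u) = t u * sg x)
    (H3 : ∀ i ∈ Zs, ∀ j ∈ Zs, Safe (a i + a j) → sg (a i + a j) = s i * s j)
    (H4 : ∀ τ : ℝ, (((Zs ×ˢ Zs).filter (fun p => ¬ Safe (a p.1 + a p.2 + τ))).card : ℝ) ≤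
      b * (Zs.card : ℝ) ^ 2)
    (H5 : ∀ M : Finset ℤ, (∀ m ∈ M, |m| < T) →
      (∀ m ∈ M, ∀ u ∈ U, ‖ee (m * be u) - t u‖ ≤ 1 / 16) →
      ∑ m ∈ M, ‖(∑ i ∈ Zs, (s i : ℂ) * ee (m * a i)) / (Zs.card : ℂ)‖ ^ 2 ≤ 13 / 10)
    (hr : 2048 * (U.card : ℝ) * Real.log T ≤ r)
    (hsmall : (r : ℝ) * (b + 1 / (T * η ^ 2)) ≤ 1 / 100) : False := by
  have hT0 : 0 < T := by omega
  have hTR : (0 : ℝ) < T := by exact_mod_cast hT0
  have hT100 : (100 : ℝ) ≤ T := by exact_mod_cast hT
  have hTC : (T : ℂ) ≠ 0 := by exact_mod_cast hT0.ne'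
  have hTN : T ≤ 2 * T := by omega
  have hZ0 : (0 : ℝ) < Zs.card := by exact_mod_cast Finset.card_pos.mpr hZ
  have hZC : (Zs.card : ℂ) ≠ 0 := by exact_mod_cast (Finset.card_pos.mpr hZ).ne'
  have hU : U.Nonempty := ⟨u0, hu0⟩
  have hU0 : (0 : ℝ) < U.card := by exact_mod_cast Finset.card_pos.mpr hU
  set E : ℝ := 1 / (2 * T * η ^ 2) with hE
  have hE0 : 0 ≤ E := by positivity
  have hE2 : 1 / (T * η ^ 2) = 2 * E := by rw [hE]; field_simp
  set f : ℕ → ℝ := fun j => sg (j / (2 * T : ℕ)) with hf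
  set Ks : ℝ → ℝ := S T (2 * T) f with hKsdef
  have hsgabs : ∀ x, |sg x| = 1 := by
    intro x
    rcases hsg x with h | h <;> rw [h] <;> simp
  have hsabs : ∀ i, |s i| = 1 := by
    intro x
    rcases hs x with h | h <;> rw [h] <;> simp
  have htabs : ∀ i, |t i| = 1 := by
    intro x
    rcases ht x with h | h <;> rw [h] <;> simp
  have hKb : ∀ x, |Ks x| ≤ 1 := fun x =>
    S_abs_le T (2 * T) hT0 hTN f x 1 (fun j => (hsgabs _).le)
  have hKc : ∀ x, Safe x → |Ks x - sg x| ≤ E := fun x hx =>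
    S_close T (2 * T) hT0 hTN sg hsg hper η x hη (H1 x hx)
  set G : ℝ → ℝ := fun τ =>
    (∑ p ∈ Zs ×ˢ Zs, s p.1 * s p.2 * Ks (a p.1 + a p.2 + τ)) / (Zs.card : ℝ) ^ 2 with hG
  have hcard : ((Zs ×ˢ Zs).card : ℝ) = (Zs.card : ℝ) ^ 2 := by
    rw [Finset.card_product]; push_cast; ring
  -- (i)
  have hG0 : 1 - (2 * b + E) ≤ G 0 := by
    have h := bad (Zs ×ˢ Zs) (fun p => s p.1 * s p.2 * Ks (a p.1 + a p.2 + 0) - 1)
      (fun p => ¬ Safe (a p.1 + a p.2 + 0)) 2 E (b * (Zs.card : ℝ) ^ 2) (by norm_num) hE0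
      (by
        intro p _ _
        refine (abs_sub _ _).trans ?_
        rw [abs_mul, abs_mul, hsabs, hsabs, abs_one, one_mul, one_mul]
        linarith only [hKb (a p.1 + a p.2 + 0)])
      (by
        intro p hp hsafe
        simp only [not_not] at hsafe
        rw [Finset.mem_product] at hp
        have h1 := hKc _ hsafe
        rw [add_zero] at hsafe h1 ⊢
        rw [H3 _ hp.1 _ hp.2 hsafe] at h1
        have h2 : s p.1 * s p.2 * Ks (a p.1 + a p.2) - 1 =
            s p.1 * s p.2 * (Ks (a p.1 + a p.2) - s p.1 * s p.2) := by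
          have h3 : s p.1 * s p.1 = 1 := by
            rcases hs p.1 with h | h <;> rw [h] <;> norm_num
          have h4 : s p.2 * s p.2 = 1 := by
            rcases hs p.2 with h | h <;> rw [h] <;> norm_num
          have : s p.1 * s p.2 * (Ks (a p.1 + a p.2) - s p.1 * s p.2) =
            s p.1 * s p.2 * Ks (a p.1 + a p.2) - (s p.1 * s p.1) * (s p.2 * s p.2) := by ring
          rw [this, h3, h4, one_mul]
        rw [h2, abs_mul, abs_mul, hsabs, hsabs, one_mul, one_mul]
        exact h1)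
      (H4 0)
    rw [Finset.sum_sub_distrib, Finset.sum_const, nsmul_eq_mul, mul_one, hcard] at h
    have h1 := (abs_le.mp h).1
    rw [hG]
    simp only
    rw [le_div_iff₀ (by positivity)]
    linarith only [h1]
  -- (ii)
  have hG1 : ∀ τ, ∀ u ∈ U, |G (τ + be u) - t u * G τ| ≤ 4 * b + 2 * E := by
    intro τ u hu
    have h := bad (Zs ×ˢ Zs) (fun p => s p.1 * s p.2 * (Ks (a p.1 + a p.2 + (τ + be u)) -
        t u * Ks (a p.1 + a p.2 + τ)))
      (fun p => ¬ Safe (a p.1 + a p.2 + τ) ∨ ¬ Safe (a p.1 + a p.2 + (τ + be u)))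
      2 (2 * E) (2 * (b * (Zs.card : ℝ) ^ 2)) (by norm_num) (by positivity)
      (by
        intro p _ _
        rw [abs_mul, abs_mul, hsabs, hsabs, one_mul, one_mul]
        refine (abs_sub _ _).trans ?_
        rw [abs_mul, htabs, one_mul]
        linarith [hKb (a p.1 + a p.2 + (τ + be u)), hKb (a p.1 + a p.2 + τ)])
      (by
        intro p hp hsafe
        simp only [not_or, not_not] at hsafe
        rw [abs_mul, abs_mul, hsabs, hsabs, one_mul, one_mul]
        have h1 := hKc _ hsafe.1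
        have h2 := hKc _ hsafe.2
        have h3 : a p.1 + a p.2 + (τ + be u) = (a p.1 + a p.2 + τ) + be u := by ring
        have h4 := H2 _ u hu hsafe.1 (by rw [← h3]; exact hsafe.2)
        rw [← h3] at h4
        have h5 : Ks (a p.1 + a p.2 + (τ + be u)) - t u * Ks (a p.1 + a p.2 + τ) =
          (Ks (a p.1 + a p.2 + (τ + be u)) - sg (a p.1 + a p.2 + (τ + be u))) -
            t u * (Ks (a p.1 + a p.2 + τ) - sg (a p.1 + a p.2 + τ)) := by
          rw [h4]; ring
        rw [h5]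
        refine (abs_sub _ _).trans ?_
        rw [abs_mul, htabs, one_mul]
        linarith)
      (by
        rw [Finset.filter_or]
        have h1 := Finset.card_union_le
          ((Zs ×ˢ Zs).filter (fun p => ¬ Safe (a p.1 + a p.2 + τ)))
          ((Zs ×ˢ Zs).filter (fun p => ¬ Safe (a p.1 + a p.2 + (τ + be u))))
        have h2 := H4 τ
        have h3 := H4 (τ + be u)
        have h4 : ((((Zs ×ˢ Zs).filter (fun p => ¬ Safe (a p.1 + a p.2 + τ))) ∪
          ((Zs ×ˢ Zs).filter (fun p => ¬ Safe (a p.1 + a p.2 + (τ + be u))))).card : ℝ) ≤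
          (((Zs ×ˢ Zs).filter (fun p => ¬ Safe (a p.1 + a p.2 + τ))).card : ℝ) +
          (((Zs ×ˢ Zs).filter (fun p => ¬ Safe (a p.1 + a p.2 + (τ + be u)))).card : ℝ) := by
          exact_mod_cast h1
        linarith)
    have h1 : G (τ + be u) - t u * G τ = (∑ p ∈ Zs ×ˢ Zs, s p.1 * s p.2 *
        (Ks (a p.1 + a p.2 + (τ + be u)) - t u * Ks (a p.1 + a p.2 + τ))) /
        (Zs.card : ℝ) ^ 2 := by
      rw [hG]
      simp only
      rw [mul_div_assoc', ← sub_div, Finset.mul_sum, ← Finset.sum_sub_distrib]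
      congr 1
      apply Finset.sum_congr rfl
      intro p _
      ring
    rw [h1, abs_div, abs_of_pos (show (0 : ℝ) < (Zs.card : ℝ) ^ 2 by positivity),
      div_le_iff₀ (by positivity)]
    rw [hcard] at h
    linarith
  -- expansion
  set P := Finset.range T ×ˢ Finset.range T with hP
  set Zh : ℤ → ℂ := fun m => (∑ i ∈ Zs, (s i : ℂ) * ee (m * a i)) / (Zs.card : ℂ) with hZh
  set w : ℕ × ℕ → ℂ := fun p => C (2 * T) f (fq p) * Zh (fq p) ^ 2 / T with hw
  have hGexp : ∀ τ, (G τ : ℂ) = Gr U be t P w fq 0 τ := by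
    intro τ
    have h1 : (G τ : ℂ) = (∑ p ∈ Zs ×ˢ Zs, (s p.1 : ℂ) * s p.2 *
        ((∑ q ∈ P, C (2 * T) f (fq q) * ee (fq q * (a p.1 + a p.2 + τ))) / T)) /
        (Zs.card : ℂ) ^ 2 := by
      rw [hG]
      simp only
      push_cast
      congr 1
      apply Finset.sum_congr rfl
      intro p _
      rw [hKsdef, S_eq]
    rw [h1]
    unfold Gr
    simp_rw [Finset.sum_div, Finset.mul_sum, Finset.sum_div]
    rw [Finset.sum_comm]
    apply Finset.sum_congr rfl
    intro q _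
    rw [hw, hZh]
    simp only [pow_zero, mul_one]
    rw [div_pow, sq (∑ i ∈ Zs, (s i : ℂ) * ee (fq q * a i)), Finset.sum_mul_sum,
      ← Finset.sum_product']
    rw [mul_div_assoc', Finset.mul_sum, Finset.sum_div, Finset.sum_div, Finset.sum_mul]
    apply Finset.sum_congr rfl
    intro p _
    rw [mul_add (fq q : ℝ), mul_add (fq q : ℝ), ee_add, ee_add]
    ring
  -- (iii)
  have hstep : ∀ τ, ‖Gr U be t P w fq 1 τ - Gr U be t P w fq 0 τ‖ ≤ 2 * b + E := by
    intro τ
    rw [Gr_succ U hU be t P w fq 0 τ]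
    simp_rw [← hGexp]
    have h1 : (G τ : ℂ) / 2 + (∑ u ∈ U, (t u : ℂ) * ((G (τ + be u) : ℂ) + (G (τ - be u) : ℂ))) /
        (4 * U.card) - (G τ : ℂ) = (((∑ u ∈ U, ((G (τ + be u) - t u * G τ) * t u +
          -((G (τ - be u + be u) - t u * G (τ - be u))))) / (4 * U.card) : ℝ) : ℂ) := by
      have hUC : (U.card : ℝ) ≠ 0 := by exact_mod_cast (Finset.card_pos.mpr hU).ne'
      have h2 : ∀ u ∈ U, (G (τ + be u) - t u * G τ) * t u +
          -((G (τ - be u + be u) - t u * G (τ - be u))) =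
          t u * (G (τ + be u) + G (τ - be u)) - 2 * G τ := by
        intro u _
        rw [sub_add_cancel]
        have h3 : t u * t u = 1 := by
          rcases ht u with h | h <;> rw [h] <;> norm_num
        linear_combination (-G τ) * h3
      rw [Finset.sum_congr rfl h2, Finset.sum_sub_distrib, Finset.sum_const, nsmul_eq_mul]
      have h3 : (G τ) / 2 + (∑ u ∈ U, (t u) * ((G (τ + be u)) + (G (τ - be u)))) /
        (4 * U.card) - (G τ) = (∑ u ∈ U, (t u) * ((G (τ + be u)) + (G (τ - be u))) -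
          U.card * (2 * G τ)) / (4 * U.card) := by
        field_simp
        ring
      rw [← h3]
      push_cast
      ring
    rw [h1, Complex.norm_real, Real.norm_eq_abs, abs_div,
      abs_of_pos (show (0 : ℝ) < 4 * U.card by positivity), div_le_iff₀ (by positivity)]
    refine (Finset.abs_sum_le_sum_abs _ _).trans ?_
    have h2 : ∀ u ∈ U, |(G (τ + be u) - t u * G τ) * t u +
          -((G (τ - be u + be u) - t u * G (τ - be u)))| ≤ 2 * (4 * b + 2 * E) := by
      intro u hu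
      refine (abs_add_le _ _).trans ?_
      rw [abs_mul, htabs, mul_one, abs_neg]
      have := hG1 τ u hu
      have := hG1 (τ - be u) u hu
      linarith
    refine (Finset.sum_le_sum h2).trans ?_
    rw [Finset.sum_const, nsmul_eq_mul]
    linarith only []
  -- (iv)
  have hlog : 0 < Real.log T := Real.log_pos (by linarith)
  have hr0 : (0 : ℝ) < r := lt_of_lt_of_le (by positivity) hr
  have hr1 : (1 : ℝ) ≤ r := by
    have : 0 < r := by exact_mod_cast hr0
    exact_mod_cast this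
  have hlow : 96 / 100 ≤ ‖Gr U be t P w fq r 0‖ := by
    have h1 := Gr_total U hU be t ht P w fq (2 * b + E) hstep r 0
    have h2 : ‖Gr U be t P w fq 0 0‖ ≤ ‖Gr U be t P w fq r 0‖ +
        ‖Gr U be t P w fq r 0 - Gr U be t P w fq 0 0‖ := by
      have := norm_sub_le (Gr U be t P w fq r 0)
        (Gr U be t P w fq r 0 - Gr U be t P w fq 0 0)
      rwa [sub_sub_cancel] at this
    rw [← hGexp, Complex.norm_real, Real.norm_eq_abs] at h2
    have h3 := le_abs_self (G 0)
    rw [hE2] at hsmall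
    have h4 : (r : ℝ) * (2 * b + E) ≤ 1 / 50 := by nlinarith only [hsmall, hE0]
    have h5 : 2 * b + E ≤ r * (2 * b + E) := by
      have : 0 ≤ 2 * b + E := by linarith only [hb, hE0]
      nlinarith only [hr1, this]
    rw [hGexp] at h2
    linarith only [hG0, h1, h2, h3, h4, h5]
  -- (v)
  have hC1 : ∀ m, ‖C (2 * T) f m‖ ≤ 1 := fun m =>
    C_norm_le_one (2 * T) (by omega) f (fun j => (hsgabs _).le) m
  have hZh1 : ∀ m, ‖Zh m‖ ≤ 1 := by
    intro m
    rw [hZh]
    simp only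
    rw [norm_div, Complex.norm_natCast, div_le_one hZ0]
    refine (norm_sum_le _ _).trans ?_
    have : ∀ i ∈ Zs, ‖(s i : ℂ) * ee (m * a i)‖ ≤ 1 := by
      intro i _
      rw [_root_.norm_mul, norm_ee, mul_one, Complex.norm_real, Real.norm_eq_abs, hsabs]
    refine (Finset.sum_le_sum this).trans ?_
    simp
  set φ : ℤ → ℝ := fun m => ‖C (2 * T) f m‖ * ‖Zh m‖ ^ 2 * zh U be t m ^ r with hφ
  have hφ0 : ∀ m, 0 ≤ φ m := by
    intro m
    rw [hφ]
    simp only
    have := zh_nonneg U hU be t ht m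
    positivity
  have hup : ‖Gr U be t P w fq r 0‖ ≤ ∑ m ∈ Finset.Ioo (-(T : ℤ)) T, φ m := by
    have h1 : ‖Gr U be t P w fq r 0‖ ≤ ∑ p ∈ P, φ (fq p) / T := by
      unfold Gr
      refine (norm_sum_le _ _).trans ?_
      apply Finset.sum_le_sum
      intro p _
      rw [_root_.norm_mul, _root_.norm_mul, norm_ee, mul_one, hw, hφ]
      simp only
      rw [norm_div, _root_.norm_mul, norm_pow, norm_pow, Complex.norm_natCast,
        Complex.norm_real, Real.norm_eq_abs, abs_of_nonneg (zh_nonneg U hU be t ht _)]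
      rw [div_mul_eq_mul_div]
    rw [← Finset.sum_div] at h1
    refine h1.trans ?_
    rw [div_le_iff₀ hTR, mul_comm]
    exact sum_fq_le T φ hφ0
  set M := (Finset.Ioo (-(T : ℤ)) T).filter (fun m => ((T : ℝ) ^ 2)⁻¹ ≤ zh U be t m ^ r) with hM
  have hnear : ∀ m ∈ M, ∀ u ∈ U, ‖ee (m * be u) - t u‖ ≤ 1 / 16 := by
    intro m hm u hu
    exact near_of_large U hU be t ht T r hT hr m (Finset.mem_filter.mp hm).2 u hu
  have hMT : ∀ m ∈ M, |m| < T := by
    intro m hm
    have := Finset.mem_Ioo.mp (Finset.mem_filter.mp hm).1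
    rw [abs_lt]
    omega
  have hH5 := H5 M hMT hnear
  have hM1 : ∑ m ∈ M, φ m ≤ 7072 / 10000 * (13 / 10) := by
    have h1 : ∀ m ∈ M, φ m ≤ 7072 / 10000 * ‖Zh m‖ ^ 2 := by
      intro m hm
      have hm0 : m ≠ 0 := by
        rintro rfl
        have := hnear 0 hm u0 hu0
        rw [htu0] at this
        simp only [Int.cast_zero, zero_mul, ee_zero, Complex.ofReal_neg, Complex.ofReal_one] at this
        norm_num at this
      have h2 : ‖C (2 * T) f m‖ ^ 2 ≤ 1 / 2 := by
        apply C_sq_le (2 * T) (by omega) f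
        · intro j
          rw [← sq_abs, hf]
          simp only
          rw [hsgabs, one_pow]
        · intro hd
          have h3 : (T : ℤ) ∣ m := by
            have h4 : ((2 * T : ℕ) : ℤ) = 2 * (T : ℤ) := by push_cast; ring
            rw [h4] at hd
            exact (mul_dvd_mul_iff_left (by norm_num : (2 : ℤ) ≠ 0)).mp hd
          have h4 := Int.le_of_dvd (abs_pos.mpr hm0) ((dvd_abs _ _).mpr h3)
          have := hMT m hm
          omega
      have h3 : ‖C (2 * T) f m‖ ≤ 7072 / 10000 := by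
        apply le_of_sq_le_sq _ (by norm_num)
        refine h2.trans ?_
        norm_num
      have h4 := zh_nonneg U hU be t ht m
      have h5 : zh U be t m ^ r ≤ 1 := pow_le_one₀ h4 (zh_le_one U hU be t ht m)
      rw [hφ]
      simp only
      calc ‖C (2 * T) f m‖ * ‖Zh m‖ ^ 2 * zh U be t m ^ r
          ≤ ‖C (2 * T) f m‖ * ‖Zh m‖ ^ 2 * 1 := by
            apply mul_le_mul_of_nonneg_left h5 (by positivity)
        _ ≤ 7072 / 10000 * ‖Zh m‖ ^ 2 := by
            rw [mul_one]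
            apply mul_le_mul_of_nonneg_right h3 (by positivity)
    refine (Finset.sum_le_sum h1).trans ?_
    rw [← Finset.mul_sum]
    apply mul_le_mul_of_nonneg_left hH5 (by norm_num)
  have hM2 : ∑ m ∈ (Finset.Ioo (-(T : ℤ)) T).filter
      (fun m => ¬ ((T : ℝ) ^ 2)⁻¹ ≤ zh U be t m ^ r), φ m ≤ 2 / 100 := by
    have h1 : ∀ m ∈ (Finset.Ioo (-(T : ℤ)) T).filter
      (fun m => ¬ ((T : ℝ) ^ 2)⁻¹ ≤ zh U be t m ^ r), φ m ≤ ((T : ℝ) ^ 2)⁻¹ := by
      intro m hm
      have h2 := (Finset.mem_filter.mp hm).2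
      push Not at h2
      rw [hφ]
      simp only
      have h3 : ‖C (2 * T) f m‖ * ‖Zh m‖ ^ 2 ≤ 1 := by
        have h4 : ‖Zh m‖ ^ 2 ≤ 1 := pow_le_one₀ (norm_nonneg _) (hZh1 m)
        exact mul_le_one₀ (hC1 m) (by positivity) h4
      have h4 := zh_nonneg U hU be t ht m
      have h5 : 0 ≤ zh U be t m ^ r := by positivity
      calc ‖C (2 * T) f m‖ * ‖Zh m‖ ^ 2 * zh U be t m ^ r ≤ 1 * zh U be t m ^ r :=
            mul_le_mul_of_nonneg_right h3 h5
        _ ≤ ((T : ℝ) ^ 2)⁻¹ := by linarith only [h2]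
    refine (Finset.sum_le_sum h1).trans ?_
    rw [Finset.sum_const, nsmul_eq_mul]
    have h2 : ((Finset.Ioo (-(T : ℤ)) T).filter
      (fun m => ¬ ((T : ℝ) ^ 2)⁻¹ ≤ zh U be t m ^ r)).card ≤ 2 * T := by
      refine (Finset.card_filter_le _ _).trans ?_
      rw [Int.card_Ioo]
      omega
    have h3 : (((Finset.Ioo (-(T : ℤ)) T).filter
      (fun m => ¬ ((T : ℝ) ^ 2)⁻¹ ≤ zh U be t m ^ r)).card : ℝ) ≤ 2 * T := by
      exact_mod_cast h2
    calc _ ≤ 2 * (T : ℝ) * ((T : ℝ) ^ 2)⁻¹ := mul_le_mul_of_nonneg_right h3 (by positivity)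
      _ = 2 / T := by field_simp
      _ ≤ 2 / 100 := by
        apply div_le_div_of_nonneg_left _ _ hT100 <;> norm_num
  rw [← Finset.sum_filter_add_sum_filter_not _ (fun m => ((T : ℝ) ^ 2)⁻¹ ≤ zh U be t m ^ r)]
    at hup
  linarith only [hlow, hup, hM1, hM2]

end

end Pool.Agent.Lib.MP_0b748d_nt
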