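import Pool.Agent.Lib.MP_0b748d_nt.Core
import Pool.Agent.Lib.MP_0b748d_nt.Cover

set_option autoImplicit false

/-!
# Definitions for the polylogarithmic version
-/

namespace Pool.Agent.Lib.MP_0b748d_nt

open Zsqrtd

noncomputable section

/-- the additive character `e(x) = exp (2 π i x)` -/
def ee (x : ℝ) : ℂ := Complex.exp (2 * Real.pi * x * Complex.I)

lemma ee_add (x y : ℝ) : ee (x + y) = ee x * ee y := by
  simp only [ee]
  rw [← Complex.exp_add]
  congr 1
  push_cast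
  ring

lemma ee_zero : ee 0 = 1 := by simp [ee]

lemma norm_ee (x : ℝ) : ‖ee x‖ = 1 := by
  simp only [ee]
  have : (2 * Real.pi * x * Complex.I : ℂ) = ((2 * Real.pi * x : ℝ) : ℂ) * Complex.I := by
    push_cast; ring
  rw [this, Complex.norm_exp_ofReal_mul_I]

lemma ee_int (n : ℤ) : ee n = 1 := by
  simp only [ee]
  rw [Complex.exp_eq_one_iff]
  exact ⟨n, by push_cast; ring⟩

lemma ee_neg (x : ℝ) : ee (-x) = (starRingEnd ℂ) (ee x) := by
  simp only [ee]
  rw [← Complex.exp_conj]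
  congr 1
  simp only [map_mul, Complex.conj_ofReal, Complex.conj_I, Complex.ofReal_neg]
  rw [Complex.conj_ofNat]
  ring

lemma ee_re (x : ℝ) : (ee x).re = Real.cos (2 * Real.pi * x) := by
  simp only [ee]
  have : (2 * Real.pi * x * Complex.I : ℂ) = ((2 * Real.pi * x : ℝ) : ℂ) * Complex.I := by
    push_cast; ring
  rw [this, Complex.exp_ofReal_mul_I_re]

lemma ee_im (x : ℝ) : (ee x).im = Real.sin (2 * Real.pi * x) := by
  simp only [ee]
  have : (2 * Real.pi * x * Complex.I : ℂ) = ((2 * Real.pi * x : ℝ) : ℂ) * Complex.I := by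
    push_cast; ring
  rw [this, Complex.exp_ofReal_mul_I_im]

/-- iterated forward differences -/
def dif : ℕ → (ℕ → ℝ) → ℕ → ℝ
  | 0, g, a => g a
  | k + 1, g, a => dif k g (a + 1) - dif k g a

/-- on the points `x, ..., y - 1` the `k`-th differences of `g` lie in `[lam, Lam]` and are
nonincreasing -/
def Reg (k : ℕ) (g : ℕ → ℝ) (lam Lam : ℝ) (x y : ℕ) : Prop :=
  (∀ a, x ≤ a → a + k < y → lam ≤ dif k g a ∧ dif k g a ≤ Lam) ∧
  (∀ a, x ≤ a → a + k + 1 < y → dif k g (a + 1) ≤ dif k g a)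

/-- normalised angle: the unit `3 + 2 √2` has normalised angle `1` -/
def al (z : ℤ√2) : ℝ := th z / th uu

/-- index set of the box -/
def bx (B : ℕ) : Finset (ℕ × ℕ) := Finset.Ico (8 * B) (16 * B) ×ˢ Finset.Ico B (2 * B)

/-- the element `(2 i + 1) + b √2` -/
def zz (p : ℕ × ℕ) : ℤ√2 := ⟨2 * p.1 + 1, p.2⟩

/-- class of vertices: everything (`c = false`) or odd real part (`c = true`) -/
def Q (c : Bool) (z : ℤ√2) : Prop := c = true → z.re % 2 = 1

/-- the parity of the sizes belonging to the class -/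
def par (c : Bool) : ℕ := if c then 1 else 0

/-- the `n ∈ [2, N]` in the parity class with `g (n^2 - 2) = -1` -/
def SC (g : ℕ → ℤ) (c : Bool) (N : ℕ) : Finset ℕ :=
  (Finset.Icc 2 N).filter (fun n => n % 2 = par c ∧ g (n ^ 2 - 2) = -1)

/-- good angles -/
def Gd (g : ℕ → ℤ) (c : Bool) (H Z : ℕ) (η θ : ℝ) : Prop :=
  (∀ v w, TP v → TP w → Q c v → Q c w → nm v ≤ H → nm w ≤ H → |th v - θ| ≤ η →
    |th w - θ| ≤ η → F g v = F g w) ∧
  (∃ z, TP z ∧ Q c z ∧ nm z ≤ Z ∧ |th z - θ| ≤ η / 2)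

end

end Pool.Agent.Lib.MP_0b748d_nt
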