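import Mathlib
import Pool.Agent.Lib.MP_0b748d_nt.P.Defs
import Pool.Agent.Lib.MP_0b748d_nt.Chain

section

section

set_option autoImplicit false

/-!
# The van der Corput inequality
-/

namespace Pool.Agent.Lib.MP_0b748d_nt

open Zsqrtd

noncomputable section

/-- the shifted and truncated sequence -/
def vdc_g (f : ℕ → ℂ) (x n' j t : ℕ) : ℂ := if j ≤ t ∧ t < j + n' then f (x + (t - j)) else 0

/-- the correlation sums -/
def vdc_S (f : ℕ → ℂ) (x n' h : ℕ) : ℂ :=
  ∑ a ∈ Finset.Ico x (x + n' - h), f (a + h) * (starRingEnd ℂ) (f a)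

lemma vdc_sum_g (f : ℕ → ℂ) (x n' R j : ℕ) (hj : j ≤ R) :
    ∑ t ∈ Finset.range (n' + R), vdc_g f x n' j t = ∑ a ∈ Finset.Ico x (x + n'), f a := by
  have h1 : ∑ t ∈ Finset.range (n' + R), vdc_g f x n' j t =
      ∑ t ∈ Finset.Ico j (j + n'), vdc_g f x n' j t := by
    symm
    apply Finset.sum_subset
    · intro t ht
      rw [Finset.mem_Ico] at ht
      rw [Finset.mem_range]
      omega
    · intro t _ ht
      rw [Finset.mem_Ico] at ht
      rw [vdc_g, if_neg ht]
  rw [h1, Finset.sum_Ico_eq_sum_range, Finset.sum_Ico_eq_sum_range]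
  have e1 : j + n' - j = n' := by omega
  have e2 : x + n' - x = n' := by omega
  rw [e1, e2]
  refine Finset.sum_congr rfl fun i hi => ?_
  rw [Finset.mem_range] at hi
  rw [vdc_g, if_pos ⟨by omega, by omega⟩]
  congr 2
  omega

lemma vdc_corr (f : ℕ → ℂ) (x n' R j h : ℕ) (hj : j + h ≤ R) :
    ∑ t ∈ Finset.range (n' + R), vdc_g f x n' j t * (starRingEnd ℂ) (vdc_g f x n' (j + h) t) =
      vdc_S f x n' h := by
  have h1 : ∑ t ∈ Finset.range (n' + R),
      vdc_g f x n' j t * (starRingEnd ℂ) (vdc_g f x n' (j + h) t) =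
      ∑ t ∈ Finset.Ico (j + h) (j + h + (n' - h)),
        vdc_g f x n' j t * (starRingEnd ℂ) (vdc_g f x n' (j + h) t) := by
    symm
    apply Finset.sum_subset
    · intro t ht
      rw [Finset.mem_Ico] at ht
      rw [Finset.mem_range]
      omega
    · intro t _ ht
      rw [Finset.mem_Ico] at ht
      by_cases h2 : j ≤ t ∧ t < j + n'
      · have h3 : ¬ (j + h ≤ t ∧ t < j + h + n') := by omega
        rw [vdc_g, vdc_g, if_neg h3]
        simp
      · rw [vdc_g, if_neg h2]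
        simp
  rw [h1, vdc_S, Finset.sum_Ico_eq_sum_range, Finset.sum_Ico_eq_sum_range]
  have e1 : j + h + (n' - h) - (j + h) = n' - h := by omega
  by_cases hh : h ≤ n'
  · have e2 : x + n' - h - x = n' - h := by omega
    rw [e1, e2]
    refine Finset.sum_congr rfl fun i hi => ?_
    rw [Finset.mem_range] at hi
    rw [vdc_g, vdc_g, if_pos ⟨by omega, by omega⟩, if_pos ⟨by omega, by omega⟩]
    have e3 : x + (j + h + i - j) = x + i + h := by omega
    have e4 : x + (j + h + i - (j + h)) = x + i := by omega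
    rw [e3, e4]
  · have e2 : x + n' - h - x = 0 := by omega
    have e3 : n' - h = 0 := by omega
    rw [e1, e2, e3]
    simp

lemma vdc_corr_norm (f : ℕ → ℂ) (x n' R j j' : ℕ) (hj : j ≤ R) (hj' : j' ≤ R) :
    ‖∑ t ∈ Finset.range (n' + R), vdc_g f x n' j t * (starRingEnd ℂ) (vdc_g f x n' j' t)‖ =
      ‖vdc_S f x n' (if j ≤ j' then j' - j else j - j')‖ := by
  split_ifs with h
  · obtain ⟨h', rfl⟩ := Nat.exists_eq_add_of_le h
    rw [vdc_corr f x n' R j h' hj']
    congr 2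
    omega
  · obtain ⟨h', rfl⟩ := Nat.exists_eq_add_of_le (le_of_not_ge h)
    have h1 : ∑ t ∈ Finset.range (n' + R),
        vdc_g f x n' (j' + h') t * (starRingEnd ℂ) (vdc_g f x n' j' t) =
        (starRingEnd ℂ) (∑ t ∈ Finset.range (n' + R),
          vdc_g f x n' j' t * (starRingEnd ℂ) (vdc_g f x n' (j' + h') t)) := by
      rw [map_sum]
      refine Finset.sum_congr rfl fun t _ => ?_
      rw [map_mul, Complex.conj_conj, mul_comm]
    rw [h1, RCLike.norm_conj, vdc_corr f x n' R j' h' hj]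
    congr 2
    omega

theorem vdc (f : ℕ → ℂ) (x n n' R : ℕ) (hR : 1 ≤ R) (hRn : R ≤ n) (hn : n' ≤ n)
    (hf : ∀ a, ‖f a‖ ≤ 1) :
    ‖∑ a ∈ Finset.Ico x (x + n'), f a‖ ^ 2 ≤ (2 * n / R : ℝ) *
      (n + 2 * ∑ h ∈ Finset.Ico 1 R,
        ‖∑ a ∈ Finset.Ico x (x + n' - h), f (a + h) * (starRingEnd ℂ) (f a)‖) := by
  set S : ℂ := ∑ a ∈ Finset.Ico x (x + n'), f a with hS
  set A : ℕ → ℝ := fun h => ‖vdc_S f x n' h‖ with hA
  have hA0 : ∀ h, 0 ≤ A h := fun h => norm_nonneg _
  have hA00 : A 0 ≤ n := by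
    simp only [hA, vdc_S]
    refine (norm_sum_le _ _).trans ?_
    calc ∑ a ∈ Finset.Ico x (x + n' - 0), ‖f (a + 0) * (starRingEnd ℂ) (f a)‖
        ≤ ∑ _a ∈ Finset.Ico x (x + n' - 0), (1 : ℝ) := by
          refine Finset.sum_le_sum fun a _ => ?_
          rw [_root_.norm_mul, RCLike.norm_conj]
          have h1 := hf a
          have h2 := norm_nonneg (f a)
          have h3 := hf (a + 0)
          have h4 := norm_nonneg (f (a + 0))
          nlinarith
      _ = n' := by simp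
      _ ≤ n := by exact_mod_cast hn
  change ‖S‖ ^ 2 ≤ (2 * n / R : ℝ) * (n + 2 * ∑ h ∈ Finset.Ico 1 R, A h)
  set W : ℕ → ℂ := fun t => ∑ j ∈ Finset.range R, vdc_g f x n' j t with hW
  -- the sum of the windows
  have h1 : ∑ t ∈ Finset.range (n' + R), W t = R * S := by
    simp only [hW]
    rw [Finset.sum_comm]
    rw [Finset.sum_congr rfl (fun j hj => vdc_sum_g f x n' R j (Finset.mem_range.1 hj).le)]
    simp [hS]
  have h2 : (R * ‖S‖) ^ 2 ≤ (n' + R : ℝ) * ∑ t ∈ Finset.range (n' + R), ‖W t‖ ^ 2 := by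
    have h3 : R * ‖S‖ ≤ ∑ t ∈ Finset.range (n' + R), ‖W t‖ := by
      have : (R : ℝ) * ‖S‖ = ‖(R : ℂ) * S‖ := by simp
      rw [this, ← h1]
      exact norm_sum_le _ _
    calc (R * ‖S‖) ^ 2 ≤ (∑ t ∈ Finset.range (n' + R), ‖W t‖) ^ 2 := by gcongr
      _ ≤ ((Finset.range (n' + R)).card : ℝ) * ∑ t ∈ Finset.range (n' + R), ‖W t‖ ^ 2 :=
          sq_sum_le_card_mul_sum_sq
      _ = _ := by rw [Finset.card_range]; push_cast; rfl
  -- expansion of the square
  have h3 : ∑ t ∈ Finset.range (n' + R), ‖W t‖ ^ 2 ≤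
      ∑ j ∈ Finset.range R, ∑ j' ∈ Finset.range R, A (if j ≤ j' then j' - j else j - j') := by
    have h4 : ((∑ t ∈ Finset.range (n' + R), ‖W t‖ ^ 2 : ℝ) : ℂ) =
        ∑ j ∈ Finset.range R, ∑ j' ∈ Finset.range R, ∑ t ∈ Finset.range (n' + R),
          vdc_g f x n' j t * (starRingEnd ℂ) (vdc_g f x n' j' t) := by
      have h5 : ∀ t, ((‖W t‖ ^ 2 : ℝ) : ℂ) = ∑ j ∈ Finset.range R, ∑ j' ∈ Finset.range R,
          vdc_g f x n' j t * (starRingEnd ℂ) (vdc_g f x n' j' t) := by
        intro t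
        have h6 : ((‖W t‖ ^ 2 : ℝ) : ℂ) = W t * (starRingEnd ℂ) (W t) := by
          rw [Complex.mul_conj, Complex.normSq_eq_norm_sq]
        rw [h6]
        simp only [hW]
        rw [map_sum, Finset.sum_mul_sum]
      rw [Complex.ofReal_sum, Finset.sum_congr rfl (fun t _ => h5 t), Finset.sum_comm]
      refine Finset.sum_congr rfl fun j _ => ?_
      rw [Finset.sum_comm]
    have h7 : ∑ t ∈ Finset.range (n' + R), ‖W t‖ ^ 2 =
        ‖((∑ t ∈ Finset.range (n' + R), ‖W t‖ ^ 2 : ℝ) : ℂ)‖ := by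
      rw [Complex.norm_real, Real.norm_of_nonneg (Finset.sum_nonneg fun _ _ => sq_nonneg _)]
    rw [h7, h4]
    refine (norm_sum_le _ _).trans (Finset.sum_le_sum fun j hj => ?_)
    refine (norm_sum_le _ _).trans (Finset.sum_le_sum fun j' hj' => ?_)
    rw [vdc_corr_norm f x n' R j j' (Finset.mem_range.1 hj).le (Finset.mem_range.1 hj').le]
  -- the inner sums
  have h4 : ∀ j ∈ Finset.range R,
      ∑ j' ∈ Finset.range R, A (if j ≤ j' then j' - j else j - j') ≤
        n + 2 * ∑ h ∈ Finset.Ico 1 R, A h := by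
    intro j hj
    rw [Finset.mem_range] at hj
    have e1 : ∑ j' ∈ Finset.range R, A (if j ≤ j' then j' - j else j - j') =
        ∑ j' ∈ Finset.range j, A (j - j') + (A 0 + ∑ j' ∈ Finset.Ico (j + 1) R, A (j' - j)) := by
      rw [Finset.range_eq_Ico, ← Finset.sum_Ico_consecutive _ (Nat.zero_le j) hj.le,
        Finset.sum_eq_sum_Ico_succ_bot hj, ← Finset.range_eq_Ico]
      congr 1
      · refine Finset.sum_congr rfl fun j' hj' => ?_
        rw [Finset.mem_range] at hj'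
        rw [if_neg (by omega)]
      · congr 1
        · rw [if_pos le_rfl, Nat.sub_self]
        · refine Finset.sum_congr rfl fun j' hj' => ?_
          rw [Finset.mem_Ico] at hj'
          rw [if_pos (by omega)]
    have e2 : ∑ j' ∈ Finset.range j, A (j - j') ≤ ∑ h ∈ Finset.Ico 1 R, A h := by
      have e3 : ∑ j' ∈ Finset.range j, A (j - j') = ∑ h ∈ Finset.Ico 1 (j + 1), A h := by
        rw [Finset.sum_Ico_eq_sum_range]
        have e4 := Finset.sum_range_reflect (fun i => A (1 + i)) j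
        rw [Nat.add_sub_cancel, ← e4]
        refine Finset.sum_congr rfl fun j' hj' => ?_
        rw [Finset.mem_range] at hj'
        congr 1
        omega
      rw [e3]
      apply Finset.sum_le_sum_of_subset_of_nonneg
      · exact Finset.Ico_subset_Ico le_rfl (by omega)
      · intro i _ _; exact hA0 i
    have e3 : ∑ j' ∈ Finset.Ico (j + 1) R, A (j' - j) ≤ ∑ h ∈ Finset.Ico 1 R, A h := by
      have e4 : ∑ j' ∈ Finset.Ico (j + 1) R, A (j' - j) = ∑ h ∈ Finset.Ico 1 (R - j), A h := by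
        rw [Finset.sum_Ico_eq_sum_range, Finset.sum_Ico_eq_sum_range]
        have e5 : R - (j + 1) = R - j - 1 := by omega
        rw [e5]
        refine Finset.sum_congr rfl fun j' _ => ?_
        congr 1
        omega
      rw [e4]
      apply Finset.sum_le_sum_of_subset_of_nonneg
      · exact Finset.Ico_subset_Ico le_rfl (by omega)
      · intro i _ _; exact hA0 i
    rw [e1]
    linarith
  have h5 := h3.trans (Finset.sum_le_sum h4)
  rw [Finset.sum_const, Finset.card_range, nsmul_eq_mul] at h5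
  have hRR : (1 : ℝ) ≤ R := by exact_mod_cast hR
  have hnn : (n' + R : ℝ) ≤ 2 * n := by
    have h6 : (n' : ℝ) ≤ n := by exact_mod_cast hn
    have h7 : (R : ℝ) ≤ n := by exact_mod_cast hRn
    linarith
  have hpos : 0 ≤ (n : ℝ) + 2 * ∑ h ∈ Finset.Ico 1 R, A h := by
    have := Finset.sum_nonneg (fun h (_ : h ∈ Finset.Ico 1 R) => hA0 h)
    positivity
  have h6 : (R * ‖S‖) ^ 2 ≤ 2 * n * (R * (n + 2 * ∑ h ∈ Finset.Ico 1 R, A h)) :=
    h2.trans (mul_le_mul hnn h5 (Finset.sum_nonneg fun _ _ => sq_nonneg _) (by positivity))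
  have h7 : (R : ℝ) ^ 2 * ‖S‖ ^ 2 ≤
      (R : ℝ) ^ 2 * ((2 * n / R : ℝ) * (n + 2 * ∑ h ∈ Finset.Ico 1 R, A h)) := by
    calc (R : ℝ) ^ 2 * ‖S‖ ^ 2 = (R * ‖S‖) ^ 2 := by ring
      _ ≤ _ := h6
      _ = _ := by field_simp
  exact le_of_mul_le_mul_left h7 (by positivity)

end

end Pool.Agent.Lib.MP_0b748d_nt
end

section

set_option autoImplicit false

/-!
# The discrete Kusmin-Landau inequality
-/

namespace Pool.Agent.Lib.MP_0b748d_nt

open Zsqrtd

noncomputable section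

/-- half of the cotangent of `π d` -/
def kusmin_c (d : ℝ) : ℝ := Real.cos (Real.pi * d) / (2 * Real.sin (Real.pi * d))

/-- the weight `1 / (1 - e(d))` -/
def kusmin_w (d : ℝ) : ℂ := ⟨1 / 2, kusmin_c d⟩

lemma kusmin_sin_pos {d : ℝ} (h0 : 0 < d) (h1 : d ≤ 1 / 2) : 0 < Real.sin (Real.pi * d) := by
  apply Real.sin_pos_of_pos_of_lt_pi
  · positivity
  · nlinarith [Real.pi_pos]

lemma kusmin_cos_nonneg {d : ℝ} (h0 : 0 < d) (h1 : d ≤ 1 / 2) : 0 ≤ Real.cos (Real.pi * d) := by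
  apply Real.cos_nonneg_of_neg_pi_div_two_le_of_le
  · nlinarith [Real.pi_pos]
  · nlinarith [Real.pi_pos]

lemma kusmin_mul {d : ℝ} (h0 : 0 < d) (h1 : d ≤ 1 / 2) : kusmin_w d * (1 - ee d) = 1 := by
  have hs := kusmin_sin_pos h0 h1
  have hre : (ee d).re = 1 - 2 * Real.sin (Real.pi * d) ^ 2 := by
    rw [ee_re, mul_assoc, Real.cos_two_mul, Real.cos_sq']
    ring
  have him : (ee d).im = 2 * Real.sin (Real.pi * d) * Real.cos (Real.pi * d) := by
    rw [ee_im, mul_assoc, Real.sin_two_mul]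
  have hsc := Real.sin_sq_add_cos_sq (Real.pi * d)
  apply Complex.ext
  · simp only [Complex.mul_re, Complex.sub_re, Complex.one_re, Complex.sub_im, Complex.one_im,
      kusmin_w, kusmin_c, hre, him]
    field_simp
    nlinarith [hsc]
  · simp only [Complex.mul_im, Complex.sub_re, Complex.one_re, Complex.sub_im, Complex.one_im,
      kusmin_w, kusmin_c, hre, him]
    field_simp
    ring

lemma kusmin_anti {d d' : ℝ} (h0 : 0 < d') (h1 : d' ≤ d) (h2 : d ≤ 1 / 2) :
    kusmin_c d ≤ kusmin_c d' := by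
  have hs' := kusmin_sin_pos h0 (h1.trans h2)
  have hc' := kusmin_cos_nonneg h0 (h1.trans h2)
  have hcos : Real.cos (Real.pi * d) ≤ Real.cos (Real.pi * d') := by
    apply Real.cos_le_cos_of_nonneg_of_le_pi
    · positivity
    · nlinarith [Real.pi_pos]
    · nlinarith [Real.pi_pos]
  have hsin : Real.sin (Real.pi * d') ≤ Real.sin (Real.pi * d) := by
    apply Real.sin_le_sin_of_le_of_le_pi_div_two
    · nlinarith [Real.pi_pos]
    · nlinarith [Real.pi_pos]
    · nlinarith [Real.pi_pos]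
  exact div_le_div₀ hc' hcos (by linarith) (by linarith)

lemma kusmin_nonneg {d : ℝ} (h0 : 0 < d) (h1 : d ≤ 1 / 2) : 0 ≤ kusmin_c d :=
  div_nonneg (kusmin_cos_nonneg h0 h1) (by linarith [kusmin_sin_pos h0 h1])

lemma kusmin_le {d lam : ℝ} (hl : 0 < lam) (h0 : lam ≤ d) (h1 : d ≤ 1 / 2) :
    kusmin_c d ≤ 1 / (4 * lam) := by
  have hd : 0 < d := hl.trans_le h0
  have hsin : 2 * d ≤ Real.sin (Real.pi * d) := by
    have h := Real.mul_le_sin (x := Real.pi * d) (by positivity)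
      (by nlinarith [Real.pi_pos])
    have h3 : 2 / Real.pi * (Real.pi * d) = 2 * d := by
      field_simp
    linarith
  exact div_le_div₀ zero_le_one (Real.cos_le_one _) (by linarith) (by linarith)

lemma kusmin_norm {d : ℝ} (h0 : 0 < d) (h1 : d ≤ 1 / 2) : ‖kusmin_w d‖ ≤ 1 / 2 + kusmin_c d := by
  refine (Complex.norm_le_abs_re_add_abs_im _).trans ?_
  simp only [kusmin_w]
  rw [abs_of_nonneg (kusmin_nonneg h0 h1), abs_of_nonneg (by norm_num)]

lemma kusmin_sub {d d' : ℝ} (h : kusmin_c d ≤ kusmin_c d') :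
    ‖kusmin_w d' - kusmin_w d‖ = kusmin_c d' - kusmin_c d := by
  have h1 : kusmin_w d' - kusmin_w d = ((kusmin_c d' - kusmin_c d : ℝ) : ℂ) * Complex.I := by
    apply Complex.ext <;> simp [kusmin_w]
  rw [h1, _root_.norm_mul, Complex.norm_I, mul_one, Complex.norm_real, Real.norm_eq_abs,
    abs_of_nonneg (by linarith)]

lemma kusmin_step {g : ℕ → ℝ} {a : ℕ} (h0 : 0 < g (a + 1) - g a) (h1 : g (a + 1) - g a ≤ 1 / 2) :
    ee (g a) = kusmin_w (g (a + 1) - g a) * (ee (g a) - ee (g (a + 1))) := by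
  have h2 : ee (g (a + 1)) = ee (g a) * ee (g (a + 1) - g a) := by
    rw [← ee_add]
    congr 1
    ring
  have h3 := kusmin_mul h0 h1
  calc ee (g a) = (kusmin_w (g (a + 1) - g a) * (1 - ee (g (a + 1) - g a))) * ee (g a) := by
        rw [h3, one_mul]
    _ = _ := by
        rw [h2]
        ring

lemma kusmin_ind (G : ℕ → ℝ) (lam : ℝ) (hl : 0 < lam) (N : ℕ)
    (h1 : ∀ a, a < N + 1 → lam ≤ G (a + 1) - G a ∧ G (a + 1) - G a ≤ 1 / 2)
    (h2 : ∀ a, a < N → G (a + 2) - G (a + 1) ≤ G (a + 1) - G a) :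
    ‖∑ a ∈ Finset.range (N + 1), ee (G a) - kusmin_w (G 1 - G 0) * ee (G 0) +
      kusmin_w (G (N + 1) - G N) * ee (G (N + 1))‖ ≤
      kusmin_c (G (N + 1) - G N) - kusmin_c (G 1 - G 0) := by
  induction N with
  | zero =>
    have h := h1 0 (by omega)
    have h3 := kusmin_step (g := G) (a := 0) (by linarith [h.1]) h.2
    simp only [zero_add, Finset.range_one, Finset.sum_singleton] at h3 ⊢
    have h4 : ee (G 0) - kusmin_w (G 1 - G 0) * ee (G 0) + kusmin_w (G 1 - G 0) * ee (G 1) = 0 := by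
      nth_rw 1 [h3]
      ring
    rw [h4]
    simp
  | succ N ih =>
    have ih' := ih (fun a ha => h1 a (by omega)) (fun a ha => h2 a (by omega))
    have h := h1 (N + 1) (by omega)
    have h0 := h1 N (by omega)
    have hd := h2 N (by omega)
    have h3 := kusmin_step (g := G) (a := N + 1) (by linarith [h.1]) h.2
    have hc : kusmin_c (G (N + 1) - G N) ≤ kusmin_c (G (N + 1 + 1) - G (N + 1)) :=
      kusmin_anti (by linarith [h.1]) hd h0.2
    have h4 : ∑ a ∈ Finset.range (N + 1 + 1), ee (G a) - kusmin_w (G 1 - G 0) * ee (G 0) +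
        kusmin_w (G (N + 1 + 1) - G (N + 1)) * ee (G (N + 1 + 1)) =
        (∑ a ∈ Finset.range (N + 1), ee (G a) - kusmin_w (G 1 - G 0) * ee (G 0) +
          kusmin_w (G (N + 1) - G N) * ee (G (N + 1))) +
        (kusmin_w (G (N + 1 + 1) - G (N + 1)) - kusmin_w (G (N + 1) - G N)) * ee (G (N + 1)) := by
      rw [Finset.sum_range_succ]
      have h5 : ee (G (N + 1)) = kusmin_w (G (N + 1 + 1) - G (N + 1)) * ee (G (N + 1)) -
          kusmin_w (G (N + 1 + 1) - G (N + 1)) * ee (G (N + 1 + 1)) := by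
        rw [← mul_sub]
        exact h3
      linear_combination h5
    rw [h4]
    refine (norm_add_le _ _).trans ?_
    rw [_root_.norm_mul, norm_ee, mul_one, kusmin_sub hc]
    linarith

theorem kusmin (g : ℕ → ℝ) (x n : ℕ) (lam : ℝ) (hl : 0 < lam) (hl2 : lam ≤ 1 / 2)
    (h1 : ∀ a, x ≤ a → a + 1 < x + n → lam ≤ g (a + 1) - g a ∧ g (a + 1) - g a ≤ 1 / 2)
    (h2 : ∀ a, x ≤ a → a + 2 < x + n → g (a + 2) - g (a + 1) ≤ g (a + 1) - g a) :
    ‖∑ a ∈ Finset.Ico x (x + n), ee (g a)‖ ≤ 2 / lam := by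
  have hlam : 2 ≤ 1 / lam := by
    rw [le_div_iff₀ hl]
    linarith
  rw [Finset.sum_Ico_eq_sum_range, Nat.add_sub_cancel_left]
  set G : ℕ → ℝ := fun i => g (x + i) with hG
  change ‖∑ i ∈ Finset.range n, ee (G i)‖ ≤ 2 / lam
  have h2l : 2 / lam = 1 / lam + 1 / lam := by ring
  rcases Nat.lt_or_ge n 2 with hn | hn
  · have h3 : ‖∑ i ∈ Finset.range n, ee (G i)‖ ≤ 1 := by
      interval_cases n
      · simp
      · simp [norm_ee]
    linarith
  · obtain ⟨N, rfl⟩ : ∃ N, n = N + 2 := ⟨n - 2, by omega⟩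
    have k1 : ∀ a, a < N + 1 → lam ≤ G (a + 1) - G a ∧ G (a + 1) - G a ≤ 1 / 2 := by
      intro a ha
      have := h1 (x + a) (by omega) (by omega)
      simpa [hG, add_assoc] using this
    have k2 : ∀ a, a < N → G (a + 2) - G (a + 1) ≤ G (a + 1) - G a := by
      intro a ha
      have := h2 (x + a) (by omega) (by omega)
      simpa [hG, add_assoc] using this
    have hind := kusmin_ind G lam hl N k1 k2
    have ha := k1 0 (by omega)
    have hb := k1 N (by omega)
    have hw0 := kusmin_norm (d := G (0 + 1) - G 0) (by linarith [ha.1]) ha.2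
    have hwN := kusmin_norm (d := G (N + 1) - G N) (by linarith [hb.1]) hb.2
    have hcN := kusmin_le hl hb.1 hb.2
    rw [zero_add] at hw0
    rw [Finset.sum_range_succ]
    have h5 : ∑ a ∈ Finset.range (N + 1), ee (G a) + ee (G (N + 1)) =
        (∑ a ∈ Finset.range (N + 1), ee (G a) - kusmin_w (G 1 - G 0) * ee (G 0) +
          kusmin_w (G (N + 1) - G N) * ee (G (N + 1))) +
        kusmin_w (G 1 - G 0) * ee (G 0) - kusmin_w (G (N + 1) - G N) * ee (G (N + 1)) +
        ee (G (N + 1)) := by ring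
    rw [h5]
    have e1 : ‖kusmin_w (G 1 - G 0) * ee (G 0)‖ ≤ 1 / 2 + kusmin_c (G 1 - G 0) := by
      rw [_root_.norm_mul, norm_ee, mul_one]
      exact hw0
    have e2 : ‖kusmin_w (G (N + 1) - G N) * ee (G (N + 1))‖ ≤
        1 / 2 + kusmin_c (G (N + 1) - G N) := by
      rw [_root_.norm_mul, norm_ee, mul_one]
      exact hwN
    have e3 : ‖ee (G (N + 1))‖ = 1 := norm_ee _
    have hq : 1 / (4 * lam) = 1 / lam / 4 := by
      field_simp
    refine (norm_add_le _ _).trans ?_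
    refine (add_le_add (norm_sub_le _ _) le_rfl).trans ?_
    refine (add_le_add (add_le_add (norm_add_le _ _) le_rfl) le_rfl).trans ?_
    rw [hq] at hcN
    linarith

end

end Pool.Agent.Lib.MP_0b748d_nt
end

section

set_option autoImplicit false

/-!
# Iterated Weyl differencing
-/

namespace Pool.Agent.Lib.MP_0b748d_nt

open Zsqrtd

noncomputable section

/-- the differenced phase -/
def weyl_g (g : ℕ → ℝ) (h a : ℕ) : ℝ := g (a + h) - g a

lemma weyl_dif (g : ℕ → ℝ) (h k : ℕ) : ∀ a, dif k (weyl_g g h) a =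
    dif k g (a + h) - dif k g a := by
  induction k with
  | zero => intro a; rfl
  | succ k ih =>
    intro a
    simp only [dif, ih]
    have : a + 1 + h = a + h + 1 := by ring
    rw [this]
    ring

lemma weyl_dif_sum (g : ℕ → ℝ) (h k a : ℕ) : dif k (weyl_g g h) a =
    ∑ i ∈ Finset.range h, dif (k + 1) g (a + i) := by
  rw [weyl_dif]
  induction h with
  | zero => simp
  | succ h ih =>
    rw [Finset.sum_range_succ, ← ih]
    simp only [dif]
    have : a + (h + 1) = a + h + 1 := by ring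
    rw [this]
    ring

lemma weyl_reg {k : ℕ} {g : ℕ → ℝ} {lam Lam : ℝ} {x y : ℕ} (hreg : Reg (k + 1) g lam Lam x y)
    (h : ℕ) : Reg k (weyl_g g h) (h * lam) (h * Lam) x (y - h) := by
  obtain ⟨h1, h2⟩ := hreg
  refine ⟨fun a ha hay => ?_, fun a ha hay => ?_⟩
  · rw [weyl_dif_sum]
    have hh : ∀ i ∈ Finset.range h, lam ≤ dif (k + 1) g (a + i) ∧
        dif (k + 1) g (a + i) ≤ Lam := by
      intro i hi
      rw [Finset.mem_range] at hi
      exact h1 (a + i) (by omega) (by omega)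
    constructor
    · calc (h : ℝ) * lam = ∑ _i ∈ Finset.range h, lam := by simp
        _ ≤ _ := Finset.sum_le_sum fun i hi => (hh i hi).1
    · calc _ ≤ ∑ _i ∈ Finset.range h, Lam := Finset.sum_le_sum fun i hi => (hh i hi).2
        _ = (h : ℝ) * Lam := by simp
  · rw [weyl_dif_sum, weyl_dif_sum]
    refine Finset.sum_le_sum fun i hi => ?_
    rw [Finset.mem_range] at hi
    have e : a + 1 + i = a + i + 1 := by ring
    rw [e]
    exact h2 (a + i) (by omega) (by omega)

theorem weyl (k : ℕ) : ∃ C : ℝ, 1 ≤ C ∧ ∀ (n R x y : ℕ) (lam Lam ep : ℝ) (g : ℕ → ℝ),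
    1 ≤ R → R ≤ n → y ≤ x + n → 0 < lam → lam ≤ Lam → (R : ℝ) ^ k * Lam ≤ 1 / 2 →
    Reg (k + 1) g lam Lam x y → 1 / √(R : ℝ) ≤ ep → 1 / (n * lam * √(R : ℝ) ^ k) ≤ ep → ep ≤ 1 →
    ‖∑ a ∈ Finset.Ico x y, ee (g a)‖ ≤ C * n * ep ^ ((1 : ℝ) / 2 ^ k) := by
  induction k with
  | zero =>
    refine ⟨2, by norm_num, ?_⟩
    intro n R x y lam Lam ep g hR hRn hyn hlam hLam hRL hreg hep1 hep2 hep3
    have hn : (0 : ℝ) < n := by
      have : 0 < n := by omega
      exact_mod_cast this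
    have hep0 : 0 ≤ ep := by
      refine le_trans ?_ hep1
      positivity
    simp only [pow_zero, one_mul, mul_one, div_one, Real.rpow_one, zero_add] at hRL hreg hep2 ⊢
    rcases le_or_gt y x with hxy | hxy
    · rw [Finset.Ico_eq_empty_of_le hxy, Finset.sum_empty, _root_.norm_zero]
      positivity
    · obtain ⟨n', rfl⟩ := Nat.exists_eq_add_of_lt hxy
      have hk := kusmin g x (n' + 1) lam hlam (hLam.trans hRL) ?_ ?_
      · have e : x + (n' + 1) = x + n' + 1 := by ring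
        rw [e] at hk
        refine hk.trans ?_
        have h3 : 1 / lam ≤ n * ep := by
          rw [div_le_iff₀ hlam]
          rw [div_le_iff₀ (by positivity)] at hep2
          linarith
        calc 2 / lam = 2 * (1 / lam) := by ring
          _ ≤ 2 * (n * ep) := by linarith
          _ = 2 * n * ep := by ring
      · intro a ha ha2
        have := hreg.1 a ha (by omega)
        simp only [dif] at this
        exact ⟨this.1, this.2.trans hRL⟩
      · intro a ha ha2
        have := hreg.2 a ha (by omega)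
        simp only [dif] at this
        exact this
  | succ k ih =>
    obtain ⟨C, hC1, hC⟩ := ih
    have hC0 : 0 ≤ C := by linarith
    refine ⟨√(2 * (3 + 2 * C)), ?_, ?_⟩
    · rw [Real.one_le_sqrt]
      linarith
    intro n R x y lam Lam ep g hR hRn hyn hlam hLam hRL hreg hep1 hep2 hep3
    have hRR : (1 : ℝ) ≤ R := by exact_mod_cast hR
    have hRR0 : (0 : ℝ) < R := by linarith
    have hn : (1 : ℝ) ≤ n := by
      have : 1 ≤ n := by omega
      exact_mod_cast this
    have hn0 : (0 : ℝ) < n := by linarith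
    have hsR : 0 < √(R : ℝ) := Real.sqrt_pos.2 hRR0
    have hsR2 : √(R : ℝ) * √(R : ℝ) = R := Real.mul_self_sqrt hRR0.le
    have hep0 : 0 < ep := lt_of_lt_of_le (by positivity) hep1
    have hLam0 : 0 < Lam := lt_of_lt_of_le hlam hLam
    set E : ℝ := ep ^ ((1 : ℝ) / 2 ^ k) with hE
    have hE0 : 0 < E := Real.rpow_pos_of_pos hep0 _
    have hepE : ep ≤ E := by
      rw [hE]
      calc ep = ep ^ (1 : ℝ) := (Real.rpow_one _).symm
        _ ≤ ep ^ ((1 : ℝ) / 2 ^ k) := by
          apply Real.rpow_le_rpow_of_exponent_ge hep0 hep3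
          rw [div_le_one (by positivity)]
          exact one_le_pow₀ (by norm_num)
    have hE2 : ep ^ ((1 : ℝ) / 2 ^ (k + 1)) = √E := by
      rw [hE, Real.sqrt_eq_rpow, ← Real.rpow_mul hep0.le]
      congr 1
      rw [pow_succ]
      field_simp
    rcases le_or_gt y x with hxy | hxy
    · rw [Finset.Ico_eq_empty_of_le hxy, Finset.sum_empty, _root_.norm_zero]
      positivity
    obtain ⟨m, rfl⟩ := Nat.exists_eq_add_of_lt hxy
    set n' := m + 1 with hn'
    have exy : x + m + 1 = x + n' := by rw [hn']; ring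
    rw [exy] at hreg hyn ⊢
    have hv := vdc (fun a => ee (g a)) x n n' R hR hRn (by omega)
      (fun a => (norm_ee (g a)).le)
    -- the correlations
    have hcor : ∀ h, ∑ a ∈ Finset.Ico x (x + n' - h),
        (fun a => ee (g a)) (a + h) * (starRingEnd ℂ) ((fun a => ee (g a)) a) =
        ∑ a ∈ Finset.Ico x (x + n' - h), ee (weyl_g g h a) := by
      intro h
      refine Finset.sum_congr rfl fun a _ => ?_
      simp only [weyl_g]
      rw [← ee_neg, ← ee_add, sub_eq_add_neg]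
    simp only [hcor] at hv
    have htriv : ∀ h, ‖∑ a ∈ Finset.Ico x (x + n' - h), ee (weyl_g g h a)‖ ≤ n := by
      intro h
      refine (norm_sum_le _ _).trans ?_
      simp only [norm_ee, Finset.sum_const, Nat.card_Ico, nsmul_eq_mul, mul_one]
      have : x + n' - h - x ≤ n := by omega
      exact_mod_cast this
    have hbig : ∀ h ∈ Finset.Ico 1 R, √(R : ℝ) ≤ h →
        ‖∑ a ∈ Finset.Ico x (x + n' - h), ee (weyl_g g h a)‖ ≤ C * n * E := by
      intro h hh hhR
      rw [Finset.mem_Ico] at hh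
      have hh1 : (1 : ℝ) ≤ h := by exact_mod_cast hh.1
      have hh2 : (h : ℝ) ≤ R := by exact_mod_cast hh.2.le
      refine hC n R x (x + n' - h) (h * lam) (h * Lam) ep (weyl_g g h) hR hRn (by omega)
        (by positivity) (by gcongr) ?_ (weyl_reg hreg h) hep1 ?_ hep3
      · calc (R : ℝ) ^ k * (h * Lam) ≤ (R : ℝ) ^ k * (R * Lam) := by gcongr
          _ = (R : ℝ) ^ (k + 1) * Lam := by ring
          _ ≤ 1 / 2 := hRL
      · refine le_trans ?_ hep2
        apply one_div_le_one_div_of_le (by positivity)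
        calc (n : ℝ) * lam * √(R : ℝ) ^ (k + 1) = n * (√(R : ℝ) * lam) * √(R : ℝ) ^ k := by ring
          _ ≤ n * (h * lam) * √(R : ℝ) ^ k := by gcongr
    have hsum : ∑ h ∈ Finset.Ico 1 R, ‖∑ a ∈ Finset.Ico x (x + n' - h), ee (weyl_g g h a)‖ ≤
        √(R : ℝ) * n + R * (C * n * E) := by
      have h1 : ∀ h ∈ Finset.Ico 1 R,
          ‖∑ a ∈ Finset.Ico x (x + n' - h), ee (weyl_g g h a)‖ ≤
          (if (h : ℝ) < √(R : ℝ) then (n : ℝ) else 0) + C * n * E := by
        intro h hh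
        have h0 : 0 ≤ C * n * E := by positivity
        split_ifs with h2
        · have := htriv h
          linarith
        · rw [not_lt] at h2
          have := hbig h hh h2
          linarith
      refine (Finset.sum_le_sum h1).trans ?_
      rw [Finset.sum_add_distrib, Finset.sum_const, Nat.card_Ico, nsmul_eq_mul, ← Finset.sum_filter,
        Finset.sum_const, nsmul_eq_mul]
      have h2 : (((Finset.Ico 1 R).filter (fun h : ℕ => (h : ℝ) < √(R : ℝ))).card : ℝ) ≤
          √(R : ℝ) := by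
        have h3 : (Finset.Ico 1 R).filter (fun h : ℕ => (h : ℝ) < √(R : ℝ)) ⊆
            Finset.Icc 1 ⌊√(R : ℝ)⌋₊ := by
          intro h hh
          rw [Finset.mem_filter, Finset.mem_Ico] at hh
          rw [Finset.mem_Icc]
          exact ⟨hh.1.1, Nat.le_floor hh.2.le⟩
        have h4 := Finset.card_le_card h3
        rw [Nat.card_Icc, Nat.add_sub_cancel] at h4
        calc _ ≤ ((⌊√(R : ℝ)⌋₊ : ℕ) : ℝ) := by exact_mod_cast h4
          _ ≤ √(R : ℝ) := Nat.floor_le hsR.le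
      have h5 : ((R - 1 : ℕ) : ℝ) ≤ R := by
        have : R - 1 ≤ R := Nat.sub_le _ _
        exact_mod_cast this
      have h6 : 0 ≤ C * n * E := by positivity
      gcongr
    have hfin : ‖∑ a ∈ Finset.Ico x (x + n'), ee (g a)‖ ^ 2 ≤
        2 * (3 + 2 * C) * n ^ 2 * E := by
      refine hv.trans ?_
      have h1 : (2 * n / R : ℝ) * (n + 2 * ∑ h ∈ Finset.Ico 1 R,
          ‖∑ a ∈ Finset.Ico x (x + n' - h), ee (weyl_g g h a)‖) ≤
          (2 * n / R : ℝ) * (n + 2 * (√(R : ℝ) * n + R * (C * n * E))) := by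
        gcongr
      refine h1.trans ?_
      have h2 : (2 * n / R : ℝ) * (n + 2 * (√(R : ℝ) * n + R * (C * n * E))) =
          2 * n ^ 2 * ((1 / √(R : ℝ)) * (1 / √(R : ℝ)) + 2 * (1 / √(R : ℝ)) + 2 * C * E) := by
        have e1 : (1 : ℝ) / R = (1 / √(R : ℝ)) * (1 / √(R : ℝ)) := by
          rw [div_mul_div_comm, hsR2, one_mul]
        have e2 : √(R : ℝ) / R = 1 / √(R : ℝ) := by
          rw [div_eq_div_iff hRR0.ne' hsR.ne', hsR2, one_mul]
        calc (2 * n / R : ℝ) * (n + 2 * (√(R : ℝ) * n + R * (C * n * E)))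
            = 2 * n ^ 2 * (1 / R + 2 * (√(R : ℝ) / R) + 2 * (R / R) * (C * E)) := by ring
          _ = _ := by rw [e1, e2, div_self hRR0.ne']; ring
      rw [h2]
      have h3 : (1 / √(R : ℝ)) * (1 / √(R : ℝ)) ≤ E := by
        calc (1 / √(R : ℝ)) * (1 / √(R : ℝ)) ≤ ep * 1 := by
              apply mul_le_mul hep1 (hep1.trans hep3) (by positivity) hep0.le
          _ = ep := mul_one _
          _ ≤ E := hepE
      have h4 : 2 * (1 / √(R : ℝ)) ≤ 2 * E := by linarith
      calc 2 * (n : ℝ) ^ 2 * ((1 / √(R : ℝ)) * (1 / √(R : ℝ)) + 2 * (1 / √(R : ℝ)) + 2 * C * E)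
          ≤ 2 * (n : ℝ) ^ 2 * (E + 2 * E + 2 * C * E) := by gcongr
        _ = 2 * (3 + 2 * C) * n ^ 2 * E := by ring
    rw [hE2]
    have h7 : √(2 * (3 + 2 * C)) * n * √E = √(2 * (3 + 2 * C) * n ^ 2 * E) := by
      have h8 : (0 : ℝ) ≤ 2 * (3 + 2 * C) := by positivity
      have h9 : (0 : ℝ) ≤ 2 * (3 + 2 * C) * n ^ 2 := by positivity
      rw [Real.sqrt_mul h9, Real.sqrt_mul h8, Real.sqrt_sq hn0.le]
    rw [h7]
    exact Real.le_sqrt_of_sq_le hfin

end

end Pool.Agent.Lib.MP_0b748d_nt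
end

section

set_option autoImplicit false

/-!
# The exponential sum over a box

Differences of the angles of the elements `(2 i + 1) + b √2`, and the bound for the sum of
`e (d * al z)` over the box `bx B`, from the Kusmin-Landau inequality (small `d`) and Weyl
differencing (large `d`).
-/

namespace Pool.Agent.Lib.MP_0b748d_nt

open Zsqrtd

noncomputable section

/-- integrals of the functions `phi k` over an interval with centre `x` -/
def Gi (k : ℕ) (β x : ℝ) : ℝ := ∫ s in (-β)..β, phi k (x + s)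

lemma phi_ge (k : ℕ) {t : ℝ} (ht : 0 < t) : k.factorial / (2 * (t + k) ^ (k + 1)) ≤ phi k t := by
  induction k with
  | zero => simp [phi]
  | succ k ih =>
    simp only [phi]
    have hk : (0 : ℝ) ≤ k := by positivity
    have h1 : ((k + 1).factorial : ℝ) / (2 * (t + (k + 1 : ℕ)) ^ (k + 1 + 1)) =
        (k.factorial / (2 * (t + k + 1) ^ (k + 1))) * ((k : ℝ) + 1) / (t + k + 1) := by
      rw [Nat.factorial_succ, pow_succ _ (k + 1)]
      push_cast
      rw [← add_assoc]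
      have : t + k + 1 ≠ 0 := by positivity
      field_simp
    rw [h1]
    have h2 : (k.factorial : ℝ) / (2 * (t + k + 1) ^ (k + 1)) ≤ phi k t := by
      refine le_trans ?_ ih
      apply div_le_div_of_nonneg_left (by positivity) (by positivity)
      have h3 : (t + k) ^ (k + 1) ≤ (t + k + 1) ^ (k + 1) :=
        pow_le_pow_left₀ (by positivity) (by linarith) _
      linarith
    gcongr

lemma Gi_int (k : ℕ) {β x : ℝ} (hβ : 0 ≤ β) (hx : β < x) :
    IntervalIntegrable (fun s => phi k (x + s)) MeasureTheory.volume (-β) β := by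
  apply ContinuousOn.intervalIntegrable
  apply (phi_cont k).comp (by fun_prop)
  intro s hs
  rw [Set.uIcc_of_le (by linarith)] at hs
  simp only [Set.mem_Ioi]
  linarith [hs.1]

lemma Gi_zero {β x : ℝ} (hβ : 0 ≤ β) (hx : β < x) :
    Gi 0 β x = (Real.log (x + β) - Real.log (x - β)) / 2 := by
  have hint := intervalIntegral.integral_eq_sub_of_hasDerivAt
    (f := fun s => Real.log (x + s) / 2) (f' := fun s => phi 0 (x + s))
    (a := -β) (b := β) (by
      intro s hs
      rw [Set.uIcc_of_le (by linarith)] at hs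
      have hpos : (0 : ℝ) < x + s := by linarith [hs.1]
      have h3 : HasDerivAt (fun s => x + s) 1 s := by
        simpa using (hasDerivAt_id s).const_add x
      have h4 := (h3.log hpos.ne').div_const 2
      simp only [phi]
      convert! h4 using 1
      field_simp) (Gi_int 0 hβ hx)
  rw [Gi, hint]
  rw [← sub_eq_add_neg]
  ring

lemma Gi_succ (k : ℕ) {β x : ℝ} (hβ : 0 ≤ β) (hx : β < x) :
    Gi k β x - Gi k β (x + 1) = Gi (k + 1) β x := by
  have h3 := Gi_int k hβ hx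
  have h4 := Gi_int k hβ (show β < x + 1 by linarith)
  rw [Gi, Gi, Gi, ← intervalIntegral.integral_sub h3 h4]
  apply intervalIntegral.integral_congr
  intro s hs
  rw [Set.uIcc_of_le (by linarith)] at hs
  have hpos : (0 : ℝ) < x + s := by linarith [hs.1]
  have h5 := phi_diff k hpos
  beta_reduce
  rw [← h5]
  congr 2
  ring

lemma Gi_nonneg (k : ℕ) {β x : ℝ} (hβ : 0 ≤ β) (hx : β < x) : 0 ≤ Gi k β x := by
  apply intervalIntegral.integral_nonneg (by linarith)
  intro s hs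
  apply (phi_pos k _).le
  linarith [hs.1]

lemma Gi_le (k : ℕ) {β x : ℝ} (hβ : 0 ≤ β) (hx : β < x) (y : ℝ) (hy : 0 < y) (hyx : y ≤ x - β) :
    Gi k β x ≤ β * (k.factorial / y ^ (k + 1)) := by
  have h3 : Gi k β x ≤ ∫ _ in (-β)..β, (k.factorial / (2 * y ^ (k + 1)) : ℝ) := by
    apply intervalIntegral.integral_mono_on (by linarith) (Gi_int k hβ hx)
      intervalIntegrable_const
    intro s hs
    have hpos : (0 : ℝ) < x + s := by linarith [hs.1]
    refine (phi_le k hpos).trans ?_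
    apply div_le_div_of_nonneg_left (by positivity) (by positivity)
    gcongr
    linarith [hs.1]
  refine h3.trans (le_of_eq ?_)
  rw [intervalIntegral.integral_const, smul_eq_mul]
  field_simp
  ring

lemma Gi_ge (k : ℕ) {β x : ℝ} (hβ : 0 ≤ β) (hx : β < x) (y : ℝ) (hyx : x + β + k ≤ y) :
    β * (k.factorial / y ^ (k + 1)) ≤ Gi k β x := by
  have hk : (0 : ℝ) ≤ k := by positivity
  have hy : 0 < y := by linarith
  have h3 : ∫ _ in (-β)..β, (k.factorial / (2 * y ^ (k + 1)) : ℝ) ≤ Gi k β x := by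
    apply intervalIntegral.integral_mono_on (by linarith) intervalIntegrable_const
      (Gi_int k hβ hx)
    intro s hs
    have hpos : (0 : ℝ) < x + s := by linarith [hs.1]
    refine le_trans ?_ (phi_ge k hpos)
    apply div_le_div_of_nonneg_left (by positivity) (by positivity)
    gcongr
    linarith [hs.2]
  refine le_trans (le_of_eq ?_) h3
  rw [intervalIntegral.integral_const, smul_eq_mul]
  field_simp
  ring

lemma dif_of_Gi (f : ℕ → ℝ) (c β : ℝ) (hβ : 0 ≤ β) (x0 : ℕ) (hx0 : β < x0)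
    (hf : ∀ a, x0 ≤ a → f a = c * Gi 0 β (a + 1 / 2)) (k : ℕ) :
    ∀ a, x0 ≤ a → dif k f a = (-1) ^ k * c * Gi k β (a + 1 / 2) := by
  induction k with
  | zero =>
    intro a ha
    simp only [dif, pow_zero, one_mul]
    exact hf a ha
  | succ k ih =>
    intro a ha
    have ha' : (x0 : ℝ) ≤ a := by exact_mod_cast ha
    have h1 := Gi_succ k hβ (x := (a : ℝ) + 1 / 2) (by linarith)
    simp only [dif]
    rw [ih (a + 1) (by omega), ih a ha, ← h1]
    push_cast
    rw [show (a : ℝ) + 1 + 1 / 2 = a + 1 / 2 + 1 by ring]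
    ring

lemma th_zz (i b : ℕ) (h : (b : ℝ) * √2 / 2 < i + 1 / 2) :
    th (zz (i, b)) = Gi 0 (b * √2 / 2) (i + 1 / 2) := by
  rw [Gi_zero (by positivity) h]
  simp only [th, s1, s2, zz]
  push_cast
  have hb : (0 : ℝ) ≤ b * √2 := by positivity
  have e1 : (2 * (i : ℝ) + 1 + b * √2) = 2 * (i + 1 / 2 + b * √2 / 2) := by ring
  have e2 : (2 * (i : ℝ) + 1 - b * √2) = 2 * (i + 1 / 2 - b * √2 / 2) := by ring
  rw [e1, e2, Real.log_mul (by norm_num) (by positivity), Real.log_mul (by norm_num) (by linarith only [h])]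
  ring

lemma norm_sum_neg (s : Finset ℕ) (f : ℕ → ℝ) :
    ‖∑ a ∈ s, ee (-(f a))‖ = ‖∑ a ∈ s, ee (f a)‖ := by
  have : ∑ a ∈ s, ee (-(f a)) = (starRingEnd ℂ) (∑ a ∈ s, ee (f a)) := by
    rw [map_sum]
    apply Finset.sum_congr rfl
    intro a _
    exact ee_neg _
  rw [this, RCLike.norm_conj]

/-- For a fixed second coordinate the normalised angles are regular to every order. -/
lemma reg_al (k : ℕ) (B b : ℕ) (hB : 1 ≤ B) (hb : b ∈ Finset.Ico B (2 * B)) (d : ℤ) :
    ∃ g : ℕ → ℝ, ‖∑ i ∈ Finset.Ico (8 * B) (16 * B), ee (d * al (zz (i, b)))‖ =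
        ‖∑ i ∈ Finset.Ico (8 * B) (16 * B), ee (g i)‖ ∧
      Reg k g (k.factorial / (2 * (18 + k : ℝ) ^ (k + 1)) / th uu * |(d : ℝ)| / (B : ℝ) ^ k)
        (k.factorial / th uu * |(d : ℝ)| / (B : ℝ) ^ k) (8 * B) (16 * B) := by
  have hT := th_uu_pos
  have hs1 := sqrt2_lt
  have hs2 := lt_sqrt2
  rw [Finset.mem_Ico] at hb
  have hB' : (1 : ℝ) ≤ B := by exact_mod_cast hB
  have hb1 : (B : ℝ) ≤ b := by exact_mod_cast hb.1
  have hb2 : (b : ℝ) ≤ 2 * B := by exact_mod_cast hb.2.le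
  set β : ℝ := b * √2 / 2 with hβ
  have hβ1 : 0.707 * (B : ℝ) ≤ β := by rw [hβ]; nlinarith only [hs2, hb1]
  have hβ2 : β ≤ 1.415 * (B : ℝ) := by rw [hβ]; nlinarith only [hs1, hb2]
  have hβ0 : 0 ≤ β := by positivity
  have hβx : β < ((8 * B : ℕ) : ℝ) := by push_cast; linarith
  -- the sign
  obtain ⟨σ, hσ, hσd⟩ : ∃ σ : ℝ, (σ = 1 ∨ σ = -1) ∧ (-1) ^ k * (σ * d) = |(d : ℝ)| := by
    rcases neg_one_pow_eq_or ℝ k with h | h
    · rcases le_total 0 (d : ℝ) with h' | h'
      · exact ⟨1, Or.inl rfl, by rw [h, abs_of_nonneg h']; ring⟩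
      · exact ⟨-1, Or.inr rfl, by rw [h, abs_of_nonpos h']; ring⟩
    · rcases le_total 0 (d : ℝ) with h' | h'
      · exact ⟨-1, Or.inr rfl, by rw [h, abs_of_nonneg h']; ring⟩
      · exact ⟨1, Or.inl rfl, by rw [h, abs_of_nonpos h']; ring⟩
  refine ⟨fun i => σ * (d * al (zz (i, b))), ?_, ?_⟩
  · rcases hσ with rfl | rfl
    · simp only [one_mul]
    · simp only [neg_mul, one_mul]
      rw [norm_sum_neg]
  have hdif : ∀ a, 8 * B ≤ a → dif k (fun i => σ * (d * al (zz (i, b)))) a =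
      |(d : ℝ)| / th uu * Gi k β (a + 1 / 2) := by
    intro a ha
    rw [dif_of_Gi _ (σ * d / th uu) β hβ0 (8 * B) hβx _ k a ha]
    · rw [← hσd]; ring
    · intro a ha
      have ha' : ((8 * B : ℕ) : ℝ) ≤ a := by exact_mod_cast ha
      simp only [al]
      rw [th_zz a b (by rw [← hβ]; linarith only [hβx, ha'])]
      ring
  constructor
  · intro a ha hak
    rw [hdif a ha]
    have ha1 : ((8 * B : ℕ) : ℝ) ≤ a := by exact_mod_cast ha
    have ha2 : (a : ℝ) + 1 ≤ 16 * B := by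
      have : a + 1 ≤ 16 * B := by omega
      exact_mod_cast this
    push_cast at ha1
    have hd0 : (0 : ℝ) ≤ |(d : ℝ)| / th uu := by positivity
    constructor
    · have h1 := Gi_ge k hβ0 (x := (a : ℝ) + 1 / 2) (by linarith only [hβ2, ha1]) ((18 + k) * B) (by
        have hk : (k : ℝ) ≤ k * B := by nlinarith only [hB']
        linarith only [hβ2, ha2, hk])
      have h2 : (k.factorial : ℝ) / (2 * (18 + k : ℝ) ^ (k + 1)) / (B : ℝ) ^ k ≤
          β * (k.factorial / ((18 + k) * B) ^ (k + 1)) := by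
        rw [mul_pow, pow_succ (B : ℝ) k]
        have e : β * ((k.factorial : ℝ) / ((18 + k : ℝ) ^ (k + 1) * ((B : ℝ) ^ k * B))) =
          (k.factorial : ℝ) / (2 * (18 + k : ℝ) ^ (k + 1)) / (B : ℝ) ^ k * (2 * β / B) := by
          field_simp
        rw [e]
        have h3 : 1 ≤ 2 * β / B := by
          rw [le_div_iff₀ (by linarith only [ha2])]
          linarith only [hβ1]
        have h4 : 0 ≤ (k.factorial : ℝ) / (2 * (18 + k : ℝ) ^ (k + 1)) / (B : ℝ) ^ k := by
          positivity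
        nlinarith only [h3, h4]
      calc (k.factorial : ℝ) / (2 * (18 + k : ℝ) ^ (k + 1)) / th uu * |(d : ℝ)| / (B : ℝ) ^ k
          = |(d : ℝ)| / th uu * ((k.factorial : ℝ) / (2 * (18 + k : ℝ) ^ (k + 1)) / (B : ℝ) ^ k) := by
            ring
        _ ≤ _ := mul_le_mul_of_nonneg_left (h2.trans h1) hd0
    · have h1 := Gi_le k hβ0 (x := (a : ℝ) + 1 / 2) (by linarith only [hβ2, ha1]) (2 * B) (by linarith only [ha2])
        (by linarith only [hβ2, ha1])
      have h2 : β * ((k.factorial : ℝ) / (2 * B) ^ (k + 1)) ≤ k.factorial / (B : ℝ) ^ k := by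
        rw [mul_pow, pow_succ (B : ℝ) k]
        have e : β * ((k.factorial : ℝ) / (2 ^ (k + 1) * ((B : ℝ) ^ k * B))) =
          k.factorial / (B : ℝ) ^ k * (β / B / 2 ^ (k + 1)) := by
          field_simp
        rw [e]
        have h3 : β / B / 2 ^ (k + 1) ≤ 1 := by
          rw [div_div, div_le_one (by positivity)]
          have h5 : (2 : ℝ) ≤ 2 ^ (k + 1) := by
            rw [pow_succ]
            linarith only [one_le_pow₀ (n := k) (show (1 : ℝ) ≤ 2 by norm_num)]
          nlinarith only [hβ2, h5]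
        have h4 : 0 ≤ (k.factorial : ℝ) / (B : ℝ) ^ k := by positivity
        nlinarith only [h3, h4]
      calc |(d : ℝ)| / th uu * Gi k β (a + 1 / 2)
          ≤ |(d : ℝ)| / th uu * (k.factorial / (B : ℝ) ^ k) :=
            mul_le_mul_of_nonneg_left (h1.trans h2) hd0
        _ = _ := by ring
  · intro a ha hak
    rw [hdif a ha, hdif (a + 1) (by omega)]
    have ha1 : ((8 * B : ℕ) : ℝ) ≤ a := by exact_mod_cast ha
    have h1 := Gi_succ k hβ0 (x := (a : ℝ) + 1 / 2) (by linarith only [hβx, ha1])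
    have h2 := Gi_nonneg (k + 1) hβ0 (x := (a : ℝ) + 1 / 2) (by linarith only [hβx, ha1])
    apply mul_le_mul_of_nonneg_left _ (by positivity)
    push_cast
    rw [show (a : ℝ) + 1 + 1 / 2 = a + 1 / 2 + 1 by ring]
    linarith only [h1, h2]

lemma exp_large (K e : ℝ) (he : 0 < e) : ∃ B0 : ℕ, ∀ B : ℕ, B0 ≤ B → K ≤ (B : ℝ) ^ e := by
  have h := ((tendsto_rpow_atTop he).comp tendsto_natCast_atTop_atTop).eventually_ge_atTop K
  exact Filter.eventually_atTop.1 h

/-- small frequencies -/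
lemma inner_small : ∃ C : ℝ, 1 ≤ C ∧ ∃ B0 : ℕ, ∀ B : ℕ, B0 ≤ B → ∀ d : ℤ, d ≠ 0 →
    |(d : ℝ)| ≤ (B : ℝ) ^ ((3 : ℝ) / 4) → ∀ b ∈ Finset.Ico B (2 * B),
    ‖∑ i ∈ Finset.Ico (8 * B) (16 * B), ee (d * al (zz (i, b)))‖ ≤
      (8 * B : ℕ) * (C / |(d : ℝ)|) := by
  have hT := th_uu_pos
  set c : ℝ := (1 : ℕ).factorial / (2 * (18 + (1 : ℕ) : ℝ) ^ (1 + 1)) / th uu with hc
  have hc0 : 0 < c := by positivity
  obtain ⟨B1, hB1⟩ := exp_large (2 * ((1 : ℕ).factorial / th uu)) (1 / 4) (by norm_num)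
  refine ⟨max 1 (1 / (4 * c)), le_max_left _ _, max B1 1, ?_⟩
  intro B hB d hd hdB b hb
  have hB' : 1 ≤ B := le_trans (le_max_right _ _) hB
  have hBr : (1 : ℝ) ≤ B := by exact_mod_cast hB'
  have hBp : (0 : ℝ) < B := by linarith
  have hB2 := hB1 B (le_trans (le_max_left _ _) hB)
  have hd0 : 0 < |(d : ℝ)| := by
    rw [abs_pos]
    exact_mod_cast hd
  obtain ⟨g, hg1, hg2, hg3⟩ := reg_al 1 B b hB' hb d
  rw [hg1]
  rw [← hc] at hg2
  set lam : ℝ := c * |(d : ℝ)| / (B : ℝ) ^ 1 with hlam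
  have hlam0 : 0 < lam := by positivity
  have hLam : (1 : ℕ).factorial / th uu * |(d : ℝ)| / (B : ℝ) ^ 1 ≤ 1 / 2 := by
    rw [pow_one, div_le_iff₀ hBp]
    have h1 : (B : ℝ) = (B : ℝ) ^ ((3 : ℝ) / 4) * (B : ℝ) ^ ((1 : ℝ) / 4) := by
      rw [← Real.rpow_add hBp]
      norm_num
    have h2 : (1 : ℕ).factorial / th uu * |(d : ℝ)| ≤
        (1 : ℕ).factorial / th uu * (B : ℝ) ^ ((3 : ℝ) / 4) := by
      gcongr
    have h3 : 0 ≤ (B : ℝ) ^ ((3 : ℝ) / 4) := by positivity
    have h4 : 1 / 2 * (B : ℝ) = 1 / 2 * ((B : ℝ) ^ ((3 : ℝ) / 4) * (B : ℝ) ^ ((1 : ℝ) / 4)) := by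
      rw [← h1]
    rw [h4]
    nlinarith only [hB2, h2, h3]
  have hlam2 : lam ≤ 1 / 2 := by
    have := hg2 (8 * B) le_rfl (by omega)
    linarith only [hLam, this.1, this.2]
  have hk := kusmin g (8 * B) (8 * B) lam hlam0 hlam2 (by
    intro a ha ha2
    have := hg2 a ha (by omega)
    exact ⟨this.1, this.2.trans hLam⟩) (by
    intro a ha ha2
    exact hg3 a ha (by omega))
  rw [show 8 * B + 8 * B = 16 * B by ring] at hk
  refine hk.trans ?_
  rw [hlam, pow_one]
  have h5 : 1 / (4 * c) ≤ max 1 (1 / (4 * c)) := le_max_right _ _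
  have h6 : 2 / (c * |(d : ℝ)| / B) = (8 * B : ℕ) * (1 / (4 * c) / |(d : ℝ)|) := by
    push_cast
    field_simp
    ring
  rw [h6]
  gcongr

/-- one window of frequencies -/
lemma inner_window (k : ℕ) (hk : 1 ≤ k) (s s' r : ℝ) (hr : 0 < r) (hrs : r < s) (hrk : r ≤ k)
    (hs' : s' < 1 + r / 2) : ∃ δ : ℝ, 0 < δ ∧ ∃ B0 : ℕ, ∀ B : ℕ, B0 ≤ B → ∀ d : ℤ,
    (B : ℝ) ^ ((k : ℝ) + 1 - s') ≤ |(d : ℝ)| → |(d : ℝ)| ≤ (B : ℝ) ^ ((k : ℝ) + 1 - s) →
    ∀ b ∈ Finset.Ico B (2 * B),
    ‖∑ i ∈ Finset.Ico (8 * B) (16 * B), ee (d * al (zz (i, b)))‖ ≤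
      (8 * B : ℕ) * (B : ℝ) ^ (-δ) := by
  have hT := th_uu_pos
  have hk' : (1 : ℝ) ≤ k := by exact_mod_cast hk
  obtain ⟨Cw, hCw, hw⟩ := weyl k
  set c : ℝ := (k + 1).factorial / (2 * (18 + (k + 1 : ℕ) : ℝ) ^ (k + 1 + 1)) / th uu with hc
  have hc0 : 0 < c := by positivity
  set C : ℝ := (k + 1).factorial / th uu with hC
  have hC0 : 0 < C := by positivity
  set δ' : ℝ := min (r / (2 * k)) (1 - s' + r / 2) / 2 with hδ'
  have hδ0 : 0 < δ' := by
    rw [hδ']
    have : 0 < min (r / (2 * k)) (1 - s' + r / 2) := lt_min (by positivity) (by linarith)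
    linarith only [this]
  have hδ1 : δ' < r / (2 * k) := by
    have := min_le_left (r / (2 * k)) (1 - s' + r / 2)
    rw [hδ'] at hδ0 ⊢
    linarith
  have hδ2 : δ' < 1 - s' + r / 2 := by
    have := min_le_right (r / (2 * k)) (1 - s' + r / 2)
    rw [hδ'] at hδ0 ⊢
    linarith
  set δ : ℝ := δ' / 2 ^ k / 2 with hδ
  have hδp : 0 < δ := by positivity
  obtain ⟨B1, hB1⟩ := exp_large (2 * C) (s - r) (by linarith)
  obtain ⟨B2, hB2⟩ := exp_large 2 (r / (2 * k) - δ') (by linarith)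
  obtain ⟨B3, hB3⟩ := exp_large (2 ^ k / (8 * c)) (1 - s' + r / 2 - δ') (by linarith)
  obtain ⟨B4, hB4⟩ := exp_large Cw δ hδp
  refine ⟨δ, hδp, max (max B1 B2) (max (max B3 B4) 1), ?_⟩
  intro B hB d hd1 hd2 b hb
  simp only [max_le_iff] at hB
  obtain ⟨⟨hb1, hb2⟩, ⟨hb3, hb4⟩, hB'⟩ := hB
  replace hB1 := hB1 B hb1
  replace hB2 := hB2 B hb2
  replace hB3 := hB3 B hb3
  replace hB4 := hB4 B hb4
  have hBr : (1 : ℝ) ≤ B := by exact_mod_cast hB'
  have hBp : (0 : ℝ) < B := by linarith only [hBr]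
  obtain ⟨g, hg1, hg⟩ := reg_al (k + 1) B b hB' hb d
  rw [hg1]
  rw [← hc, ← hC] at hg
  set q : ℝ := |(d : ℝ)| / (B : ℝ) ^ (k + 1) with hq
  have hq1 : (B : ℝ) ^ (-s') ≤ q := by
    rw [hq, le_div_iff₀ (by positivity)]
    refine le_trans (le_of_eq ?_) hd1
    rw [← Real.rpow_natCast, ← Real.rpow_add hBp]
    congr 1
    push_cast
    ring
  have hq2 : q ≤ (B : ℝ) ^ (-s) := by
    rw [hq, div_le_iff₀ (by positivity)]
    refine le_trans hd2 (le_of_eq ?_)
    rw [← Real.rpow_natCast, ← Real.rpow_add hBp]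
    congr 1
    push_cast
    ring
  have hq0 : 0 < q := lt_of_lt_of_le (by positivity) hq1
  have e1 : c * |(d : ℝ)| / (B : ℝ) ^ (k + 1) = c * q := by rw [hq]; ring
  have e2 : C * |(d : ℝ)| / (B : ℝ) ^ (k + 1) = C * q := by rw [hq]; ring
  rw [e1, e2] at hg
  -- the length of the shifts
  set u : ℝ := (B : ℝ) ^ (r / (2 * k)) with hu
  have hu1 : 1 ≤ u := Real.one_le_rpow hBr (by positivity)
  have hu2 : u ^ 2 = (B : ℝ) ^ (r / k) := by
    rw [hu, ← Real.rpow_natCast, ← Real.rpow_mul hBp.le]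
    congr 1
    push_cast
    field_simp
  have huk : u ^ k = (B : ℝ) ^ (r / 2) := by
    rw [hu, ← Real.rpow_natCast, ← Real.rpow_mul hBp.le]
    congr 1
    field_simp
  set R : ℕ := ⌊u ^ 2⌋₊ with hR
  have hR1 : 1 ≤ R := by
    rw [hR, Nat.one_le_floor_iff]
    nlinarith only [hu1]
  have hR1' : (1 : ℝ) ≤ R := by exact_mod_cast hR1
  have hRle : (R : ℝ) ≤ u ^ 2 := Nat.floor_le (by positivity)
  have hRge : u ^ 2 / 2 ≤ R := by
    have := Nat.lt_floor_add_one (u ^ 2)
    rw [← hR] at this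
    linarith only [hR1', this]
  have hsq : u / 2 ≤ √(R : ℝ) := by
    apply Real.le_sqrt_of_sq_le
    linarith only [hRge]
  have hRB : R ≤ 8 * B := by
    have h1 : (R : ℝ) ≤ B := by
      refine hRle.trans ?_
      rw [hu2]
      calc (B : ℝ) ^ (r / k) ≤ (B : ℝ) ^ (1 : ℝ) := by
            apply Real.rpow_le_rpow_of_exponent_le hBr
            rw [div_le_one (by linarith only [hk'])]
            exact hrk
        _ = B := Real.rpow_one _
    have h2 : R ≤ B := by exact_mod_cast h1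
    omega
  have hRk : (R : ℝ) ^ k ≤ (B : ℝ) ^ r := by
    calc (R : ℝ) ^ k ≤ (u ^ 2) ^ k := pow_le_pow_left₀ (by positivity) hRle k
      _ = (u ^ k) ^ 2 := by rw [← pow_mul, ← pow_mul, mul_comm]
      _ = (B : ℝ) ^ r := by
        rw [huk, ← Real.rpow_natCast, ← Real.rpow_mul hBp.le]
        congr 1
        push_cast
        ring
  have key := hw (8 * B) R (8 * B) (16 * B) (c * q) (C * q) ((B : ℝ) ^ (-δ')) g hR1 hRB
    (by omega) (by positivity) (by
      have h1 := hg.1 (8 * B) le_rfl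
      apply mul_le_mul_of_nonneg_right _ hq0.le
      rw [hc, hC]
      apply div_le_div_of_nonneg_right _ hT.le
      apply div_le_self (by positivity)
      have h2 : (1 : ℝ) ≤ (18 + (k + 1 : ℕ) : ℝ) ^ (k + 1 + 1) := by
        apply one_le_pow₀
        push_cast
        linarith only []
      linarith only [h2]) (by
      calc (R : ℝ) ^ k * (C * q) ≤ (B : ℝ) ^ r * (C * (B : ℝ) ^ (-s)) := by gcongr
        _ = C / (B : ℝ) ^ (s - r) := by
          rw [eq_div_iff (by positivity)]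
          have : (B : ℝ) ^ r * (B : ℝ) ^ (-s) * (B : ℝ) ^ (s - r) = 1 := by
            rw [← Real.rpow_add hBp, ← Real.rpow_add hBp]
            rw [show r + -s + (s - r) = 0 by ring, Real.rpow_zero]
          linear_combination C * this
        _ ≤ 1 / 2 := by
          rw [div_le_iff₀ (by positivity)]
          linarith only [hB1]) hg (by
      rw [Real.rpow_neg hBp.le, ← one_div]
      apply one_div_le_one_div_of_le (by positivity)
      refine le_trans ?_ hsq
      rw [le_div_iff₀ (by norm_num)]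
      calc (B : ℝ) ^ δ' * 2 ≤ (B : ℝ) ^ δ' * (B : ℝ) ^ (r / (2 * k) - δ') := by gcongr
        _ = u := by
          rw [← Real.rpow_add hBp, hu]
          congr 1
          ring) (by
      rw [Real.rpow_neg hBp.le, ← one_div]
      apply one_div_le_one_div_of_le (by positivity)
      have h1 : (B : ℝ) ^ (r / 2) / 2 ^ k ≤ √(R : ℝ) ^ k := by
        rw [← huk, ← div_pow]
        exact pow_le_pow_left₀ (by positivity) hsq k
      calc (B : ℝ) ^ δ' ≤ (8 * c / 2 ^ k) * ((B : ℝ) ^ δ' * (B : ℝ) ^ (1 - s' + r / 2 - δ')) := by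
            have h2 : 1 ≤ (8 * c / 2 ^ k) * (B : ℝ) ^ (1 - s' + r / 2 - δ') := by
              rw [div_le_iff₀ (by positivity)] at hB3
              rw [div_mul_eq_mul_div, le_div_iff₀ (by positivity)]
              linarith only [hB3]
            have h3 : 0 < (B : ℝ) ^ δ' := by positivity
            nlinarith only [h2, h3]
        _ = (8 * B) * (c * (B : ℝ) ^ (-s')) * ((B : ℝ) ^ (r / 2) / 2 ^ k) := by
            have h4 : (B : ℝ) ^ δ' * (B : ℝ) ^ (1 - s' + r / 2 - δ') =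
                B * (B : ℝ) ^ (-s') * (B : ℝ) ^ (r / 2) := by
              rw [← Real.rpow_add hBp]
              nth_rewrite 2 [← Real.rpow_one (B : ℝ)]
              rw [← Real.rpow_add hBp, ← Real.rpow_add hBp]
              congr 1
              ring
            rw [h4]
            ring
        _ ≤ ((8 * B : ℕ) : ℝ) * (c * q) * √(R : ℝ) ^ k := by
            push_cast
            gcongr) (by
      apply Real.rpow_le_one_of_one_le_of_nonpos hBr
      linarith only [hδ0])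
  refine key.trans ?_
  have h5 : ((B : ℝ) ^ (-δ')) ^ ((1 : ℝ) / 2 ^ k) = (B : ℝ) ^ (-δ) * (B : ℝ) ^ (-δ) := by
    rw [← Real.rpow_mul hBp.le, ← Real.rpow_add hBp]
    congr 1
    rw [hδ]
    ring
  rw [h5]
  have h6 : Cw * (B : ℝ) ^ (-δ) ≤ 1 := by
    rw [Real.rpow_neg hBp.le, ← div_eq_mul_inv, div_le_one (by positivity)]
    exact hB4
  have h7 : 0 ≤ ((8 * B : ℕ) : ℝ) * (B : ℝ) ^ (-δ) := by positivity
  nlinarith only [h6, h7]

/-- all windows -/
lemma inner_all (K : ℕ) : ∃ δ : ℝ, 0 < δ ∧ ∃ B0 : ℕ, ∀ B : ℕ, B0 ≤ B → ∀ d : ℤ,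
    (B : ℝ) ^ ((3 : ℝ) / 4) < |(d : ℝ)| → |(d : ℝ)| ≤ (B : ℝ) ^ ((K : ℝ) + 3 / 4) →
    ∀ b ∈ Finset.Ico B (2 * B),
    ‖∑ i ∈ Finset.Ico (8 * B) (16 * B), ee (d * al (zz (i, b)))‖ ≤
      (8 * B : ℕ) * (B : ℝ) ^ (-δ) := by
  induction K with
  | zero =>
    refine ⟨1, one_pos, 0, ?_⟩
    intro B _ d h1 h2
    exfalso
    rw [Nat.cast_zero, zero_add] at h2
    linarith
  | succ K ih =>
    obtain ⟨δ1, hδ1, B1, h1⟩ := ih
    obtain ⟨δ2, hδ2, B2, h2⟩ := inner_window (K + 1) (by omega) (3 / 4) (5 / 4) (5 / 8)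
      (by norm_num) (by norm_num) (by push_cast; linarith [show (0 : ℝ) ≤ K by positivity])
      (by norm_num)
    obtain ⟨δ3, hδ3, B3, h3⟩ := inner_window (K + 1) (by omega) (1 / 4) (3 / 4) (3 / 16)
      (by norm_num) (by norm_num) (by push_cast; linarith [show (0 : ℝ) ≤ K by positivity])
      (by norm_num)
    refine ⟨min δ1 (min δ2 δ3), by positivity, max (max B1 B2) (max B3 1), ?_⟩
    intro B hB d hd1 hd2 b hb
    simp only [max_le_iff] at hB
    obtain ⟨⟨hb1, hb2⟩, hb3, hB'⟩ := hB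
    have hBr : (1 : ℝ) ≤ B := by exact_mod_cast hB'
    have mono : ∀ δ, min δ1 (min δ2 δ3) ≤ δ → (8 * B : ℕ) * (B : ℝ) ^ (-δ) ≤
        (8 * B : ℕ) * (B : ℝ) ^ (-(min δ1 (min δ2 δ3))) := by
      intro δ h
      apply mul_le_mul_of_nonneg_left _ (by positivity)
      apply Real.rpow_le_rpow_of_exponent_le hBr
      linarith
    rcases le_or_gt |(d : ℝ)| ((B : ℝ) ^ ((K : ℝ) + 3 / 4)) with h | h
    · exact (h1 B hb1 d hd1 h b hb).trans (mono _ (min_le_left _ _))
    rcases le_or_gt |(d : ℝ)| ((B : ℝ) ^ (((K + 1 : ℕ) : ℝ) + 1 - 3 / 4)) with h' | h'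
    · refine (h2 B hb2 d ?_ h' b hb).trans
        (mono _ ((min_le_right _ _).trans (min_le_left _ _)))
      refine le_trans (le_of_eq ?_) h.le
      congr 1
      push_cast
      ring
    · refine (h3 B hb3 d h'.le ?_ b hb).trans
        (mono _ ((min_le_right _ _).trans (min_le_right _ _)))
      refine le_trans hd2 (le_of_eq ?_)
      congr 1
      push_cast
      ring

theorem expsum : ∃ C δ : ℝ, 1 ≤ C ∧ 0 < δ ∧ ∃ B0 : ℕ, ∀ B : ℕ, B0 ≤ B → ∀ d : ℤ, d ≠ 0 →
    (|d| : ℝ) ≤ (B : ℝ) ^ 13 →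
    ‖∑ p ∈ bx B, ee (d * al (zz p))‖ ≤ (bx B).card * (C / |(d : ℝ)| + (B : ℝ) ^ (-δ)) := by
  obtain ⟨C, hC, B1, h1⟩ := inner_small
  obtain ⟨δ, hδ, B2, h2⟩ := inner_all 13
  refine ⟨C, δ, hC, hδ, max (max B1 B2) 1, ?_⟩
  intro B hB d hd hdB
  simp only [max_le_iff] at hB
  obtain ⟨⟨hb1, hb2⟩, hB'⟩ := hB
  have hBr : (1 : ℝ) ≤ B := by exact_mod_cast hB'
  have key : ∀ b ∈ Finset.Ico B (2 * B),
      ‖∑ i ∈ Finset.Ico (8 * B) (16 * B), ee (d * al (zz (i, b)))‖ ≤
      (8 * B : ℕ) * (C / |(d : ℝ)| + (B : ℝ) ^ (-δ)) := by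
    intro b hb
    have p1 : 0 ≤ C / |(d : ℝ)| := by positivity
    have p2 : 0 ≤ (B : ℝ) ^ (-δ) := by positivity
    have p3 : 0 ≤ ((8 * B : ℕ) : ℝ) := by positivity
    rcases le_or_gt |(d : ℝ)| ((B : ℝ) ^ ((3 : ℝ) / 4)) with h | h
    · refine (h1 B hb1 d hd h b hb).trans ?_
      gcongr
      linarith
    · refine (h2 B hb2 d h ?_ b hb).trans ?_
      · refine hdB.trans ?_
        rw [← Real.rpow_natCast]
        apply Real.rpow_le_rpow_of_exponent_le hBr
        push_cast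
        norm_num
      · gcongr
        linarith
  have hcard : ((bx B).card : ℝ) = (B : ℝ) * (8 * B : ℕ) := by
    rw [bx, Finset.card_product, Nat.card_Ico, Nat.card_Ico]
    rw [show 16 * B - 8 * B = 8 * B by omega, show 2 * B - B = B by omega]
    push_cast
    ring
  rw [bx, Finset.sum_product_right]
  refine (norm_sum_le _ _).trans ((Finset.sum_le_sum key).trans ?_)
  rw [Finset.sum_const, Nat.card_Ico, nsmul_eq_mul, ← bx, hcard]
  rw [show 2 * B - B = B by omega, mul_assoc]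

end

end Pool.Agent.Lib.MP_0b748d_nt
end
end

section

set_option autoImplicit false

/-!
# Near orthogonality: duality, harmonic sums over separated sets, separation
-/

namespace Pool.Agent.Lib.MP_0b748d_nt

open Zsqrtd

noncomputable section

lemma NearOrth_ee_sub (x y : ℝ) : ee (x - y) = ee x * (starRingEnd ℂ) (ee y) := by
  rw [sub_eq_add_neg, ee_add, ee_neg]

/-- `‖ee t - 1‖ = 2 |sin (π t)|` -/
lemma NearOrth_norm_ee_sub_one (t : ℝ) : ‖ee t - 1‖ = 2 * |Real.sin (Real.pi * t)| := by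
  have h := Complex.norm_exp_I_mul_ofReal_sub_one (2 * Real.pi * t)
  have h2 : ee t = Complex.exp (Complex.I * ((2 * Real.pi * t : ℝ) : ℂ)) := by
    simp only [ee]
    congr 1
    push_cast
    ring
  rw [h2, h, show 2 * Real.pi * t / 2 = Real.pi * t by ring, Real.norm_eq_abs, abs_mul]
  norm_num

lemma NearOrth_norm_ee_sub_one_ge (t : ℝ) (h0 : 0 ≤ t) (h1 : t ≤ 1 / 2) :
    4 * t ≤ ‖ee t - 1‖ := by
  rw [NearOrth_norm_ee_sub_one]
  have hpi := Real.pi_pos
  have h := Real.mul_le_sin (x := Real.pi * t) (by positivity) (by nlinarith)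
  have h2 : 2 / Real.pi * (Real.pi * t) = 2 * t := by
    field_simp
  rw [h2] at h
  have h3 := le_abs_self (Real.sin (Real.pi * t))
  linarith

lemma NearOrth_th_uu : th uu = Real.log (3 + 2 * √2) := by
  have e1 : s1 uu = 3 + 2 * √2 := by simp [s1, uu]
  have e2 : s2 uu = (3 + 2 * √2)⁻¹ := by
    have h := sq2
    have hp := sqrt2_pos
    apply eq_inv_of_mul_eq_one_left
    simp only [s2, uu]
    push_cast
    linarith only [h]
  rw [th, e1, e2, Real.log_inv]
  ring

lemma NearOrth_th_uu_le : th uu ≤ 2 := by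
  rw [NearOrth_th_uu, Real.log_le_iff_le_exp (by positivity)]
  have h1 := Real.exp_one_gt_d9
  have h2 : Real.exp 2 = Real.exp 1 * Real.exp 1 := by
    rw [← Real.exp_add]; norm_num
  have h3 := sqrt2_lt
  rw [h2]
  nlinarith

lemma NearOrth_th_uu_ge : 3 / 2 ≤ th uu := by
  rw [NearOrth_th_uu]
  have hp := sqrt2_pos
  have h3 := lt_sqrt2
  have h1 := Real.exp_one_lt_d9
  have h0 := Real.exp_pos 1
  have h2 : Real.exp 3 = Real.exp 1 * Real.exp 1 * Real.exp 1 := by
    rw [← Real.exp_add, ← Real.exp_add]; norm_num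
  have h4 : Real.exp 3 ≤ (3 + 2 * √2) ^ 2 := by
    have h5 : Real.exp 1 * Real.exp 1 ≤ 2.72 * 2.72 := by
      apply mul_le_mul <;> linarith
    have h6 : Real.exp 1 * Real.exp 1 * Real.exp 1 ≤ 2.72 * 2.72 * 2.72 := by
      apply mul_le_mul h5 (by linarith) h0.le (by norm_num)
    rw [h2]
    nlinarith only [h3, h1, h0]
  have h5 : (3 : ℝ) ≤ Real.log ((3 + 2 * √2) ^ 2) := by
    rw [Real.le_log_iff_exp_le (by positivity)]
    exact h4
  rw [Real.log_pow] at h5
  push_cast at h5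
  linarith

theorem sep (X : ℕ) (m m' : ℤ) (t : ℕ → ℝ)
    (h : ∀ x : ℕ, 3 ≤ x → x ≤ X → x % 2 = 1 →
      ‖ee (m * al (tx x)) - t x‖ ≤ 1 / 16 ∧ ‖ee (m' * al (tx x)) - t x‖ ≤ 1 / 16)
    (hne : m ≠ m') : (X : ℤ) ≤ 10 * |m - m'| := by
  by_contra hcon
  push Not at hcon
  set P := th uu with hP
  have hP1 : 3 / 2 ≤ P := NearOrth_th_uu_ge
  have hP2 : P ≤ 2 := NearOrth_th_uu_le
  -- wlog m' < m
  wlog hlt : m' < m generalizing m m'
  · refine this m' m (fun x h1 h2 h3 => ?_) hne.symm ?_ ?_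
    · exact ⟨(h x h1 h2 h3).2, (h x h1 h2 h3).1⟩
    · rw [abs_sub_comm]; exact hcon
    · omega
  have hd : 1 ≤ m - m' := by omega
  rw [abs_of_nonneg (by omega)] at hcon
  set d : ℝ := ((m - m' : ℤ) : ℝ) with hdd
  have hd1 : 1 ≤ d := by rw [hdd]; exact_mod_cast hd
  have hX : 10 * d + 1 ≤ (X : ℝ) := by
    have : 10 * (m - m') + 1 ≤ (X : ℤ) := by omega
    rw [hdd]
    exact_mod_cast this
  -- choice of x
  obtain ⟨x, hx1, hx2, hx3⟩ : ∃ x : ℕ, x % 2 = 1 ∧ 10 * d / P ≤ x ∧ (x : ℝ) ≤ 10 * d / P + 2 := by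
    have hpos : 0 ≤ 10 * d / P := by positivity
    set y : ℝ := 10 * d / P with hy
    set k : ℕ := ⌈(y - 1) / 2⌉₊ with hk
    refine ⟨2 * k + 1, by omega, ?_, ?_⟩
    · have := Nat.le_ceil ((y - 1) / 2)
      push_cast
      linarith only [this]
    · have h1 : 5 ≤ y := by
        rw [hy, le_div_iff₀ (by linarith)]
        linarith only [hP2, hd1]
      have := Nat.ceil_lt_add_one (a := (y - 1) / 2) (by linarith)
      push_cast
      linarith
  have hy5 : 5 ≤ 10 * d / P := by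
    rw [le_div_iff₀ (by linarith)]
    linarith only [hP2, hd1]
  have hy6 : 10 * d / P ≤ 20 * d / 3 := by
    rw [div_le_div_iff₀ (by linarith) (by norm_num)]
    nlinarith only [hP1, hd1]
  have hxX : x ≤ X := by
    have : (x : ℝ) ≤ X := by linarith
    exact_mod_cast this
  have hx3' : 3 ≤ x := by
    have : (3 : ℝ) ≤ x := by linarith
    exact_mod_cast this
  have hxpos : (0 : ℝ) < x := by linarith
  obtain ⟨ha, hb⟩ := h x hx3' hxX hx1
  have hdist : ‖ee (m * al (tx x)) - ee (m' * al (tx x))‖ ≤ 1 / 8 := by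
    have : ee (m * al (tx x)) - ee (m' * al (tx x)) =
        (ee (m * al (tx x)) - t x) - (ee (m' * al (tx x)) - t x) := by ring
    rw [this]
    refine (norm_sub_le _ _).trans ?_
    linarith
  have hdist2 : ‖ee (d * al (tx x)) - 1‖ ≤ 1 / 8 := by
    have e1 : ee (m * al (tx x)) - ee (m' * al (tx x)) =
        ee (m' * al (tx x)) * (ee (d * al (tx x)) - 1) := by
      have : (m : ℝ) * al (tx x) = m' * al (tx x) + d * al (tx x) := by
        rw [hdd]; push_cast; ring
      rw [this, ee_add]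
      ring
    rw [e1, _root_.norm_mul, norm_ee, one_mul] at hdist
    exact hdist
  have hal : al (tx x) = th (tx x) / P := rfl
  have hge := th_tx_ge (x := x) (by omega)
  have hle := th_tx_le (x := x) (by omega)
  have ht1 : 1 / 28 ≤ d * al (tx x) := by
    rw [hal]
    have h1 : d * (1 / (2 * (x : ℝ)) / P) ≤ d * (th (tx x) / P) := by gcongr
    refine le_trans ?_ h1
    have h2 : (x : ℝ) * P ≤ 10 * d + 2 * P := by
      have := mul_le_mul_of_nonneg_right hx3 (by linarith only [hP1] : (0 : ℝ) ≤ P)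
      have e : (10 * d / P + 2) * P = 10 * d + 2 * P := by
        field_simp
      linarith only [this, e]
    have e : d * (1 / (2 * (x : ℝ)) / P) = d / (2 * (x * P)) := by
      field_simp
    rw [e, div_le_div_iff₀ (by norm_num) (by positivity)]
    linarith only [hP2, hd1, h2]
  have ht2 : d * al (tx x) ≤ 1 / 2 := by
    rw [hal]
    have h1 : d * (th (tx x) / P) ≤ d * (5 / (x : ℝ) / P) := by gcongr
    refine le_trans h1 ?_
    have e : d * (5 / (x : ℝ) / P) = 5 * d / (x * P) := by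
      field_simp
    have h2 : 10 * d ≤ x * P := by
      have := mul_le_mul_of_nonneg_right hx2 (by linarith only [hP1] : (0 : ℝ) ≤ P)
      have e : (10 * d / P) * P = 10 * d := by
        field_simp
      linarith only [this, e]
    rw [e, div_le_div_iff₀ (by linarith only [hd1, h2]) (by norm_num)]
    linarith only [h2]
  have h4 := NearOrth_norm_ee_sub_one_ge (d * al (tx x)) (by linarith only [ht1]) ht2
  linarith only [hdist2, ht1, h4]

/-- harmonic sum over a separated set of positive integers -/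
lemma NearOrth_harm_pos (A : Finset ℕ) (S L : ℕ) (hS : 1 ≤ S) (h1 : ∀ a ∈ A, S ≤ a)
    (h2 : ∀ a ∈ A, a ≤ L) (hsep : ∀ a ∈ A, ∀ b ∈ A, a < b → S ≤ b - a) :
    ∑ a ∈ A, 1 / (a : ℝ) ≤ 1 / S * (1 + Real.log L) := by
  have hSr : (0 : ℝ) < S := by exact_mod_cast hS
  have hinj : Set.InjOn (fun a => a / S) (A : Set ℕ) := by
    intro a ha b hb hab
    simp only at hab
    have key : ∀ a ∈ A, ∀ b ∈ A, a < b → a / S ≠ b / S := by
      intro a ha b hb hlt heq
      have := hsep a ha b hb hlt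
      have h3 : a / S + 1 ≤ b / S := by
        rw [← Nat.add_div_right a (by omega : 0 < S)]
        exact Nat.div_le_div_right (by omega)
      omega
    rcases lt_trichotomy a b with h | h | h
    · exact absurd hab (key a ha b hb h)
    · exact h
    · exact absurd hab.symm (key b hb a ha h)
  calc ∑ a ∈ A, 1 / (a : ℝ) ≤ ∑ a ∈ A, 1 / (S : ℝ) * (1 / ((a / S : ℕ) : ℝ)) := by
        apply Finset.sum_le_sum
        intro a ha
        have h3 : 1 ≤ a / S := (Nat.one_le_div_iff (by omega)).2 (h1 a ha)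
        have h4 : S * (a / S) ≤ a := Nat.mul_div_le a S
        have h5 : (S : ℝ) * ((a / S : ℕ) : ℝ) ≤ a := by exact_mod_cast h4
        have h6 : (0 : ℝ) < ((a / S : ℕ) : ℝ) := by exact_mod_cast h3
        rw [one_div_mul_one_div]
        exact one_div_le_one_div_of_le (by positivity) h5
    _ = 1 / (S : ℝ) * ∑ j ∈ A.image (fun a => a / S), 1 / (j : ℝ) := by
        rw [Finset.sum_image hinj, Finset.mul_sum]
    _ ≤ 1 / (S : ℝ) * ∑ j ∈ Finset.Icc 1 L, 1 / (j : ℝ) := by
        apply mul_le_mul_of_nonneg_left _ (by positivity)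
        apply Finset.sum_le_sum_of_subset_of_nonneg
        · intro j hj
          obtain ⟨a, ha, rfl⟩ := Finset.mem_image.1 hj
          rw [Finset.mem_Icc]
          exact ⟨(Nat.one_le_div_iff (by omega)).2 (h1 a ha), (Nat.div_le_self a S).trans (h2 a ha)⟩
        · intro j _ _
          positivity
    _ ≤ 1 / (S : ℝ) * (1 + Real.log L) := by
        apply mul_le_mul_of_nonneg_left _ (by positivity)
        have := harmonic_le_one_add_log L
        rw [harmonic_eq_sum_Icc] at this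
        push_cast at this
        simpa [one_div] using this

theorem harm (M : Finset ℤ) (S T : ℕ) (hS : 1 ≤ S) (hT : 1 ≤ T) (hM : ∀ m ∈ M, |m| ≤ (T : ℤ))
    (hsep : ∀ m ∈ M, ∀ m' ∈ M, m ≠ m' → (S : ℤ) ≤ |m - m'|) (m : ℤ) (hm : m ∈ M) :
    ∑ m' ∈ M.erase m, 1 / |((m - m' : ℤ) : ℝ)| ≤ 2 / S * (1 + Real.log (2 * T)) := by
  have hsplit : ∑ m' ∈ M.erase m, 1 / |((m - m' : ℤ) : ℝ)| =
      ∑ m' ∈ (M.erase m).filter (fun m' => m < m'), 1 / |((m - m' : ℤ) : ℝ)| +
      ∑ m' ∈ (M.erase m).filter (fun m' => ¬ m < m'), 1 / |((m - m' : ℤ) : ℝ)| :=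
    (Finset.sum_filter_add_sum_filter_not _ _ _).symm
  have hmT := abs_le.1 (hM m hm)
  have hR : ∑ m' ∈ (M.erase m).filter (fun m' => m < m'), 1 / |((m - m' : ℤ) : ℝ)| ≤
      1 / S * (1 + Real.log (2 * T)) := by
    have hinj : Set.InjOn (fun m' : ℤ => (m' - m).toNat)
        (((M.erase m).filter (fun m' => m < m') : Finset ℤ) : Set ℤ) := by
      intro a ha b hb hab
      simp only [Finset.coe_filter, Finset.mem_erase, Set.mem_ofPred_eq] at ha hb
      simp only at hab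
      omega
    have e : ∑ m' ∈ (M.erase m).filter (fun m' => m < m'), 1 / |((m - m' : ℤ) : ℝ)| =
        ∑ a ∈ ((M.erase m).filter (fun m' => m < m')).image (fun m' : ℤ => (m' - m).toNat),
          1 / (a : ℝ) := by
      rw [Finset.sum_image hinj]
      apply Finset.sum_congr rfl
      intro a ha
      simp only [Finset.mem_filter, Finset.mem_erase] at ha
      have h1 : (((a - m).toNat : ℕ) : ℤ) = a - m := Int.toNat_of_nonneg (by omega)
      have h2 : (((a - m).toNat : ℕ) : ℝ) = ((a - m : ℤ) : ℝ) := by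
        exact_mod_cast congrArg (Int.cast : ℤ → ℝ) h1
      rw [h2, ← Int.cast_abs, abs_sub_comm, abs_of_nonneg (by omega)]
    rw [e]
    have := NearOrth_harm_pos (((M.erase m).filter (fun m' => m < m')).image
      (fun m' : ℤ => (m' - m).toNat)) S (2 * T) hS ?_ ?_ ?_
    · push_cast at this
      exact this
    · intro a ha
      simp only [Finset.mem_image, Finset.mem_filter, Finset.mem_erase] at ha
      obtain ⟨b, ⟨⟨hb1, hb2⟩, hb3⟩, rfl⟩ := ha
      have := hsep b hb2 m hm hb1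
      rw [abs_of_nonneg (by omega)] at this
      omega
    · intro a ha
      simp only [Finset.mem_image, Finset.mem_filter, Finset.mem_erase] at ha
      obtain ⟨b, ⟨⟨hb1, hb2⟩, hb3⟩, rfl⟩ := ha
      have := abs_le.1 (hM b hb2)
      omega
    · intro a ha b hb hab
      simp only [Finset.mem_image, Finset.mem_filter, Finset.mem_erase] at ha hb
      obtain ⟨a, ⟨⟨ha1, ha2⟩, ha3⟩, rfl⟩ := ha
      obtain ⟨b, ⟨⟨hb1, hb2⟩, hb3⟩, rfl⟩ := hb
      have := hsep b hb2 a ha2 (by rintro rfl; omega)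
      rw [abs_of_nonneg (by omega)] at this
      omega
  have hL : ∑ m' ∈ (M.erase m).filter (fun m' => ¬ m < m'), 1 / |((m - m' : ℤ) : ℝ)| ≤
      1 / S * (1 + Real.log (2 * T)) := by
    have hinj : Set.InjOn (fun m' : ℤ => (m - m').toNat)
        (((M.erase m).filter (fun m' => ¬ m < m') : Finset ℤ) : Set ℤ) := by
      intro a ha b hb hab
      simp only [Finset.coe_filter, Finset.mem_erase, Set.mem_ofPred_eq] at ha hb
      simp only at hab
      omega
    have e : ∑ m' ∈ (M.erase m).filter (fun m' => ¬ m < m'), 1 / |((m - m' : ℤ) : ℝ)| =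
        ∑ a ∈ ((M.erase m).filter (fun m' => ¬ m < m')).image (fun m' : ℤ => (m - m').toNat),
          1 / (a : ℝ) := by
      rw [Finset.sum_image hinj]
      apply Finset.sum_congr rfl
      intro a ha
      simp only [Finset.mem_filter, Finset.mem_erase] at ha
      have h1 : (((m - a).toNat : ℕ) : ℤ) = m - a := Int.toNat_of_nonneg (by omega)
      have h2 : (((m - a).toNat : ℕ) : ℝ) = ((m - a : ℤ) : ℝ) := by
        exact_mod_cast congrArg (Int.cast : ℤ → ℝ) h1
      rw [h2, ← Int.cast_abs, abs_of_nonneg (by omega)]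
    rw [e]
    have := NearOrth_harm_pos (((M.erase m).filter (fun m' => ¬ m < m')).image
      (fun m' : ℤ => (m - m').toNat)) S (2 * T) hS ?_ ?_ ?_
    · push_cast at this
      exact this
    · intro a ha
      simp only [Finset.mem_image, Finset.mem_filter, Finset.mem_erase] at ha
      obtain ⟨b, ⟨⟨hb1, hb2⟩, hb3⟩, rfl⟩ := ha
      have := hsep m hm b hb2 (Ne.symm hb1)
      rw [abs_of_nonneg (by omega)] at this
      omega
    · intro a ha
      simp only [Finset.mem_image, Finset.mem_filter, Finset.mem_erase] at ha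
      obtain ⟨b, ⟨⟨hb1, hb2⟩, hb3⟩, rfl⟩ := ha
      have := abs_le.1 (hM b hb2)
      omega
    · intro a ha b hb hab
      simp only [Finset.mem_image, Finset.mem_filter, Finset.mem_erase] at ha hb
      obtain ⟨a, ⟨⟨ha1, ha2⟩, ha3⟩, rfl⟩ := ha
      obtain ⟨b, ⟨⟨hb1, hb2⟩, hb3⟩, rfl⟩ := hb
      have := hsep a ha2 b hb2 (by rintro rfl; omega)
      rw [abs_of_nonneg (by omega)] at this
      omega
  rw [hsplit]
  calc _ ≤ 1 / S * (1 + Real.log (2 * T)) + 1 / S * (1 + Real.log (2 * T)) := add_le_add hR hL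
    _ = _ := by ring

theorem dual_bound {ι : Type*} (Zs : Finset ι) (hZ : Zs.Nonempty) (a : ι → ℝ) (s : ι → ℝ)
    (hs : ∀ i, s i = 1 ∨ s i = -1) (M : Finset ℤ)
    (hM : ∀ m ∈ M, ∑ m' ∈ M.erase m, ‖(∑ i ∈ Zs, ee (((m - m' : ℤ) : ℝ) * a i)) / (Zs.card : ℂ)‖ ≤
      3 / 10) :
    ∑ m ∈ M, ‖(∑ i ∈ Zs, (s i : ℂ) * ee (m * a i)) / (Zs.card : ℂ)‖ ^ 2 ≤ 13 / 10 := by
  obtain ⟨n, hn⟩ : ∃ n : ℝ, n = Zs.card := ⟨_, rfl⟩
  have hn0 : 0 < n := by rw [hn]; exact_mod_cast hZ.card_pos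
  have hnc : (Zs.card : ℂ) = (n : ℂ) := by rw [hn]; simp
  simp only [hnc] at hM ⊢
  set x : ℤ → ℂ := fun m => (∑ i ∈ Zs, (s i : ℂ) * ee (m * a i)) / (n : ℂ) with hx
  set g : ι → ℂ := fun i => ∑ m ∈ M, (starRingEnd ℂ) (x m) * ee (m * a i) with hg
  set K : ℤ → ℤ → ℂ := fun m m' => (∑ i ∈ Zs, ee (((m - m' : ℤ) : ℝ) * a i)) / (n : ℂ) with hK
  set Sx : ℝ := ∑ m ∈ M, ‖x m‖ ^ 2 with hSx
  change Sx ≤ 13 / 10
  have hM' : ∀ m ∈ M, ∑ m' ∈ M.erase m, ‖K m m'‖ ≤ 3 / 10 := hM
  have hSx0 : 0 ≤ Sx := Finset.sum_nonneg (fun _ _ => by positivity)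
  -- duality
  have h1 : ((Sx : ℝ) : ℂ) = (∑ i ∈ Zs, (s i : ℂ) * g i) / (n : ℂ) := by
    have e1 : ((Sx : ℝ) : ℂ) = ∑ m ∈ M, (starRingEnd ℂ) (x m) * x m := by
      rw [hSx]
      push_cast
      apply Finset.sum_congr rfl
      intro m _
      rw [mul_comm, Complex.mul_conj, Complex.normSq_eq_norm_sq]
      push_cast
      rfl
    have e2 : ∀ m, (starRingEnd ℂ) (x m) * x m =
        ∑ i ∈ Zs, (s i : ℂ) * ((starRingEnd ℂ) (x m) * ee (m * a i)) / (n : ℂ) := by
      intro m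
      have : x m = (∑ i ∈ Zs, (s i : ℂ) * ee (m * a i)) / (n : ℂ) := rfl
      conv_lhs => rw [this]
      rw [← this, ← Finset.sum_div, mul_div_assoc', Finset.mul_sum]
      congr 1
      apply Finset.sum_congr rfl
      intro i _
      ring
    rw [e1, Finset.sum_congr rfl (fun m _ => e2 m), Finset.sum_comm, Finset.sum_div]
    apply Finset.sum_congr rfl
    intro i _
    rw [← Finset.sum_div, hg, Finset.mul_sum]
  have h2 : Sx ≤ (∑ i ∈ Zs, ‖g i‖) / n := by
    have : Sx = ‖((Sx : ℝ) : ℂ)‖ := by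
      rw [Complex.norm_real, Real.norm_of_nonneg hSx0]
    rw [this, h1, _root_.norm_div, Complex.norm_real, Real.norm_of_nonneg hn0.le]
    gcongr
    refine (norm_sum_le _ _).trans ?_
    apply Finset.sum_le_sum
    intro i _
    rw [_root_.norm_mul, Complex.norm_real]
    rcases hs i with h | h <;> rw [h] <;> simp
  have h3 : Sx ^ 2 ≤ (∑ i ∈ Zs, ‖g i‖ ^ 2) / n := by
    have hcs : (∑ i ∈ Zs, ‖g i‖) ^ 2 ≤ n * ∑ i ∈ Zs, ‖g i‖ ^ 2 := by
      rw [hn]
      exact sq_sum_le_card_mul_sum_sq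
    calc Sx ^ 2 ≤ ((∑ i ∈ Zs, ‖g i‖) / n) ^ 2 := by gcongr
      _ = (∑ i ∈ Zs, ‖g i‖) ^ 2 / n ^ 2 := by rw [div_pow]
      _ ≤ (n * ∑ i ∈ Zs, ‖g i‖ ^ 2) / n ^ 2 := by gcongr
      _ = _ := by field_simp
  -- expansion
  have h4 : (((∑ i ∈ Zs, ‖g i‖ ^ 2) / n : ℝ) : ℂ) =
      ∑ m ∈ M, ∑ m' ∈ M, (starRingEnd ℂ) (x m) * x m' * K m m' := by
    have e1 : ∀ i, ((‖g i‖ ^ 2 : ℝ) : ℂ) = ∑ m ∈ M, ∑ m' ∈ M,
        (starRingEnd ℂ) (x m) * x m' * ee (((m - m' : ℤ) : ℝ) * a i) := by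
      intro i
      have : ((‖g i‖ ^ 2 : ℝ) : ℂ) = g i * (starRingEnd ℂ) (g i) := by
        rw [Complex.mul_conj, Complex.normSq_eq_norm_sq]
      rw [this, hg]
      simp only
      rw [map_sum, Finset.sum_mul_sum]
      apply Finset.sum_congr rfl
      intro m _
      apply Finset.sum_congr rfl
      intro m' _
      rw [map_mul, Complex.conj_conj]
      have : (((m - m' : ℤ) : ℝ) * a i) = m * a i - m' * a i := by push_cast; ring
      rw [this, NearOrth_ee_sub]
      ring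
    rw [Complex.ofReal_div, Complex.ofReal_sum, Finset.sum_congr rfl (fun i _ => e1 i),
      Finset.sum_comm, Finset.sum_div]
    apply Finset.sum_congr rfl
    intro m _
    rw [Finset.sum_comm, Finset.sum_div]
    apply Finset.sum_congr rfl
    intro m' _
    rw [hK]
    simp only
    rw [← Finset.mul_sum, mul_div_assoc]
  have hKsymm : ∀ m m', ‖K m m'‖ = ‖K m' m‖ := by
    intro m m'
    have : K m m' = (starRingEnd ℂ) (K m' m) := by
      rw [hK]
      simp only
      rw [map_div₀, map_sum, Complex.conj_ofReal]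
      congr 1
      apply Finset.sum_congr rfl
      intro i _
      rw [← ee_neg]
      congr 1
      push_cast
      ring
    rw [this, RCLike.norm_conj]
  have hKdiag : ∀ m, ‖K m m‖ = 1 := by
    intro m
    rw [hK]
    simp only [sub_self, Int.cast_zero, zero_mul, ee_zero, Finset.sum_const, nsmul_eq_mul, mul_one]
    rw [hnc, div_self (by exact_mod_cast hn0.ne')]
    simp
  have h5 : (∑ i ∈ Zs, ‖g i‖ ^ 2) / n ≤ 13 / 10 * Sx := by
    have e0 : (∑ i ∈ Zs, ‖g i‖ ^ 2) / n =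
        ‖(((∑ i ∈ Zs, ‖g i‖ ^ 2) / n : ℝ) : ℂ)‖ := by
      rw [Complex.norm_real, Real.norm_of_nonneg]
      exact div_nonneg (Finset.sum_nonneg (fun _ _ => by positivity)) hn0.le
    rw [e0, h4]
    calc ‖∑ m ∈ M, ∑ m' ∈ M, (starRingEnd ℂ) (x m) * x m' * K m m'‖
        ≤ ∑ m ∈ M, ∑ m' ∈ M, ‖x m‖ * ‖x m'‖ * ‖K m m'‖ := by
          refine (norm_sum_le _ _).trans (Finset.sum_le_sum fun m _ => ?_)
          refine (norm_sum_le _ _).trans (Finset.sum_le_sum fun m' _ => ?_)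
          rw [_root_.norm_mul, _root_.norm_mul, RCLike.norm_conj]
      _ ≤ ∑ m ∈ M, ∑ m' ∈ M, (‖x m‖ ^ 2 / 2 * ‖K m m'‖ + ‖x m'‖ ^ 2 / 2 * ‖K m' m‖) := by
          refine Finset.sum_le_sum fun m _ => Finset.sum_le_sum fun m' _ => ?_
          rw [← hKsymm m m', ← add_mul]
          gcongr
          linarith only [sq_nonneg (‖x m‖ - ‖x m'‖)]
      _ = ∑ m ∈ M, ∑ m' ∈ M, ‖x m‖ ^ 2 * ‖K m m'‖ := by
          simp only [Finset.sum_add_distrib]
          rw [Finset.sum_comm (f := fun m m' => ‖x m'‖ ^ 2 / 2 * ‖K m' m‖)]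
          rw [← Finset.sum_add_distrib]
          apply Finset.sum_congr rfl
          intro m _
          rw [← Finset.sum_add_distrib]
          apply Finset.sum_congr rfl
          intro m' _
          ring
      _ = ∑ m ∈ M, ‖x m‖ ^ 2 * (1 + ∑ m' ∈ M.erase m, ‖K m m'‖) := by
          apply Finset.sum_congr rfl
          intro m hm
          rw [← Finset.mul_sum, ← Finset.add_sum_erase M _ hm, hKdiag]
      _ ≤ ∑ m ∈ M, ‖x m‖ ^ 2 * (1 + 3 / 10) := by
          refine Finset.sum_le_sum fun m hm => ?_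
          gcongr
          exact hM' m hm
      _ = 13 / 10 * Sx := by
          rw [← Finset.sum_mul, hSx]
          ring
  by_contra hcon
  push Not at hcon
  nlinarith only [h3, h5, hcon]

end

end Pool.Agent.Lib.MP_0b748d_nt
end
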