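import Pool.Agent.Lib.MP_0b748d_nt.P.Defs

set_option autoImplicit false

/-!
# The one dimensional large sieve inequality
-/

namespace Pool.Agent.Lib.MP_0b748d_nt

open Zsqrtd

noncomputable section

lemma LargeSieve_ee_mul (k : ℕ) (x : ℝ) : ee (k * x) = (ee x) ^ k := by
  simp only [ee]
  rw [← Complex.exp_nat_mul]
  congr 1
  push_cast
  ring

lemma LargeSieve_ee_sub (x y : ℝ) : ee (x - y) = ee x * (starRingEnd ℂ) (ee y) := by
  rw [sub_eq_add_neg, ee_add, ee_neg]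

/-- the Dirichlet kernel -/
def LargeSieve_D (M : ℕ) (x : ℝ) : ℂ := ∑ k ∈ Finset.range M, ee (k * x)

lemma LargeSieve_D_int (M : ℕ) (x : ℝ) (n : ℤ) :
    LargeSieve_D M (x + n) = LargeSieve_D M x := by
  unfold LargeSieve_D
  refine Finset.sum_congr rfl fun k _ => ?_
  rw [mul_add, ee_add]
  have : ((k : ℝ) * (n : ℝ)) = (((k : ℤ) * n : ℤ) : ℝ) := by push_cast; ring
  rw [this, ee_int, mul_one]

lemma LargeSieve_D_neg (M : ℕ) (x : ℝ) : ‖LargeSieve_D M (-x)‖ = ‖LargeSieve_D M x‖ := by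
  unfold LargeSieve_D
  have : ∑ k ∈ Finset.range M, ee (k * (-x)) =
      (starRingEnd ℂ) (∑ k ∈ Finset.range M, ee (k * x)) := by
    rw [map_sum]
    refine Finset.sum_congr rfl fun k _ => ?_
    rw [mul_neg, ee_neg]
  rw [this, RCLike.norm_conj]

lemma LargeSieve_D_le (M : ℕ) (x : ℝ) : ‖LargeSieve_D M x‖ ≤ M := by
  unfold LargeSieve_D
  refine (norm_sum_le _ _).trans ?_
  simp [norm_ee]

lemma LargeSieve_norm_sub (y : ℝ) (hy : |y| ≤ 1 / 2) : 4 * |y| ≤ ‖ee y - 1‖ := by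
  have h1 : ee y = Complex.exp (Complex.I * ((2 * Real.pi * y : ℝ) : ℂ)) := by
    simp only [ee]
    congr 1
    push_cast
    ring
  rw [h1, Complex.norm_exp_I_mul_ofReal_sub_one]
  have h2 : (2 * Real.pi * y) / 2 = Real.pi * y := by ring
  rw [h2, _root_.norm_mul, Real.norm_eq_abs, Real.norm_eq_abs, abs_two]
  have h3 : |Real.sin (Real.pi * y)| = Real.sin (Real.pi * |y|) := by
    rcases le_total 0 y with h | h
    · rw [abs_of_nonneg h, abs_of_nonneg]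
      rw [abs_of_nonneg h] at hy
      exact Real.sin_nonneg_of_nonneg_of_le_pi (by positivity)
        (by nlinarith [Real.pi_pos])
    · rw [abs_of_nonpos h]
      rw [abs_of_nonpos h] at hy
      rw [mul_neg, Real.sin_neg, abs_of_nonpos]
      have := Real.sin_nonneg_of_nonneg_of_le_pi (x := Real.pi * (-y))
        (mul_nonneg Real.pi_pos.le (by linarith)) (by nlinarith [Real.pi_pos])
      rw [mul_neg, Real.sin_neg] at this
      linarith
  rw [h3]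
  have h4 := Real.mul_le_sin (x := Real.pi * |y|) (by positivity)
    (by nlinarith [Real.pi_pos])
  have h5 : 2 / Real.pi * (Real.pi * |y|) = 2 * |y| := by
    field_simp
  rw [h5] at h4
  linarith

lemma LargeSieve_D_far (M : ℕ) (y : ℝ) (hy : |y| ≤ 1 / 2) (h0 : y ≠ 0) :
    ‖LargeSieve_D M y‖ ^ 2 ≤ 1 / (4 * y ^ 2) := by
  have h1 : LargeSieve_D M y * (ee y - 1) = ee y ^ M - 1 := by
    unfold LargeSieve_D
    rw [← geom_sum_mul]
    congr 1
    exact Finset.sum_congr rfl fun k _ => LargeSieve_ee_mul k y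
  have h2 : ‖LargeSieve_D M y‖ * ‖ee y - 1‖ ≤ 2 := by
    rw [← _root_.norm_mul, h1]
    refine (norm_sub_le _ _).trans ?_
    rw [norm_pow, norm_ee, one_pow, NormOneClass.norm_one]
    norm_num
  have h3 := LargeSieve_norm_sub y hy
  have h4 : ‖LargeSieve_D M y‖ * (4 * |y|) ≤ 2 :=
    (mul_le_mul_of_nonneg_left h3 (norm_nonneg _)).trans h2
  have hy0 : 0 < |y| := abs_pos.mpr h0
  have h5 : ‖LargeSieve_D M y‖ ≤ 1 / (2 * |y|) := by
    rw [le_div_iff₀ (by positivity)]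
    linarith
  have h6 : ‖LargeSieve_D M y‖ ^ 2 ≤ (1 / (2 * |y|)) ^ 2 :=
    pow_le_pow_left₀ (norm_nonneg _) h5 2
  refine h6.trans (le_of_eq ?_)
  rw [div_pow, mul_pow, sq_abs]
  norm_num

/-- sums of inverse squares over separated points -/
lemma LargeSieve_sum_inv {ι : Type*} (P : Finset ι) (f : ι → ℝ) (δ : ℝ) (hδ : 0 < δ)
    (h1 : ∀ j ∈ P, δ ≤ f j) (h2 : ∀ j ∈ P, ∀ j' ∈ P, j ≠ j' → δ ≤ |f j - f j'|) :
    ∑ j ∈ P, 1 / (f j) ^ 2 ≤ 2 / δ ^ 2 := by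
  classical
  set t : ι → ℕ := fun j => ⌊f j / δ⌋₊ with ht
  have ht1 : ∀ j ∈ P, 1 ≤ t j := by
    intro j hj
    rw [ht]
    apply Nat.le_floor
    rw [Nat.cast_one, le_div_iff₀ hδ, one_mul]
    exact h1 j hj
  have ht2 : ∀ j ∈ P, δ * (t j) ≤ f j := by
    intro j hj
    have := Nat.floor_le (a := f j / δ) (div_nonneg (hδ.le.trans (h1 j hj)) hδ.le)
    rw [le_div_iff₀ hδ] at this
    simp only [ht]
    linarith
  have hinj : Set.InjOn t (P : Set ι) := by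
    intro j hj j' hj' he
    by_contra hne
    have h3 := h2 j hj j' hj' hne
    have ha := Nat.floor_le (a := f j / δ) (div_nonneg (hδ.le.trans (h1 j hj)) hδ.le)
    have hb := Nat.lt_floor_add_one (f j / δ)
    have ha' := Nat.floor_le (a := f j' / δ) (div_nonneg (hδ.le.trans (h1 j' hj')) hδ.le)
    have hb' := Nat.lt_floor_add_one (f j' / δ)
    simp only [ht] at he
    rw [he] at ha hb
    have h4 : |f j / δ - f j' / δ| < 1 := by
      rw [abs_lt]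
      constructor <;> linarith
    have h5 : |f j / δ - f j' / δ| = |f j - f j'| / δ := by
      rw [← sub_div, abs_div, abs_of_pos hδ]
    rw [h5, div_lt_one hδ] at h4
    linarith
  have h6 : ∑ j ∈ P, 1 / (f j) ^ 2 ≤ ∑ j ∈ P, (1 / δ ^ 2) * ((t j : ℝ) ^ 2)⁻¹ := by
    refine Finset.sum_le_sum fun j hj => ?_
    have ha := ht2 j hj
    have hb : (0 : ℝ) < t j := by exact_mod_cast ht1 j hj
    have : (1 / δ ^ 2) * ((t j : ℝ) ^ 2)⁻¹ = 1 / (δ * t j) ^ 2 := by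
      rw [mul_pow]
      field_simp
    rw [this]
    apply one_div_le_one_div_of_le (by positivity)
    exact pow_le_pow_left₀ (by positivity) ha 2
  refine h6.trans ?_
  rw [← Finset.mul_sum]
  have h7 : ∑ j ∈ P, ((t j : ℝ) ^ 2)⁻¹ = ∑ m ∈ P.image t, ((m : ℝ) ^ 2)⁻¹ := by
    rw [Finset.sum_image hinj]
  rw [h7]
  have h8 : ∑ m ∈ P.image t, ((m : ℝ) ^ 2)⁻¹ ≤
      ∑ m ∈ Finset.Ioo 0 ((P.image t).sup id + 1), ((m : ℝ) ^ 2)⁻¹ := by
    apply Finset.sum_le_sum_of_subset_of_nonneg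
    · intro m hm
      rw [Finset.mem_Ioo]
      constructor
      · obtain ⟨j, hj, rfl⟩ := Finset.mem_image.mp hm
        exact ht1 j hj
      · have := Finset.le_sup (f := id) hm
        simp only [id] at this
        omega
    · intro m _ _
      positivity
  have h9 := sum_Ioo_inv_sq_le (α := ℝ) 0 ((P.image t).sup id + 1)
  have h10 : ∑ m ∈ P.image t, ((m : ℝ) ^ 2)⁻¹ ≤ 2 := by
    refine h8.trans (h9.trans ?_)
    norm_num
  calc (1 / δ ^ 2) * ∑ m ∈ P.image t, ((m : ℝ) ^ 2)⁻¹ ≤ (1 / δ ^ 2) * 2 :=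
        mul_le_mul_of_nonneg_left h10 (by positivity)
    _ = 2 / δ ^ 2 := by ring

/-- the row sums of the kernel -/
lemma LargeSieve_row {ι : Type*} (s : Finset ι) (α : ι → ℝ) (δ : ℝ) (M : ℕ)
    (hδ : 0 < δ)
    (hsep : ∀ i ∈ s, ∀ j ∈ s, i ≠ j → ∀ k : ℤ, δ ≤ |α i - α j - k|) (i : ι) (hi : i ∈ s) :
    ∑ j ∈ s, ‖LargeSieve_D M (α i - α j)‖ ^ 2 ≤ (M : ℝ) ^ 2 + 1 / δ ^ 2 := by
  classical
  rw [← Finset.add_sum_erase s _ hi]
  have h0 : ‖LargeSieve_D M (α i - α i)‖ ^ 2 ≤ (M : ℝ) ^ 2 :=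
    pow_le_pow_left₀ (norm_nonneg _) (LargeSieve_D_le M _) 2
  refine add_le_add h0 ?_
  set y : ι → ℝ := fun j => (α i - α j) - round (α i - α j) with hy
  have hyb : ∀ j, |y j| ≤ 1 / 2 := fun j => abs_sub_round _
  have hyd : ∀ j ∈ s.erase i, δ ≤ |y j| := by
    intro j hj
    rw [Finset.mem_erase] at hj
    exact hsep i hi j hj.2 (Ne.symm hj.1) _
  have hyD : ∀ j, LargeSieve_D M (α i - α j) = LargeSieve_D M (y j) := by
    intro j
    have : α i - α j = y j + (round (α i - α j) : ℤ) := by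
      simp only [hy]
      ring
    rw [this, LargeSieve_D_int]
  have h1 : ∑ j ∈ s.erase i, ‖LargeSieve_D M (α i - α j)‖ ^ 2 ≤
      ∑ j ∈ s.erase i, (1 / 4) * (1 / (y j) ^ 2) := by
    refine Finset.sum_le_sum fun j hj => ?_
    rw [hyD j]
    have hne : y j ≠ 0 := by
      intro h
      have := hyd j hj
      rw [h, abs_zero] at this
      linarith
    refine (LargeSieve_D_far M (y j) (hyb j) hne).trans (le_of_eq ?_)
    rw [one_div_mul_one_div]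
  refine h1.trans ?_
  rw [← Finset.mul_sum, ← Finset.sum_filter_add_sum_filter_not (s.erase i) (fun j => 0 ≤ y j)]
  have hsep2 : ∀ j ∈ s.erase i, ∀ j' ∈ s.erase i, j ≠ j' → δ ≤ |y j - y j'| := by
    intro j hj j' hj' hne
    rw [Finset.mem_erase] at hj hj'
    have := hsep j' hj'.2 j hj.2 (Ne.symm hne) (round (α i - α j) - round (α i - α j'))
    have e : α j' - α j - ((round (α i - α j) - round (α i - α j') : ℤ) : ℝ) = y j - y j' := by
      simp only [hy]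
      push_cast
      ring
    rw [e] at this
    exact this
  have h2 : ∑ j ∈ (s.erase i).filter (fun j => 0 ≤ y j), 1 / (y j) ^ 2 ≤ 2 / δ ^ 2 := by
    apply LargeSieve_sum_inv _ _ δ hδ
    · intro j hj
      rw [Finset.mem_filter] at hj
      have := hyd j hj.1
      rwa [abs_of_nonneg hj.2] at this
    · intro j hj j' hj' hne
      exact hsep2 j (Finset.mem_filter.mp hj).1 j' (Finset.mem_filter.mp hj').1 hne
  have h3 : ∑ j ∈ (s.erase i).filter (fun j => ¬ 0 ≤ y j), 1 / (y j) ^ 2 ≤ 2 / δ ^ 2 := by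
    have := LargeSieve_sum_inv ((s.erase i).filter (fun j => ¬ 0 ≤ y j)) (fun j => - y j) δ hδ
      (by
        intro j hj
        rw [Finset.mem_filter] at hj
        have h := hyd j hj.1
        rwa [abs_of_neg (not_le.mp hj.2)] at h)
      (by
        intro j hj j' hj' hne
        have h := hsep2 j (Finset.mem_filter.mp hj).1 j' (Finset.mem_filter.mp hj').1 hne
        have e : - y j - - y j' = -(y j - y j') := by ring
        rw [e, abs_neg]
        exact h)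
    simpa using this
  have h4 : (1 / 4 : ℝ) * (2 / δ ^ 2 + 2 / δ ^ 2) = 1 / δ ^ 2 := by ring
  rw [← h4]
  exact mul_le_mul_of_nonneg_left (add_le_add h2 h3) (by norm_num)

/-- every frequency is hit at least `T` times -/
lemma LargeSieve_count (g : ℤ → ℝ) (hg : ∀ m, 0 ≤ g m) (T : ℕ) :
    T * ∑ m ∈ Finset.Icc (-(T : ℤ)) T, g m ≤
      ∑ k ∈ Finset.range (2 * T), ∑ l ∈ Finset.range (2 * T), g ((k : ℤ) - l) := by
  classical
  rw [← Finset.sum_product' (Finset.range (2 * T)) (Finset.range (2 * T))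
    (fun k l => g ((k : ℤ) - l))]
  have h1 : T * ∑ m ∈ Finset.Icc (-(T : ℤ)) T, g m =
      ∑ p ∈ Finset.Icc (-(T : ℤ)) T ×ˢ Finset.range T, g p.1 := by
    rw [Finset.sum_product, Finset.mul_sum]
    refine Finset.sum_congr rfl fun m _ => ?_
    simp
  rw [h1]
  set φ : ℤ × ℕ → ℕ × ℕ := fun p => (p.2 + p.1.toNat, p.2 + (-p.1).toNat) with hφ
  have hinj : Set.InjOn φ ((Finset.Icc (-(T : ℤ)) T ×ˢ Finset.range T : Finset (ℤ × ℕ)) :
      Set (ℤ × ℕ)) := by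
    rintro ⟨m, u⟩ _ ⟨m', u'⟩ _ h
    simp only [hφ, Prod.mk.injEq] at h
    ext
    · simp only
      omega
    · simp only
      omega
  have h2 : ∑ p ∈ Finset.Icc (-(T : ℤ)) T ×ˢ Finset.range T, g p.1 =
      ∑ q ∈ (Finset.Icc (-(T : ℤ)) T ×ˢ Finset.range T).image φ, g ((q.1 : ℤ) - q.2) := by
    rw [Finset.sum_image hinj]
    refine Finset.sum_congr rfl fun p _ => ?_
    congr 1
    simp only [hφ]
    push_cast
    omega
  rw [h2]
  apply Finset.sum_le_sum_of_subset_of_nonneg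
  · intro q hq
    obtain ⟨⟨m, u⟩, hp, rfl⟩ := Finset.mem_image.mp hq
    rw [Finset.mem_product, Finset.mem_Icc, Finset.mem_range] at hp
    simp only at hp
    simp only [hφ, Finset.mem_product, Finset.mem_range]
    constructor <;> omega
  · intro q _ _
    exact hg _

theorem large_sieve {ι : Type*} (s : Finset ι) (a : ι → ℂ) (α : ι → ℝ) (δ : ℝ) (T : ℕ)
    (hδ : 0 < δ) (hT : 1 ≤ T * δ)
    (hsep : ∀ i ∈ s, ∀ j ∈ s, i ≠ j → ∀ k : ℤ, δ ≤ |α i - α j - k|) :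
    ∑ m ∈ Finset.Icc (-(T : ℤ)) T, ‖∑ i ∈ s, a i * ee (m * α i)‖ ^ 2 ≤
      8 * T * ∑ i ∈ s, ‖a i‖ ^ 2 := by
  have hT0 : (0 : ℝ) < T := by
    by_contra h
    have : (T : ℝ) = 0 := le_antisymm (not_lt.mp h) (Nat.cast_nonneg T)
    rw [this] at hT
    linarith
  set M : ℕ := 2 * T with hM
  have h1 := LargeSieve_count (fun m => ‖∑ i ∈ s, a i * ee (m * α i)‖ ^ 2)
    (fun m => by positivity) T
  -- expansion
  have h2 : ((∑ k ∈ Finset.range M, ∑ l ∈ Finset.range M,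
      ‖∑ i ∈ s, a i * ee ((((k : ℤ) - l : ℤ) : ℝ) * α i)‖ ^ 2 : ℝ) : ℂ) =
      ∑ i ∈ s, ∑ j ∈ s, a i * (starRingEnd ℂ) (a j) *
        ((‖LargeSieve_D M (α i - α j)‖ ^ 2 : ℝ) : ℂ) := by
    have hexp : ∀ k l : ℕ,
        ((‖∑ i ∈ s, a i * ee ((((k : ℤ) - l : ℤ) : ℝ) * α i)‖ ^ 2 : ℝ) : ℂ) =
        ∑ i ∈ s, ∑ j ∈ s, a i * (starRingEnd ℂ) (a j) *
          (ee (k * (α i - α j)) * (starRingEnd ℂ) (ee (l * (α i - α j)))) := by
      intro k l
      have e1 : ((‖∑ i ∈ s, a i * ee ((((k : ℤ) - l : ℤ) : ℝ) * α i)‖ ^ 2 : ℝ) : ℂ) =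
          (∑ i ∈ s, a i * ee ((((k : ℤ) - l : ℤ) : ℝ) * α i)) *
            (starRingEnd ℂ) (∑ i ∈ s, a i * ee ((((k : ℤ) - l : ℤ) : ℝ) * α i)) := by
        rw [Complex.mul_conj, Complex.normSq_eq_norm_sq]
      rw [e1, map_sum, Finset.sum_mul_sum]
      refine Finset.sum_congr rfl fun i _ => Finset.sum_congr rfl fun j _ => ?_
      rw [map_mul, ← LargeSieve_ee_sub]
      have e2 : ee ((((k : ℤ) - l : ℤ) : ℝ) * α i) *
          (starRingEnd ℂ) (ee ((((k : ℤ) - l : ℤ) : ℝ) * α j)) =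
          ee (k * (α i - α j) - l * (α i - α j)) := by
        rw [← LargeSieve_ee_sub]
        congr 1
        push_cast
        ring
      rw [← e2]
      ring
    push_cast
    push_cast at hexp
    simp only [hexp]
    have hswap : ∀ F : ℕ → ℕ → ι → ι → ℂ,
        ∑ k ∈ Finset.range M, ∑ l ∈ Finset.range M, ∑ i ∈ s, ∑ j ∈ s, F k l i j =
        ∑ i ∈ s, ∑ j ∈ s, ∑ k ∈ Finset.range M, ∑ l ∈ Finset.range M, F k l i j := by
      intro F
      calc ∑ k ∈ Finset.range M, ∑ l ∈ Finset.range M, ∑ i ∈ s, ∑ j ∈ s, F k l i j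
          = ∑ k ∈ Finset.range M, ∑ i ∈ s, ∑ l ∈ Finset.range M, ∑ j ∈ s, F k l i j :=
            Finset.sum_congr rfl fun k _ => Finset.sum_comm
        _ = ∑ i ∈ s, ∑ k ∈ Finset.range M, ∑ l ∈ Finset.range M, ∑ j ∈ s, F k l i j :=
            Finset.sum_comm
        _ = ∑ i ∈ s, ∑ k ∈ Finset.range M, ∑ j ∈ s, ∑ l ∈ Finset.range M, F k l i j :=
            Finset.sum_congr rfl fun i _ => Finset.sum_congr rfl fun k _ => Finset.sum_comm
        _ = ∑ i ∈ s, ∑ j ∈ s, ∑ k ∈ Finset.range M, ∑ l ∈ Finset.range M, F k l i j :=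
            Finset.sum_congr rfl fun i _ => Finset.sum_comm
    rw [hswap]
    refine Finset.sum_congr rfl fun i _ => Finset.sum_congr rfl fun j _ => ?_
    have e3 : ((‖LargeSieve_D M (α i - α j)‖ : ℂ)) ^ 2 =
        LargeSieve_D M (α i - α j) * (starRingEnd ℂ) (LargeSieve_D M (α i - α j)) := by
      rw [Complex.mul_conj, Complex.normSq_eq_norm_sq]
      push_cast
      rfl
    rw [e3]
    unfold LargeSieve_D
    rw [map_sum, Finset.sum_mul_sum, Finset.mul_sum]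
    refine Finset.sum_congr rfl fun k _ => ?_
    rw [Finset.mul_sum]
  have h3 : (∑ k ∈ Finset.range M, ∑ l ∈ Finset.range M,
      ‖∑ i ∈ s, a i * ee ((((k : ℤ) - l : ℤ) : ℝ) * α i)‖ ^ 2 : ℝ) ≤
      ∑ i ∈ s, ∑ j ∈ s, ‖a i‖ * ‖a j‖ * ‖LargeSieve_D M (α i - α j)‖ ^ 2 := by
    have hnn : (0 : ℝ) ≤ ∑ k ∈ Finset.range M, ∑ l ∈ Finset.range M,
      ‖∑ i ∈ s, a i * ee ((((k : ℤ) - l : ℤ) : ℝ) * α i)‖ ^ 2 :=
      Finset.sum_nonneg fun k _ => Finset.sum_nonneg fun l _ => by positivity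
    have e : (∑ k ∈ Finset.range M, ∑ l ∈ Finset.range M,
      ‖∑ i ∈ s, a i * ee ((((k : ℤ) - l : ℤ) : ℝ) * α i)‖ ^ 2 : ℝ) =
      ‖((∑ k ∈ Finset.range M, ∑ l ∈ Finset.range M,
      ‖∑ i ∈ s, a i * ee ((((k : ℤ) - l : ℤ) : ℝ) * α i)‖ ^ 2 : ℝ) : ℂ)‖ := by
      rw [Complex.norm_real, Real.norm_eq_abs, abs_of_nonneg hnn]
    rw [e, h2]
    refine (norm_sum_le _ _).trans (Finset.sum_le_sum fun i _ => ?_)
    refine (norm_sum_le _ _).trans (Finset.sum_le_sum fun j _ => ?_)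
    rw [_root_.norm_mul, _root_.norm_mul, RCLike.norm_conj, Complex.norm_real, Real.norm_eq_abs,
      abs_of_nonneg (by positivity : (0 : ℝ) ≤ ‖LargeSieve_D M (α i - α j)‖ ^ 2)]
  have h4 : ∑ i ∈ s, ∑ j ∈ s, ‖a i‖ * ‖a j‖ * ‖LargeSieve_D M (α i - α j)‖ ^ 2 ≤
      ∑ i ∈ s, ∑ j ∈ s, ((‖a i‖ ^ 2 / 2) * ‖LargeSieve_D M (α i - α j)‖ ^ 2 +
        (‖a j‖ ^ 2 / 2) * ‖LargeSieve_D M (α i - α j)‖ ^ 2) := by
    refine Finset.sum_le_sum fun i _ => Finset.sum_le_sum fun j _ => ?_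
    rw [← add_mul]
    refine mul_le_mul_of_nonneg_right ?_ (by positivity)
    nlinarith [sq_nonneg (‖a i‖ - ‖a j‖)]
  have h5 : ∑ i ∈ s, ∑ j ∈ s, ((‖a i‖ ^ 2 / 2) * ‖LargeSieve_D M (α i - α j)‖ ^ 2 +
        (‖a j‖ ^ 2 / 2) * ‖LargeSieve_D M (α i - α j)‖ ^ 2) =
      ∑ i ∈ s, ‖a i‖ ^ 2 * ∑ j ∈ s, ‖LargeSieve_D M (α i - α j)‖ ^ 2 := by
    have hA : ∑ i ∈ s, ∑ j ∈ s, (‖a j‖ ^ 2 / 2) * ‖LargeSieve_D M (α i - α j)‖ ^ 2 =
        ∑ i ∈ s, ∑ j ∈ s, (‖a i‖ ^ 2 / 2) * ‖LargeSieve_D M (α i - α j)‖ ^ 2 := by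
      rw [Finset.sum_comm]
      refine Finset.sum_congr rfl fun i _ => Finset.sum_congr rfl fun j _ => ?_
      rw [← LargeSieve_D_neg M (α j - α i), neg_sub]
    simp only [Finset.sum_add_distrib]
    rw [hA, ← Finset.sum_add_distrib]
    refine Finset.sum_congr rfl fun i _ => ?_
    rw [← Finset.sum_add_distrib, Finset.mul_sum]
    refine Finset.sum_congr rfl fun j _ => ?_
    ring
  have hd : 1 / δ ^ 2 ≤ (T : ℝ) ^ 2 := by
    rw [div_le_iff₀ (by positivity), ← mul_pow]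
    nlinarith
  have h6 : ∑ i ∈ s, ‖a i‖ ^ 2 * ∑ j ∈ s, ‖LargeSieve_D M (α i - α j)‖ ^ 2 ≤
      ∑ i ∈ s, ‖a i‖ ^ 2 * (5 * (T : ℝ) ^ 2) := by
    refine Finset.sum_le_sum fun i hi => ?_
    refine mul_le_mul_of_nonneg_left ?_ (by positivity)
    refine (LargeSieve_row s α δ M hδ hsep i hi).trans ?_
    have : (M : ℝ) = 2 * T := by rw [hM]; push_cast; ring
    rw [this]
    nlinarith
  rw [← Finset.sum_mul] at h6
  have hS : 0 ≤ ∑ i ∈ s, ‖a i‖ ^ 2 := Finset.sum_nonneg fun i _ => by positivity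
  have h7 : T * ∑ m ∈ Finset.Icc (-(T : ℤ)) T, ‖∑ i ∈ s, a i * ee (m * α i)‖ ^ 2 ≤
      (∑ i ∈ s, ‖a i‖ ^ 2) * (5 * (T : ℝ) ^ 2) :=
    h1.trans (h3.trans (h4.trans (h5.le.trans h6)))
  have h8 : (T : ℝ) * ∑ m ∈ Finset.Icc (-(T : ℤ)) T, ‖∑ i ∈ s, a i * ee (m * α i)‖ ^ 2 ≤
      T * (8 * T * ∑ i ∈ s, ‖a i‖ ^ 2) := by
    refine h7.trans ?_
    nlinarith [mul_nonneg hS (sq_nonneg (T : ℝ))]
  exact le_of_mul_le_mul_left h8 hT0

end

end Pool.Agent.Lib.MP_0b748d_nt
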