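import Pool.Agent.Lib.MP_0b748d_nt.Chain
import Pool.Agent.Lib.MP_0b748d_nt.Measure
import Pool.Agent.Lib.MP_0b748d_nt.Plus
import Pool.Agent.Lib.MP_0b748d_nt.Count
import Pool.Agent.Lib.MP_0b748d_nt.Moment

section

set_option autoImplicit false

/-!
# Many `n` with `g (n^2 - 2) = -1`: choice of parameters
-/

namespace Pool.Agent.Lib.MP_0b748d_nt

open Zsqrtd

noncomputable section

variable {g : ℕ → ℤ}

/-- number of edges of size at most `K` -/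
lemma edges_le (K W : ℕ) (hK : 1 ≤ K) :
    ∑ n ∈ Finset.range (K + 1), ((EF W n).card : ℝ) ≤
      3 * K * (2 * W + 1) * (1 + Real.log K) ^ 16 := by
  have hlow : ∀ n : ℕ, n < 2 → (EF W n).card = 0 := by
    intro n hn
    rw [Finset.card_eq_zero, Finset.eq_empty_iff_forall_notMem]
    intro e he
    rw [mem_EF] at he
    have := B_edge_ge he.1 he.2.1 he.2.2.1
    rw [he.2.2.2.1] at this
    omega
  have h1 : ∑ n ∈ Finset.range (K + 1), ((EF W n).card : ℝ) =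
      ∑ n ∈ Finset.Icc 2 K, ((EF W n).card : ℝ) := by
    symm
    apply Finset.sum_subset
    · intro n hn
      simp only [Finset.mem_Icc, Finset.mem_range] at hn ⊢
      omega
    · intro n hn hn'
      simp only [Finset.mem_Icc, Finset.mem_range] at hn hn'
      rw [hlow n (by omega)]
      simp
  rw [h1]
  have h2 := edges_CS K W (Finset.Icc 2 K) (Finset.Subset.refl _)
  have h3 : ((Finset.Icc 2 K).card : ℝ) ≤ K := by
    rw [Nat.card_Icc]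
    exact_mod_cast (by omega : K + 1 - 2 ≤ K)
  have hK0 : (1 : ℝ) ≤ K := by exact_mod_cast hK
  have hlog : 0 ≤ Real.log K := Real.log_nonneg hK0
  apply abs_le_of_sq_le_sq' _ (by positivity) |>.2
  refine h2.trans ?_
  calc ((Finset.Icc 2 K).card : ℝ) * ((2 * W + 1) ^ 2 * (8 * K * (1 + Real.log K) ^ 32))
      ≤ K * ((2 * W + 1) ^ 2 * (8 * K * (1 + Real.log K) ^ 32)) := by gcongr
    _ = 8 * (K * (2 * W + 1) * (1 + Real.log K) ^ 16) ^ 2 := by ring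
    _ ≤ 9 * (K * (2 * W + 1) * (1 + Real.log K) ^ 16) ^ 2 := by gcongr; norm_num
    _ = _ := by ring

lemma params1 (s E : ℝ) (hE : E = Real.exp s) (hs1 : 65536 ≤ s) (hsE : s ^ 2 ≤ E) :
    ∃ r x : ℕ, s ≤ r ∧ 3 ≤ x ∧ (r : ℝ) + 2 ≤ x ∧ (x : ℝ) ≤ E ^ 2 ∧ (2 : ℝ) ^ (r + 3) ≤ E ^ 2 ∧
      24 * ((r : ℝ) + 1) * E ≤ (x : ℝ) - 2 := by
  have hs0 : (0 : ℝ) < s := by linarith
  have hE1 : (65536 : ℝ) ≤ E := by nlinarith
  have hE0 : (0 : ℝ) < E := by linarith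
  obtain ⟨r, hr1, hr2⟩ : ∃ r : ℕ, s ≤ r ∧ (r : ℝ) < s + 1 :=
    ⟨⌈s⌉₊, Nat.le_ceil s, Nat.ceil_lt_add_one hs0.le⟩
  obtain ⟨y, hy1, hy2⟩ : ∃ y : ℕ, 24 * ((r : ℝ) + 1) * E ≤ y ∧ (y : ℝ) < 24 * ((r : ℝ) + 1) * E + 1 :=
    ⟨⌈24 * ((r : ℝ) + 1) * E⌉₊, Nat.le_ceil _, Nat.ceil_lt_add_one (by positivity)⟩
  have e1 : 24 * ((r : ℝ) + 1) * E ≤ 24 * (s + 2) * E :=
    mul_le_mul_of_nonneg_right (by linarith) hE0.le
  have e2 : 24 * (s + 2) + 1 ≤ E := by nlinarith only [hs1, hsE]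
  have e3 : (24 * (s + 2) + 1) * E ≤ E * E := mul_le_mul_of_nonneg_right e2 hE0.le
  have e4 : 24 * ((r : ℝ) + 1) * 1 ≤ 24 * ((r : ℝ) + 1) * E :=
    mul_le_mul_of_nonneg_left (by linarith) (by positivity)
  refine ⟨r, y + 2, hr1, ?_, ?_, ?_, ?_, ?_⟩
  · have : (1 : ℝ) ≤ y := by linarith
    have : 1 ≤ y := by exact_mod_cast this
    omega
  · push_cast; linarith
  · push_cast; linarith only [hr2, hy2, e1, e2, e3]
  · have f1 : (2 : ℝ) ^ r ≤ Real.exp r := by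
      have : (2 : ℝ) ≤ Real.exp 1 := by
        have := Real.add_one_le_exp (1 : ℝ)
        linarith
      calc (2 : ℝ) ^ r ≤ Real.exp 1 ^ r := by gcongr
        _ = Real.exp r := by rw [← Real.exp_nat_mul, mul_one]
    have f2 : Real.exp r ≤ 3 * E := by
      calc Real.exp r ≤ Real.exp (s + 1) := by
            apply Real.exp_le_exp.2 hr2.le
        _ = Real.exp 1 * E := by rw [Real.exp_add, mul_comm, hE]
        _ ≤ 3 * E := by
            have := Real.exp_one_lt_d9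
            gcongr
            linarith
    rw [pow_add]
    nlinarith only [e1, e2, f1, f2]
  · push_cast; linarith

lemma params2 (s E : ℝ) (hE : E = Real.exp s) (hs0 : 0 < s) (r x : ℕ) (hr1 : s ≤ r)
    (hx1 : 24 * ((r : ℝ) + 1) * E ≤ (x : ℝ) - 2) (Y : ℝ) (hY0 : 0 < Y)
    (hY : Y ≤ Real.exp (s ^ 2)) :
    3 * (r.factorial / ((x : ℝ) - 2) ^ (r + 1)) ≤ 1 / (8 * Y) := by
  have hE0 : 0 < E := by rw [hE]; positivity
  have hpos : (0 : ℝ) < (x : ℝ) - 2 := lt_of_lt_of_le (by positivity) hx1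
  rw [← mul_div_assoc, div_le_div_iff₀ (by positivity) (by positivity), one_mul]
  have e1 : (24 * ((r : ℝ) + 1) * E) ^ (r + 1) ≤ ((x : ℝ) - 2) ^ (r + 1) := by gcongr
  refine le_trans ?_ e1
  have e2 : (24 * ((r : ℝ) + 1) * E) ^ (r + 1) =
      24 ^ (r + 1) * ((r : ℝ) + 1) ^ (r + 1) * E ^ (r + 1) := by
    rw [mul_pow, mul_pow]
  rw [e2]
  have e3 : (r.factorial : ℝ) ≤ ((r : ℝ) + 1) ^ (r + 1) := by
    have h1 : r.factorial ≤ (r + 1) ^ (r + 1) := by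
      calc r.factorial ≤ (r + 1).factorial := Nat.factorial_le (by omega)
        _ ≤ (r + 1) ^ (r + 1) := Nat.factorial_le_pow _
    exact_mod_cast h1
  have e4 : Y ≤ E ^ (r + 1) := by
    refine hY.trans ?_
    rw [hE, ← Real.exp_nat_mul]
    apply Real.exp_le_exp.2
    push_cast
    nlinarith only [hs0, hr1]
  have e5 : (24 : ℝ) ≤ 24 ^ (r + 1) := by
    calc (24 : ℝ) = 24 ^ 1 := by norm_num
      _ ≤ 24 ^ (r + 1) := pow_le_pow_right₀ (by norm_num) (by omega)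
  calc 3 * (r.factorial : ℝ) * (8 * Y) = 24 * r.factorial * Y := by ring
    _ ≤ 24 ^ (r + 1) * ((r : ℝ) + 1) ^ (r + 1) * E ^ (r + 1) := by gcongr

/-- integer parameters `Z`, `Y` -/
lemma params3 (E N j : ℝ) (hE1 : 65536 ≤ E) (hj : 2 ≤ j) (n q : ℕ) (hn : (n : ℝ) = N)
    (hbig : E ^ 60 * j ^ 2 ≤ N) (hq1 : 1 ≤ q) (hqR : (q : ℝ) ≤ E ^ 5 * j ^ 2) :
    ∃ Y : ℕ, 1 ≤ n / (2 * q) ∧ N / (E ^ 6 * j ^ 2) ≤ (n / (2 * q) : ℕ) ∧ 1 ≤ Y ∧
      (Y : ℝ) ≤ N / (E ^ 18 * j ^ 2) ∧ N / (E ^ 19 * j ^ 2) ≤ Y ∧ (Y : ℝ) * E ≤ N := by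
  have hE0 : (0 : ℝ) < E := by linarith
  have hj2 : (1 : ℝ) ≤ j ^ 2 := one_le_pow₀ (by linarith)
  have hN0 : (0 : ℝ) < N := lt_of_lt_of_le (by positivity) hbig
  have hEpow : ∀ a b : ℕ, a ≤ b → E ^ a ≤ E ^ b := fun a b hab =>
    pow_le_pow_right₀ (by linarith) hab
  have hq0 : (0 : ℝ) < q := by exact_mod_cast hq1
  have hb : ∀ a : ℕ, a ≤ 60 → E ^ a * j ^ 2 ≤ N := fun a ha =>
    le_trans (mul_le_mul_of_nonneg_right (hEpow a 60 ha) (by positivity)) hbig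
  have h4q : 4 * (q : ℝ) ≤ E ^ 6 * j ^ 2 := by
    calc 4 * (q : ℝ) ≤ E * (E ^ 5 * j ^ 2) := by
          apply mul_le_mul (by linarith) hqR hq0.le hE0.le
      _ = E ^ 6 * j ^ 2 := by ring
  have hZlow : N / (E ^ 6 * j ^ 2) ≤ (n / (2 * q) : ℕ) := by
    have e1 : N / (2 * q) < (n / (2 * q) : ℕ) + 1 := by
      have := Nat.lt_floor_add_one ((n : ℝ) / ((2 * q : ℕ) : ℝ))
      rw [Nat.floor_div_eq_div] at this
      push_cast at this
      rw [← hn]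
      exact this
    have e3 : (1 : ℝ) ≤ N / (4 * q) := by
      rw [one_le_div (by positivity)]
      exact h4q.trans (hb 6 (by norm_num))
    have e4 : N / (2 * q) = 2 * (N / (4 * q)) := by field_simp; norm_num
    have e5 : N / (E ^ 6 * j ^ 2) ≤ N / (4 * q) :=
      div_le_div_of_nonneg_left hN0.le (by positivity) h4q
    linarith
  have hZ1 : (1 : ℝ) ≤ (n / (2 * q) : ℕ) := by
    refine le_trans ?_ hZlow
    rw [one_le_div (by positivity)]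
    exact hb 6 (by norm_num)
  obtain ⟨Y, hYup, hYlt⟩ : ∃ Y : ℕ, (Y : ℝ) ≤ N / (E ^ 18 * j ^ 2) ∧ N / (E ^ 18 * j ^ 2) < Y + 1 :=
    ⟨⌊N / (E ^ 18 * j ^ 2)⌋₊, Nat.floor_le (by positivity), Nat.lt_floor_add_one _⟩
  have e2 : (1 : ℝ) ≤ N / (E ^ 19 * j ^ 2) := by
    rw [one_le_div (by positivity)]
    exact hb 19 (by norm_num)
  have hYlow : N / (E ^ 19 * j ^ 2) ≤ Y := by
    have e3 : N / (E ^ 18 * j ^ 2) = E * (N / (E ^ 19 * j ^ 2)) := by field_simp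
    rw [e3] at hYlt
    nlinarith only [hE1, hYlt, e2]
  refine ⟨Y, by exact_mod_cast hZ1, hZlow, by exact_mod_cast e2.trans hYlow, hYup, hYlow, ?_⟩
  have h1 : N / (E ^ 18 * j ^ 2) ≤ N / E := by
    apply div_le_div_of_nonneg_left hN0.le hE0
    calc E = E ^ 1 * 1 := by ring
      _ ≤ E ^ 18 * j ^ 2 := mul_le_mul (hEpow 1 18 (by norm_num)) hj2 zero_le_one (by positivity)
  have h2 := hYup.trans h1
  rwa [le_div_iff₀ hE0] at h2

lemma params4 (E : ℝ) (hE1 : 65536 ≤ E) : ∃ W : ℕ, E ^ 3 ≤ W ∧ 2 * (W : ℝ) + 1 ≤ E ^ 4 := by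
  refine ⟨⌈E ^ 3⌉₊, Nat.le_ceil _, ?_⟩
  have := Nat.ceil_lt_add_one (show 0 ≤ E ^ 3 by positivity)
  have e1 : (1 : ℝ) ≤ E ^ 3 := one_le_pow₀ (by linarith)
  have e2 : E ^ 4 = E * E ^ 3 := by ring
  rw [e2]
  nlinarith

lemma params5 (E x r M : ℝ) (hE1 : 65536 ≤ E) (hxE : x ≤ E ^ 2) (hxr : r + 2 ≤ x)
    (hr0 : 0 ≤ r) (t : ℝ) (ht : t ≤ E ^ 2) (hM : M ≤ t * (x + r + 2) + 1) :
    M + 1 ≤ E ^ 5 ∧ 5 / 2 + t * (x + r + 2) * (5 / x) + 4 ≤ E ^ 3 := by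
  have hx0 : 0 < x := by linarith
  constructor
  · have e1 : t * (x + r + 2) ≤ E ^ 2 * (2 * E ^ 2) := by
      apply mul_le_mul ht (by linarith) (by linarith) (by positivity)
    have e3 : (1 : ℝ) ≤ E ^ 4 := one_le_pow₀ (by linarith)
    have e4 : E ^ 2 * (2 * E ^ 2) = 2 * E ^ 4 := by ring
    have e5 : E ^ 5 = E * E ^ 4 := by ring
    rw [e4] at e1
    rw [e5]
    nlinarith only [hE1, hM, e1, e3]
  · have h3 : (x + r + 2) * (5 / x) ≤ 10 := by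
      rw [← mul_div_assoc, div_le_iff₀ hx0]
      linarith
    have h4 : t * (x + r + 2) * (5 / x) ≤ E ^ 2 * 10 := by
      rw [mul_assoc]
      apply mul_le_mul ht h3 (by positivity) (by positivity)
    have e1 : (1 : ℝ) ≤ E ^ 2 := one_le_pow₀ (by linarith)
    have e2 : E ^ 3 = E * E ^ 2 := by ring
    rw [e2]
    nlinarith only [hE1, h4]

lemma params6 (E x r j : ℝ) (hE1 : 65536 ≤ E) (hx0 : 0 ≤ x) (hxE : x ≤ E ^ 2) (hr0 : 0 ≤ r)
    (hxr : r + 2 ≤ x) (hj : 2 ≤ j) : max ((x + r) ^ 2) (j ^ 2) ≤ E ^ 5 * j ^ 2 := by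
  have e1 : (x + r) ^ 2 ≤ 4 * E ^ 4 := by
    have : x + r ≤ 2 * E ^ 2 := by linarith
    calc (x + r) ^ 2 ≤ (2 * E ^ 2) ^ 2 := by gcongr
      _ = 4 * E ^ 4 := by ring
  have e2 : 4 * E ^ 4 ≤ E ^ 5 := by
    calc 4 * E ^ 4 ≤ E * E ^ 4 := by gcongr; linarith
      _ = E ^ 5 := by ring
  have e3 : (1 : ℝ) ≤ j ^ 2 := one_le_pow₀ (by linarith)
  have e4 : (1 : ℝ) ≤ E ^ 5 := one_le_pow₀ (by linarith)
  apply max_le
  · calc (x + r) ^ 2 ≤ E ^ 5 * 1 := by linarith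
      _ ≤ E ^ 5 * j ^ 2 := by gcongr
  · calc j ^ 2 = 1 * j ^ 2 := by ring
      _ ≤ E ^ 5 * j ^ 2 := by gcongr

/-- second term at most `1/2` -/
lemma params7 (E N j Y Z K W s M A lK : ℝ) (hE1 : 65536 ≤ E) (hj : 2 ≤ j) (hY0 : 0 < Y)
    (hYup : Y ≤ N / (E ^ 18 * j ^ 2)) (hZ0 : 0 < Z) (hZlow : N / (E ^ 6 * j ^ 2) ≤ Z)
    (hK : K = 40 * Y) (hlK0 : 0 ≤ lK) (hlK : lK ≤ s ^ 2) (hs : (1 + s ^ 2) ^ 16 ≤ E)
    (hW0 : 0 ≤ W) (hW : 2 * W + 1 ≤ E ^ 4) (hM0 : 0 ≤ M) (hM : M ≤ E ^ 5) (hA0 : 0 ≤ A)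
    (hA : A ≤ 3 * K * (2 * W + 1) * (1 + lK) ^ 16) : M * (20 * A / Z) ≤ 1 / 2 := by
  have hE0 : (0 : ℝ) < E := by linarith
  have h2 : A ≤ 120 * Y * E ^ 5 := by
    refine hA.trans ?_
    subst hK
    have h3 : (1 + lK) ^ 16 ≤ E := le_trans (by gcongr) hs
    calc 3 * (40 * Y) * (2 * W + 1) * (1 + lK) ^ 16
        ≤ 3 * (40 * Y) * E ^ 4 * E := by gcongr
      _ = 120 * Y * E ^ 5 := by ring
  rw [← mul_div_assoc, div_le_iff₀ hZ0]
  have h3 : Y * E ^ 12 ≤ Z := by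
    refine le_trans ?_ hZlow
    calc Y * E ^ 12 ≤ N / (E ^ 18 * j ^ 2) * E ^ 12 := by gcongr
      _ = N / (E ^ 6 * j ^ 2) := by field_simp
  have h4 : (4800 : ℝ) ≤ E ^ 2 := by nlinarith only [hE1]
  calc M * (20 * A) ≤ E ^ 5 * (20 * (120 * Y * E ^ 5)) := by gcongr
    _ = 2400 * (Y * E ^ 10) := by ring
    _ ≤ 1 / 2 * (E ^ 2 * (Y * E ^ 10)) := by
        nlinarith only [h4, show (0 : ℝ) ≤ Y * E ^ 10 by positivity]
    _ = 1 / 2 * (Y * E ^ 12) := by ring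
    _ ≤ 1 / 2 * Z := by gcongr

/-- conclusion -/
lemma params8 (E N j Y W s M A S B' : ℝ) (hE1 : 65536 ≤ E) (hj : 2 ≤ j) (hY0 : 0 < Y)
    (hYlow : N / (E ^ 19 * j ^ 2) ≤ Y) (hN0 : 0 < N) (hs : (1 + s ^ 2) ^ 16 ≤ E)
    (hW0 : 0 ≤ W) (hW : 2 * W + 1 ≤ E ^ 4) (hM0 : 0 ≤ M) (hM : M ≤ E ^ 5) (hA0 : 0 ≤ A)
    (hS0 : 0 ≤ S) (hB : M * B' ≤ 1 / 2) (hcore : 1 ≤ M * (A / (2 * Y) + B'))
    (hCS : A ^ 2 ≤ S * ((2 * W + 1) ^ 2 * (8 * N * (1 + s ^ 2) ^ 32))) :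
    N / (E ^ 60 * j ^ 4) ≤ S := by
  have hE0 : (0 : ℝ) < E := by linarith only [hE1]
  have hfirst : Y / E ^ 5 ≤ A := by
    rw [mul_add] at hcore
    have h1 : 1 / 2 ≤ M * (A / (2 * Y)) := by linarith
    have h2 : 1 / 2 ≤ E ^ 5 * (A / (2 * Y)) := by
      refine h1.trans ?_
      gcongr
    rw [div_le_iff₀ (by positivity)]
    have h3 : E ^ 5 * (A / (2 * Y)) = (A * E ^ 5) / (2 * Y) := by ring
    rw [h3, le_div_iff₀ (by positivity)] at h2
    linarith only [h2]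
  have hCS2 : (Y / E ^ 5) ^ 2 ≤ S * (N * E ^ 11) := by
    calc (Y / E ^ 5) ^ 2 ≤ A ^ 2 := by gcongr
      _ ≤ S * ((2 * W + 1) ^ 2 * (8 * N * (1 + s ^ 2) ^ 32)) := hCS
      _ ≤ S * ((E ^ 4) ^ 2 * (8 * N * E ^ 2)) := by
          have : (1 + s ^ 2) ^ 32 ≤ E ^ 2 := by
            calc (1 + s ^ 2) ^ 32 = ((1 + s ^ 2) ^ 16) ^ 2 := by ring
              _ ≤ E ^ 2 := by gcongr
          gcongr
      _ = S * (N * (8 * E ^ 10)) := by ring
      _ ≤ S * (N * (E * E ^ 10)) := by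
          gcongr
          linarith only [hE1]
      _ = _ := by ring
  have h5 : (N / (E ^ 24 * j ^ 2)) ^ 2 ≤ S * (N * E ^ 11) := by
    refine le_trans ?_ hCS2
    have : N / (E ^ 24 * j ^ 2) ≤ Y / E ^ 5 := by
      rw [le_div_iff₀ (by positivity)]
      refine le_trans (le_of_eq ?_) hYlow
      field_simp
    gcongr
  have h6 : N / (E ^ 59 * j ^ 4) ≤ S := by
    have e1 : (N / (E ^ 24 * j ^ 2)) ^ 2 = N / (E ^ 59 * j ^ 4) * (N * E ^ 11) := by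
      field_simp
    rw [e1] at h5
    exact le_of_mul_le_mul_right h5 (by positivity)
  refine le_trans ?_ h6
  apply div_le_div_of_nonneg_left hN0.le (by positivity)
  exact mul_le_mul_of_nonneg_right (pow_le_pow_right₀ (by linarith only [hE1]) (by norm_num)) (by positivity)

lemma minus_aux (hg : CM g) (N j : ℕ) (hj2 : 2 ≤ j) (hgj : g (j ^ 2 - 2) = -1)
    (s E : ℝ) (hE : E = Real.exp s) (hs1 : 65536 ≤ s) (hs2 : s ^ 33 ≤ E)
    (hN : (N : ℝ) = Real.exp (s ^ 2)) (hbig : E ^ 60 * (j : ℝ) ^ 4 ≤ N) :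
    (N : ℝ) / (E ^ 60 * (j : ℝ) ^ 4) ≤ (SN g N).card := by
  have hs0 : (0 : ℝ) < s := by linarith
  have hsE : s ^ 2 ≤ E := by
    refine le_trans ?_ hs2
    exact pow_le_pow_right₀ (by linarith) (by norm_num)
  have hE1 : (65536 : ℝ) ≤ E := by nlinarith only [hs1, hsE]
  have hE0 : (0 : ℝ) < E := by linarith
  have hlog16 : (1 + s ^ 2) ^ 16 ≤ E := by
    refine le_trans ?_ hs2
    calc (1 + s ^ 2) ^ 16 ≤ (2 * s ^ 2) ^ 16 := by
          gcongr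
          nlinarith only [hs1]
      _ = 65536 * s ^ 32 := by ring
      _ ≤ s * s ^ 32 := by gcongr
      _ = s ^ 33 := by ring
  have hjR : (2 : ℝ) ≤ j := by exact_mod_cast hj2
  have hlogN : Real.log N = s ^ 2 := by rw [hN, Real.log_exp]
  have hN0 : (0 : ℝ) < N := by rw [hN]; positivity
  obtain ⟨r, x, hr1, hx3, hxr, hxE, h2r, hx1⟩ := params1 s E hE hs1 hsE
  obtain ⟨l, hl, hprod, hsum, hlen, hpart⟩ := chain hg x j r hx3 hj2 hgj
  have hqR' := params6 E x r j hE1 (by positivity) hxE (by positivity) hxr hjR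
  obtain ⟨q, hq⟩ : ∃ q : ℕ, q = max ((x + r) ^ 2) (j ^ 2) := ⟨_, rfl⟩
  rw [← hq] at hl
  have hqR : (q : ℝ) ≤ E ^ 5 * (j : ℝ) ^ 2 := by rw [hq]; push_cast; exact hqR'
  have hq1 : 1 ≤ q := by
    rw [hq]
    have : 1 ≤ (x + r) ^ 2 := Nat.one_le_pow _ _ (by omega)
    exact this.trans (le_max_left _ _)
  have hbig2 : E ^ 60 * (j : ℝ) ^ 2 ≤ N := by
    refine le_trans ?_ hbig
    apply mul_le_mul_of_nonneg_left _ (by positivity)
    exact pow_le_pow_right₀ (by linarith only [hjR]) (by norm_num)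
  obtain ⟨Y, hZ1, hZlow, hY1, hYup, hYlow, hYN⟩ := params3 E N j hE1 hjR N q rfl hbig2 hq1 hqR
  obtain ⟨W, hW1, hW2⟩ := params4 E hE1
  obtain ⟨hM, hwin⟩ := params5 E x r l.length hE1 hxE hxr (by positivity) (2 ^ (r + 3))
    h2r hlen
  have hY0 : (0 : ℝ) < Y := by exact_mod_cast hY1
  have hYN' : (Y : ℝ) ≤ N :=
    le_trans (le_mul_of_one_le_right hY0.le (by linarith only [hE1])) hYN
  have hclose : |(l.map th).sum| ≤ 1 / (8 * Y : ℝ) :=
    hsum.trans (params2 s E hE hs0 r x hr1 hx1 Y hY0 (by rw [← hN]; exact hYN'))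
  have hwin' : ∀ i ≤ l.length, |((l.take i).map th).sum| + 4 ≤ W := by
    intro i hi
    have h1 := hpart i hi
    linarith only [hW1, hwin, h1]
  obtain ⟨K, hK⟩ : ∃ K : ℕ, K = 40 * Y := ⟨_, rfl⟩
  have hKR : (K : ℝ) = 40 * Y := by rw [hK]; push_cast; ring
  have hKN : (K : ℝ) ≤ N := by
    rw [hKR]
    refine le_trans ?_ hYN
    rw [mul_comm]
    exact mul_le_mul_of_nonneg_left (by linarith only [hE1]) hY0.le
  have hK1 : 1 ≤ K := by omega
  obtain ⟨Z, hZ⟩ : ∃ Z : ℕ, Z = N / (2 * q) := ⟨_, rfl⟩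
  rw [← hZ] at hZ1 hZlow
  have hcore := core hg Y N Z (q * Z) q K W l hl hprod hclose hwin' hY1 hZ1 hq1 le_rfl
    (by
      have h1 : Z * (2 * q) ≤ N := by rw [hZ]; exact Nat.div_mul_le_self N (2 * q)
      calc 2 * (q * Z) = Z * (2 * q) := by ring
        _ ≤ N := h1) (by omega)
  have hSsub : SN g N ⊆ Finset.Icc 2 N := by
    intro n hn
    simp only [SN, Finset.mem_filter, Finset.mem_range, Finset.mem_Icc] at hn ⊢
    omega
  have hCS := edges_CS N W (SN g N) hSsub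
  rw [hlogN] at hCS
  have hedges := edges_le K W hK1
  have hlogK : Real.log K ≤ s ^ 2 := by
    rw [← hlogN]
    apply Real.log_le_log _ hKN
    exact_mod_cast hK1
  have hlogK0 : 0 ≤ Real.log K := Real.log_nonneg (by exact_mod_cast hK1)
  have hA0 : 0 ≤ ∑ n ∈ SN g N, ((EF W n).card : ℝ) := Finset.sum_nonneg (fun _ _ => by positivity)
  have hC0 : 0 ≤ ∑ n ∈ Finset.range (K + 1), ((EF W n).card : ℝ) :=
    Finset.sum_nonneg (fun _ _ => by positivity)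
  generalize ∑ n ∈ SN g N, ((EF W n).card : ℝ) = A at hCS hcore hA0
  generalize ∑ n ∈ Finset.range (K + 1), ((EF W n).card : ℝ) = C at hedges hcore hC0
  have hZ0 : (0 : ℝ) < Z := by exact_mod_cast hZ1
  push_cast at hcore
  have hsecond := params7 E N j Y Z K W s (l.length + 1) C (Real.log K) hE1 hjR hY0 hYup hZ0
    hZlow hKR hlogK0 hlogK hlog16 (by positivity) hW2 (by positivity) hM hC0 hedges
  exact params8 E N j Y W s (l.length + 1) A (SN g N).card (20 * C / Z) hE1 hjR hY0 hYlow hN0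
    hlog16 (by positivity) hW2 (by positivity) hM hA0 (by positivity) hsecond hcore hCS

theorem minus_side : ∃ N₀ : ℕ, ∀ N : ℕ, N₀ ≤ N → ∀ g : ℕ → ℤ, CM g →
    ∀ j : ℕ, 2 ≤ j → j ≤ N → g (j ^ 2 - 2) = -1 →
    (N : ℝ) * Real.exp (-60 * √(Real.log N)) / (j : ℝ) ^ 4 ≤ (SN g N).card := by
  have hlim : Filter.Tendsto (fun N : ℕ => √(Real.log N)) Filter.atTop Filter.atTop :=
    Real.tendsto_sqrt_atTop.comp (Real.tendsto_log_atTop.comp tendsto_natCast_atTop_atTop)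
  have h1 := (Real.tendsto_exp_div_pow_atTop 33).comp hlim
  obtain ⟨N1, hN1⟩ := Filter.eventually_atTop.1 (h1.eventually_ge_atTop 1)
  obtain ⟨N2, hN2⟩ := Filter.eventually_atTop.1 (hlim.eventually_ge_atTop (65536 : ℝ))
  refine ⟨max (max N1 N2) 1, ?_⟩
  intro N hN g hg j hj2 hjN hgj
  have a1 := hN1 N (by omega)
  have a2 := hN2 N (by omega)
  have hN1' : 1 ≤ N := by omega
  simp only [Function.comp] at a1
  set s := √(Real.log N) with hs
  have hs0 : (0 : ℝ) < s := by linarith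
  rw [one_le_div (by positivity)] at a1
  have hNR : (0 : ℝ) < N := by exact_mod_cast hN1'
  have hlogN : 0 ≤ Real.log N := Real.log_nonneg (by exact_mod_cast hN1')
  have hss : s ^ 2 = Real.log N := by rw [hs, Real.sq_sqrt hlogN]
  have hNe : (N : ℝ) = Real.exp (s ^ 2) := by rw [hss, Real.exp_log hNR]
  have hjR : (2 : ℝ) ≤ j := by exact_mod_cast hj2
  have hform : (N : ℝ) * Real.exp (-60 * s) / (j : ℝ) ^ 4 = N / (Real.exp s ^ 60 * (j : ℝ) ^ 4) := by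
    have : Real.exp (-60 * s) = (Real.exp s ^ 60)⁻¹ := by
      rw [← Real.exp_nat_mul, ← Real.exp_neg]
      congr 1
      push_cast; ring
    rw [this]
    field_simp
  rw [hform]
  rcases le_or_gt (Real.exp s ^ 60 * (j : ℝ) ^ 4) N with h | h
  · exact minus_aux hg N j hj2 hgj s _ rfl a2 a1 hNe h
  · have h2 : (N : ℝ) / (Real.exp s ^ 60 * (j : ℝ) ^ 4) ≤ 1 := by
      rw [div_le_one (by positivity)]
      exact h.le
    refine h2.trans ?_
    have h3 : 1 ≤ (SN g N).card := by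
      apply Finset.card_pos.2
      exact ⟨j, by
        simp only [SN, Finset.mem_filter, Finset.mem_range]
        exact ⟨by omega, hj2, hgj⟩⟩
    exact_mod_cast h3

end

end Pool.Agent.Lib.MP_0b748d_nt
end

section

set_option autoImplicit false

/-!
# Higher moments of the divisor function at `n^2 - 2`
-/

namespace Pool.Agent.Lib.MP_0b748d_nt

open Zsqrtd

noncomputable section

/-- `k`-th moment bound -/
theorem moment_gen (k N : ℕ) :
    ∑ n ∈ Finset.Icc 2 N, (tau (n ^ 2 - 2) : ℝ) ^ k ≤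
      2 ^ (k + 1) * N * (1 + Real.log N) ^ (2 ^ (2 * k + 1)) := by
  have h1 : ∀ n ∈ Finset.Icc 2 N, (tau (n ^ 2 - 2) : ℝ) ^ k ≤
      ∑ d ∈ Finset.Icc 1 N, if d ∣ n ^ 2 - 2 then 2 ^ k * (tau d : ℝ) ^ (2 * k) else 0 := by
    intro n hn
    rw [Finset.mem_Icc] at hn
    have h2 : 4 ≤ n ^ 2 := by nlinarith
    have h3 : n ^ 2 - 2 ≤ N ^ 2 := by
      have : n ^ 2 ≤ N ^ 2 := Nat.pow_le_pow_left hn.2 2
      omega
    obtain ⟨d, hd1, hd2, hd3⟩ := two_factor (n ^ 2 - 2) N (by omega) h3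
    have hd0 : 1 ≤ d := Nat.pos_of_dvd_of_pos hd1 (by omega)
    have h4 : (tau (n ^ 2 - 2) : ℝ) ^ k ≤ 2 ^ k * (tau d : ℝ) ^ (2 * k) := by
      have : (tau (n ^ 2 - 2) : ℝ) ≤ 2 * (tau d : ℝ) ^ 2 := by exact_mod_cast hd3
      calc (tau (n ^ 2 - 2) : ℝ) ^ k ≤ (2 * (tau d : ℝ) ^ 2) ^ k := by gcongr
        _ = 2 ^ k * (tau d : ℝ) ^ (2 * k) := by rw [mul_pow, ← pow_mul]
    refine h4.trans ?_
    have h5 := Finset.single_le_sum
      (f := fun d => if d ∣ n ^ 2 - 2 then 2 ^ k * (tau d : ℝ) ^ (2 * k) else 0)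
      (s := Finset.Icc 1 N) (by intro i _; split_ifs <;> positivity)
      (Finset.mem_Icc.2 ⟨hd0, hd2⟩)
    simp only [if_pos hd1] at h5
    exact h5
  refine (Finset.sum_le_sum h1).trans ?_
  rw [Finset.sum_comm]
  have h2 : ∀ d ∈ Finset.Icc 1 N, (∑ n ∈ Finset.Icc 2 N,
      if d ∣ n ^ 2 - 2 then 2 ^ k * (tau d : ℝ) ^ (2 * k) else 0) ≤
      2 ^ (k + 1) * N * ((tau d : ℝ) ^ (2 * k + 1) / d) := by
    intro d hd
    rw [Finset.mem_Icc] at hd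
    rw [← Finset.sum_filter, Finset.sum_const, nsmul_eq_mul]
    have h3 : ((Sol d N).card : ℝ) ≤ tau d * (N / d + 1 : ℕ) := by
      exact_mod_cast sol_card_le d N hd.1
    have hdR : (0 : ℝ) < d := by exact_mod_cast hd.1
    have h4 : ((N / d + 1 : ℕ) : ℝ) ≤ 2 * (N / d) := by
      push_cast
      have h5 : ((N / d : ℕ) : ℝ) ≤ (N : ℝ) / d := Nat.cast_div_le
      have h6 : (1 : ℝ) ≤ N / d := by
        rw [one_le_div hdR]; exact_mod_cast hd.2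
      linarith
    have h5 : ((Finset.Icc 2 N).filter (fun n => d ∣ n ^ 2 - 2)).card = (Sol d N).card := rfl
    rw [h5]
    calc ((Sol d N).card : ℝ) * (2 ^ k * (tau d : ℝ) ^ (2 * k))
        ≤ (tau d * (2 * (N / d))) * (2 ^ k * (tau d : ℝ) ^ (2 * k)) := by
          apply mul_le_mul_of_nonneg_right _ (by positivity)
          refine h3.trans ?_
          gcongr
      _ = 2 ^ (k + 1) * N * ((tau d : ℝ) ^ (2 * k + 1) / d) := by
          rw [pow_succ (2 : ℝ) k, pow_succ (tau d : ℝ) (2 * k)]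
          ring
  refine (Finset.sum_le_sum h2).trans ?_
  rw [← Finset.mul_sum]
  apply mul_le_mul_of_nonneg_left _ (by positivity)
  refine (tau_pow_sum (2 * k + 1) N).trans ?_
  have h3 : ∑ d ∈ Finset.Icc 1 N, (1 : ℝ) / d ≤ 1 + Real.log N := by
    have := harmonic_le_one_add_log N
    rw [harmonic_eq_sum_Icc] at this
    push_cast at this
    simpa [one_div] using this
  have h4 : 0 ≤ ∑ d ∈ Finset.Icc 1 N, (1 : ℝ) / d := Finset.sum_nonneg (fun _ _ => by positivity)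
  gcongr

lemma edges_holder (k N W : ℕ) (S : Finset ℕ) (hS : S ⊆ Finset.Icc 2 N) :
    (∑ n ∈ S, ((EF W n).card : ℝ)) ^ (k + 1) ≤
      (S.card : ℝ) ^ k * ((2 * W + 1) ^ (k + 1) *
        (2 ^ (k + 2) * N * (1 + Real.log N) ^ (2 ^ (2 * k + 3)))) := by
  have h0 : ∑ n ∈ S, ((EF W n).card : ℝ) ^ (k + 1) ≤ (2 * W + 1) ^ (k + 1) *
        (2 ^ (k + 2) * N * (1 + Real.log N) ^ (2 ^ (2 * k + 3))) := by
    have h2 : ∀ n ∈ S, ((EF W n).card : ℝ) ^ (k + 1) ≤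
        (2 * W + 1) ^ (k + 1) * (tau (n ^ 2 - 2) : ℝ) ^ (k + 1) := by
      intro n _
      have h3 : ((EF W n).card : ℝ) ≤ (tau (n ^ 2 - 2) : ℝ) * (2 * W + 1) := by
        have := EF_card W n
        simp only [tau]
        exact_mod_cast this
      calc ((EF W n).card : ℝ) ^ (k + 1) ≤ ((tau (n ^ 2 - 2) : ℝ) * (2 * W + 1)) ^ (k + 1) := by
            gcongr
        _ = _ := by rw [mul_pow]; ring
    refine (Finset.sum_le_sum h2).trans ?_
    rw [← Finset.mul_sum]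
    apply mul_le_mul_of_nonneg_left _ (by positivity)
    refine (Finset.sum_le_sum_of_subset_of_nonneg hS (fun _ _ _ => by positivity)).trans ?_
    have := moment_gen (k + 1) N
    have e : 2 * (k + 1) + 1 = 2 * k + 3 := by ring
    rw [e] at this
    exact this
  rcases S.eq_empty_or_nonempty with hE | hE
  · subst hE
    simp only [Finset.sum_empty]
    rw [zero_pow (by omega)]
    positivity
  · have h1 := pow_sum_div_card_le_sum_pow (s := S) (f := fun n => ((EF W n).card : ℝ))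
      (fun _ _ => by positivity) k
    have hc : (0 : ℝ) < (S.card : ℝ) ^ k := by
      have : 0 < S.card := Finset.card_pos.2 hE
      have h5 : (0 : ℝ) < S.card := by exact_mod_cast this
      positivity
    rw [div_le_iff₀ hc] at h1
    refine h1.trans ?_
    rw [mul_comm]
    exact mul_le_mul_of_nonneg_left h0 hc.le

end

end Pool.Agent.Lib.MP_0b748d_nt
end
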