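import Pool.Agent.Lib.MP_0b748d_nt.Cover

set_option autoImplicit false

/-!
# Elements of prime norm in `ℤ[√2]`
-/

namespace Pool.Agent.Lib.MP_0b748d_nt

open Zsqrtd

noncomputable section

lemma PrimeElt_nonsq (n : ℤ) : (2 : ℤ) ≠ n * n := by
  intro h
  have h1 : |n| ≤ 1 := by
    by_contra hc
    push Not at hc
    have : 2 ≤ |n| := hc
    have h2 : n * n = |n| * |n| := (abs_mul_abs_self n).symm
    nlinarith
  have h2 : -1 ≤ n ∧ n ≤ 1 := abs_le.mp h1
  obtain ⟨h3, h4⟩ := h2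
  interval_cases n <;> omega

lemma PrimeElt_ne_zero (X Y : ℤ) (h : X ^ 2 - 2 * Y ^ 2 = 0) : X = 0 ∧ Y = 0 := by
  have h1 : Zsqrtd.norm (⟨X, Y⟩ : ℤ√2) = 0 := by
    rw [Zsqrtd.norm_def]
    simp only
    linarith
  rw [Zsqrtd.norm_eq_zero PrimeElt_nonsq] at h1
  have h2 := congrArg Zsqrtd.re h1
  have h3 := congrArg Zsqrtd.im h1
  simpa using ⟨h2, h3⟩

theorem exists_elt (p : ℕ) (hp : p.Prime) (h8 : p % 8 = 1) : ∃ z : ℤ√2, TP z ∧ nm z = p := by
  classical
  have : Fact p.Prime := ⟨hp⟩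
  have hp2 : p ≠ 2 := by
    rintro rfl
    omega
  obtain ⟨r, hr⟩ := (ZMod.exists_sq_eq_two_iff (p := p) hp2).mpr (Or.inl h8)
  set n := Nat.sqrt p with hn
  have hn1 : n * n ≤ p := Nat.sqrt_le p
  have hn2 : p < (n + 1) * (n + 1) := Nat.lt_succ_sqrt p
  have hn3 : n * n < p := by
    rcases lt_or_eq_of_le hn1 with h | h
    · exact h
    · exfalso
      have hd : n ∣ p := ⟨n, h.symm⟩
      rcases (Nat.dvd_prime hp).mp hd with h1 | h1
      · rw [h1] at h
        have := hp.two_le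
        omega
      · rw [h1] at h
        have := hp.two_le
        nlinarith only [h, this]
  have hcard : (Finset.univ : Finset (ZMod p)).card <
      (Finset.range (n + 1) ×ˢ Finset.range (n + 1)).card := by
    rw [Finset.card_univ, ZMod.card, Finset.card_product, Finset.card_range]
    exact hn2
  obtain ⟨x, hx, y, hy, hxy, hf⟩ := Finset.exists_ne_map_eq_of_card_lt_of_maps_to hcard
    (f := fun q : ℕ × ℕ => (q.1 : ZMod p) - r * (q.2 : ZMod p))
    (fun _ _ => Finset.mem_coe.mpr (Finset.mem_univ _))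
  rw [Finset.mem_product, Finset.mem_range, Finset.mem_range] at hx hy
  set X : ℤ := (x.1 : ℤ) - y.1 with hX
  set Y : ℤ := (x.2 : ℤ) - y.2 with hY
  have hXY : ((X : ℤ) : ZMod p) = r * ((Y : ℤ) : ZMod p) := by
    simp only [hX, hY]
    push_cast
    linear_combination hf
  have hdvd : (p : ℤ) ∣ X ^ 2 - 2 * Y ^ 2 := by
    rw [← ZMod.intCast_zmod_eq_zero_iff_dvd]
    push_cast
    rw [hXY, hr]
    ring
  have hXb : X ^ 2 ≤ n * n := by
    have h1 : X ≤ n := by omega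
    have h2 : -n ≤ X := by omega
    nlinarith only [h1, h2]
  have hYb : Y ^ 2 ≤ n * n := by
    have h1 : Y ≤ n := by omega
    have h2 : -n ≤ Y := by omega
    nlinarith only [h1, h2]
  have hn3' : (n : ℤ) * n < p := by exact_mod_cast hn3
  have hne : X ^ 2 - 2 * Y ^ 2 ≠ 0 := by
    intro h
    obtain ⟨h1, h2⟩ := PrimeElt_ne_zero X Y h
    apply hxy
    ext <;> omega
  obtain ⟨k, hk⟩ := hdvd
  have hp0 : (0 : ℤ) < p := by exact_mod_cast hp.pos
  have hk1 : k < 1 := by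
    by_contra hc
    push Not at hc
    nlinarith only [hXb, hn3', hk, hc]
  have hk2 : -2 < k := by
    by_contra hc
    push Not at hc
    nlinarith only [hYb, hn3', hk, hc]
  have hk0 : k ≠ 0 := by
    rintro rfl
    rw [mul_zero] at hk
    exact hne hk
  have hk3 : k = -1 := by omega
  rw [hk3] at hk
  have hnorm : (X + 2 * Y) ^ 2 - 2 * (X + Y) ^ 2 = p := by linarith only [hk]
  have hre : X + 2 * Y ≠ 0 := by
    intro h
    rw [h] at hnorm
    linarith only [hp0, hnorm, sq_nonneg (X + Y)]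
  rcases lt_or_gt_of_ne hre with h | h
  · refine ⟨⟨-(X + 2 * Y), -(X + Y)⟩, ?_, ?_⟩
    · rw [TP_iff]
      refine ⟨by simp only; omega, ?_⟩
      simp only [nm]
      have : (-(X + 2 * Y)) ^ 2 - 2 * (-(X + Y)) ^ 2 = p := by rw [← hnorm]; ring
      rw [this]
      exact hp0
    · simp only [nm]
      rw [← hnorm]
      ring
  · refine ⟨⟨X + 2 * Y, X + Y⟩, ?_, ?_⟩
    · rw [TP_iff]
      refine ⟨h, ?_⟩
      simp only [nm]
      rw [hnorm]
      exact hp0
    · simp only [nm]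
      exact hnorm

lemma PrimeElt_nm_prod {ι : Type*} (s : Finset ι) (z : ι → ℤ√2) :
    nm (∏ i ∈ s, z i) = ∏ i ∈ s, nm (z i) := by
  classical
  induction s using Finset.induction_on with
  | empty => simp [nm]
  | insert a s ha ih => rw [Finset.prod_insert ha, Finset.prod_insert ha, nm_mul, ih]

theorem prim_prod (pi : ℕ → ℤ√2)
    (hpi : ∀ p, p.Prime → p % 8 = 1 → TP (pi p) ∧ nm (pi p) = p) (l : ℕ) (f : Fin l → ℕ)
    (hf : ∀ i, (f i).Prime ∧ f i % 8 = 1) : Prim (∏ i, pi (f i)) := by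
  classical
  set P : ℤ√2 := ∏ i, pi (f i) with hP
  have hnmP : nm P = ∏ i, (f i : ℤ) := by
    rw [hP, PrimeElt_nm_prod]
    exact Finset.prod_congr rfl fun i _ => (hpi (f i) (hf i).1 (hf i).2).2
  unfold Prim
  rw [Int.isCoprime_iff_gcd_eq_one]
  by_contra hg
  obtain ⟨q, hq, hqd⟩ := Nat.exists_prime_and_dvd hg
  have hqre : (q : ℤ) ∣ P.re := (Int.natCast_dvd_natCast.mpr hqd).trans (Int.gcd_dvd_left ..)
  have hqim : (q : ℤ) ∣ P.im := (Int.natCast_dvd_natCast.mpr hqd).trans (Int.gcd_dvd_right ..)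
  have hqn : (q : ℤ) ∣ ∏ i, (f i : ℤ) := by
    rw [← hnmP]
    unfold nm
    exact dvd_sub (hqre.trans (dvd_pow_self _ two_ne_zero))
      ((hqim.trans (dvd_pow_self _ two_ne_zero)).mul_left 2)
  have hqn' : q ∣ ∏ i, f i := by
    have : ((q : ℕ) : ℤ) ∣ ((∏ i, f i : ℕ) : ℤ) := by
      push_cast
      exact hqn
    exact_mod_cast this
  obtain ⟨i0, _, hi0⟩ := (Prime.dvd_finsetProd_iff hq.prime _).mp hqn'
  have hqi0 : q = f i0 := (Nat.prime_dvd_prime_iff_eq hq (hf i0).1).mp hi0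
  have hq8 : q % 8 = 1 := by rw [hqi0]; exact (hf i0).2
  have : Fact q.Prime := ⟨hq⟩
  obtain ⟨_, hnq⟩ := hpi q hq hq8
  set a := (pi q).re with ha
  set b := (pi q).im with hb
  have hab : a ^ 2 - 2 * b ^ 2 = q := hnq
  have hbq : ((b : ℤ) : ZMod q) ≠ 0 := by
    intro h
    rw [ZMod.intCast_zmod_eq_zero_iff_dvd] at h
    have h1 : (q : ℤ) ∣ a ^ 2 := by
      have : a ^ 2 = q + 2 * b ^ 2 := by linarith
      rw [this]
      exact dvd_add dvd_rfl ((h.trans (dvd_pow_self _ two_ne_zero)).mul_left 2)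
    have h2 : (q : ℤ) ∣ a := (Nat.prime_iff_prime_int.mp hq).dvd_of_dvd_pow h1
    have h3 : (q : ℤ) ^ 2 ∣ (q : ℤ) := by
      have e : (q : ℤ) = a ^ 2 - 2 * b ^ 2 := hab.symm
      have h4 : (q : ℤ) ^ 2 ∣ a ^ 2 - 2 * b ^ 2 :=
        dvd_sub (pow_dvd_pow_of_dvd h2 2) ((pow_dvd_pow_of_dvd h 2).mul_left 2)
      rwa [← e] at h4
    have h5 : q ^ 2 ∣ q := by exact_mod_cast h3
    have h6 := Nat.le_of_dvd hq.pos h5
    have h7 := hq.two_le
    nlinarith only [h6, h7]
  set r : ZMod q := (a : ZMod q) / (b : ZMod q) with hr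
  have habz : (a : ZMod q) ^ 2 = 2 * (b : ZMod q) ^ 2 := by
    have h := congrArg (fun t : ℤ => (t : ZMod q)) hab
    push_cast at h
    rw [ZMod.natCast_self] at h
    linear_combination h
  have hr2 : r * r = ((2 : ℤ) : ZMod q) := by
    rw [hr]
    field_simp
    push_cast
    linear_combination habz
  let φ : ℤ√2 →+* ZMod q := Zsqrtd.lift ⟨r, hr2⟩
  have hφ : ∀ z : ℤ√2, φ z = (z.re : ZMod q) + z.im * r := fun z => rfl
  have hφP : φ P = 0 := by
    rw [hφ, (ZMod.intCast_zmod_eq_zero_iff_dvd _ _).mpr hqre,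
      (ZMod.intCast_zmod_eq_zero_iff_dvd _ _).mpr hqim]
    ring
  rw [hP, map_prod, Finset.prod_eq_zero_iff] at hφP
  obtain ⟨i, _, hi⟩ := hφP
  obtain ⟨_, hni⟩ := hpi (f i) (hf i).1 (hf i).2
  have h1 : φ (pi (f i)) * (((pi (f i)).re : ZMod q) - (pi (f i)).im * r) =
      ((f i : ℕ) : ZMod q) := by
    have h := congrArg (fun t : ℤ => (t : ZMod q)) hni
    simp only [nm] at h
    push_cast at h hr2
    rw [hφ, ← h]
    linear_combination (-((pi (f i)).im : ZMod q) ^ 2) * hr2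
  rw [hi, zero_mul] at h1
  have h2 : q ∣ f i := (ZMod.natCast_eq_zero_iff _ _).mp h1.symm
  have h3 : q = f i := (Nat.prime_dvd_prime_iff_eq hq (hf i).1).mp h2
  rw [← h3, hφ] at hi
  have h4 : (b : ZMod q) * r = a := by
    rw [hr]
    field_simp
  have h5 : (2 : ZMod q) * a = 0 := by
    have : ((pi q).re : ZMod q) + (pi q).im * r = a + b * r := rfl
    rw [this, h4] at hi
    linear_combination hi
  have h20 : (2 : ZMod q) ≠ 0 := by
    intro h
    have : ((2 : ℕ) : ZMod q) = 0 := by exact_mod_cast h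
    rw [ZMod.natCast_eq_zero_iff] at this
    have := Nat.le_of_dvd two_pos this
    have := hq.two_le
    have : q = 2 := by omega
    omega
  have h6 : (a : ZMod q) = 0 := (mul_eq_zero.mp h5).resolve_left h20
  rw [h6] at habz
  have h7 : (b : ZMod q) ^ 2 = 0 := by
    have : (2 : ZMod q) * (b : ZMod q) ^ 2 = 0 := by rw [← habz]; ring
    exact (mul_eq_zero.mp this).resolve_left h20
  exact hbq (pow_eq_zero_iff two_ne_zero |>.mp h7)

end

end Pool.Agent.Lib.MP_0b748d_nt
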