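import Pool.Agent.Lib.MP_0b748d_nt.P.Defs

set_option autoImplicit false

/-!
# Farey cone induction with parity class
-/

namespace Pool.Agent.Lib.MP_0b748d_nt

open Zsqrtd

noncomputable section

/-- the triangle spanned by an edge and its mediant: all vertices of the class have the same
value -/
lemma Cone_tri (Fn : ℤ√2 → ℤ) (c : Bool) (H : ℤ) (a b : ℤ√2) (ha : TP a) (hb : TP b)
    (hab : det a b = 1)
    (hE : ∀ x y, TP x → TP y → det x y = 1 → th a ≤ th x → th y ≤ th b → B x y ≤ H →
      B x y % 2 = par c → Fn x = Fn y)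
    (hH : nm a + 2 * B a b + nm b ≤ H) :
    (Q c a → Q c b → Fn a = Fn b) ∧ (Q c a → Q c (a + b) → Fn a = Fn (a + b)) ∧
      (Q c (a + b) → Q c b → Fn (a + b) = Fn b) ∧ (Q c a ∨ Q c (a + b)) ∧
      (Q c b ∨ Q c (a + b)) := by
  have hs : TP (a + b) := ha.add hb
  have hB : 0 < B a b := B_pos ha hb
  have hna := ha.nm_pos
  have hnb := hb.nm_pos
  have d1 : det a (a + b) = 1 := by
    simp only [det, re_add, im_add] at hab ⊢; linarith
  have d2 : det (a + b) b = 1 := by
    simp only [det, re_add, im_add] at hab ⊢; linarith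
  have b1 : B a (a + b) = nm a + B a b := by
    simp only [B, nm, re_add, im_add]; ring
  have b2 : B (a + b) b = nm b + B a b := by
    simp only [B, nm, re_add, im_add]; ring
  have t1 : th a ≤ th (a + b) := (th_le_iff ha hs).2 (by rw [d1]; norm_num)
  have t2 : th (a + b) ≤ th b := (th_le_iff hs hb).2 (by rw [d2]; norm_num)
  have E1 := hE a b ha hb hab le_rfl le_rfl (by linarith)
  have E2 := hE a (a + b) ha hs d1 le_rfl t2 (by linarith)
  have E3 := hE (a + b) b hs hb d2 t1 le_rfl (by linarith)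
  have par1 : ∀ x y : ℤ√2, B x y % 2 = (x.re % 2) * (y.re % 2) := by
    intro x y
    simp only [B]
    rw [show x.re * y.re - 2 * x.im * y.im = x.re * y.re + 2 * (-(x.im * y.im)) by ring,
      Int.add_mul_emod_self_left, Int.mul_emod]
    rcases Int.emod_two_eq_zero_or_one x.re with h | h <;>
    rcases Int.emod_two_eq_zero_or_one y.re with h' | h' <;> simp [h, h']
  have hodd : ¬ (a.re % 2 = 0 ∧ b.re % 2 = 0) := by
    rintro ⟨h1, h2⟩
    have h3 : (2 : ℤ) ∣ det a b := by
      simp only [det]
      exact dvd_sub (Dvd.dvd.mul_right (Int.dvd_of_emod_eq_zero h1) _)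
        (Dvd.dvd.mul_left (Int.dvd_of_emod_eq_zero h2) _)
    rw [hab] at h3
    omega
  rw [par1] at E1 E2 E3
  have hre : (a + b).re = a.re + b.re := re_add _ _
  cases c with
  | true =>
    simp only [Q, forall_true_left, par, if_true, Nat.cast_one] at *
    refine ⟨fun h1 h2 => E1 (by rw [h1, h2]; rfl), fun h1 h2 => E2 (by rw [h1, h2]; rfl),
      fun h1 h2 => E3 (by rw [h1, h2]; rfl), ?_, ?_⟩
    · rw [hre]; omega
    · rw [hre]; omega
  | false =>
    simp only [Q, par, Bool.false_eq_true, if_false, Nat.cast_zero, false_imp_iff,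
      forall_true_left, or_true, and_true] at *
    have key : Fn a = Fn b ∧ Fn a = Fn (a + b) := by
      rcases Int.emod_two_eq_zero_or_one a.re with h | h
      · have e1 := E1 (by rw [h]; ring)
        have e2 := E2 (by rw [h]; ring)
        exact ⟨e1, e2⟩
      · rcases Int.emod_two_eq_zero_or_one b.re with h' | h'
        · have e1 := E1 (by rw [h']; ring)
          have e2 := E3 (by rw [h']; ring)
          exact ⟨e1, e1.trans e2.symm⟩
        · have hs0 : (a + b).re % 2 = 0 := by rw [hre]; omega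
          have e1 := E2 (by rw [hs0]; ring)
          have e2 := E3 (by rw [hs0]; ring)
          exact ⟨e1.trans e2, e1⟩
    exact ⟨key.1, key.2, key.2.symm.trans key.1⟩

lemma Cone_aux (Fn : ℤ√2 → ℤ) (c : Bool) (H : ℤ) (v : ℤ√2) (pv : Prim v)
    (qv : Q c v) (hH : nm v ≤ H) :
    ∀ n : ℕ, ∀ a b : ℤ√2, TP a → TP b → det a b = 1 →
    (∀ x y, TP x → TP y → det x y = 1 → th a ≤ th x → th y ≤ th b → B x y ≤ H →
      B x y % 2 = par c → Fn x = Fn y) → 0 < det a v → 0 < det v b →
    (det a v + det v b).toNat = n →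
    (Q c a → Fn a = Fn v) ∧ (Q c b → Fn b = Fn v) := by
  intro n
  induction n using Nat.strong_induction_on with
  | _ n ih =>
  intro a b ha hb hab hE h1 h2 hn
  set p : ℤ := det v b with hp
  set q : ℤ := det a v with hq
  have hvre : v.re = p * a.re + q * b.re := by
    rw [hp, hq]
    simp only [det] at hab ⊢
    linear_combination (-v.re) * hab
  have hvim : v.im = p * a.im + q * b.im := by
    rw [hp, hq]
    simp only [det] at hab ⊢
    linear_combination (-v.im) * hab
  have hB : 0 < B a b := B_pos ha hb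
  have hna := ha.nm_pos
  have hnb := hb.nm_pos
  have hnv : nm v = p ^ 2 * nm a + 2 * (p * q) * B a b + q ^ 2 * nm b := by
    simp only [nm, B, hvre, hvim]
    ring
  have hp1 : 1 ≤ p := by omega
  have hq1 : 1 ≤ q := by omega
  have hle : nm a + 2 * B a b + nm b ≤ H := by
    refine le_trans ?_ hH
    rw [hnv]
    have e1 : 1 * nm a ≤ p ^ 2 * nm a :=
      mul_le_mul_of_nonneg_right (by nlinarith) hna.le
    have e2 : 1 * nm b ≤ q ^ 2 * nm b :=
      mul_le_mul_of_nonneg_right (by nlinarith) hnb.le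
    have e3 : 1 * B a b ≤ (p * q) * B a b :=
      mul_le_mul_of_nonneg_right (by nlinarith) hB.le
    linarith
  obtain ⟨T1, T2, T3, T4, T5⟩ := Cone_tri Fn c H a b ha hb hab hE hle
  have hs : TP (a + b) := ha.add hb
  have d1 : det a (a + b) = 1 := by
    simp only [det, re_add, im_add] at hab ⊢; linarith
  have d2 : det (a + b) b = 1 := by
    simp only [det, re_add, im_add] at hab ⊢; linarith
  have t1 : th a ≤ th (a + b) := (th_le_iff ha hs).2 (by rw [d1]; norm_num)
  have t2 : th (a + b) ≤ th b := (th_le_iff hs hb).2 (by rw [d2]; norm_num)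
  have dv1 : det v (a + b) = p - q := by
    rw [hp, hq]
    simp only [det, re_add, im_add]; ring
  have dv2 : det (a + b) v = q - p := by
    rw [hp, hq]
    simp only [det, re_add, im_add]; ring
  rcases lt_trichotomy p q with hpq | hpq | hpq
  · -- strictly inside the cone spanned by `a + b` and `b`
    obtain ⟨I1, I2⟩ := ih (det (a + b) v + det v b).toNat (by
      rw [← hn, dv2, ← hp]; omega) (a + b) b hs hb d2
      (fun x y hx hy hxy hax hyb => hE x y hx hy hxy (t1.trans hax) hyb)
      (by rw [dv2]; omega) h2 rfl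
    refine ⟨fun hqa => ?_, I2⟩
    rcases T5 with h | h
    · exact (T1 hqa h).trans (I2 h)
    · exact (T2 hqa h).trans (I1 h)
  · -- `v = a + b`
    have hp2 : p = 1 := by
      obtain ⟨x, y, hxy⟩ := pv
      rw [hvre, hvim, ← hpq] at hxy
      have : p ∣ 1 := ⟨x * (a.re + b.re) + y * (a.im + b.im), by linarith⟩
      have := Int.le_of_dvd one_pos this
      omega
    have hveq : v = a + b := by
      rw [← hpq, hp2] at hvre hvim
      ext
      · rw [hvre, re_add]; ring
      · rw [hvim, im_add]; ring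
    rw [hveq] at qv ⊢
    exact ⟨fun h => T2 h qv, fun h => (T3 qv h).symm⟩
  · -- strictly inside the cone spanned by `a` and `a + b`
    obtain ⟨I1, I2⟩ := ih (det a v + det v (a + b)).toNat (by
      rw [← hn, dv1, ← hq]; omega) a (a + b) ha hs d1
      (fun x y hx hy hxy hax hyb => hE x y hx hy hxy hax (hyb.trans t2))
      h1 (by rw [dv1]; omega) rfl
    refine ⟨I1, fun hqb => ?_⟩
    rcases T4 with h | h
    · exact (T1 h hqb).symm.trans (I1 h)
    · exact (T3 h hqb).symm.trans (I2 h)

/-- triangle lemma + induction -/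
theorem cone (Fn : ℤ√2 → ℤ) (c : Bool) (H : ℤ) (a b : ℤ√2) (ha : TP a) (hb : TP b)
    (hab : det a b = 1)
    (hE : ∀ x y, TP x → TP y → det x y = 1 → th a ≤ th x → th y ≤ th b → B x y ≤ H →
      B x y % 2 = par c → Fn x = Fn y)
    (v : ℤ√2) (hv : TP v) (pv : Prim v) (qv : Q c v) (h1 : 0 < det a v) (h2 : 0 < det v b)
    (hH : nm v ≤ H) :
    (Q c a → Fn a = Fn v) ∧ (Q c b → Fn b = Fn v) :=
  Cone_aux Fn c H v pv qv hH _ a b ha hb hab hE h1 h2 rfl

end

end Pool.Agent.Lib.MP_0b748d_nt
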