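import Pool.Agent.Lib.MP_0b748d_nt.P.Defs
import Pool.Agent.Lib.MP_0b748d_nt.Plus

set_option autoImplicit false

/-!
# Few products of box elements have directions in a given set
-/

namespace Pool.Agent.Lib.MP_0b748d_nt

open Zsqrtd

noncomputable section

lemma energy_ext {z w : ℤ√2} (h1 : s1 z = s1 w) (h2 : s2 z = s2 w) : z = w := by
  simp only [s1, s2] at h1 h2
  have hs := sqrt2_pos
  ext
  · have : (z.re : ℝ) = w.re := by linarith
    exact_mod_cast this
  · have h3 : (z.im : ℝ) * √2 = w.im * √2 := by linarith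
    have : (z.im : ℝ) = w.im := mul_right_cancel₀ hs.ne' h3
    exact_mod_cast this

/-- two elements of the same norm, congruent in the right sense and close, are equal -/
lemma energy_eq {z z' : ℤ√2} (hz : TP z) (hz' : TP z') (hn : nm z = nm z')
    (h1 : nm z ∣ (z' * star z).re) (h2 : nm z ∣ (z' * star z).im)
    (hth : |th z' - th z| < 1) : z = z' := by
  obtain ⟨x, hx⟩ := h1
  obtain ⟨y, hy⟩ := h2
  set k := nm z with hk
  have hkpos : 0 < k := hz.nm_pos
  set u : ℤ√2 := ⟨x, y⟩ with hu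
  have hmul_re : (z' * star z).re = k * u.re := hx
  have hmul_im : (z' * star z).im = k * u.im := hy
  have hnu : nm u = 1 := by
    have h1 : nm (z' * star z) = k ^ 2 * nm u := by
      have : nm (z' * star z) = (z' * star z).re ^ 2 - 2 * (z' * star z).im ^ 2 := rfl
      rw [this, hmul_re, hmul_im]
      simp only [nm]; ring
    rw [nm_mul, nm_star, ← hn, ← hk] at h1
    have : k ^ 2 * (nm u - 1) = 0 := by linear_combination -h1
    rcases mul_eq_zero.1 this with h2 | h2
    · have : 0 < k ^ 2 := by positivity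
      omega
    · omega
  have hkR : (0 : ℝ) < k := by exact_mod_cast hkpos
  have hT := hz'.mul hz.star
  have hs1 : s1 (z' * star z) = k * s1 u := by
    simp only [s1, hmul_re, hmul_im]; push_cast; ring
  have hs2 : s2 (z' * star z) = k * s2 u := by
    simp only [s2, hmul_re, hmul_im]; push_cast; ring
  have hTu : TP u := by
    constructor
    · have := hT.1
      rw [hs1] at this
      exact (mul_pos_iff_of_pos_left hkR).1 this
    · have := hT.2
      rw [hs2] at this
      exact (mul_pos_iff_of_pos_left hkR).1 this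
  have hthu : th u = th z' - th z := by
    have h1 : th (z' * star z) = th u := by
      simp only [th]
      rw [hs1, hs2, Real.log_mul hkR.ne' hTu.1.ne', Real.log_mul hkR.ne' hTu.2.ne']
      ring
    rw [← h1, th_mul hz' hz.star, th_star]
    ring
  have hu1 : u = 1 := unit_eq_one hTu hnu (by rw [hthu]; exact hth)
  have hure : u.re = 1 := by rw [hu1]; rfl
  have huim : u.im = 0 := by rw [hu1]; rfl
  rw [hure] at hmul_re
  rw [huim] at hmul_im
  simp only [re_mul, im_mul, re_star, im_star] at hmul_re hmul_im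
  have hna : z.re ^ 2 - 2 * z.im ^ 2 = k := rfl
  have h1 : k * z'.re = k * z.re := by
    linear_combination z.re * hmul_re + 2 * z.im * hmul_im - z'.re * hna
  have h2 : k * z'.im = k * z.im := by
    linear_combination z.im * hmul_re + z.re * hmul_im - z'.im * hna
  ext
  · exact (mul_left_cancel₀ hkpos.ne' h1).symm
  · exact (mul_left_cancel₀ hkpos.ne' h2).symm

lemma energy_tau_mono {a b : ℕ} (hb : b ≠ 0) (h : a ∣ b) : tau a ≤ tau b :=
  Finset.card_le_card (Nat.divisors_subset_of_dvd hb h)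

/-- primitive elements of norm `m` -/
lemma energy_prim (m : ℕ) (hm : 1 ≤ m) (S : Finset (ℤ√2))
    (h : ∀ z ∈ S, TP z ∧ Prim z ∧ nm z = m)
    (hth : ∀ z ∈ S, ∀ z' ∈ S, |th z' - th z| < 1) : S.card ≤ 2 * tau m := by
  have htau := tau_pos hm
  rcases lt_or_ge m 3 with hm3 | hm3
  · have : S.card ≤ 1 := by
      rw [Finset.card_le_one]
      intro z hz z' hz'
      obtain ⟨t1, p1, n1⟩ := h z hz
      obtain ⟨t2, p2, n2⟩ := h z' hz'
      have hm' : m = 1 ∨ m = 2 := by omega
      rcases hm' with rfl | rfl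
      · apply energy_eq t1 t2 (n1.trans n2.symm) _ _ (hth z hz z' hz')
        · rw [n1]; exact one_dvd _
        · rw [n1]; exact one_dvd _
      · have even_of : ∀ w : ℤ√2, nm w = ((2 : ℕ) : ℤ) → (2 : ℤ) ∣ w.re := by
          intro w hw
          simp only [nm] at hw
          push_cast at hw
          have h3 : (2 : ℤ) ∣ w.re ^ 2 := ⟨1 + w.im ^ 2, by linarith⟩
          exact Int.prime_two.dvd_of_dvd_pow h3
        have e1 := even_of z n1
        have e2 := even_of z' n2
        apply energy_eq t1 t2 (n1.trans n2.symm) _ _ (hth z hz z' hz')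
        · rw [n1]
          simp only [re_mul, re_star, im_star]
          push_cast
          exact dvd_add (Dvd.dvd.mul_right e2 _) ⟨z'.im * -z.im, by ring⟩
        · rw [n1]
          simp only [im_mul, re_star, im_star]
          push_cast
          exact dvd_add (Dvd.dvd.mul_right e2 _) (Dvd.dvd.mul_left e1 _)
    omega
  · have hpar : ∀ z ∈ S, ∃ a : ℤ√2, TP a ∧ det a z = 1 ∧ B a z ≤ m := by
      intro z hz
      obtain ⟨t1, p1, n1⟩ := h z hz
      obtain ⟨a, b, ha, hb, hdet, hab, h1, h2, h3⟩ := parents t1 p1 (by rw [n1]; exact_mod_cast hm3)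
      refine ⟨a, ha, ?_, by rw [← n1]; exact h1⟩
      rw [← hab, ← hdet]; simp only [det, re_add, im_add]; ring
    choose! a ha hdet hB using hpar
    have hcard : S.card ≤ (Sol m m).card := by
      apply Finset.card_le_card_of_injOn (fun z => (B (a z) z).toNat)
      · intro z hz
        have hz' : z ∈ S := hz
        obtain ⟨t1, p1, n1⟩ := h z hz'
        have h2 := B_edge_ge (ha z hz') t1 (hdet z hz')
        have h3 := hB z hz'
        have h4 := B_sq (a z) z
        rw [hdet z hz', n1] at h4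
        simp only [Sol, Finset.coe_filter, Set.mem_ofPred_eq, Finset.mem_Icc]
        refine ⟨⟨by omega, by omega⟩, ?_⟩
        have h5 : (((B (a z) z).toNat : ℕ) : ℤ) = B (a z) z := Int.toNat_of_nonneg (by omega)
        have h6 : 2 ≤ (B (a z) z).toNat ^ 2 := by
          have : 2 ≤ (B (a z) z).toNat := by omega
          nlinarith only [this]
        zify [h6]
        rw [h5]
        exact ⟨nm (a z), by linarith⟩
      · intro z hz z' hz' heq
        have hzS : z ∈ S := hz
        have hzS' : z' ∈ S := hz'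
        obtain ⟨t1, p1, n1⟩ := h z hzS
        obtain ⟨t2, p2, n2⟩ := h z' hzS'
        have h2 := B_edge_ge (ha z hzS) t1 (hdet z hzS)
        have h2' := B_edge_ge (ha z' hzS') t2 (hdet z' hzS')
        simp only at heq
        have heq' : B (a z) z = B (a z') z' := by omega
        have d1 : det (star z) (star (a z)) = 1 := by
          rw [← hdet z hzS]; simp only [det, re_star, im_star]; ring
        have d2 : det (star z') (star (a z')) = 1 := by
          rw [← hdet z' hzS']; simp only [det, re_star, im_star]; ring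
        have b1 : ∀ w w' : ℤ√2, B (star w) (star w') = B w' w := by
          intro w w'
          simp only [B, re_star, im_star]; ring
        have h7 := edge_inj t1.star t2.star d1 d2 (by rw [b1, b1]; exact heq')
          (by rw [nm_star, nm_star, n1, n2]) (by
            rw [th_star, th_star]
            have := hth z hzS z' hzS'
            rw [abs_sub_comm] at this
            have e : -th z' - -th z = th z - th z' := by ring
            rw [e]; exact this)
        have h8 := congrArg star h7.1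
        rwa [star_star, star_star] at h8
    refine hcard.trans ((sol_card_le m m hm).trans ?_)
    rw [Nat.div_self (by omega)]
    omega

/-- elements of norm `m` -/
lemma energy_all (m : ℕ) (hm : 1 ≤ m) (S : Finset (ℤ√2))
    (h : ∀ z ∈ S, TP z ∧ nm z = m)
    (hth : ∀ z ∈ S, ∀ z' ∈ S, |th z' - th z| < 1) : S.card ≤ 2 * tau m ^ 2 := by
  classical
  have key : S.card ≤ 2 * tau m * m.divisors.card := by
    apply Finset.card_le_mul_card_image_of_maps_to (f := fun z : ℤ√2 => Int.gcd z.re z.im)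
    · intro z hz
      obtain ⟨t1, n1⟩ := h z hz
      rw [Nat.mem_divisors]
      refine ⟨?_, by omega⟩
      have h1 : ((Int.gcd z.re z.im : ℕ) : ℤ) ∣ nm z := by
        simp only [nm]
        apply dvd_sub
        · exact Dvd.dvd.pow (Int.gcd_dvd_left _ _) two_ne_zero
        · exact Dvd.dvd.mul_left (Dvd.dvd.pow (Int.gcd_dvd_right _ _) two_ne_zero) _
      rw [n1] at h1
      exact_mod_cast h1
    · intro c hc
      rw [Nat.mem_divisors] at hc
      have hc0 : 0 < c := Nat.pos_of_dvd_of_pos hc.1 (by omega)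
      have hcZ : (0 : ℤ) < c := by exact_mod_cast hc0
      have hcR : (0 : ℝ) < c := by exact_mod_cast hc0
      set S' := S.filter (fun z : ℤ√2 => Int.gcd z.re z.im = c) with hS'
      rcases S'.eq_empty_or_nonempty with he | ⟨w, hw⟩
      · rw [he]; simp
      set q : ℤ√2 → ℤ√2 := fun z => ⟨z.re / c, z.im / c⟩ with hq
      have hmem : ∀ z ∈ S', TP z ∧ nm z = m ∧ z.re = c * (q z).re ∧ z.im = c * (q z).im ∧
          Prim (q z) := by
        intro z hz
        rw [hS', Finset.mem_filter] at hz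
        obtain ⟨hzS, hg⟩ := hz
        obtain ⟨t1, n1⟩ := h z hzS
        have hg0 : 0 < Int.gcd z.re z.im := by rw [hg]; exact hc0
        have hd1 : (c : ℤ) ∣ z.re := by rw [← hg]; exact Int.gcd_dvd_left _ _
        have hd2 : (c : ℤ) ∣ z.im := by rw [← hg]; exact Int.gcd_dvd_right _ _
        have e1 : z.re = c * (q z).re := by
          simp only [hq]; exact (Int.mul_ediv_cancel' hd1).symm
        have e2 : z.im = c * (q z).im := by
          simp only [hq]; exact (Int.mul_ediv_cancel' hd2).symm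
        refine ⟨t1, n1, e1, e2, ?_⟩
        have h5 : IsCoprime (q z).re (q z).im := by
          rw [Int.isCoprime_iff_gcd_eq_one]
          have h6 : Int.gcd z.re z.im = c * Int.gcd (q z).re (q z).im := by
            conv_lhs => rw [e1, e2]
            rw [Int.gcd_mul_left, Int.natAbs_natCast]
          rw [hg] at h6
          have : c * Int.gcd (q z).re (q z).im = c * 1 := by rw [← h6, mul_one]
          exact Nat.eq_of_mul_eq_mul_left hc0 this
        exact h5
      have hss : ∀ z ∈ S', s1 z = c * s1 (q z) ∧ s2 z = c * s2 (q z) := by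
        intro z hz
        obtain ⟨t1, n1, e1, e2, _⟩ := hmem z hz
        simp only [s1, s2]
        rw [e1, e2]
        push_cast
        constructor <;> ring
      have htp : ∀ z ∈ S', TP (q z) := by
        intro z hz
        obtain ⟨t1, n1, e1, e2, _⟩ := hmem z hz
        obtain ⟨a1, a2⟩ := hss z hz
        constructor
        · have := t1.1
          rw [a1] at this
          exact (mul_pos_iff_of_pos_left hcR).1 this
        · have := t1.2
          rw [a2] at this
          exact (mul_pos_iff_of_pos_left hcR).1 this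
      have hthq : ∀ z ∈ S', th z = th (q z) := by
        intro z hz
        obtain ⟨a1, a2⟩ := hss z hz
        have t := htp z hz
        simp only [th]
        rw [a1, a2, Real.log_mul hcR.ne' t.1.ne', Real.log_mul hcR.ne' t.2.ne']
        ring
      have hnq : ∀ z ∈ S', (m : ℤ) = c ^ 2 * nm (q z) := by
        intro z hz
        obtain ⟨t1, n1, e1, e2, _⟩ := hmem z hz
        rw [← n1]
        simp only [nm]
        rw [e1, e2]
        ring
      have hinj : Set.InjOn q S' := by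
        intro z hz z' hz' heq
        obtain ⟨t1, n1, e1, e2, _⟩ := hmem z hz
        obtain ⟨t1', n1', e1', e2', _⟩ := hmem z' hz'
        ext
        · rw [e1, e1', heq]
        · rw [e2, e2', heq]
      have hnw : 0 < nm (q w) := (htp w hw).nm_pos
      set m' := (nm (q w)).toNat with hm'
      have hm'Z : (m' : ℤ) = nm (q w) := Int.toNat_of_nonneg hnw.le
      have h9 : (S'.image q).card ≤ 2 * tau m' := by
        apply energy_prim m' (by omega)
        · intro y hy
          rw [Finset.mem_image] at hy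
          obtain ⟨z, hz, rfl⟩ := hy
          refine ⟨htp z hz, (hmem z hz).2.2.2.2, ?_⟩
          have a1 := hnq z hz
          have a2 := hnq w hw
          rw [hm'Z]
          have : (c : ℤ) ^ 2 * nm (q z) = c ^ 2 * nm (q w) := by rw [← a1, ← a2]
          exact mul_left_cancel₀ (by positivity) this
        · intro y hy y' hy'
          rw [Finset.mem_image] at hy hy'
          obtain ⟨z, hz, rfl⟩ := hy
          obtain ⟨z', hz', rfl⟩ := hy'
          rw [← hthq z hz, ← hthq z' hz']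
          exact hth z (Finset.mem_of_mem_filter z hz) z' (Finset.mem_of_mem_filter z' hz')
      rw [Finset.card_image_of_injOn hinj] at h9
      refine h9.trans (Nat.mul_le_mul_left _ (energy_tau_mono (by omega) ?_))
      have a2 := hnq w hw
      have : ((m' : ℕ) : ℤ) ∣ m := ⟨c ^ 2, by rw [a2, hm'Z]; ring⟩
      exact_mod_cast this
  calc S.card ≤ 2 * tau m * m.divisors.card := key
    _ = 2 * tau m ^ 2 := by rw [sq, ← mul_assoc]; rfl

/-- elements with norm dividing `M` -/
lemma energy_dvd (M : ℕ) (hM : 1 ≤ M) (S : Finset (ℤ√2))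
    (h : ∀ z ∈ S, TP z ∧ nm z ∣ M)
    (hth : ∀ z ∈ S, ∀ z' ∈ S, |th z' - th z| < 1) : S.card ≤ 2 * tau M ^ 3 := by
  classical
  have key : S.card ≤ 2 * tau M ^ 2 * M.divisors.card := by
    apply Finset.card_le_mul_card_image_of_maps_to (f := fun z : ℤ√2 => (nm z).toNat)
    · intro z hz
      obtain ⟨t1, n1⟩ := h z hz
      rw [Nat.mem_divisors]
      refine ⟨?_, by omega⟩
      have := t1.nm_pos
      zify
      rwa [Int.toNat_of_nonneg this.le]
    · intro m hm
      rw [Nat.mem_divisors] at hm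
      have hm0 : 0 < m := Nat.pos_of_dvd_of_pos hm.1 (by omega)
      refine (energy_all m hm0 _ ?_ ?_).trans ?_
      · intro z hz
        rw [Finset.mem_filter] at hz
        obtain ⟨t1, n1⟩ := h z hz.1
        have := t1.nm_pos
        refine ⟨t1, ?_⟩
        rw [← hz.2, Int.toNat_of_nonneg this.le]
      · intro z hz z' hz'
        exact hth z (Finset.mem_of_mem_filter z hz) z' (Finset.mem_of_mem_filter z' hz')
      · exact Nat.mul_le_mul_left _ (Nat.pow_le_pow_left (energy_tau_mono (by omega) hm.1) 2)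
  calc S.card ≤ 2 * tau M ^ 2 * M.divisors.card := key
    _ = 2 * tau M ^ 3 := by rw [pow_succ (tau M) 2, ← mul_assoc]; rfl

lemma energy_zz_inj {p q : ℕ × ℕ} (h : zz p = zz q) : p = q := by
  simp only [zz, Zsqrtd.mk.injEq] at h
  obtain ⟨h1, h2⟩ := h
  ext
  · omega
  · omega

lemma energy_box {B : ℕ} {p : ℕ × ℕ} (hp : p ∈ bx B) :
    16 * (B : ℤ) + 1 ≤ (zz p).re ∧ (zz p).re ≤ 32 * B ∧ (B : ℤ) ≤ (zz p).im ∧
      (zz p).im ≤ 2 * B := by
  simp only [bx, Finset.mem_product, Finset.mem_Ico] at hp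
  simp only [zz]
  omega

lemma energy_TP {B : ℕ} (hB : 1 ≤ B) {p : ℕ × ℕ} (hp : p ∈ bx B) : TP (zz p) := by
  obtain ⟨h1, h2, h3, h4⟩ := energy_box hp
  have hB' : (1 : ℤ) ≤ B := by exact_mod_cast hB
  rw [TP_iff]
  refine ⟨by omega, ?_⟩
  simp only [nm]
  nlinarith

lemma energy_nm {B : ℕ} (hB : 1 ≤ B) {p : ℕ × ℕ} (hp : p ∈ bx B) :
    nm (zz p) ≤ (32 * B) ^ 2 := by
  obtain ⟨h1, h2, h3, h4⟩ := energy_box hp
  have hB' : (1 : ℤ) ≤ B := by exact_mod_cast hB
  simp only [nm]
  nlinarith only [h1, h2]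

lemma energy_th {B : ℕ} (hB : 1 ≤ B) {p : ℕ × ℕ} (hp : p ∈ bx B) :
    0 < th (zz p) ∧ th (zz p) < 1 := by
  obtain ⟨h1, h2, h3, h4⟩ := energy_box hp
  have hB' : (1 : ℤ) ≤ B := by exact_mod_cast hB
  have hT := energy_TP hB hp
  constructor
  · have : th 1 < th (zz p) := by
      rw [th_lt_iff TP_one hT]
      simp only [det, re_one, im_one]
      omega
    rwa [th_one] at this
  · have h5 : th (zz p) < th ⟨2, 1⟩ := by
      rw [th_lt_iff hT TP_w]
      simp only [det]
      omega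
    have h6 : th (⟨2, 1⟩ : ℤ√2) < 1 := by
      have hs1 : s1 (⟨2, 1⟩ : ℤ√2) = 2 + √2 := by simp [s1]
      have hs2 : s2 (⟨2, 1⟩ : ℤ√2) = 2 - √2 := by simp [s2]
      have hlt := sqrt2_lt
      have hgt := lt_sqrt2
      have hr : (2 + √2) / (2 - √2) < Real.exp 1 ^ 2 := by
        rw [div_lt_iff₀ (by linarith)]
        have he := Real.exp_one_gt_d9
        have : (7 : ℝ) < Real.exp 1 ^ 2 := by nlinarith only [he]
        nlinarith only [hlt, this]
      simp only [th]
      rw [hs1, hs2, ← Real.log_div (by positivity) (by linarith)]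
      have h7 : Real.log ((2 + √2) / (2 - √2)) < Real.log (Real.exp 1 ^ 2) :=
        Real.log_lt_log (div_pos (by positivity) (by linarith)) hr
      rw [Real.log_pow, Real.log_exp] at h7
      push_cast at h7
      linarith
    linarith

open Classical in
/-- the number of pairs of box elements with product in the direction `v` -/
def energyR (B : ℕ) (v : ℤ√2) : ℕ :=
  ((bx B ×ˢ bx B).filter (fun p => det (zz p.1 * zz p.2) v = 0)).card

open Classical in
lemma energyR_le {B : ℕ} (hB : 1 ≤ B) {v : ℤ√2} (hv : TP v) (pv : Prim v) :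
    (energyR B v : ℝ) ≤ 2 * (tau (nm v).toNat : ℝ) ^ 3 *
      (√((((32 * B) ^ 4 : ℕ) : ℝ) / (nm v).toNat) * (1 + Real.log ((32 * B) ^ 4 : ℕ)) ^ 64) := by
  obtain ⟨u1, u2, hu⟩ := pv
  have hnv := hv.nm_pos
  set m := (nm v).toNat with hm
  have hmZ : (m : ℤ) = nm v := Int.toNat_of_nonneg hnv.le
  have hm0 : 0 < m := by omega
  set H := (32 * B) ^ 4 with hH
  have hH0 : 1 ≤ H := Nat.one_le_pow _ _ (by omega)
  set G := Nat.sqrt (H / m) with hG
  set f : (ℕ × ℕ) × (ℕ × ℕ) → ℤ := fun p => u1 * (zz p.1 * zz p.2).re + u2 * (zz p.1 * zz p.2).im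
    with hf
  set P := (bx B ×ˢ bx B).filter (fun p => det (zz p.1 * zz p.2) v = 0) with hP
  have hPm : ∀ p ∈ P, p.1 ∈ bx B ∧ p.2 ∈ bx B ∧ 0 < f p ∧ (zz p.1 * zz p.2).re = f p * v.re ∧
      (zz p.1 * zz p.2).im = f p * v.im ∧ nm (zz p.1 * zz p.2) = (f p) ^ 2 * nm v := by
    intro p hp
    rw [hP, Finset.mem_filter, Finset.mem_product] at hp
    obtain ⟨⟨hp1, hp2⟩, hd⟩ := hp
    have hT := (energy_TP hB hp1).mul (energy_TP hB hp2)
    set z := zz p.1 * zz p.2 with hz
    simp only [det] at hd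
    have e1 : z.re = f p * v.re := by
      simp only [hf]
      linear_combination (-z.re) * hu + u2 * hd
    have e2 : z.im = f p * v.im := by
      simp only [hf]
      linear_combination (-z.im) * hu - u1 * hd
    have hpos : 0 < f p := by
      have a1 := hT.re_pos
      have a2 := hv.re_pos
      rw [e1] at a1
      exact (pos_iff_pos_of_mul_pos a1).2 a2
    refine ⟨hp1, hp2, hpos, e1, e2, ?_⟩
    simp only [nm]
    rw [e1, e2]
    ring
  have hmaps : ∀ p ∈ P, (f p).toNat ∈ Finset.Icc 1 G := by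
    intro p hp
    obtain ⟨hp1, hp2, hpos, e1, e2, e3⟩ := hPm p hp
    rw [Finset.mem_Icc]
    refine ⟨by omega, ?_⟩
    rw [hG, Nat.le_sqrt', Nat.le_div_iff_mul_le hm0]
    have h1 : nm (zz p.1 * zz p.2) ≤ (32 * B) ^ 4 := by
      rw [nm_mul]
      have a1 := energy_nm hB hp1
      have a2 := energy_nm hB hp2
      have a3 := (energy_TP hB hp1).nm_pos
      have a4 := (energy_TP hB hp2).nm_pos
      calc nm (zz p.1) * nm (zz p.2) ≤ (32 * B) ^ 2 * (32 * B) ^ 2 := by
            apply mul_le_mul a1 a2 a4.le (by positivity)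
        _ = (32 * (B : ℤ)) ^ 4 := by ring
    rw [e3, ← hmZ] at h1
    zify
    rw [Int.toNat_of_nonneg hpos.le, hH]
    push_cast
    exact h1
  have hfib : ∀ g ∈ Finset.Icc 1 G, (P.filter (fun p => (f p).toNat = g)).card ≤
      2 * tau (g ^ 2 * m) ^ 3 := by
    intro g hg
    rw [Finset.mem_Icc] at hg
    set S := ((P.filter (fun p => (f p).toNat = g)).image (fun p => zz p.1)) with hS
    have hinj : Set.InjOn (fun p : (ℕ × ℕ) × (ℕ × ℕ) => zz p.1)
        (P.filter (fun p => (f p).toNat = g)) := by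
      intro p hp q hq heq
      rw [Finset.mem_coe, Finset.mem_filter] at hp hq
      obtain ⟨hp1, hp2, hpos, e1, e2, e3⟩ := hPm p hp.1
      obtain ⟨hq1, hq2, hpos', e1', e2', e3'⟩ := hPm q hq.1
      have hff : f p = f q := by
        have a1 := hp.2
        have a2 := hq.2
        omega
      have hzz : zz p.1 * zz p.2 = zz q.1 * zz q.2 := by
        ext
        · rw [e1, e1', hff]
        · rw [e2, e2', hff]
      simp only at heq
      have h1 := energy_zz_inj heq
      have hT := energy_TP hB hp1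
      have h2 : zz p.2 = zz q.2 := by
        apply energy_ext
        · have := congrArg s1 hzz
          rw [s1_mul, s1_mul, ← heq] at this
          exact mul_left_cancel₀ hT.1.ne' this
        · have := congrArg s2 hzz
          rw [s2_mul, s2_mul, ← heq] at this
          exact mul_left_cancel₀ hT.2.ne' this
      exact Prod.ext h1 (energy_zz_inj h2)
    rw [← Finset.card_image_of_injOn hinj]
    apply energy_dvd _ (Nat.mul_pos (pow_pos (by omega) 2) hm0)
    · intro z hz
      rw [Finset.mem_image] at hz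
      obtain ⟨p, hp, rfl⟩ := hz
      rw [Finset.mem_filter] at hp
      obtain ⟨hp1, hp2, hpos, e1, e2, e3⟩ := hPm p hp.1
      refine ⟨energy_TP hB hp1, ?_⟩
      rw [nm_mul] at e3
      refine ⟨nm (zz p.2), ?_⟩
      rw [e3, ← hp.2]
      push_cast
      rw [Int.toNat_of_nonneg hpos.le, hmZ]
    · intro z hz z' hz'
      rw [Finset.mem_image] at hz hz'
      obtain ⟨p, hp, rfl⟩ := hz
      obtain ⟨q, hq, rfl⟩ := hz'
      rw [Finset.mem_filter] at hp hq
      obtain ⟨hp1, _⟩ := hPm p hp.1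
      obtain ⟨hq1, _⟩ := hPm q hq.1
      obtain ⟨a1, a2⟩ := energy_th hB hp1
      obtain ⟨a3, a4⟩ := energy_th hB hq1
      rw [abs_lt]
      constructor <;> linarith only [a2, a3, a1, a4]
  have hsum : (energyR B v : ℝ) ≤ ∑ g ∈ Finset.Icc 1 G, 2 * (tau (g ^ 2 * m) : ℝ) ^ 3 := by
    have h1 : energyR B v = ∑ g ∈ Finset.Icc 1 G, (P.filter (fun p => (f p).toNat = g)).card :=
      Finset.card_eq_sum_card_fiberwise hmaps
    rw [h1]
    push_cast
    apply Finset.sum_le_sum
    intro g hg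
    exact_mod_cast hfib g hg
  have hmR : (0 : ℝ) < m := by exact_mod_cast hm0
  have hterm : ∀ g ∈ Finset.Icc 1 G, 2 * (tau (g ^ 2 * m) : ℝ) ^ 3 ≤
      2 * (tau m : ℝ) ^ 3 * (G * ((tau g : ℝ) ^ 6 / g)) := by
    intro g hg
    rw [Finset.mem_Icc] at hg
    have h1 : tau (g ^ 2 * m) ≤ tau g ^ 2 * tau m := by
      refine (tau_mul_le _ _).trans (Nat.mul_le_mul_right _ ?_)
      rw [sq, sq]
      exact tau_mul_le _ _
    have h2 : (tau (g ^ 2 * m) : ℝ) ≤ (tau g : ℝ) ^ 2 * tau m := by exact_mod_cast h1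
    have hgR : (0 : ℝ) < g := by exact_mod_cast hg.1
    have h3 : (tau g : ℝ) ^ 6 ≤ G * ((tau g : ℝ) ^ 6 / g) := by
      have h4 : (g : ℝ) ≤ G := by exact_mod_cast hg.2
      calc (tau g : ℝ) ^ 6 = g * ((tau g : ℝ) ^ 6 / g) := by field_simp
        _ ≤ _ := by gcongr
    calc 2 * (tau (g ^ 2 * m) : ℝ) ^ 3 ≤ 2 * ((tau g : ℝ) ^ 2 * tau m) ^ 3 := by gcongr
      _ = 2 * (tau m : ℝ) ^ 3 * (tau g : ℝ) ^ 6 := by ring
      _ ≤ _ := by gcongr
  refine hsum.trans ((Finset.sum_le_sum hterm).trans ?_)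
  rw [← Finset.mul_sum, ← Finset.mul_sum]
  apply mul_le_mul_of_nonneg_left _ (by positivity)
  have hGR : (G : ℝ) ≤ √((H : ℝ) / m) := by
    apply Real.le_sqrt_of_sq_le
    have h1 : G ^ 2 ≤ H / m := Nat.sqrt_le' _
    have h2 : ((G ^ 2 : ℕ) : ℝ) ≤ ((H / m : ℕ) : ℝ) := by exact_mod_cast h1
    refine le_trans (by push_cast; exact le_rfl) (h2.trans Nat.cast_div_le)
  have hlogs : ∑ g ∈ Finset.Icc 1 G, (tau g : ℝ) ^ 6 / g ≤ (1 + Real.log H) ^ 64 := by
    refine (tau_pow_sum 6 G).trans ?_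
    have h3 : ∑ d ∈ Finset.Icc 1 G, (1 : ℝ) / d ≤ 1 + Real.log G := by
      have := harmonic_le_one_add_log G
      rw [harmonic_eq_sum_Icc] at this
      push_cast at this
      simpa [one_div] using this
    have h4 : Real.log G ≤ Real.log H := by
      rcases Nat.eq_zero_or_pos G with h0 | h0
      · rw [h0]
        simp only [Nat.cast_zero, Real.log_zero]
        exact Real.log_nonneg (by exact_mod_cast hH0)
      · apply Real.log_le_log (by exact_mod_cast h0)
        have h5 : G ≤ H := (Nat.sqrt_le_self _).trans (Nat.div_le_self _ _)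
        exact_mod_cast h5
    have h5 : 0 ≤ ∑ d ∈ Finset.Icc 1 G, (1 : ℝ) / d :=
      Finset.sum_nonneg (fun _ _ => by positivity)
    have h6 : ∑ d ∈ Finset.Icc 1 G, (1 : ℝ) / d ≤ 1 + Real.log H := by linarith
    have h8 := pow_le_pow_left₀ h5 h6 (2 ^ 6)
    have h9 : (2 : ℕ) ^ 6 = 64 := by norm_num
    rw [h9] at h8 ⊢
    exact h8
  have h7 : 0 ≤ ∑ g ∈ Finset.Icc 1 G, (tau g : ℝ) ^ 6 / g :=
    Finset.sum_nonneg (fun _ _ => by positivity)
  exact mul_le_mul hGR hlogs h7 (Real.sqrt_nonneg _)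

open Classical in
lemma energy_V {B : ℕ} (hB : 1 ≤ B) (V : Finset (ℤ√2))
    (hV : ∀ v ∈ V, TP v ∧ Prim v ∧ nm v ≤ (((32 * B) ^ 4 : ℕ) : ℤ) ∧ |th v| ≤ 1 / 2) :
    ∑ v ∈ V, (tau (nm v).toNat : ℝ) ^ 6 / (nm v).toNat ≤
      4 * (1 + Real.log ((32 * B) ^ 4 : ℕ)) ^ 128 := by
  set H := (32 * B) ^ 4 with hH
  have hH0 : 1 ≤ H := Nat.one_le_pow _ _ (by omega)
  have hmaps : ∀ v ∈ V, (nm v).toNat ∈ Finset.Icc 1 H := by
    intro v hv
    obtain ⟨t, p, n, _⟩ := hV v hv
    have := t.nm_pos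
    rw [Finset.mem_Icc]
    omega
  have hcount : ∀ m ∈ Finset.Icc 1 H, (V.filter (fun v => (nm v).toNat = m)).card ≤
      4 * tau m := by
    intro m hm
    rw [Finset.mem_Icc] at hm
    set W := V.filter (fun v => (nm v).toNat = m) with hW
    have hWm : ∀ v ∈ W, TP v ∧ Prim v ∧ nm v = m ∧ |th v| ≤ 1 / 2 := by
      intro v hv
      rw [hW, Finset.mem_filter] at hv
      obtain ⟨t, p, n, h4⟩ := hV v hv.1
      have := t.nm_pos
      exact ⟨t, p, by omega, h4⟩
    have h1 := Finset.card_filter_add_card_filter_not (s := W) (fun v => 0 ≤ th v)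
    have h2 : (W.filter (fun v => 0 ≤ th v)).card ≤ 2 * tau m := by
      apply energy_prim m hm.1
      · intro v hv
        rw [Finset.mem_filter] at hv
        obtain ⟨t, p, n, _⟩ := hWm v hv.1
        exact ⟨t, p, n⟩
      · intro v hv v' hv'
        rw [Finset.mem_filter] at hv hv'
        obtain ⟨_, _, _, a1⟩ := hWm v hv.1
        obtain ⟨_, _, _, a2⟩ := hWm v' hv'.1
        have a3 := hv.2
        have a4 := hv'.2
        rw [abs_le] at a1 a2
        rw [abs_lt]
        constructor <;> linarith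
    have h3 : (W.filter (fun v => ¬ 0 ≤ th v)).card ≤ 2 * tau m := by
      apply energy_prim m hm.1
      · intro v hv
        rw [Finset.mem_filter] at hv
        obtain ⟨t, p, n, _⟩ := hWm v hv.1
        exact ⟨t, p, n⟩
      · intro v hv v' hv'
        rw [Finset.mem_filter] at hv hv'
        obtain ⟨_, _, _, a1⟩ := hWm v hv.1
        obtain ⟨_, _, _, a2⟩ := hWm v' hv'.1
        have a3 := hv.2
        have a4 := hv'.2
        rw [abs_le] at a1 a2
        rw [abs_lt]
        push Not at a3 a4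
        constructor <;> linarith
    omega
  rw [← Finset.sum_fiberwise_of_maps_to hmaps]
  have hterm : ∀ m ∈ Finset.Icc 1 H, ∑ v ∈ V.filter (fun v => (nm v).toNat = m),
      (tau (nm v).toNat : ℝ) ^ 6 / (nm v).toNat ≤ 4 * ((tau m : ℝ) ^ 7 / m) := by
    intro m hm
    have h1 : ∑ v ∈ V.filter (fun v => (nm v).toNat = m),
        (tau (nm v).toNat : ℝ) ^ 6 / (nm v).toNat = ∑ v ∈ V.filter (fun v => (nm v).toNat = m),
        (tau m : ℝ) ^ 6 / m := by
      apply Finset.sum_congr rfl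
      intro v hv
      rw [Finset.mem_filter] at hv
      rw [hv.2]
    rw [h1, Finset.sum_const, nsmul_eq_mul]
    have h2 : ((V.filter (fun v => (nm v).toNat = m)).card : ℝ) ≤ 4 * tau m := by
      exact_mod_cast hcount m hm
    calc _ ≤ (4 * (tau m : ℝ)) * ((tau m : ℝ) ^ 6 / m) := by gcongr
      _ = _ := by ring
  refine (Finset.sum_le_sum hterm).trans ?_
  rw [← Finset.mul_sum]
  apply mul_le_mul_of_nonneg_left _ (by norm_num)
  refine (tau_pow_sum 7 H).trans ?_
  have h3 : ∑ d ∈ Finset.Icc 1 H, (1 : ℝ) / d ≤ 1 + Real.log H := by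
    have := harmonic_le_one_add_log H
    rw [harmonic_eq_sum_Icc] at this
    push_cast at this
    simpa [one_div] using this
  have h4 : 0 ≤ ∑ d ∈ Finset.Icc 1 H, (1 : ℝ) / d := Finset.sum_nonneg (fun _ _ => by positivity)
  have h8 := pow_le_pow_left₀ h4 h3 (2 ^ 7)
  have h9 : (2 : ℕ) ^ 7 = 128 := by norm_num
  rw [h9] at h8 ⊢
  exact h8

open Classical in
theorem energy : ∃ C : ℕ, ∀ B : ℕ, 1 ≤ B → ∀ V : Finset (ℤ√2),
    (∀ v ∈ V, TP v ∧ Prim v ∧ nm v ≤ (((32 * B) ^ 4 : ℕ) : ℤ) ∧ |th v| ≤ 1 / 2) →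
    (((bx B ×ˢ bx B).filter (fun p => ∃ v ∈ V, det (zz p.1 * zz p.2) v = 0)).card : ℝ) ≤
      C * √(V.card : ℝ) * (B : ℝ) ^ 2 * (1 + Real.log B) ^ C := by
  obtain ⟨C, hC1, hC2⟩ : ∃ C : ℕ, 128 ≤ C ∧ (4096 * 15 ^ 128 : ℝ) ≤ C := by
    refine ⟨4096 * 15 ^ 128, by norm_num, ?_⟩
    norm_num
  refine ⟨C, ?_⟩
  intro B hB V hV
  obtain ⟨H, hH⟩ : ∃ H : ℕ, H = (32 * B) ^ 4 := ⟨_, rfl⟩
  have hH0 : 1 ≤ H := by rw [hH]; exact Nat.one_le_pow _ _ (by omega)
  have hHR : (H : ℝ) = (32 * (B : ℝ)) ^ 4 := by rw [hH]; push_cast; ring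
  have hBR : (1 : ℝ) ≤ B := by exact_mod_cast hB
  have hlogB : 0 ≤ Real.log B := Real.log_nonneg hBR
  have hL : 0 ≤ Real.log (H : ℝ) := Real.log_nonneg (by exact_mod_cast hH0)
  -- union bound
  have h1 : (((bx B ×ˢ bx B).filter (fun p => ∃ v ∈ V, det (zz p.1 * zz p.2) v = 0)).card : ℝ) ≤
      ∑ v ∈ V, (energyR B v : ℝ) := by
    have h2 : (bx B ×ˢ bx B).filter (fun p => ∃ v ∈ V, det (zz p.1 * zz p.2) v = 0) ⊆
        V.biUnion (fun v => (bx B ×ˢ bx B).filter (fun p => det (zz p.1 * zz p.2) v = 0)) := by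
      intro p hp
      rw [Finset.mem_filter] at hp
      obtain ⟨hp1, v, hv, hd⟩ := hp
      rw [Finset.mem_biUnion]
      exact ⟨v, hv, Finset.mem_filter.2 ⟨hp1, hd⟩⟩
    have h3 := (Finset.card_le_card h2).trans Finset.card_biUnion_le
    exact_mod_cast h3
  have hpow : (1 + Real.log H) ^ 128 = ((1 + Real.log H) ^ 64) ^ 2 := by rw [← pow_mul]
  obtain ⟨K, hK⟩ : ∃ K : ℝ, K = (1 + Real.log H) ^ 64 := ⟨_, rfl⟩
  have hK0 : 0 ≤ K := by rw [hK]; positivity
  rw [← hK] at hpow
  -- second moment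
  have h2 : ∑ v ∈ V, (energyR B v : ℝ) ^ 2 ≤ (4 * (32 * (B : ℝ)) ^ 2 * K ^ 2) ^ 2 := by
    have h3 : ∀ v ∈ V, (energyR B v : ℝ) ^ 2 ≤ 4 * H * K ^ 2 *
        ((tau (nm v).toNat : ℝ) ^ 6 / (nm v).toNat) := by
      intro v hv
      obtain ⟨t, p, n, _⟩ := hV v hv
      have h4 := energyR_le hB t p
      rw [← hH, ← hK] at h4
      have hm0 : (0 : ℝ) < (nm v).toNat := by
        have := t.nm_pos
        exact_mod_cast (by omega : 0 < (nm v).toNat)
      obtain ⟨m, hm⟩ : ∃ m : ℝ, m = ((nm v).toNat : ℝ) := ⟨_, rfl⟩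
      obtain ⟨T, hT⟩ : ∃ T : ℝ, T = (tau (nm v).toNat : ℝ) := ⟨_, rfl⟩
      rw [← hm] at hm0
      rw [← hm, ← hT] at h4 ⊢
      have h5 : √((H : ℝ) / m) ^ 2 = (H : ℝ) / m := Real.sq_sqrt (by positivity)
      calc (energyR B v : ℝ) ^ 2 ≤ (2 * T ^ 3 * (√((H : ℝ) / m) * K)) ^ 2 :=
            pow_le_pow_left₀ (Nat.cast_nonneg _) h4 2
        _ = 4 * T ^ 6 * (√((H : ℝ) / m) ^ 2 * K ^ 2) := by ring
        _ = _ := by rw [h5]; field_simp
    refine (Finset.sum_le_sum h3).trans ?_
    rw [← Finset.mul_sum]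
    have h4 := energy_V hB V hV
    rw [← hH, hpow] at h4
    calc 4 * (H : ℝ) * K ^ 2 * ∑ v ∈ V, (tau (nm v).toNat : ℝ) ^ 6 / (nm v).toNat
        ≤ 4 * (H : ℝ) * K ^ 2 * (4 * K ^ 2) :=
          mul_le_mul_of_nonneg_left h4 (by positivity)
      _ = (4 * (32 * (B : ℝ)) ^ 2 * K ^ 2) ^ 2 := by
          rw [hHR]
          ring
  -- Cauchy-Schwarz
  have h3 : (∑ v ∈ V, (energyR B v : ℝ)) ^ 2 ≤ V.card * ∑ v ∈ V, (energyR B v : ℝ) ^ 2 :=
    sq_sum_le_card_mul_sum_sq
  have h4 : ∑ v ∈ V, (energyR B v : ℝ) ≤ √(V.card : ℝ) * (4 * (32 * (B : ℝ)) ^ 2 * K ^ 2) := by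
    rw [← pow_le_pow_iff_left₀ (Finset.sum_nonneg fun _ _ => Nat.cast_nonneg _)
      (by positivity) two_ne_zero]
    refine h3.trans ?_
    rw [mul_pow, Real.sq_sqrt (by positivity)]
    exact mul_le_mul_of_nonneg_left h2 (by positivity)
  have h5 : 1 + Real.log H ≤ 15 * (1 + Real.log B) := by
    have h6 : Real.log H = 4 * (5 * Real.log 2 + Real.log B) := by
      rw [hHR, Real.log_pow, Real.log_mul (by norm_num) (by positivity)]
      have : (32 : ℝ) = 2 ^ 5 := by norm_num
      rw [this, Real.log_pow]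
      push_cast
      ring
    have h7 := Real.log_two_lt_d9
    rw [h6]
    linarith only [hlogB, h7]
  refine h1.trans (h4.trans ?_)
  have h6 : K ^ 2 ≤ 15 ^ 128 * (1 + Real.log B) ^ 128 := by
    rw [← hpow, ← mul_pow]
    exact pow_le_pow_left₀ (by linarith only [hL]) h5 128
  have h7 : (1 + Real.log B) ^ 128 ≤ (1 + Real.log B) ^ C :=
    pow_le_pow_right₀ (by linarith only [hlogB]) hC1
  obtain ⟨M, hM⟩ : ∃ M : ℝ, M = (1 + Real.log B) ^ 128 := ⟨_, rfl⟩
  obtain ⟨M', hM'⟩ : ∃ M : ℝ, M = (1 + Real.log B) ^ C := ⟨_, rfl⟩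
  obtain ⟨Q, hQ⟩ : ∃ Q : ℝ, Q = 15 ^ 128 := ⟨_, rfl⟩
  rw [← hM, ← hM'] at h7
  rw [← hM, ← hQ] at h6
  rw [← hQ] at hC2
  rw [← hM']
  have hQ0 : 0 ≤ Q := by rw [hQ]; positivity
  have hM0 : 0 ≤ M := by rw [hM]; positivity
  calc √(V.card : ℝ) * (4 * (32 * (B : ℝ)) ^ 2 * K ^ 2)
      ≤ √(V.card : ℝ) * (4 * (32 * (B : ℝ)) ^ 2 * (Q * M)) := by gcongr
    _ = (4096 * Q) * √(V.card : ℝ) * (B : ℝ) ^ 2 * M := by ring
    _ ≤ C * √(V.card : ℝ) * (B : ℝ) ^ 2 * M' := by gcongr

end

end Pool.Agent.Lib.MP_0b748d_nt
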