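import Pool.Agent.Lib.MP_0b748d_nt.Core

set_option autoImplicit false

/-!
# Spacing of the angles of primitive elements
-/

namespace Pool.Agent.Lib.MP_0b748d_nt

open Zsqrtd

noncomputable section

theorem par_eq {v w : ℤ√2} (hv : TP v) (hw : TP w) (pv : Prim v) (pw : Prim w)
    (h : det v w = 0) : v = w := by
  obtain ⟨u1, u2, hu⟩ := pv
  obtain ⟨x1, x2, hx⟩ := pw
  have hd : v.re * w.im - v.im * w.re = 0 := h
  set k : ℤ := u1 * w.re + u2 * w.im with hk
  have e1 : w.re = k * v.re := by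
    rw [hk]; linear_combination (-w.re) * hu - u2 * hd
  have e2 : w.im = k * v.im := by
    rw [hk]; linear_combination (-w.im) * hu + u1 * hd
  have hk1 : k ∣ 1 := by
    rw [← hx]
    apply dvd_add
    · exact Dvd.dvd.mul_left ⟨v.re, e1⟩ x1
    · exact Dvd.dvd.mul_left ⟨v.im, e2⟩ x2
  have hkpos : 0 < k := by
    have h1 := hv.re_pos
    have h2 := hw.re_pos
    rw [e1] at h2
    exact (pos_iff_pos_of_mul_pos h2).2 h1
  have hk2 : k = 1 := by
    have := Int.le_of_dvd one_pos hk1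
    omega
  rw [hk2] at e1 e2
  ext
  · linarith
  · linarith

private theorem spacing_pos {v w : ℤ√2} (hv : TP v) (hw : TP w) (H : ℕ) (hH : 1 ≤ H)
    (h1 : nm v ≤ H) (h2 : nm w ≤ H) (hd : 0 < det v w) : 1 / (4 * H : ℝ) ≤ th w - th v := by
  have hH' : (1 : ℝ) ≤ H := by exact_mod_cast hH
  by_cases hbig : |th w - th v| ≤ 1 / 2
  · have hB := B_le hv hw H h1 h2 hbig
    have hB' : (B v w : ℝ) ≤ 2 * H := by exact_mod_cast hB
    have c1 := cross1 v w
    have c2 := cross2 v w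
    have hp := mul_pos hv.1 hw.2
    have hp' := mul_pos hw.1 hv.2
    have hD : (1 : ℝ) ≤ det v w := by exact_mod_cast hd
    have hs := lt_sqrt2
    rw [th_sub hv hw]
    rw [c1, c2]
    rw [c1] at hp'
    rw [c2] at hp
    have h3 := Real.one_sub_inv_le_log_of_pos (div_pos hp' hp)
    rw [inv_div] at h3
    have h4 : 1 - ((B v w : ℝ) - det v w * √2) / ((B v w : ℝ) + det v w * √2) =
        2 * (det v w * √2) / ((B v w : ℝ) + det v w * √2) := by
      rw [one_sub_div hp'.ne']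
      ring
    rw [h4] at h3
    have h5 : 2 * (1 / (4 * H : ℝ)) ≤ 2 * (det v w * √2) / ((B v w : ℝ) + det v w * √2) := by
      rw [mul_div_assoc, mul_le_mul_iff_right₀ (by norm_num), div_le_div_iff₀ (by positivity) hp']
      have h6 : √2 ≤ det v w * √2 := by nlinarith [sqrt2_pos]
      have h7 : (1 : ℝ) * (4 * H) ≤ det v w * √2 * (4 * H) :=
        mul_le_mul_of_nonneg_right (by linarith) (by positivity)
      linarith
    linarith
  · have h3 : 0 < th w - th v := by
      rw [sub_pos]; exact (th_lt_iff hv hw).2 hd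
    rw [abs_of_pos h3] at hbig
    have h4 : 1 / (4 * H : ℝ) ≤ 1 / 2 := by
      apply one_div_le_one_div_of_le (by norm_num)
      linarith
    linarith

theorem spacing {v w : ℤ√2} (hv : TP v) (hw : TP w) (H : ℕ) (hH : 1 ≤ H) (h1 : nm v ≤ H)
    (h2 : nm w ≤ H) (hd : det v w ≠ 0) : 1 / (4 * H : ℝ) ≤ |th v - th w| := by
  rcases lt_or_gt_of_ne hd with h | h
  · have h3 := spacing_pos hw hv H hH h2 h1 (by rw [det_neg]; omega)
    exact h3.trans (le_abs_self _)
  · have h3 := spacing_pos hv hw H hH h1 h2 h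
    rw [abs_sub_comm]
    exact h3.trans (le_abs_self _)

theorem count_near (H : ℕ) (hH : 1 ≤ H) (x ρ : ℝ) (hρ : 0 ≤ ρ) (V : Finset (ℤ√2))
    (hV : ∀ v ∈ V, TP v ∧ Prim v ∧ nm v ≤ H ∧ |th v - x| ≤ ρ) : (V.card : ℝ) ≤ 8 * ρ * H + 1 := by
  have hH' : (1 : ℝ) ≤ H := by exact_mod_cast hH
  set f : ℤ√2 → ℕ := fun v => ⌊4 * H * (th v - x + ρ)⌋₊ with hf
  have hnn : ∀ v ∈ V, 0 ≤ 4 * H * (th v - x + ρ) := by
    intro v hv
    have := (abs_le.1 (hV v hv).2.2.2).1
    exact mul_nonneg (by positivity) (by linarith)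
  have hmaps : ∀ v ∈ V, f v ∈ Finset.range (⌊8 * ρ * H⌋₊ + 1) := by
    intro v hv
    rw [Finset.mem_range, Nat.lt_succ_iff]
    apply Nat.floor_le_floor
    have := (abs_le.1 (hV v hv).2.2.2).2
    nlinarith
  have hinj : ∀ v ∈ V, ∀ w ∈ V, f v = f w → v = w := by
    intro v hv w hw h
    by_contra hne
    obtain ⟨tv, pv, nv, -⟩ := hV v hv
    obtain ⟨tw, pw, nw, -⟩ := hV w hw
    have hd : det v w ≠ 0 := fun h0 => hne (par_eq tv tw pv pw h0)
    have hs := spacing tv tw H hH nv nw hd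
    have a1 := Nat.floor_le (hnn v hv)
    have a2 := Nat.lt_floor_add_one (4 * H * (th v - x + ρ))
    have b1 := Nat.floor_le (hnn w hw)
    have b2 := Nat.lt_floor_add_one (4 * H * (th w - x + ρ))
    have h' := congrArg (Nat.cast : ℕ → ℝ) h
    simp only [hf] at h'
    have h4 : |4 * H * (th v - th w)| < 1 := by
      rw [abs_lt]
      constructor <;> linarith
    rw [abs_mul, abs_of_pos (by positivity : (0 : ℝ) < 4 * H)] at h4
    rw [div_le_iff₀ (by positivity)] at hs
    linarith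
  have hcard : V.card ≤ (Finset.range (⌊8 * ρ * H⌋₊ + 1)).card :=
    Finset.card_le_card_of_injOn f hmaps (fun v hv w hw h => hinj v hv w hw h)
  rw [Finset.card_range] at hcard
  have h1 : (V.card : ℝ) ≤ (⌊8 * ρ * H⌋₊ : ℝ) + 1 := by exact_mod_cast hcard
  have h2 := Nat.floor_le (show 0 ≤ 8 * ρ * H by positivity)
  linarith

end

end Pool.Agent.Lib.MP_0b748d_nt
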