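import Pool.Agent.Lib.MP_0b748d_nt.P.Cone
import Pool.Agent.Lib.MP_0b748d_nt.Plus
import Pool.Agent.Lib.MP_0b748d_nt.P.Energy
import Pool.Agent.Lib.MP_0b748d_nt.P.Spacing

section

set_option autoImplicit false

/-!
# Angles far from all exceptional edges are good
-/

namespace Pool.Agent.Lib.MP_0b748d_nt

open Zsqrtd

noncomputable section

lemma GdFar_prim {g : ℕ → ℤ} (hg : CM g) {z : ℤ√2} (hz : TP z) :
    ∃ v, Prim v ∧ TP v ∧ th v = th z ∧ nm v ≤ nm z ∧ F g v = F g z ∧ ∃ m : ℤ, z.re = m * v.re := by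
  have hre := hz.re_pos
  have hgcd : 0 < Int.gcd z.re z.im := Int.gcd_pos_of_ne_zero_left _ hre.ne'
  set m : ℕ := Int.gcd z.re z.im with hm
  obtain ⟨x, y, hx1, hx2, hx3⟩ : ∃ x y : ℤ, IsCoprime x y ∧ z.re = m * x ∧ z.im = m * y := by
    obtain ⟨x, y, h1, h2, h3⟩ := Int.exists_gcd_one hgcd
    exact ⟨x, y, Int.isCoprime_iff_gcd_eq_one.2 h1, by rw [h2, mul_comm], by rw [h3, mul_comm]⟩
  set v : ℤ√2 := ⟨x, y⟩ with hv
  have hmR : (0 : ℝ) < m := by exact_mod_cast hgcd
  have hs1 : s1 z = m * s1 v := by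
    simp only [s1, hx2, hx3, hv]; push_cast; ring
  have hs2 : s2 z = m * s2 v := by
    simp only [s2, hx2, hx3, hv]; push_cast; ring
  have hvT : TP v := by
    constructor
    · have := hz.1
      rw [hs1] at this
      exact (mul_pos_iff_of_pos_left hmR).1 this
    · have := hz.2
      rw [hs2] at this
      exact (mul_pos_iff_of_pos_left hmR).1 this
  have hnm : nm z = (m : ℤ) ^ 2 * nm v := by
    simp only [nm, hx2, hx3, hv]; ring
  have hvn := hvT.nm_pos
  have hmZ : (1 : ℤ) ≤ m := by exact_mod_cast hgcd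
  refine ⟨v, hx1, hvT, ?_, ?_, ?_, m, hx2⟩
  · simp only [th]
    rw [hs1, hs2, Real.log_mul hmR.ne' hvT.1.ne', Real.log_mul hmR.ne' hvT.2.ne']
    ring
  · rw [hnm]
    have : (1 : ℤ) ≤ (m : ℤ) ^ 2 := by nlinarith only [hmZ]
    nlinarith only [hvn, this]
  · rw [F, F, hnm, Int.toNat_mul (by positivity) hvn.le]
    have h1 : ((m : ℤ) ^ 2).toNat = m * m := by
      have : (m : ℤ) ^ 2 = ((m * m : ℕ) : ℤ) := by push_cast; ring
      rw [this, Int.toNat_natCast]
    rw [h1, hg.mul _ _ (by positivity) (by omega), hg.mul _ _ hgcd hgcd]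
    rcases hg.val m hgcd with h | h <;> rw [h] <;> ring

lemma GdFar_Q {a b : ℤ√2} (h : det a b = 1) (c : Bool) : Q c a ∨ Q c b := by
  by_contra hc
  push Not at hc
  obtain ⟨h1, h2⟩ := hc
  simp only [Q, not_forall] at h1 h2
  obtain ⟨-, h1⟩ := h1
  obtain ⟨-, h2⟩ := h2
  have h3 : (2 : ℤ) ∣ det a b := by
    simp only [det]
    exact dvd_sub (Dvd.dvd.mul_right (Int.dvd_of_emod_eq_zero (by omega)) _)
      (Dvd.dvd.mul_left (Int.dvd_of_emod_eq_zero (by omega)) _)
  rw [h] at h3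
  omega

/-- a primitive vertex of norm at most `V` is an endpoint of an edge of size at most
`max V 2` -/
lemma GdFar_vertex {v : ℤ√2} (hv : TP v) (pv : Prim v) (V : ℕ) (hV : nm v ≤ V) (hth : |th v| ≤ 4) :
    ∃ n ≤ max V 2, ∃ e ∈ EF 8 n, v = e.1 ∨ v = e.2 := by
  have hn0 := hv.nm_pos
  rw [abs_le] at hth
  -- it is enough to find an edge
  have key : ∀ a : ℤ√2, TP a → det a v = 1 → B a v ≤ max (V : ℤ) 2 →
      ∃ n ≤ max V 2, ∃ e ∈ EF 8 n, v = e.1 ∨ v = e.2 := by
    intro a ha hd hB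
    have h2 := B_edge_ge ha hv hd
    have hlen : th v - th a ≤ 5 / 2 := by
      refine (edge_len_le ha hv hd).trans ?_
      have : (2 : ℝ) ≤ B a v := by exact_mod_cast h2
      gcongr
    have hlt := (th_lt_iff ha hv).2 (by rw [hd]; exact one_pos)
    refine ⟨(B a v).toNat, ?_, (a, v), ?_, Or.inr rfl⟩
    · have : (((B a v).toNat : ℕ) : ℤ) ≤ ((max V 2 : ℕ) : ℤ) := by
        rw [Int.toNat_of_nonneg (by omega)]
        push_cast
        exact hB
      exact_mod_cast this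
    · rw [mem_EF]
      refine ⟨ha, hv, hd, ?_, ?_⟩
      · exact (Int.toNat_of_nonneg (show 0 ≤ B a v by omega)).symm
      · simp only
        rw [abs_le]
        constructor <;> push_cast <;> linarith
  rcases le_or_gt 3 (nm v) with h3 | h3
  · obtain ⟨a, b, ha, hb, hdet, hab, hB1, hB2, hB3⟩ := parents hv pv h3
    have hdav : det a v = 1 := by
      rw [← hab, ← hdet]; simp only [det, re_add, im_add]; ring
    exact key a ha hdav (le_trans hB1 (le_trans hV (le_max_left _ _)))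
  · have h12 : nm v = 1 ∨ nm v = 2 := by omega
    rcases h12 with h | h
    · refine ⟨2, le_max_right _ _, (v, v * ⟨2, 1⟩), ?_, Or.inl rfl⟩
      rw [mem_EF]
      refine ⟨hv, hv.mul TP_w, ?_, ?_, ?_⟩
      · have := det_mul_left v 1 ⟨2, 1⟩
        rw [mul_one, h] at this
        rw [this]
        simp [det]
      · have := B_mul_left v 1 ⟨2, 1⟩
        rw [mul_one, h] at this
        simp only
        rw [this]
        simp [B]
      · simp only
        rw [abs_le]
        constructor <;> push_cast <;> linarith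
    · simp only [nm] at h
      have hev : v.re % 2 = 0 := by
        rcases Int.emod_two_eq_zero_or_one v.re with h' | h'
        · exact h'
        · exfalso
          have h5 : v.re ^ 2 % 2 = 1 := by
            rw [pow_two, Int.mul_emod, h']; rfl
          omega
      obtain ⟨r, hr⟩ := Int.dvd_of_emod_eq_zero hev
      rw [hr] at h
      have h6 : 2 * r ^ 2 - v.im ^ 2 = 1 := by linarith
      set a : ℤ√2 := ⟨2 * r - v.im, v.im - r⟩ with ha
      have hBa : B a v = 2 := by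
        simp only [B, ha, hr]; linear_combination 2 * h6
      have hna : nm a = 1 := by
        simp only [nm, ha]; linear_combination h6
      have hda : det a v = 1 := by
        simp only [det, ha, hr]; linear_combination h6
      exact key a (TP_of_B hv (by rw [hBa]; norm_num) (by rw [hna]; norm_num)) hda
        (by rw [hBa]; exact le_max_right _ _)

/-- membership of an edge around `θ` in the window -/
lemma GdFar_mem {a b : ℤ√2} (ha : TP a) (hb : TP b) (h : det a b = 1) (hθ : |th a| ≤ 8) :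
    (a, b) ∈ EF 8 (B a b).toNat := by
  rw [mem_EF]
  refine ⟨ha, hb, h, ?_, by simpa using hθ⟩
  have := B_edge_ge ha hb h
  exact (Int.toNat_of_nonneg (show 0 ≤ B a b by omega)).symm

theorem gd_of_far (g : ℕ → ℤ) (hg : CM g) (c : Bool) (N H Z Z1 V Y Y' : ℕ) (θ : ℝ)
    (hY : 1 ≤ Y) (hY' : 1 ≤ Y') (hHN : H ≤ N) (hV : 1 ≤ V) (hZ1 : 1 ≤ Z1)
    (hZ : Z1 ^ 2 ≤ V * Z) (hθ : |θ| ≤ 3)
    (h1 : ∀ n ∈ SC g c N, ∀ e ∈ EF 8 n, 1 / (8 * Y : ℝ) < |th e.1 - θ|)
    (h2 : ∀ n ≤ 40 * Y', ∀ e ∈ EF 8 n, 5 / (Z1 : ℝ) < |th e.1 - θ| ∧ 5 / (Z1 : ℝ) < |th e.2 - θ|)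
    (h3 : ∀ n ≤ 40 * Y, ∀ e ∈ EF 8 n, 1 / (4 * Y' : ℝ) < |th e.1 - θ| ∧
      1 / (4 * Y' : ℝ) < |th e.2 - θ| ∧ 1 / (4 * Y' : ℝ) < |th (e.1 + e.2) - θ|)
    (h4 : ∀ n ≤ max V 2, ∀ e ∈ EF 8 n, 5 / (40 * Y' : ℝ) < |th e.1 - θ| ∧
      5 / (40 * Y' : ℝ) < |th e.2 - θ|) :
    Gd g c H Z (1 / (4 * Y' : ℝ)) θ := by
  have hYR : (1 : ℝ) ≤ Y := by exact_mod_cast hY
  have hYR' : (1 : ℝ) ≤ Y' := by exact_mod_cast hY'
  have hθ' := abs_le.1 hθ
  -- an edge around `θ` of size at most `40 K` whose child around `θ` is larger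
  have main : ∀ K : ℕ, 1 ≤ K → ∃ x y a b : ℤ√2, TP x ∧ TP y ∧ det x y = 1 ∧
      (x, y) ∈ EF 8 (B x y).toNat ∧ (B x y).toNat ≤ 40 * K ∧ TP a ∧ TP b ∧ det a b = 1 ∧
      th a ≤ θ ∧ θ ≤ th b ∧ ((40 * K : ℕ) : ℤ) < B a b ∧
      ((a = x ∧ b = x + y) ∨ (a = x + y ∧ b = y)) := by
    intro K hK
    obtain ⟨x, y, hx, hy, hd, hB, hx1, hy1, hcase⟩ := locate ((40 * K : ℕ) : ℤ)
      (by push_cast; omega) θ
    have h2B := B_edge_ge hx hy hd
    have hlen : th y - th x ≤ 5 / 2 := by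
      refine (edge_len_le hx hy hd).trans ?_
      have : (2 : ℝ) ≤ B x y := by exact_mod_cast h2B
      gcongr
    have hda : det x (x + y) = 1 := by
      rw [← hd]; simp only [det, re_add, im_add]; ring
    have hdb : det (x + y) y = 1 := by
      rw [← hd]; simp only [det, re_add, im_add]; ring
    have hmem := GdFar_mem hx hy hd (by rw [abs_le]; constructor <;> linarith)
    have hBn : (B x y).toNat ≤ 40 * K := by omega
    rcases hcase with ⟨h5, h6⟩ | ⟨h5, h6⟩
    · exact ⟨x, y, x, x + y, hx, hy, hd, hmem, hBn, hx, hx.add hy, hda, hx1, h5, h6,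
        Or.inl ⟨rfl, rfl⟩⟩
    · exact ⟨x, y, x + y, y, hx, hy, hd, hmem, hBn, hx.add hy, hy, hdb, h5, hy1, h6,
        Or.inr ⟨rfl, rfl⟩⟩
  constructor
  · -- part one
    obtain ⟨x, y, a, b, hx, hy, hxy, hmem, hBn, ha, hb, hab, haθ, hbθ, hBab, hcase⟩ := main Y hY
    obtain ⟨g1, g2, g3⟩ := h3 _ hBn _ hmem
    simp only at g1 g2 g3
    have hfa : 1 / (4 * Y' : ℝ) < |th a - θ| := by
      rcases hcase with ⟨h, -⟩ | ⟨h, -⟩ <;> rw [h]
      · exact g1
      · exact g3
    have hfb : 1 / (4 * Y' : ℝ) < |th b - θ| := by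
      rcases hcase with ⟨-, h⟩ | ⟨-, h⟩ <;> rw [h]
      · exact g3
      · exact g2
    rw [abs_sub_comm, abs_of_nonneg (by linarith)] at hfa
    rw [abs_of_nonneg (by linarith)] at hfb
    have hB2 := B_edge_ge ha hb hab
    have hBR : (40 * Y : ℝ) ≤ B a b := by exact_mod_cast hBab.le
    have hlen : th b - th a ≤ 1 / (8 * Y : ℝ) := by
      refine (edge_len_le ha hb hab).trans ?_
      calc 5 / (B a b : ℝ) ≤ 5 / (40 * Y : ℝ) := by gcongr
        _ = 1 / (8 * Y : ℝ) := by field_simp; norm_num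
    have hlen2 : th b - th a ≤ 5 / 2 := by
      refine (edge_len_le ha hb hab).trans ?_
      have : (2 : ℝ) ≤ B a b := by exact_mod_cast hB2
      gcongr
    have hE : ∀ x y, TP x → TP y → det x y = 1 → th a ≤ th x → th y ≤ th b → B x y ≤ (H : ℤ) →
        B x y % 2 = par c → F g x = F g y := by
      intro x y hx hy hd hax hyb hB hpar
      by_contra hne
      have e1 := F_edge hg hx hy hd
      have e2 : F g x * F g y = -1 := by
        rcases F_val hg hx with h | h <;> rcases F_val hg hy with h' | h'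
        · exact absurd (h.trans h'.symm) hne
        · rw [h, h']; rfl
        · rw [h, h']; rfl
        · exact absurd (h.trans h'.symm) hne
      rw [e2] at e1
      have hBge := B_edge_ge hx hy hd
      have hlt := (th_lt_iff hx hy).2 (by rw [hd]; exact one_pos)
      have hm := GdFar_mem hx hy hd (by rw [abs_le]; constructor <;> linarith)
      have hSC : (B x y).toNat ∈ SC g c N := by
        simp only [SC, Finset.mem_filter, Finset.mem_Icc]
        refine ⟨⟨by omega, by omega⟩, ?_, e1.symm⟩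
        have : (((B x y).toNat : ℕ) : ℤ) = B x y := Int.toNat_of_nonneg (by omega)
        omega
      have hfar := h1 _ hSC _ hm
      simp only at hfar
      have : |th x - θ| ≤ 1 / (8 * Y : ℝ) := by
        rw [abs_le]; constructor <;> linarith
      linarith
    intro v w hv hw qv qw hnv hnw hvθ hwθ
    -- everything near `θ` has the sign of the good endpoint
    have hone : ∀ v, TP v → Q c v → nm v ≤ H → |th v - θ| ≤ 1 / (4 * Y' : ℝ) →
        (Q c a → F g a = F g v) ∧ (Q c b → F g b = F g v) := by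
      intro v hv qv hnv hvθ
      obtain ⟨v', pv, tv, hv1, hv2, hv3, m, hm⟩ := GdFar_prim hg hv
      rw [← hv3]
      rw [← hv1, abs_le] at hvθ
      refine cone (F g) c H a b ha hb hab hE v' tv pv ?_ ?_ ?_ (hv2.trans hnv)
      · intro hc
        have h5 := qv hc
        rw [hm, Int.mul_emod] at h5
        rcases Int.emod_two_eq_zero_or_one v'.re with h6 | h6
        · rw [h6] at h5; simp at h5
        · exact h6
      · exact (th_lt_iff ha tv).1 (by linarith)
      · exact (th_lt_iff tv hb).1 (by linarith)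
    rcases GdFar_Q hab c with h | h
    · exact ((hone v hv qv hnv hvθ).1 h).symm.trans ((hone w hw qw hnw hwθ).1 h)
    · exact ((hone v hv qv hnv hvθ).2 h).symm.trans ((hone w hw qw hnw hwθ).2 h)
  · -- part two
    obtain ⟨x, y, a, b, hx, hy, hxy, hmem, hBn, ha, hb, hab, haθ, hbθ, hBab, hcase⟩ := main Y' hY'
    obtain ⟨g1, g2⟩ := h2 _ hBn _ hmem
    simp only at g1 g2
    have hB2 := B_edge_ge ha hb hab
    have hBR : (40 * Y' : ℝ) ≤ B a b := by exact_mod_cast hBab.le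
    have hBpos : (0 : ℝ) < B a b := by linarith
    have hlen := edge_len_le ha hb hab
    have hZ1R : (1 : ℝ) ≤ Z1 := by exact_mod_cast hZ1
    have hBZ : B a b < Z1 := by
      by_contra hc
      push Not at hc
      have hc' : (Z1 : ℝ) ≤ B a b := by exact_mod_cast hc
      have hl : 5 / (B a b : ℝ) ≤ 5 / (Z1 : ℝ) := by gcongr
      rcases hcase with ⟨h, -⟩ | ⟨-, h⟩
      · rw [← h, abs_sub_comm, abs_of_nonneg (by linarith only [haθ])] at g1
        linarith only [hbθ, g1, hlen, hl]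
      · rw [← h, abs_of_nonneg (by linarith)] at g2
        linarith
    have hl : 5 / (B a b : ℝ) ≤ 5 / (40 * Y' : ℝ) := by gcongr
    have hη : 5 / (40 * Y' : ℝ) = 1 / (4 * Y' : ℝ) / 2 := by field_simp; norm_num
    have hη1 : 1 / (4 * Y' : ℝ) / 2 ≤ 1 := by
      rw [div_div, div_le_one (by positivity)]
      linarith
    have hnorm : ∀ v, TP v → Prim v → |th v - θ| ≤ 5 / (40 * Y' : ℝ) → (V : ℤ) < nm v := by
      intro v hv pv hvθ
      by_contra hc
      push Not at hc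
      have hvθ' := abs_le.1 hvθ
      obtain ⟨n, hn, e, he, hve⟩ := GdFar_vertex hv pv V hc
        (by rw [abs_le]; constructor <;> linarith)
      obtain ⟨k1, k2⟩ := h4 n hn e he
      rcases hve with h | h
      · rw [← h] at k1; linarith only [hvθ, k1]
      · rw [← h] at k2; linarith only [hvθ, k2]
    have haN : |th a - θ| ≤ 5 / (40 * Y' : ℝ) := by
      rw [abs_sub_comm, abs_of_nonneg (by linarith)]; linarith
    have hbN : |th b - θ| ≤ 5 / (40 * Y' : ℝ) := by
      rw [abs_of_nonneg (by linarith)]; linarith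
    have na := hnorm a ha (Prim_of_det' hab) haN
    have nb := hnorm b hb (Prim_of_det hab) hbN
    have hsq := B_sq a b
    rw [hab] at hsq
    have hZ' : (Z1 : ℤ) ^ 2 ≤ V * Z := by exact_mod_cast hZ
    have hlt : B a b ^ 2 < (Z1 : ℤ) ^ 2 := pow_lt_pow_left₀ hBZ (by omega) two_ne_zero
    have hVZ : (0 : ℤ) < V := by exact_mod_cast hV
    have hnaZ : nm a ≤ Z := by
      by_contra hc
      push Not at hc
      have : (V : ℤ) * Z ≤ nm b * nm a := mul_le_mul nb.le hc.le (by positivity) (by omega)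
      linarith only [hsq, hZ', hlt, this]
    have hnbZ : nm b ≤ Z := by
      by_contra hc
      push Not at hc
      have : (V : ℤ) * Z ≤ nm a * nm b := mul_le_mul na.le hc.le (by positivity) (by omega)
      linarith only [hsq, hZ', hlt, this]
    rcases GdFar_Q hab c with h | h
    · exact ⟨a, ha, h, hnaZ, by rw [← hη]; exact haN⟩
    · exact ⟨b, hb, h, hnbZ, by rw [← hη]; exact hbN⟩

end

end Pool.Agent.Lib.MP_0b748d_nt
end

section

set_option autoImplicit false

/-!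
# Counting the pairs of box elements that are not safe
-/

namespace Pool.Agent.Lib.MP_0b748d_nt

open Zsqrtd

noncomputable section

variable {g : ℕ → ℤ}

/-- safe normalised angles -/
def Safe (g : ℕ → ℤ) (c : Bool) (N Z Y' : ℕ) (x : ℝ) : Prop :=
  ∀ x', |x' - x| ≤ 1 / (N : ℝ) → Gd g c N Z (1 / (4 * Y' : ℝ)) (th uu * x')

lemma Gd_shift (u u' : ℤ√2) (hu : TP u) (hu' : TP u') (h1 : nm u = 1) (h1' : nm u' = 1)
    (hth : th u' = - th u) (hq : ∀ c z, Q c z → Q c (u * z)) (hq' : ∀ c z, Q c z → Q c (u' * z))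
    {c : Bool} {H Z : ℕ} {η θ : ℝ} (h : Gd g c H Z η θ) : Gd g c H Z η (θ + th u) := by
  obtain ⟨ha, z, hz1, hz2, hz3, hz4⟩ := h
  constructor
  · intro v w hv hw qv qw hnv hnw hvθ hwθ
    have hF : ∀ z : ℤ√2, F g (u' * z) = F g z := by
      intro z
      simp only [F, nm_mul, h1', one_mul]
    rw [← hF v, ← hF w]
    refine ha _ _ (hu'.mul hv) (hu'.mul hw) (hq' c v qv) (hq' c w qw) ?_ ?_ ?_ ?_
    · rw [nm_mul, h1', one_mul]; exact hnv
    · rw [nm_mul, h1', one_mul]; exact hnw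
    · rw [th_mul hu' hv, hth]
      have : -th u + th v - θ = th v - (θ + th u) := by ring
      rw [this]; exact hvθ
    · rw [th_mul hu' hw, hth]
      have : -th u + th w - θ = th w - (θ + th u) := by ring
      rw [this]; exact hwθ
  · refine ⟨u * z, hu.mul hz1, hq c z hz2, ?_, ?_⟩
    · rw [nm_mul, h1, one_mul]; exact hz3
    · rw [th_mul hu hz1]
      have : th u + th z - (θ + th u) = th z - θ := by ring
      rw [this]; exact hz4

lemma Q_uu (c : Bool) (z : ℤ√2) (h : Q c z) : Q c (uu * z) := by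
  intro hc
  have := h hc
  simp only [re_mul, uu]
  omega

lemma Q_uu' (c : Bool) (z : ℤ√2) (h : Q c z) : Q c (star uu * z) := by
  intro hc
  have := h hc
  simp only [re_mul, re_star, im_star, uu]
  omega

lemma Gd_per (c : Bool) (H Z : ℕ) (η θ : ℝ) : Gd g c H Z η (θ + th uu) ↔ Gd g c H Z η θ := by
  constructor
  · intro h
    have h2 := Gd_shift (star uu) uu TP_uu.star TP_uu (by rw [nm_star, nm_uu]) nm_uu
      (by rw [th_star, neg_neg]) Q_uu' Q_uu h
    rw [th_star] at h2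
    simpa using h2
  · intro h
    exact Gd_shift uu (star uu) TP_uu TP_uu.star nm_uu (by rw [nm_star, nm_uu])
      (by rw [th_star]) Q_uu Q_uu' h

lemma Safe_per (c : Bool) (N Z Y' : ℕ) : Function.Periodic (Safe g c N Z Y') 1 := by
  intro x
  apply propext
  constructor
  · intro h x' hx'
    have h2 := h (x' + 1) (by rw [show x' + 1 - (x + 1) = x' - x by ring]; exact hx')
    rw [mul_add, mul_one, Gd_per] at h2
    exact h2
  · intro h x' hx'
    have h2 := h (x' - 1) (by rw [show x' - 1 - x = x' - (x + 1) by ring]; exact hx')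
    rw [← Gd_per] at h2
    have e : th uu * (x' - 1) + th uu = th uu * x' := by ring
    rwa [e] at h2

lemma Safe_fract (c : Bool) (N Z Y' : ℕ) (a τ : ℝ) :
    Safe g c N Z Y' (a + τ) ↔ Safe g c N Z Y' (a + Int.fract τ) := by
  have h := ((Safe_per (g := g) c N Z Y').int_mul ⌊τ⌋) (a + Int.fract τ)
  have e : a + Int.fract τ + ⌊τ⌋ * 1 = a + τ := by
    rw [mul_one, add_assoc, Int.fract_add_floor]
  rw [e] at h
  rw [h]

lemma th_uu_le : th uu ≤ 2 := by
  have h12 : s1 uu * s2 uu = 1 := by rw [s1_mul_s2, nm_uu]; norm_num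
  have hu := TP_uu
  have hlog : Real.log (s2 uu) = - Real.log (s1 uu) := by
    have h3 : Real.log (s1 uu) + Real.log (s2 uu) = 0 := by
      rw [← Real.log_mul hu.1.ne' hu.2.ne', h12, Real.log_one]
    linarith
  have hth : th uu = Real.log (s1 uu) := by
    simp only [th]; rw [hlog]; ring
  rw [hth, Real.log_le_iff_le_exp hu.1]
  have h1 : s1 uu = 3 + 2 * √2 := by simp [s1, uu]
  rw [h1]
  have h2 := sqrt2_lt
  have h3 := Real.exp_one_gt_d9
  have h4 : Real.exp 2 = Real.exp 1 * Real.exp 1 := by rw [← Real.exp_add]; norm_num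
  rw [h4]
  nlinarith only [h2, h3]

lemma mem_bx {B : ℕ} {p : ℕ × ℕ} : p ∈ bx B ↔ (8 * B ≤ p.1 ∧ p.1 < 16 * B) ∧ B ≤ p.2 ∧
    p.2 < 2 * B := by
  simp only [bx, Finset.mem_product, Finset.mem_Ico]

lemma TP_zz {B : ℕ} {p : ℕ × ℕ} (hp : p ∈ bx B) : TP (zz p) := by
  rw [mem_bx] at hp
  rw [TP_iff]
  simp only [zz, nm]
  have h1 : (8 * B : ℤ) ≤ p.1 := by exact_mod_cast hp.1.1
  have h3 : (p.2 : ℤ) < 2 * B := by exact_mod_cast hp.2.2
  constructor
  · positivity
  · nlinarith only [h1, h3]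

lemma nm_zz {B : ℕ} {p : ℕ × ℕ} (hp : p ∈ bx B) : nm (zz p) ≤ (((32 * B) ^ 2 : ℕ) : ℤ) := by
  rw [mem_bx] at hp
  simp only [zz, nm]
  have h1 : (p.1 : ℤ) + 1 ≤ 16 * B := by exact_mod_cast hp.1.2
  have h2 : (0 : ℤ) ≤ p.1 := by positivity
  push_cast
  nlinarith only [h1]

lemma th_zz_le {B : ℕ} {p : ℕ × ℕ} (hp : p ∈ bx B) : 0 ≤ th (zz p) ∧ th (zz p) ≤ 1 / 4 := by
  have hT := TP_zz hp
  constructor
  · rw [← th_one, th_le_iff TP_one hT]
    simp [det, zz]
  · have h := th_sub TP_one hT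
    rw [th_one, sub_zero] at h
    rw [h]
    rw [mem_bx] at hp
    have h1 : (8 * B : ℝ) ≤ p.1 := by exact_mod_cast hp.1.1
    have h3 : (p.2 : ℝ) ≤ 2 * B := by exact_mod_cast hp.2.2.le
    have hB : (0 : ℝ) < B := by
      have : 0 < B := by omega
      exact_mod_cast this
    have hp2 : (0 : ℝ) ≤ p.2 := by positivity
    have e1 : s1 (1 : ℤ√2) = 1 := by simp [s1]
    have e2 : s2 (1 : ℤ√2) = 1 := by simp [s2]
    rw [e1, e2, mul_one, one_mul]
    have f1 : s1 (zz p) = 2 * p.1 + 1 + p.2 * √2 := by simp [s1, zz]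
    have f2 : s2 (zz p) = 2 * p.1 + 1 - p.2 * √2 := by simp [s2, zz]
    have hs := sqrt2_lt
    have hs0 := sqrt2_pos
    have g1 : (p.2 : ℝ) * √2 ≤ 2 * B * 1.415 := by gcongr
    have g2 : 0 ≤ (p.2 : ℝ) * √2 := by positivity
    have hd : 0 < s2 (zz p) := hT.2
    have hpos : 0 < s1 (zz p) / s2 (zz p) := div_pos hT.1 hT.2
    have h5 := Real.log_le_sub_one_of_pos hpos
    have h6 : s1 (zz p) / s2 (zz p) - 1 ≤ 1 / 2 := by
      rw [div_sub_one hd.ne', div_le_iff₀ hd, f1, f2]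
      linarith only [h1, g1]
    linarith only [h5, h6]

open Classical in
/-- number of primitive vectors near one of finitely many centres -/
lemma cover_count {κ : Type*} (N : ℕ) (hN : 1 ≤ N) (V : Finset (ℤ√2))
    (hV : ∀ v ∈ V, TP v ∧ Prim v ∧ nm v ≤ N) (cs : Finset κ) (ctr : κ → ℝ) (ρ : ℝ)
    (hρ : 0 ≤ ρ) :
    ((V.filter (fun v => ∃ k ∈ cs, |th v - ctr k| ≤ ρ)).card : ℝ) ≤
      cs.card * (8 * ρ * N + 1) := by
  have h1 : V.filter (fun v => ∃ k ∈ cs, |th v - ctr k| ≤ ρ) ⊆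
      cs.biUnion (fun k => V.filter (fun v => |th v - ctr k| ≤ ρ)) := by
    intro v hv
    rw [Finset.mem_filter] at hv
    obtain ⟨hvV, k, hk, hkv⟩ := hv
    rw [Finset.mem_biUnion]
    exact ⟨k, hk, by rw [Finset.mem_filter]; exact ⟨hvV, hkv⟩⟩
  have h2 := (Finset.card_le_card h1).trans Finset.card_biUnion_le
  have h3 : ((V.filter (fun v => ∃ k ∈ cs, |th v - ctr k| ≤ ρ)).card : ℝ) ≤
      ∑ k ∈ cs, ((V.filter (fun v => |th v - ctr k| ≤ ρ)).card : ℝ) := by exact_mod_cast h2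
  refine h3.trans ?_
  have h4 : ∀ k ∈ cs, ((V.filter (fun v => |th v - ctr k| ≤ ρ)).card : ℝ) ≤ 8 * ρ * N + 1 := by
    intro k _
    apply count_near N hN (ctr k) ρ hρ
    intro v hv
    rw [Finset.mem_filter] at hv
    obtain ⟨a1, a2, a3⟩ := hV v hv.1
    exact ⟨a1, a2, a3, hv.2⟩
  refine (Finset.sum_le_sum h4).trans ?_
  rw [Finset.sum_const, nsmul_eq_mul]

/-- number of edges of size at most `K` in the window -/
def EK (K : ℕ) : ℝ := ∑ n ∈ Finset.range (K + 1), ((EF 8 n).card : ℝ)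

/-- the bound for the number of directions that are not safe -/
def RR (g : ℕ → ℤ) (c : Bool) (N Z1 V Y Y' : ℕ) : ℝ :=
  (∑ n ∈ SC g c N, ((EF 8 n).card : ℝ)) * (N / Y + 17) + 2 * EK (40 * Y') * (40 * N / Z1 + 17) +
    3 * EK (40 * Y) * (2 * N / Y' + 17) + 2 * EK (max V 2) * (N / Y' + 17)

lemma sub_of_abs {x y : ℝ} (h : |x - y| ≤ 0) : x = y := by
  have := abs_nonpos_iff.1 h
  linarith

lemma near_shift {a b t x' N' r : ℝ} (h1 : |b - x'| ≤ r) (h2 : |x' - (a + t)| ≤ N') :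
    |a - (b - t)| ≤ r + N' := by
  rw [abs_le] at *
  constructor <;> linarith [h1.1, h1.2, h2.1, h2.2]

open Classical in
theorem counting_aux (hg : CM g) (c : Bool) (N Z Z1 V Y Y' B : ℕ) (hY : 1 ≤ Y) (hY' : 1 ≤ Y')
    (hV : 1 ≤ V) (hZ1 : 1 ≤ Z1) (hZ : Z1 ^ 2 ≤ V * Z) (hN : 4 ≤ N)
    (hBN : (32 * B) ^ 4 ≤ N) (τ : ℝ) (hτ0 : 0 ≤ τ) (hτ1 : τ ≤ 1) :
    ∃ W : Finset (ℤ√2), (∀ v ∈ W, TP v ∧ Prim v ∧ nm v ≤ (((32 * B) ^ 4 : ℕ) : ℤ) ∧
      |th v| ≤ 1 / 2) ∧ (W.card : ℝ) ≤ RR g c N Z1 V Y Y' ∧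
      ((bx B ×ˢ bx B).filter (fun p => ¬ Safe g c N Z Y' (al (zz p.1) + al (zz p.2) + τ))).card ≤
      ((bx B ×ˢ bx B).filter (fun p => ∃ v ∈ W, det (zz p.1 * zz p.2) v = 0)).card := by
  have hP := th_uu_pos
  have hP2 := th_uu_le
  have hNR : (4 : ℝ) ≤ N := by exact_mod_cast hN
  have hYR : (1 : ℝ) ≤ Y := by exact_mod_cast hY
  have hYR' : (1 : ℝ) ≤ Y' := by exact_mod_cast hY'
  have hZ1R : (1 : ℝ) ≤ Z1 := by exact_mod_cast hZ1
  set bad := (bx B ×ˢ bx B).filter
    (fun p => ¬ Safe g c N Z Y' (al (zz p.1) + al (zz p.2) + τ)) with hbad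
  have hex : ∀ p ∈ bad, ∃ v, Prim v ∧ TP v ∧ th v = th (zz p.1 * zz p.2) ∧
      nm v ≤ nm (zz p.1 * zz p.2) ∧ F g v = F g (zz p.1 * zz p.2) := by
    intro p hp
    rw [hbad, Finset.mem_filter, Finset.mem_product] at hp
    exact prim_part hg ((TP_zz hp.1.1).mul (TP_zz hp.1.2))
  choose! pp hpp using hex
  set W := bad.image pp with hW
  have hWp : ∀ v ∈ W, TP v ∧ Prim v ∧ nm v ≤ (((32 * B) ^ 4 : ℕ) : ℤ) ∧ |th v| ≤ 1 / 2 := by
    intro v hv
    rw [hW, Finset.mem_image] at hv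
    obtain ⟨p, hp, rfl⟩ := hv
    obtain ⟨h1, h2, h3, h4, _⟩ := hpp p hp
    rw [hbad, Finset.mem_filter, Finset.mem_product] at hp
    refine ⟨h2, h1, h4.trans ?_, ?_⟩
    · rw [nm_mul]
      have a1 := nm_zz hp.1.1
      have a2 := nm_zz hp.1.2
      have a3 := (TP_zz hp.1.1).nm_pos
      have a4 := (TP_zz hp.1.2).nm_pos
      calc nm (zz p.1) * nm (zz p.2) ≤ (((32 * B) ^ 2 : ℕ) : ℤ) * (((32 * B) ^ 2 : ℕ) : ℤ) :=
            mul_le_mul a1 a2 a4.le (by positivity)
        _ = _ := by push_cast; ring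
    · rw [h3, th_mul (TP_zz hp.1.1) (TP_zz hp.1.2)]
      have a1 := th_zz_le hp.1.1
      have a2 := th_zz_le hp.1.2
      rw [abs_le]
      constructor <;> linarith [a1.1, a1.2, a2.1, a2.2]
  refine ⟨W, hWp, ?_, ?_⟩
  · have hW2 : ∀ v ∈ W, TP v ∧ Prim v ∧ nm v ≤ N := by
      intro v hv
      obtain ⟨h1, h2, h3, _⟩ := hWp v hv
      exact ⟨h1, h2, h3.trans (by exact_mod_cast hBN)⟩
    set t : ℝ := th uu * τ with ht
    set cs1 := (SC g c N).biUnion (EF 8) with hcs1
    set cs2 := (Finset.range (40 * Y' + 1)).biUnion (EF 8) with hcs2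
    set cs3 := (Finset.range (40 * Y + 1)).biUnion (EF 8) with hcs3
    set cs4 := (Finset.range (max V 2 + 1)).biUnion (EF 8) with hcs4
    have k1 : (cs1.card : ℝ) ≤ ∑ n ∈ SC g c N, ((EF 8 n).card : ℝ) := by
      exact_mod_cast (Finset.card_biUnion_le (s := SC g c N) (t := EF 8))
    have k2 : (cs2.card : ℝ) ≤ EK (40 * Y') := by
      simp only [EK]
      exact_mod_cast (Finset.card_biUnion_le (s := Finset.range (40 * Y' + 1)) (t := EF 8))
    have k3 : (cs3.card : ℝ) ≤ EK (40 * Y) := by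
      simp only [EK]
      exact_mod_cast (Finset.card_biUnion_le (s := Finset.range (40 * Y + 1)) (t := EF 8))
    have k4 : (cs4.card : ℝ) ≤ EK (max V 2) := by
      simp only [EK]
      exact_mod_cast (Finset.card_biUnion_le (s := Finset.range (max V 2 + 1)) (t := EF 8))
    have cover : W ⊆ W.filter (fun v => ∃ k ∈ cs1, |th v - (th k.1 - t)| ≤ 1 / (8 * Y : ℝ) + 2 / N) ∪
        (W.filter (fun v => ∃ k ∈ cs2, |th v - (th k.1 - t)| ≤ 5 / (Z1 : ℝ) + 2 / N) ∪
        (W.filter (fun v => ∃ k ∈ cs2, |th v - (th k.2 - t)| ≤ 5 / (Z1 : ℝ) + 2 / N) ∪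
        (W.filter (fun v => ∃ k ∈ cs3, |th v - (th k.1 - t)| ≤ 1 / (4 * Y' : ℝ) + 2 / N) ∪
        (W.filter (fun v => ∃ k ∈ cs3, |th v - (th k.2 - t)| ≤ 1 / (4 * Y' : ℝ) + 2 / N) ∪
        (W.filter (fun v => ∃ k ∈ cs3, |th v - (th (k.1 + k.2) - t)| ≤ 1 / (4 * Y' : ℝ) + 2 / N) ∪
        (W.filter (fun v => ∃ k ∈ cs4, |th v - (th k.1 - t)| ≤ 5 / (40 * Y' : ℝ) + 2 / N) ∪
        (W.filter (fun v => ∃ k ∈ cs4, |th v - (th k.2 - t)| ≤ 5 / (40 * Y' : ℝ) + 2 / N)
          ))))))) := by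
      intro v hv
      have hv' := hv
      rw [hW, Finset.mem_image] at hv'
      obtain ⟨p, hp, rfl⟩ := hv'
      obtain ⟨h1, h2, h3, h4, _⟩ := hpp p hp
      rw [hbad, Finset.mem_filter, Finset.mem_product] at hp
      obtain ⟨⟨hp1, hp2⟩, hns⟩ := hp
      simp only [Safe, not_forall] at hns
      obtain ⟨x', hx', hGd⟩ := hns
      have hth : th (pp p) = th (zz p.1) + th (zz p.2) := by
        rw [h3, th_mul (TP_zz hp1) (TP_zz hp2)]
      have hclose : |th uu * x' - (th (pp p) + t)| ≤ 2 / N := by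
        have e : th uu * x' - (th (pp p) + t) =
            th uu * (x' - (al (zz p.1) + al (zz p.2) + τ)) := by
          rw [hth, ht]
          simp only [al]
          field_simp
        rw [e, abs_mul, abs_of_pos hP]
        calc th uu * |x' - (al (zz p.1) + al (zz p.2) + τ)| ≤ 2 * (1 / (N : ℝ)) :=
              mul_le_mul hP2 hx' (abs_nonneg _) (by norm_num)
          _ = 2 / N := by ring
      have hθ : |th uu * x'| ≤ 3 := by
        have a1 := th_zz_le hp1
        have a2 := th_zz_le hp2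
        have a3 : 0 ≤ t := mul_nonneg hP.le hτ0
        have a4 : t ≤ 2 := by
          rw [ht]
          nlinarith only [hτ1, hP, hP2]
        have a5 : 2 / (N : ℝ) ≤ 1 / 2 := by
          rw [div_le_div_iff₀ (by linarith) (by norm_num)]
          linarith
        rw [abs_le] at hclose ⊢
        constructor <;> linarith only [hth, a3, a5, a4, a1.1, a1.2, a2.1, a2.2, hclose.1, hclose.2]
      have hcon := fun h1 h2 h3 h4 => hGd (gd_of_far g hg c N N Z Z1 V Y Y' (th uu * x') hY hY'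
        le_rfl hV hZ1 hZ hθ h1 h2 h3 h4)
      simp only [Finset.mem_union, Finset.mem_filter]
      by_contra hno
      simp only [not_or, not_and, not_exists, not_le] at hno
      obtain ⟨n1, n2, n3, n4, n5, n6, n7, n8⟩ := hno
      have n1 := n1 hv
      have n2 := n2 hv
      have n3 := n3 hv
      have n4 := n4 hv
      have n5 := n5 hv
      have n6 := n6 hv
      have n7 := n7 hv
      have n8 := n8 hv
      apply hcon
      · intro n hn e he
        by_contra hc
        push Not at hc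
        exact absurd (near_shift hc hclose) (not_le.2 (n1 e (by
          rw [hcs1, Finset.mem_biUnion]; exact ⟨n, hn, he⟩)))
      · intro n hn e he
        have hmem : e ∈ cs2 := by
          rw [hcs2, Finset.mem_biUnion]
          exact ⟨n, by rw [Finset.mem_range]; omega, he⟩
        constructor
        · by_contra hc
          push Not at hc
          exact absurd (near_shift hc hclose) (not_le.2 (n2 e hmem))
        · by_contra hc
          push Not at hc
          exact absurd (near_shift hc hclose) (not_le.2 (n3 e hmem))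
      · intro n hn e he
        have hmem : e ∈ cs3 := by
          rw [hcs3, Finset.mem_biUnion]
          exact ⟨n, by rw [Finset.mem_range]; omega, he⟩
        refine ⟨?_, ?_, ?_⟩
        · by_contra hc
          push Not at hc
          exact absurd (near_shift hc hclose) (not_le.2 (n4 e hmem))
        · by_contra hc
          push Not at hc
          exact absurd (near_shift hc hclose) (not_le.2 (n5 e hmem))
        · by_contra hc
          push Not at hc
          exact absurd (near_shift hc hclose) (not_le.2 (n6 e hmem))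
      · intro n hn e he
        have hmem : e ∈ cs4 := by
          rw [hcs4, Finset.mem_biUnion]
          exact ⟨n, by rw [Finset.mem_range]; omega, he⟩
        constructor
        · by_contra hc
          push Not at hc
          exact absurd (near_shift hc hclose) (not_le.2 (n7 e hmem))
        · by_contra hc
          push Not at hc
          exact absurd (near_shift hc hclose) (not_le.2 (n8 e hmem))
    have hN1 : 1 ≤ N := by omega
    have c1 := cover_count N hN1 W hW2 cs1 (fun k => th k.1 - t) (1 / (8 * Y : ℝ) + 2 / N)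
      (by positivity)
    have c2 := cover_count N hN1 W hW2 cs2 (fun k => th k.1 - t) (5 / (Z1 : ℝ) + 2 / N)
      (by positivity)
    have c3 := cover_count N hN1 W hW2 cs2 (fun k => th k.2 - t) (5 / (Z1 : ℝ) + 2 / N)
      (by positivity)
    have c4 := cover_count N hN1 W hW2 cs3 (fun k => th k.1 - t) (1 / (4 * Y' : ℝ) + 2 / N)
      (by positivity)
    have c5 := cover_count N hN1 W hW2 cs3 (fun k => th k.2 - t) (1 / (4 * Y' : ℝ) + 2 / N)
      (by positivity)
    have c6 := cover_count N hN1 W hW2 cs3 (fun k => th (k.1 + k.2) - t)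
      (1 / (4 * Y' : ℝ) + 2 / N) (by positivity)
    have c7 := cover_count N hN1 W hW2 cs4 (fun k => th k.1 - t) (5 / (40 * Y' : ℝ) + 2 / N)
      (by positivity)
    have c8 := cover_count N hN1 W hW2 cs4 (fun k => th k.2 - t) (5 / (40 * Y' : ℝ) + 2 / N)
      (by positivity)
    have hcard : (W.card : ℝ) ≤ cs1.card * (8 * (1 / (8 * Y : ℝ) + 2 / N) * N + 1) +
        (cs2.card * (8 * (5 / (Z1 : ℝ) + 2 / N) * N + 1) +
        (cs2.card * (8 * (5 / (Z1 : ℝ) + 2 / N) * N + 1) +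
        (cs3.card * (8 * (1 / (4 * Y' : ℝ) + 2 / N) * N + 1) +
        (cs3.card * (8 * (1 / (4 * Y' : ℝ) + 2 / N) * N + 1) +
        (cs3.card * (8 * (1 / (4 * Y' : ℝ) + 2 / N) * N + 1) +
        (cs4.card * (8 * (5 / (40 * Y' : ℝ) + 2 / N) * N + 1) +
        cs4.card * (8 * (5 / (40 * Y' : ℝ) + 2 / N) * N + 1))))))) := by
      have d0 := Finset.card_le_card cover
      generalize W.filter (fun v => ∃ k ∈ cs1, |th v - (th k.1 - t)| ≤ 1 / (8 * Y : ℝ) + 2 / N) = W1 at *
      generalize W.filter (fun v => ∃ k ∈ cs2, |th v - (th k.1 - t)| ≤ 5 / (Z1 : ℝ) + 2 / N) = W2 at *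
      generalize W.filter (fun v => ∃ k ∈ cs2, |th v - (th k.2 - t)| ≤ 5 / (Z1 : ℝ) + 2 / N) = W3 at *
      generalize W.filter (fun v => ∃ k ∈ cs3, |th v - (th k.1 - t)| ≤ 1 / (4 * Y' : ℝ) + 2 / N) = W4 at *
      generalize W.filter (fun v => ∃ k ∈ cs3, |th v - (th k.2 - t)| ≤ 1 / (4 * Y' : ℝ) + 2 / N) = W5 at *
      generalize W.filter (fun v => ∃ k ∈ cs3, |th v - (th (k.1 + k.2) - t)| ≤ 1 / (4 * Y' : ℝ) + 2 / N) = W6 at *
      generalize W.filter (fun v => ∃ k ∈ cs4, |th v - (th k.1 - t)| ≤ 5 / (40 * Y' : ℝ) + 2 / N) = W7 at *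
      generalize W.filter (fun v => ∃ k ∈ cs4, |th v - (th k.2 - t)| ≤ 5 / (40 * Y' : ℝ) + 2 / N) = W8 at *
      have d1 := Finset.card_union_le W1 (W2 ∪ (W3 ∪ (W4 ∪ (W5 ∪ (W6 ∪ (W7 ∪ W8))))))
      have d2 := Finset.card_union_le W2 (W3 ∪ (W4 ∪ (W5 ∪ (W6 ∪ (W7 ∪ W8)))))
      have d3 := Finset.card_union_le W3 (W4 ∪ (W5 ∪ (W6 ∪ (W7 ∪ W8))))
      have d4 := Finset.card_union_le W4 (W5 ∪ (W6 ∪ (W7 ∪ W8)))
      have d5 := Finset.card_union_le W5 (W6 ∪ (W7 ∪ W8))
      have d6 := Finset.card_union_le W6 (W7 ∪ W8)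
      have d7 := Finset.card_union_le W7 W8
      have d8 : W.card ≤ W1.card + (W2.card + (W3.card + (W4.card + (W5.card + (W6.card +
        (W7.card + W8.card)))))) := by omega
      have d9 : (W.card : ℝ) ≤ W1.card + (W2.card + (W3.card + (W4.card + (W5.card + (W6.card +
        (W7.card + W8.card)))))) := by exact_mod_cast d8
      refine d9.trans ?_
      gcongr
    refine hcard.trans ?_
    have hN0 : (0 : ℝ) < N := by linarith only [hNR]
    have e1 : 8 * (1 / (8 * Y : ℝ) + 2 / N) * N + 1 = N / Y + 17 := by field_simp; ring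
    have e2 : 8 * (5 / (Z1 : ℝ) + 2 / N) * N + 1 = 40 * N / Z1 + 17 := by field_simp; ring
    have e3 : 8 * (1 / (4 * Y' : ℝ) + 2 / N) * N + 1 = 2 * N / Y' + 17 := by field_simp; ring
    have e4 : 8 * (5 / (40 * Y' : ℝ) + 2 / N) * N + 1 = N / Y' + 17 := by field_simp; ring
    rw [e1, e2, e3, e4, RR]
    have g1 : (0 : ℝ) ≤ N / Y + 17 := by positivity
    have g2 : (0 : ℝ) ≤ 40 * N / Z1 + 17 := by positivity
    have g3 : (0 : ℝ) ≤ 2 * N / Y' + 17 := by positivity
    have g4 : (0 : ℝ) ≤ N / Y' + 17 := by positivity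
    have j1 := mul_le_mul_of_nonneg_right k1 g1
    have j2 := mul_le_mul_of_nonneg_right k2 g2
    have j3 := mul_le_mul_of_nonneg_right k3 g3
    have j4 := mul_le_mul_of_nonneg_right k4 g4
    linarith only [j1, j2, j3, j4]
  · apply Finset.card_le_card
    intro p hp
    obtain ⟨h1, h2, h3, h4, _⟩ := hpp p hp
    have hp' := hp
    rw [hbad, Finset.mem_filter, Finset.mem_product] at hp'
    rw [Finset.mem_filter, Finset.mem_product]
    refine ⟨hp'.1, pp p, Finset.mem_image_of_mem _ hp, ?_⟩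
    have hT := (TP_zz hp'.1.1).mul (TP_zz hp'.1.2)
    have a1 := (th_le_iff hT h2).1 h3.ge
    have a2 := (th_le_iff h2 hT).1 h3.le
    rw [det_neg] at a2
    omega

open Classical in
/-- the number of pairs of box elements that are not safe -/
theorem counting : ∃ C : ℕ, ∀ g : ℕ → ℤ, CM g → ∀ (c : Bool) (N Z Z1 V Y Y' B : ℕ), 1 ≤ Y →
    1 ≤ Y' → 1 ≤ V → 1 ≤ Z1 → Z1 ^ 2 ≤ V * Z → 4 ≤ N → 1 ≤ B → (32 * B) ^ 4 ≤ N → ∀ τ : ℝ,
    (((bx B ×ˢ bx B).filter
      (fun p => ¬ Safe g c N Z Y' (al (zz p.1) + al (zz p.2) + τ))).card : ℝ) ≤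
    C * √(RR g c N Z1 V Y Y') * (B : ℝ) ^ 2 * (1 + Real.log B) ^ C := by
  obtain ⟨C, hC⟩ := energy
  refine ⟨C, ?_⟩
  intro g hg c N Z Z1 V Y Y' B hY hY' hV hZ1 hZ hN hB hBN τ
  obtain ⟨W, hW1, hW2, hW3⟩ := counting_aux hg c N Z Z1 V Y Y' B hY hY' hV hZ1 hZ hN hBN
    (Int.fract τ) (Int.fract_nonneg τ) (Int.fract_lt_one τ).le
  have h1 := hC B hB W hW1
  have h2 : (bx B ×ˢ bx B).filter
      (fun p => ¬ Safe g c N Z Y' (al (zz p.1) + al (zz p.2) + τ)) =
      (bx B ×ˢ bx B).filter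
      (fun p => ¬ Safe g c N Z Y' (al (zz p.1) + al (zz p.2) + Int.fract τ)) := by
    apply Finset.filter_congr
    intro p _
    rw [Safe_fract]
  rw [h2]
  have h3 : (((bx B ×ˢ bx B).filter
      (fun p => ¬ Safe g c N Z Y' (al (zz p.1) + al (zz p.2) + Int.fract τ))).card : ℝ) ≤
      ((bx B ×ˢ bx B).filter (fun p => ∃ v ∈ W, det (zz p.1 * zz p.2) v = 0)).card := by
    exact_mod_cast hW3
  refine (h3.trans h1).trans ?_
  have hBR : (1 : ℝ) ≤ B := by exact_mod_cast hB
  have hlog : 0 ≤ Real.log B := Real.log_nonneg hBR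
  gcongr

end

end Pool.Agent.Lib.MP_0b748d_nt
end
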