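import Mathlib
import Pool.Agent.Lib.MP_0b748d_nt.P.LargeSieve
import Pool.Agent.Lib.MP_0b748d_nt.P.PrimeElt
import Pool.Agent.Lib.MP_0b748d_nt.P.Spacing

section

set_option autoImplicit false

/-!
# Many primes `1 mod 8` in every interval `[Y, Y ^ C]`
-/

namespace Pool.Agent.Lib.MP_0b748d_nt

open Zsqrtd

noncomputable section

/-- the weight `log p` on the primes `1 mod 8` -/
def primes8W (n : ℕ) : ℝ := if n.Prime ∧ n % 8 = 1 then Real.log n else 0

lemma primes8_W_nonneg (n : ℕ) : 0 ≤ primes8W n := by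
  unfold primes8W
  split_ifs
  · exact Real.log_natCast_nonneg n
  · exact le_rfl

lemma primes8_W_zero : primes8W 0 = 0 := by
  unfold primes8W
  simp

lemma primes8_block (i : ℕ) :
    ∑ n ∈ Finset.Ico (2 ^ i) (2 ^ (i + 1)), primes8W n ≤ Real.log 4 * 2 ^ (i + 1) := by
  have h1 : Chebyshev.theta ((2 ^ (i + 1) : ℕ) : ℝ) ≤ Real.log 4 * ((2 ^ (i + 1) : ℕ) : ℝ) :=
    Chebyshev.theta_le_log4_mul_x (by positivity)
  rw [Chebyshev.theta_eq_sum_Icc, Nat.floor_natCast, Finset.sum_filter] at h1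
  refine le_trans ?_ (le_trans h1 (by push_cast; exact le_rfl))
  refine le_trans (Finset.sum_le_sum_of_subset_of_nonneg ?_ (fun n _ _ => primes8_W_nonneg n))
    (Finset.sum_le_sum ?_)
  · intro n hn
    rw [Finset.mem_Ico] at hn
    rw [Finset.mem_Icc]
    omega
  · intro n _
    unfold primes8W
    by_cases h : n.Prime
    · by_cases h8 : n % 8 = 1
      · simp [h, h8]
      · simp only [h, h8, and_false, if_false, if_true]
        exact Real.log_natCast_nonneg n
    · simp [h]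

lemma primes8_pow (i : ℕ) (d : ℝ) : ((2 ^ i : ℕ) : ℝ) ^ (1 + d) = 2 ^ i * ((2 : ℝ) ^ d) ^ i := by
  push_cast
  rw [Real.rpow_add (by positivity), Real.rpow_one]
  congr 1
  rw [← Real.rpow_natCast, ← Real.rpow_mul (by norm_num), mul_comm, Real.rpow_mul (by norm_num),
    Real.rpow_natCast]

/-- the dyadic block sums -/
def primes8T (d : ℝ) (i : ℕ) : ℝ :=
  ∑ n ∈ Finset.Ico (2 ^ i) (2 ^ (i + 1)), primes8W n / (n : ℝ) ^ (1 + d)

lemma primes8_T_le (d : ℝ) (hd : 0 < d) (i : ℕ) :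
    primes8T d i ≤ 2 * Real.log 4 * ((1 / 2 : ℝ) ^ d) ^ i := by
  unfold primes8T
  have h2 : (1 / 2 : ℝ) ^ d = ((2 : ℝ) ^ d)⁻¹ := by
    rw [one_div, Real.inv_rpow (by norm_num)]
  calc ∑ n ∈ Finset.Ico (2 ^ i) (2 ^ (i + 1)), primes8W n / (n : ℝ) ^ (1 + d)
      ≤ ∑ n ∈ Finset.Ico (2 ^ i) (2 ^ (i + 1)), primes8W n / (2 ^ i * ((2 : ℝ) ^ d) ^ i) := by
        refine Finset.sum_le_sum fun n hn => ?_
        rw [Finset.mem_Ico] at hn
        refine div_le_div_of_nonneg_left (primes8_W_nonneg n) (by positivity) ?_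
        rw [← primes8_pow]
        exact Real.rpow_le_rpow (by positivity) (by exact_mod_cast hn.1) (by linarith)
    _ = (∑ n ∈ Finset.Ico (2 ^ i) (2 ^ (i + 1)), primes8W n) / (2 ^ i * ((2 : ℝ) ^ d) ^ i) := by
        rw [Finset.sum_div]
    _ ≤ (Real.log 4 * 2 ^ (i + 1)) / (2 ^ i * ((2 : ℝ) ^ d) ^ i) := by
        have := primes8_block i
        gcongr
    _ = 2 * Real.log 4 * ((1 / 2 : ℝ) ^ d) ^ i := by
        rw [h2, inv_pow, pow_succ]
        field_simp

lemma primes8_T_le' (d : ℝ) (hd : 0 < d) (i : ℕ) (c : ℝ)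
    (hc : (((Finset.range (2 ^ (i + 1) + 1)).filter (fun p => p.Prime ∧ p % 8 = 1)).card : ℝ) ≤ c) :
    primes8T d i ≤ c * ((i + 1 : ℕ) * Real.log 2) / 2 ^ i := by
  unfold primes8T
  have hterm : ∀ n ∈ Finset.Ico (2 ^ i) (2 ^ (i + 1)), primes8W n / (n : ℝ) ^ (1 + d) ≤
      (if n.Prime ∧ n % 8 = 1 then (1 : ℝ) else 0) * (((i + 1 : ℕ) * Real.log 2) / 2 ^ i) := by
    intro n hn
    rw [Finset.mem_Ico] at hn
    have hn1 : (1 : ℝ) ≤ n := by
      have : 1 ≤ 2 ^ i := Nat.one_le_two_pow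
      exact_mod_cast this.trans hn.1
    unfold primes8W
    split_ifs with h
    · rw [one_mul]
      have hlog : Real.log n ≤ (i + 1 : ℕ) * Real.log 2 := by
        rw [← Real.log_pow]
        refine Real.log_le_log (by linarith) ?_
        exact_mod_cast hn.2.le
      have hpow : (2 ^ i : ℝ) ≤ (n : ℝ) ^ (1 + d) := by
        calc (2 ^ i : ℝ) ≤ n := by exact_mod_cast hn.1
          _ = (n : ℝ) ^ (1 : ℝ) := (Real.rpow_one _).symm
          _ ≤ (n : ℝ) ^ (1 + d) := Real.rpow_le_rpow_of_exponent_le hn1 (by linarith)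
      refine div_le_div₀ ?_ hlog (by positivity) hpow
      positivity
    · simp
  refine le_trans (Finset.sum_le_sum hterm) ?_
  rw [← Finset.sum_mul, ← Finset.sum_filter, Finset.sum_const, nsmul_eq_mul, mul_one]
  have hcard : (((Finset.Ico (2 ^ i) (2 ^ (i + 1))).filter (fun p => p.Prime ∧ p % 8 = 1)).card : ℝ)
      ≤ c := by
    refine le_trans ?_ hc
    exact_mod_cast Finset.card_le_card (Finset.filter_subset_filter _ (by
      intro n hn
      rw [Finset.mem_Ico] at hn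
      rw [Finset.mem_range]
      omega))
  have h0 : 0 ≤ ((i + 1 : ℕ) * Real.log 2) / (2 : ℝ) ^ i := by
    have := Real.log_nonneg (by norm_num : (1 : ℝ) ≤ 2)
    positivity
  calc _ ≤ c * (((i + 1 : ℕ) * Real.log 2) / (2 : ℝ) ^ i) := mul_le_mul_of_nonneg_right hcard h0
    _ = _ := by ring

lemma primes8_sum_range (d : ℝ) (N : ℕ) :
    ∑ n ∈ Finset.range (2 ^ N), primes8W n / (n : ℝ) ^ (1 + d) =
      ∑ i ∈ Finset.range N, primes8T d i := by
  induction N with
  | zero => simp [primes8_W_zero]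
  | succ N ih =>
    rw [Finset.sum_range_succ, ← ih, primes8T]
    rw [Finset.range_eq_Ico, Finset.range_eq_Ico]
    rw [Finset.sum_Ico_consecutive _ (Nat.zero_le _) (Nat.pow_le_pow_right (by norm_num)
      (Nat.le_succ N))]

lemma primes8_geom (r : ℝ) (h0 : 0 ≤ r) (h1 : r < 1) (m N : ℕ) :
    ∑ i ∈ Finset.Ico m N, r ^ i ≤ r ^ m / (1 - r) := by
  have h1r : 0 < 1 - r := by linarith
  rcases le_or_gt N m with h | h
  · rw [Finset.Ico_eq_empty (by omega)]
    simp only [Finset.sum_empty]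
    positivity
  · rw [le_div_iff₀ h1r]
    have := geom_sum_Ico_mul r h.le
    have h3 : (∑ i ∈ Finset.Ico m N, r ^ i) * (r - 1) = r ^ N - r ^ m := this
    have h4 : 0 ≤ r ^ N := by positivity
    nlinarith

open ArithmeticFunction ArithmeticFunction.vonMangoldt in
lemma primes8_term (x : ℝ) (hx : 1 < x) (n : ℕ) :
    residueClass (1 : ZMod 8) n / (n : ℝ) ^ x ≤
      (if n.Prime then 0 else residueClass (1 : ZMod 8) n) / n + primes8W n / (n : ℝ) ^ x := by
  rcases Nat.eq_zero_or_pos n with rfl | hn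
  · simp [primes8_W_zero]
  have hn1 : (1 : ℝ) ≤ n := by exact_mod_cast hn
  by_cases hp : n.Prime
  · simp only [hp, if_true, zero_div, zero_add]
    refine div_le_div_of_nonneg_right ?_ (by positivity)
    unfold primes8W residueClass
    by_cases h8 : n % 8 = 1
    · simp only [hp, h8, and_self, if_true]
      refine (Set.indicator_le_self' (fun _ _ => vonMangoldt_nonneg) n).trans ?_
      rw [vonMangoldt_apply_prime hp]
    · simp only [h8, and_false, if_false]
      rw [Set.indicator_of_notMem]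
      intro hmem
      apply h8
      have h : ((n : ℕ) : ZMod 8) = ((1 : ℕ) : ZMod 8) := by
        simpa using hmem
      rw [ZMod.natCast_eq_natCast_iff'] at h
      simpa using h
  · simp only [hp, if_false]
    have h1 : 0 ≤ primes8W n / (n : ℝ) ^ x := by
      have := primes8_W_nonneg n
      positivity
    have h2 : residueClass (1 : ZMod 8) n / (n : ℝ) ^ x ≤ residueClass (1 : ZMod 8) n / n := by
      refine div_le_div_of_nonneg_left (residueClass_nonneg _ _) (by positivity) ?_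
      calc (n : ℝ) = (n : ℝ) ^ (1 : ℝ) := (Real.rpow_one _).symm
        _ ≤ (n : ℝ) ^ x := Real.rpow_le_rpow_of_exponent_le hn1 hx.le
    linarith

open ArithmeticFunction ArithmeticFunction.vonMangoldt in
lemma primes8_lower : ∃ K : ℝ, 0 ≤ K ∧ ∀ d : ℝ, 0 < d → d ≤ 1 → ∃ N0 : ℕ, ∀ N : ℕ, N0 ≤ N →
    (1 / 4) / d - K ≤ ∑ i ∈ Finset.range N, primes8T d i := by
  have hu : IsUnit (1 : ZMod 8) := isUnit_one
  obtain ⟨C0, hC0⟩ := LSeries_residueClass_lower_bound (q := 8) hu
  have hs := summable_residueClass_non_primes_div (1 : ZMod 8)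
  have hnn : ∀ n : ℕ, 0 ≤ (if n.Prime then 0 else residueClass (1 : ZMod 8) n) / (n : ℝ) := by
    intro n
    have := residueClass_nonneg (1 : ZMod 8) n
    split_ifs <;> positivity
  set C1 : ℝ := ∑' n : ℕ, (if n.Prime then 0 else residueClass (1 : ZMod 8) n) / (n : ℝ) with hC1
  have hC1n : 0 ≤ C1 := tsum_nonneg hnn
  refine ⟨|C0| + 1 + C1, by positivity, fun d hd hd1 => ?_⟩
  have hx : (1 + d) ∈ Set.Ioc (1 : ℝ) 2 := ⟨by linarith, by linarith⟩
  have hlow := hC0 hx
  have htot : ((Nat.totient 8 : ℕ) : ℝ)⁻¹ = 1 / 4 := by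
    have : Nat.totient 8 = 4 := by decide
    rw [this]; norm_num
  rw [htot] at hlow
  have hsum : Summable fun n : ℕ => residueClass (1 : ZMod 8) n / (n : ℝ) ^ (1 + d) :=
    LSeries.summable_real_of_abscissaOfAbsConv_lt <|
        (abscissaOfAbsConv_residueClass_le_one (1 : ZMod 8)).trans_lt <| mod_cast hx.1
  have htend := hsum.hasSum.tendsto_sum_nat
  have hev := htend.eventually (lt_mem_nhds (show
    (∑' n : ℕ, residueClass (1 : ZMod 8) n / (n : ℝ) ^ (1 + d)) - 1 <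
      ∑' n : ℕ, residueClass (1 : ZMod 8) n / (n : ℝ) ^ (1 + d) by linarith))
  obtain ⟨N0, hN0⟩ := Filter.eventually_atTop.1 hev
  refine ⟨N0, fun N hN => ?_⟩
  have hpow : N0 ≤ 2 ^ N := hN.trans (Nat.lt_two_pow_self).le
  have h1 := hN0 (2 ^ N) hpow
  have h2 : ∑ n ∈ Finset.range (2 ^ N), residueClass (1 : ZMod 8) n / (n : ℝ) ^ (1 + d) ≤
      ∑ n ∈ Finset.range (2 ^ N), ((if n.Prime then 0 else residueClass (1 : ZMod 8) n) / n +
        primes8W n / (n : ℝ) ^ (1 + d)) :=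
    Finset.sum_le_sum fun n _ => primes8_term (1 + d) hx.1 n
  rw [Finset.sum_add_distrib, primes8_sum_range] at h2
  have h3 : ∑ n ∈ Finset.range (2 ^ N), (if n.Prime then 0 else residueClass (1 : ZMod 8) n) /
      (n : ℝ) ≤ C1 := hs.sum_le_tsum _ (fun n _ => hnn n)
  have h4 := le_abs_self C0
  have h5 : 1 + d - 1 = d := by ring
  rw [h5] at hlow
  linarith

theorem many_primes (ε : ℝ) (hε : 0 < ε) : ∃ C Y0 : ℕ, ∀ Y : ℕ, Y0 ≤ Y → ∃ y : ℕ, Y ≤ y ∧
    y ≤ Y ^ C ∧
    (y : ℝ) ^ (1 - ε) ≤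
      (((Finset.range (y + 1)).filter (fun p => p.Prime ∧ p % 8 = 1)).card : ℝ) := by
  obtain ⟨K, hK0, hK⟩ := primes8_lower
  set r : ℝ := (1 / 2 : ℝ) ^ ε with hr
  have hr0 : 0 < r := by positivity
  have hr1 : r < 1 := Real.rpow_lt_one (by norm_num) (by norm_num) hε
  have hsumm : Summable fun j : ℕ => (j : ℝ) ^ 1 * r ^ j :=
    summable_pow_mul_geometric_of_norm_lt_one 1 (by rw [Real.norm_of_nonneg hr0.le]; exact hr1)
  set S : ℝ := ∑' j : ℕ, (j : ℝ) ^ 1 * r ^ j with hS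
  have hS0 : 0 ≤ S := tsum_nonneg fun j => by positivity
  obtain ⟨M0, hM0⟩ := exists_nat_gt ((K + 4 + 2 * S) / (8 / 10))
  refine ⟨128, 2 ^ (M0 + 1), fun Y hY => ?_⟩
  by_contra hcon
  push Not at hcon
  set m : ℕ := Nat.log 2 Y with hm
  have hY0 : Y ≠ 0 := by
    have : 0 < 2 ^ (M0 + 1) := by positivity
    omega
  have hm1 : M0 + 1 ≤ m := (Nat.le_log_iff_pow_le (by norm_num) hY0).2 hY
  have hmY : 2 ^ m ≤ Y := Nat.pow_log_le_self 2 hY0
  have hYm : Y < 2 ^ (m + 1) := Nat.lt_pow_succ_log_self (by norm_num) Y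
  have hmpos : (1 : ℝ) ≤ m := by
    have : 1 ≤ m := by omega
    exact_mod_cast this
  set d : ℝ := 1 / (16 * m) with hd
  have hd0 : 0 < d := by positivity
  have hd1 : d ≤ 1 := by
    rw [hd, div_le_one (by positivity)]
    linarith
  obtain ⟨N0, hN0⟩ := hK d hd0 hd1
  set N : ℕ := max N0 (128 * m + 1) with hN
  have hmain := hN0 N (le_max_left _ _)
  have hNm : 128 * m + 1 ≤ N := le_max_right _ _
  have hlow : (1 / 4) / d = 4 * m := by
    rw [hd]
    field_simp
    norm_num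
  rw [hlow] at hmain
  -- split
  have hsplit : ∑ i ∈ Finset.range N, primes8T d i =
      ∑ i ∈ Finset.range (m + 1), primes8T d i + ∑ i ∈ Finset.Ico (m + 1) (128 * m), primes8T d i
        + ∑ i ∈ Finset.Ico (128 * m) N, primes8T d i := by
    rw [Finset.range_eq_Ico, Finset.range_eq_Ico,
      Finset.sum_Ico_consecutive _ (Nat.zero_le _) (by omega),
      Finset.sum_Ico_consecutive _ (Nat.zero_le _) (by omega)]
  set q : ℝ := (1 / 2 : ℝ) ^ d with hq
  have hq0 : 0 < q := by positivity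
  have hq1 : q ≤ 1 - d / 2 := by
    have h := rpow_one_add_le_one_add_mul_self (s := (-1 / 2 : ℝ)) (by norm_num) hd0.le hd1
    have h2 : (1 + (-1 / 2) : ℝ) = 1 / 2 := by norm_num
    rw [h2] at h
    rw [hq]
    linarith
  have hlog4 : Real.log 4 = 2 * Real.log 2 := by
    rw [show (4 : ℝ) = 2 ^ 2 by norm_num, Real.log_pow]
    norm_num
  have hl2 : Real.log 2 < 0.6931471808 := Real.log_two_lt_d9
  have hl2' : 0 < Real.log 2 := Real.log_pos (by norm_num)
  -- head
  have hhead : ∑ i ∈ Finset.range (m + 1), primes8T d i ≤ (m + 1) * (2 * Real.log 4) := by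
    have : ∑ i ∈ Finset.range (m + 1), primes8T d i ≤
        ∑ i ∈ Finset.range (m + 1), 2 * Real.log 4 := by
      refine Finset.sum_le_sum fun i _ => (primes8_T_le d hd0 i).trans ?_
      have h1 : q ^ i ≤ 1 := pow_le_one₀ hq0.le (by linarith)
      have h2 : 0 ≤ 2 * Real.log 4 := by rw [hlog4]; positivity
      calc 2 * Real.log 4 * q ^ i ≤ 2 * Real.log 4 * 1 := mul_le_mul_of_nonneg_left h1 h2
        _ = _ := mul_one _
    rw [Finset.sum_const, Finset.card_range, nsmul_eq_mul] at this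
    push_cast at this
    exact this
  -- tail
  have htail : ∑ i ∈ Finset.Ico (128 * m) N, primes8T d i ≤ Real.log 4 * m / 4 := by
    have h1 : ∑ i ∈ Finset.Ico (128 * m) N, primes8T d i ≤
        ∑ i ∈ Finset.Ico (128 * m) N, 2 * Real.log 4 * q ^ i :=
      Finset.sum_le_sum fun i _ => primes8_T_le d hd0 i
    rw [← Finset.mul_sum] at h1
    have h2 := primes8_geom q hq0.le (by linarith) (128 * m) N
    have h3 : q ^ (128 * m) = 1 / 256 := by
      rw [hq, ← Real.rpow_natCast, ← Real.rpow_mul (by norm_num)]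
      have : d * ((128 * m : ℕ) : ℝ) = (8 : ℕ) := by
        rw [hd]
        push_cast
        field_simp
        norm_num
      rw [this, Real.rpow_natCast]
      norm_num
    rw [h3] at h2
    have h4 : (1 / 256 : ℝ) / (1 - q) ≤ m / 8 := by
      rw [div_le_iff₀ (by linarith)]
      have h5 : d / 2 ≤ 1 - q := by linarith
      have h6 : (m : ℝ) / 8 * (d / 2) ≤ m / 8 * (1 - q) :=
        mul_le_mul_of_nonneg_left h5 (by positivity)
      have h7 : (m : ℝ) / 8 * (d / 2) = 1 / 256 := by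
        rw [hd]
        field_simp
        norm_num
      linarith
    have h8 : 0 ≤ 2 * Real.log 4 := by rw [hlog4]; positivity
    calc _ ≤ 2 * Real.log 4 * (∑ i ∈ Finset.Ico (128 * m) N, q ^ i) := h1
      _ ≤ 2 * Real.log 4 * (m / 8) := mul_le_mul_of_nonneg_left (h2.trans h4) h8
      _ = _ := by ring
  -- middle
  have hmid : ∑ i ∈ Finset.Ico (m + 1) (128 * m), primes8T d i ≤ 2 * S := by
    have h1 : ∀ i ∈ Finset.Ico (m + 1) (128 * m), primes8T d i ≤
        2 * (((i + 1 : ℕ) : ℝ) ^ 1 * r ^ (i + 1)) := by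
      intro i hi
      rw [Finset.mem_Ico] at hi
      have hya : Y ≤ 2 ^ (i + 1) :=
        hYm.le.trans (Nat.pow_le_pow_right (by norm_num) (by omega))
      have hyb : 2 ^ (i + 1) ≤ Y ^ 128 := by
        calc 2 ^ (i + 1) ≤ 2 ^ (m * 128) := Nat.pow_le_pow_right (by norm_num) (by omega)
          _ = (2 ^ m) ^ 128 := by rw [pow_mul]
          _ ≤ Y ^ 128 := Nat.pow_le_pow_left hmY _
      have h2 := hcon (2 ^ (i + 1)) hya hyb
      refine (primes8_T_le' d hd0 i _ h2.le).trans ?_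
      have h3 : (((2 ^ (i + 1) : ℕ) : ℝ)) ^ (1 - ε) = 2 ^ (i + 1) * r ^ (i + 1) := by
        have := primes8_pow (i + 1) (-ε)
        rw [← sub_eq_add_neg] at this
        rw [this]
        congr 1
        rw [hr, one_div, Real.inv_rpow (by norm_num), Real.rpow_neg (by norm_num)]
      rw [h3, pow_one]
      have h4 : (2 : ℝ) ^ (i + 1) * r ^ (i + 1) * (((i + 1 : ℕ) : ℝ) * Real.log 2) / 2 ^ i =
          (2 * (((i + 1 : ℕ) : ℝ) * r ^ (i + 1))) * Real.log 2 := by
        rw [pow_succ 2 i]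
        field_simp
      rw [h4]
      have h5 : 0 ≤ 2 * (((i + 1 : ℕ) : ℝ) * r ^ (i + 1)) := by positivity
      calc _ ≤ (2 * (((i + 1 : ℕ) : ℝ) * r ^ (i + 1))) * 1 :=
            mul_le_mul_of_nonneg_left (by linarith) h5
        _ = _ := mul_one _
    refine (Finset.sum_le_sum h1).trans ?_
    rw [← Finset.mul_sum]
    refine mul_le_mul_of_nonneg_left ?_ (by norm_num)
    have h2 : ∑ i ∈ Finset.Ico (m + 1) (128 * m), (((i + 1 : ℕ) : ℝ) ^ 1 * r ^ (i + 1)) =
        ∑ j ∈ (Finset.Ico (m + 1) (128 * m)).image (fun i : ℕ => i + 1),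
          ((j : ℝ) ^ 1 * r ^ j) := by
      rw [Finset.sum_image (fun a _ b _ h => by simpa using h)]
    rw [h2]
    exact hsumm.sum_le_tsum _ (fun j _ => by positivity)
  rw [hsplit] at hmain
  have hMm : (M0 : ℝ) + 1 ≤ m := by exact_mod_cast hm1
  rw [div_lt_iff₀ (by norm_num)] at hM0
  rw [hlog4] at hhead htail
  nlinarith [mul_nonneg (sub_nonneg.2 hmpos) (sub_nonneg.2 hl2.le)]

end

end Pool.Agent.Lib.MP_0b748d_nt
end

section

set_option autoImplicit false

namespace Pool.Agent.Lib.MP_0b748d_nt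

open Zsqrtd

noncomputable section


lemma freq_prim_mul {u z : ℤ√2} (hu : nm u = 1) (hz : Prim z) : Prim (u * z) := by
  obtain ⟨a, b, hab⟩ := hz
  refine ⟨a * u.re - b * u.im, -2 * a * u.im + b * u.re, ?_⟩
  simp only [Zsqrtd.re_mul, Zsqrtd.im_mul, nm] at *
  linear_combination (a * z.re + b * z.im) * hu + hab

lemma freq_TP_one : TP (1 : ℤ√2) := by
  refine (TP_iff _).2 ⟨?_, ?_⟩ <;> simp [nm]

lemma freq_th_one : th (1 : ℤ√2) = 0 := by
  simp [th, s1, s2]

lemma freq_uu_pow (k : ℕ) : TP (uu ^ k) ∧ nm (uu ^ k) = 1 ∧ th (uu ^ k) = k * th uu := by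
  induction k with
  | zero => exact ⟨by simpa using freq_TP_one, by simp [nm], by simp [freq_th_one]⟩
  | succ k ih =>
    obtain ⟨h1, h2, h3⟩ := ih
    refine ⟨by rw [pow_succ]; exact h1.mul TP_uu, by rw [pow_succ, nm_mul, h2, nm_uu]; rfl, ?_⟩
    rw [pow_succ, th_mul h1 TP_uu, h3]
    push_cast
    ring

lemma freq_unit (k : ℤ) : ∃ u : ℤ√2, TP u ∧ nm u = 1 ∧ th u = k * th uu := by
  rcases Int.eq_nat_or_neg k with ⟨n, rfl | rfl⟩
  · obtain ⟨h1, h2, h3⟩ := freq_uu_pow n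
    exact ⟨uu ^ n, h1, h2, by rw [h3]; push_cast; ring⟩
  · obtain ⟨h1, h2, h3⟩ := freq_uu_pow n
    exact ⟨star (uu ^ n), h1.star, by rw [nm_star, h2], by rw [th_star, h3]; push_cast; ring⟩

lemma freq_th_uu_le : th uu ≤ 2 := by
  have h1 : s1 uu * s2 uu = 1 := by
    rw [s1_mul_s2, nm_uu]; simp
  have hp : 0 < s1 uu := TP_uu.1
  have hp2 : 0 < s2 uu := TP_uu.2
  have h2 : Real.log (s1 uu) + Real.log (s2 uu) = 0 := by
    rw [← Real.log_mul hp.ne' hp2.ne', h1, Real.log_one]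
  have h3 : th uu = Real.log (s1 uu) := by
    simp only [th]
    linarith
  rw [h3, Real.log_le_iff_le_exp hp]
  have h4 : s1 uu ≤ 6 := by
    simp only [s1, uu]
    have := sqrt2_lt
    push_cast
    linarith
  have h5 : (2.5 : ℝ) ≤ Real.exp 1 := by
    have := Real.exp_one_gt_d9
    linarith
  have h6 : Real.exp 2 = Real.exp 1 * Real.exp 1 := by
    rw [← Real.exp_add]; norm_num
  rw [h6]
  nlinarith only [h4, h5]

/-- separation of the normalised angles modulo `1` -/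
lemma freq_sep {v w : ℤ√2} (hv : TP v) (hw : TP w) (pv : Prim v) (pw : Prim w) (H : ℕ)
    (hH : 1 ≤ H) (h1 : nm v ≤ H) (h2 : nm w ≤ H) (hne : ∀ u : ℤ√2, nm u = 1 → v ≠ u * w) (k : ℤ) :
    1 / (8 * H : ℝ) ≤ |al v - al w - k| := by
  obtain ⟨u, hu, hu1, hu2⟩ := freq_unit k
  have huw : TP (u * w) := hu.mul hw
  have hn : nm (u * w) ≤ H := by rw [nm_mul, hu1, one_mul]; exact h2
  have hd : det v (u * w) ≠ 0 := fun h =>
    hne u hu1 (par_eq hv huw pv (freq_prim_mul hu1 pw) h)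
  have h3 := spacing hv huw H hH h1 hn hd
  rw [th_mul hu hw, hu2] at h3
  have hpos := th_uu_pos
  have h4 : |th v - (k * th uu + th w)| = |al v - al w - k| * th uu := by
    have : th v - (k * th uu + th w) = (al v - al w - k) * th uu := by
      simp only [al]
      field_simp
      ring
    rw [this, abs_mul, abs_of_pos hpos]
  rw [h4] at h3
  have hHr : (0 : ℝ) < H := by exact_mod_cast hH
  have h5 : |al v - al w - k| * th uu ≤ |al v - al w - k| * 2 :=
    mul_le_mul_of_nonneg_left freq_th_uu_le (abs_nonneg _)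
  have h6 : 1 / (8 * H : ℝ) = 1 / (4 * H : ℝ) / 2 := by
    field_simp
    norm_num
  rw [h6]
  linarith only [h3, h5]

lemma freq_al_prod {ι : Type*} (s : Finset ι) (v : ι → ℤ√2) (hv : ∀ i ∈ s, TP (v i)) :
    TP (∏ i ∈ s, v i) ∧ al (∏ i ∈ s, v i) = ∑ i ∈ s, al (v i) ∧
      nm (∏ i ∈ s, v i) = ∏ i ∈ s, nm (v i) := by
  classical
  induction s using Finset.induction_on with
  | empty =>
    refine ⟨by simpa using freq_TP_one, by simp [al, freq_th_one], by simp [nm]⟩
  | insert a s ha ih =>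
    obtain ⟨h1, h2, h3⟩ := ih fun i hi => hv i (Finset.mem_insert_of_mem hi)
    have h4 := hv a (Finset.mem_insert_self _ _)
    rw [Finset.prod_insert ha, Finset.sum_insert ha, Finset.prod_insert ha]
    refine ⟨h4.mul h1, ?_, by rw [nm_mul, h3]⟩
    rw [← h2]
    simp only [al]
    rw [th_mul h4 h1, add_div]

lemma freq_ee_sum {ι : Type*} (s : Finset ι) (v : ι → ℝ) :
    ee (∑ i ∈ s, v i) = ∏ i ∈ s, ee (v i) := by
  classical
  induction s using Finset.induction_on with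
  | empty => simp [ee_zero]
  | insert a s ha ih => rw [Finset.prod_insert ha, Finset.sum_insert ha, ee_add, ih]

lemma freq_char {ι : Type*} (PP : Finset ι) (pi : ι → ℤ√2) (hpi : ∀ p ∈ PP, TP (pi p)) (l : ℕ)
    (s : ι → ℝ) (m : ℤ) :
    ∑ f ∈ Fintype.piFinset (fun _ : Fin l => PP), (∏ i, (s (f i) : ℂ)) *
      ee (m * al (∏ i, pi (f i))) = (∑ p ∈ PP, (s p : ℂ) * ee (m * al (pi p))) ^ l := by
  have h := Finset.prod_univ_sum (fun _ : Fin l => PP) (fun _ p => (s p : ℂ) * ee (m * al (pi p)))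
  rw [Finset.prod_const, Finset.card_univ, Fintype.card_fin] at h
  rw [h]
  refine Finset.sum_congr rfl fun f hf => ?_
  rw [Fintype.mem_piFinset] at hf
  rw [Finset.prod_mul_distrib, ← freq_ee_sum, ← Finset.mul_sum,
    (freq_al_prod Finset.univ (fun i => pi (f i)) fun i _ => hpi _ (hf i)).2.1]

lemma freq_fact {l : ℕ} (f f' : Fin l → ℕ) (hf : ∀ i, (f i).Prime) (hf' : ∀ i, (f' i).Prime)
    (h : ∏ i, f i = ∏ i, f' i) (pi : ℕ → ℤ√2) : ∏ i, pi (f i) = ∏ i, pi (f' i) := by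
  have h1 := Nat.primeFactorsList_unique (n := ∏ i, f i) (l := List.ofFn f) (by
    rw [List.prod_ofFn]) (by
    intro p hp
    obtain ⟨i, rfl⟩ := (List.mem_ofFn' _ _).1 hp
    exact hf i)
  have h2 := Nat.primeFactorsList_unique (n := ∏ i, f i) (l := List.ofFn f') (by
    rw [List.prod_ofFn, h]) (by
    intro p hp
    obtain ⟨i, rfl⟩ := (List.mem_ofFn' _ _).1 hp
    exact hf' i)
  have h3 := ((h1.trans h2.symm).map pi).prod_eq
  rw [List.map_ofFn, List.map_ofFn, List.prod_ofFn, List.prod_ofFn] at h3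
  exact h3

lemma freq_fiber {l : ℕ} (PP : Finset ℕ) (hP : ∀ p ∈ PP, p.Prime) (n : ℕ) :
    ((Fintype.piFinset (fun _ : Fin l => PP)).filter (fun f => ∏ i, f i = n)).card ≤ l ^ l := by
  classical
  rcases Finset.eq_empty_or_nonempty
    ((Fintype.piFinset (fun _ : Fin l => PP)).filter (fun f => ∏ i, f i = n)) with h | ⟨f0, h0⟩
  · rw [h]; simp
  · rw [Finset.mem_filter, Fintype.mem_piFinset] at h0
    calc _ ≤ (Fintype.piFinset (fun _ : Fin l => Finset.univ.image f0)).card := by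
          refine Finset.card_le_card fun f hf => ?_
          rw [Finset.mem_filter, Fintype.mem_piFinset] at hf
          rw [Fintype.mem_piFinset]
          intro i
          have h1 : (f i) ∣ ∏ i, f0 i := by
            rw [h0.2, ← hf.2]
            exact Finset.dvd_prod_of_mem _ (Finset.mem_univ _)
          obtain ⟨j, -, hj⟩ := (hP _ (hf.1 i)).prime.exists_mem_finset_dvd h1
          rw [Finset.mem_image]
          exact ⟨j, Finset.mem_univ _, ((Nat.prime_dvd_prime_iff_eq (hP _ (hf.1 i))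
            (hP _ (h0.1 j))).1 hj).symm⟩
      _ = (Finset.univ.image f0).card ^ l := by
          rw [Fintype.card_piFinset_const]
      _ ≤ l ^ l := by
          refine Nat.pow_le_pow_left ?_ _
          refine Finset.card_image_le.trans ?_
          simp

lemma freq_core (PP : Finset ℕ) (hPP : ∀ p ∈ PP, p.Prime ∧ p % 8 = 1) (pi : ℕ → ℤ√2)
    (hpi : ∀ p, p.Prime → p % 8 = 1 → TP (pi p) ∧ nm (pi p) = p) (y l H : ℕ) (hy : ∀ p ∈ PP, p ≤ y)
    (hH : 1 ≤ H) (hyH : y ^ l ≤ H) (s : ℤ√2 → ℝ) (hs : ∀ u, s u = 1 ∨ s u = -1) (M : Finset ℤ)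
    (hM : ∀ m ∈ M, |m| ≤ (8 * H : ℕ))
    (hM2 : ∀ m ∈ M, ∀ p ∈ PP, ‖ee (m * al (pi p)) - s (pi p)‖ ≤ 1 / 2) :
    (M.card : ℝ) * ((PP.card : ℝ) / 2) ^ (2 * l) ≤ 64 * H * (l ^ l * (PP.card : ℝ) ^ l) := by
  classical
  set S := Fintype.piFinset (fun _ : Fin l => PP) with hS
  set V : (Fin l → ℕ) → ℤ√2 := fun f => ∏ i, pi (f i) with hV
  have hmem : ∀ f ∈ S, ∀ i, f i ∈ PP := fun f hf => by
    rw [hS, Fintype.mem_piFinset] at hf; exact hf
  have hpi' : ∀ p ∈ PP, TP (pi p) := fun p hp => (hpi p (hPP p hp).1 (hPP p hp).2).1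
  have hV1 : ∀ f ∈ S, TP (V f) ∧ nm (V f) = ((∏ i, f i : ℕ) : ℤ) := by
    intro f hf
    obtain ⟨h1, _, h3⟩ := freq_al_prod Finset.univ (fun i => pi (f i)) fun i _ => hpi' _ (hmem f hf i)
    refine ⟨h1, ?_⟩
    rw [hV]
    simp only
    rw [h3]
    push_cast
    exact Finset.prod_congr rfl fun i _ => (hpi _ (hPP _ (hmem f hf i)).1 (hPP _ (hmem f hf i)).2).2
  have hV2 : ∀ f ∈ S, nm (V f) ≤ H := by
    intro f hf
    rw [(hV1 f hf).2]
    have : ∏ i, f i ≤ y ^ l := by
      calc ∏ i, f i ≤ ∏ _i : Fin l, y := Finset.prod_le_prod' fun i _ => hy _ (hmem f hf i)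
        _ = y ^ l := by simp
    exact_mod_cast this.trans hyH
  have hV3 : ∀ f ∈ S, Prim (V f) := fun f hf => prim_prod pi hpi l f fun i => hPP _ (hmem f hf i)
  -- coefficients
  set c : (Fin l → ℕ) → ℂ := fun f => ∏ i, (s (pi (f i)) : ℂ) with hc
  have hc1 : ∀ f, ‖c f‖ = 1 := by
    intro f
    rw [hc]
    simp only [norm_prod]
    refine Finset.prod_eq_one fun i _ => ?_
    rcases hs (pi (f i)) with h | h <;> simp [h]
  set a : ℤ√2 → ℂ := fun v => ∑ f ∈ S.filter (fun f => V f = v), c f with ha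
  have hsum : ∀ m : ℤ, ∑ v ∈ S.image V, a v * ee (m * al v)
      = (∑ p ∈ PP, (s (pi p) : ℂ) * ee (m * al (pi p))) ^ l := by
    intro m
    rw [← freq_char PP pi hpi' l (fun p => s (pi p)) m]
    rw [← Finset.sum_fiberwise_of_maps_to (s := S) (t := S.image V) (g := V)
      (fun f hf => Finset.mem_image_of_mem _ hf)]
    refine Finset.sum_congr rfl fun v _ => ?_
    rw [ha]
    simp only
    rw [Finset.sum_mul]
    refine Finset.sum_congr rfl fun f hf => ?_
    rw [Finset.mem_filter] at hf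
    rw [← hf.2]
  -- size of the coefficients
  have hcard : ∀ v ∈ S.image V, (S.filter (fun f => V f = v)).card ≤ l ^ l := by
    intro v hv
    obtain ⟨f0, hf0, rfl⟩ := Finset.mem_image.1 hv
    refine le_trans (Finset.card_le_card fun f hf => ?_)
      (freq_fiber (l := l) PP (fun p hp => (hPP p hp).1) (∏ i, f0 i))
    rw [Finset.mem_filter] at hf ⊢
    refine ⟨hf.1, ?_⟩
    have h1 := (hV1 f hf.1).2
    have h2 := (hV1 f0 hf0).2
    rw [hf.2, h2] at h1
    exact_mod_cast h1.symm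
  have hnorm : ∀ v, ‖a v‖ ≤ ((S.filter (fun f => V f = v)).card : ℝ) := by
    intro v
    refine (norm_sum_le _ _).trans (le_of_eq ?_)
    simp [hc1]
  have hsq : ∑ v ∈ S.image V, ‖a v‖ ^ 2 ≤ (l : ℝ) ^ l * (PP.card : ℝ) ^ l := by
    calc ∑ v ∈ S.image V, ‖a v‖ ^ 2
        ≤ ∑ v ∈ S.image V, (l : ℝ) ^ l * ((S.filter (fun f => V f = v)).card : ℝ) := by
          refine Finset.sum_le_sum fun v hv => ?_
          rw [pow_two]
          have h1 : ((S.filter (fun f => V f = v)).card : ℝ) ≤ (l : ℝ) ^ l := by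
            exact_mod_cast hcard v hv
          exact mul_le_mul ((hnorm v).trans h1) (hnorm v) (norm_nonneg _) (by positivity)
      _ = (l : ℝ) ^ l * (S.card : ℝ) := by
          rw [← Finset.mul_sum, Finset.card_eq_sum_card_image V S]
          push_cast
          rfl
      _ = (l : ℝ) ^ l * (PP.card : ℝ) ^ l := by
          rw [hS, Fintype.card_piFinset_const]
          push_cast
          rfl
  -- separation
  have hHr : (0 : ℝ) < H := by exact_mod_cast hH
  have hsep : ∀ v ∈ S.image V, ∀ w ∈ S.image V, v ≠ w → ∀ k : ℤ,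
      1 / (8 * H : ℝ) ≤ |al v - al w - k| := by
    intro v hv w hw hvw k
    obtain ⟨f, hf, rfl⟩ := Finset.mem_image.1 hv
    obtain ⟨g, hg, rfl⟩ := Finset.mem_image.1 hw
    refine freq_sep (hV1 f hf).1 (hV1 g hg).1 (hV3 f hf) (hV3 g hg) H hH (hV2 f hf) (hV2 g hg)
      (fun u hu huv => hvw ?_) k
    refine freq_fact f g (fun i => (hPP _ (hmem f hf i)).1) (fun i => (hPP _ (hmem g hg i)).1) ?_ pi
    have h1 : nm (V f) = nm (V g) := by rw [huv, nm_mul, hu, one_mul]
    rw [(hV1 f hf).2, (hV1 g hg).2] at h1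
    exact_mod_cast h1
  have hls := large_sieve (S.image V) a al (1 / (8 * H : ℝ)) (8 * H) (by positivity) (by
    push_cast
    rw [mul_one_div_cancel (by positivity)]) hsep
  -- lower bound
  have hlow : ∀ m ∈ M, ((PP.card : ℝ) / 2) ^ (2 * l) ≤ ‖∑ v ∈ S.image V, a v * ee (m * al v)‖ ^ 2 := by
    intro m hm
    rw [hsum, norm_pow, ← pow_mul, mul_comm l 2]
    refine pow_le_pow_left₀ (by positivity) ?_ _
    have h1 : ‖∑ p ∈ PP, (s (pi p) : ℂ) * ee (m * al (pi p)) - (PP.card : ℂ)‖ ≤ PP.card / 2 := by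
      have h2 : ∑ p ∈ PP, (s (pi p) : ℂ) * ee (m * al (pi p)) - (PP.card : ℂ)
          = ∑ p ∈ PP, ((s (pi p) : ℂ) * (ee (m * al (pi p)) - s (pi p))) := by
        have h3 : (PP.card : ℂ) = ∑ p ∈ PP, (s (pi p) : ℂ) * s (pi p) := by
          rw [Finset.sum_congr rfl (g := fun _ => (1 : ℂ))]
          · simp
          · intro p _
            rcases hs (pi p) with h | h <;> simp [h]
        rw [h3, ← Finset.sum_sub_distrib]
        exact Finset.sum_congr rfl fun p _ => by ring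
      rw [h2]
      refine (norm_sum_le _ _).trans ?_
      calc ∑ p ∈ PP, ‖(s (pi p) : ℂ) * (ee (m * al (pi p)) - s (pi p))‖ ≤ ∑ p ∈ PP, (1 / 2 : ℝ) := by
            refine Finset.sum_le_sum fun p hp => ?_
            rw [_root_.norm_mul]
            have : ‖(s (pi p) : ℂ)‖ = 1 := by
              rcases hs (pi p) with h | h <;> simp [h]
            rw [this, one_mul]
            exact hM2 m hm p hp
        _ = PP.card / 2 := by
            rw [Finset.sum_const, nsmul_eq_mul]; ring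
    have h2 : ‖(PP.card : ℂ)‖ = PP.card := by simp
    have h3 := norm_sub_norm_le (PP.card : ℂ) (∑ p ∈ PP, (s (pi p) : ℂ) * ee (m * al (pi p)))
    rw [norm_sub_rev, h2] at h3
    linarith only [h1, h3]
  calc (M.card : ℝ) * ((PP.card : ℝ) / 2) ^ (2 * l)
      = ∑ _m ∈ M, ((PP.card : ℝ) / 2) ^ (2 * l) := by rw [Finset.sum_const, nsmul_eq_mul]
    _ ≤ ∑ m ∈ M, ‖∑ v ∈ S.image V, a v * ee (m * al v)‖ ^ 2 := Finset.sum_le_sum hlow
    _ ≤ ∑ m ∈ Finset.Icc (-((8 * H : ℕ) : ℤ)) ((8 * H : ℕ) : ℤ),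
          ‖∑ v ∈ S.image V, a v * ee (m * al v)‖ ^ 2 := by
        refine Finset.sum_le_sum_of_subset_of_nonneg (fun m hm => ?_) fun _ _ _ => by positivity
        rw [Finset.mem_Icc]
        exact abs_le.1 (hM m hm)
    _ ≤ 8 * (8 * H : ℕ) * ∑ v ∈ S.image V, ‖a v‖ ^ 2 := hls
    _ ≤ 8 * (8 * H : ℕ) * ((l : ℝ) ^ l * (PP.card : ℝ) ^ l) :=
        mul_le_mul_of_nonneg_left hsq (by positivity)
    _ = 64 * H * (l ^ l * (PP.card : ℝ) ^ l) := by push_cast; ring

/-- numeric part: the bound for `(4 l) ^ l` -/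
lemma freq_num1 (L LL ly e A : ℝ) (l : ℕ) (he : 0 < e) (hA : 100 / e ≤ A) (he1 : e ≤ 1)
    (hLL : 1 ≤ LL) (hLLdef : LL = Real.log L) (hL : 0 < L) (hbig : A * LL ≤ L)
    (hly : A * LL ≤ ly) (hl : 1 ≤ l) (hll : ((l : ℝ) - 1) * ly ≤ 3 * L) :
    ((4 * l : ℝ)) ^ l ≤ Real.exp (e * L / 25) := by
  have hA100 : 100 ≤ A := by
    refine le_trans ?_ hA
    rw [le_div_iff₀ he]
    linarith only [he1]
  have hA0 : 0 < A := by linarith
  have hALL : 0 < A * LL := by positivity
  have hl0 : (0 : ℝ) < l := by exact_mod_cast hl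
  -- l * (A * LL) ≤ 4 L
  have h1 : (l : ℝ) * (A * LL) ≤ 4 * L := by
    have h2 : ((l : ℝ) - 1) * (A * LL) ≤ 3 * L := by
      refine le_trans ?_ hll
      refine mul_le_mul_of_nonneg_left hly ?_
      have : (1 : ℝ) ≤ l := by exact_mod_cast hl
      linarith
    linarith only [hbig, h2]
  have h3 : (4 * l : ℝ) ≤ L := by
    have : (l : ℝ) * 100 ≤ l * (A * LL) := by
      refine mul_le_mul_of_nonneg_left ?_ hl0.le
      nlinarith only [hLL, hA100]
    linarith
  have h4 : Real.log (4 * l) ≤ LL := by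
    rw [hLLdef]
    exact Real.log_le_log (by positivity) h3
  have h5 : (l : ℝ) * Real.log (4 * l) ≤ e * L / 25 := by
    have h6 : (l : ℝ) * Real.log (4 * l) ≤ l * LL := mul_le_mul_of_nonneg_left h4 hl0.le
    have h7 : (l : ℝ) * LL * A ≤ 4 * L := by linarith
    have h8 : 100 ≤ A * e := by
      rwa [div_le_iff₀ he] at hA
    have h9 : (l : ℝ) * LL * 100 ≤ (l : ℝ) * LL * (A * e) :=
      mul_le_mul_of_nonneg_left h8 (by positivity)
    have h10 : (l : ℝ) * LL * (A * e) ≤ 4 * L * e := by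
      have := mul_le_mul_of_nonneg_right h7 he.le
      linarith
    linarith
  calc ((4 * l : ℝ)) ^ l = Real.exp (l * Real.log (4 * l)) := by
        rw [Real.exp_nat_mul, Real.exp_log (by positivity)]
    _ ≤ _ := Real.exp_le_exp.2 h5

lemma freq_eventually (K : ℝ) : ∀ᶠ x : ℝ in Filter.atTop, K * Real.log x ≤ x := by
  have h := Real.isLittleO_log_id_atTop
  have h2 := h.def (c := 1 / (|K| + 1)) (by positivity)
  filter_upwards [h2, Filter.eventually_ge_atTop 1] with x hx hx1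
  have h3 : 0 ≤ Real.log x := Real.log_nonneg hx1
  rw [Real.norm_of_nonneg h3, id, Real.norm_of_nonneg (by linarith : (0 : ℝ) ≤ x)] at hx
  have h4 : (|K| + 1) * Real.log x ≤ x := by
    have := mul_le_mul_of_nonneg_left hx (by positivity : (0 : ℝ) ≤ |K| + 1)
    rwa [← mul_assoc, mul_one_div_cancel (by positivity), one_mul] at this
  have h5 : K * Real.log x ≤ (|K| + 1) * Real.log x :=
    mul_le_mul_of_nonneg_right ((le_abs_self K).trans (by linarith)) h3
  linarith

theorem freq (ε : ℝ) (hε : 0 < ε) : ∃ C N0 : ℕ, ∀ N : ℕ, N0 ≤ N → ∃ U : Finset (ℤ√2),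
    ((U.card : ℝ) ≤ (Real.log N) ^ C) ∧
    (∀ u ∈ U, TP u ∧ (nm u : ℝ) ≤ (Real.log N) ^ C ∧ u.re % 2 = 1) ∧
    ∀ s : ℤ√2 → ℝ, (∀ u, s u = 1 ∨ s u = -1) → ∀ M : Finset ℤ,
      (∀ m ∈ M, |m| ≤ (N : ℤ) ^ 3) → (∀ m ∈ M, ∀ u ∈ U, ‖ee (m * al u) - s u‖ ≤ 1 / 2) →
      (M.card : ℝ) ≤ (N : ℝ) ^ ε := by
  classical
  set e : ℝ := min ε 1 with he_def
  have he : 0 < e := lt_min hε one_pos
  have he1 : e ≤ 1 := min_le_right _ _
  have heε : e ≤ ε := min_le_left _ _
  set A : ℕ := ⌈100 / e⌉₊ with hA_def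
  have hA : 100 / e ≤ (A : ℝ) := Nat.le_ceil _
  have hA1 : 1 ≤ A := by
    rw [hA_def]
    exact Nat.one_le_iff_ne_zero.2 (Nat.ceil_pos.2 (by positivity)).ne'
  obtain ⟨C1, Y0, hmp⟩ := many_primes (e / 100) (by positivity)
  -- the prime elements
  have hex : ∀ p : ℕ, ∃ z : ℤ√2, p.Prime → p % 8 = 1 → TP z ∧ nm z = p := by
    intro p
    by_cases h1 : p.Prime
    · by_cases h2 : p % 8 = 1
      · obtain ⟨z, hz⟩ := exists_elt p h1 h2
        exact ⟨z, fun _ _ => hz⟩
      · exact ⟨0, fun _ h => absurd h h2⟩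
    · exact ⟨0, fun h => absurd h h1⟩
  choose pi hpi using hex
  -- large N
  have hev : ∀ᶠ L : ℝ in Filter.atTop, (A : ℝ) * Real.log L ≤ L ∧
      (10 * ((A + 1) * C1 : ℝ) / e) * Real.log L ≤ L ∧ Real.exp 1 ≤ L ∧ (Y0 : ℝ) ≤ L ∧ 2 ≤ L ∧
      10 * Real.log 64 / e ≤ L :=
    (freq_eventually _).and ((freq_eventually _).and ((Filter.eventually_ge_atTop _).and
      ((Filter.eventually_ge_atTop _).and ((Filter.eventually_ge_atTop _).and
        (Filter.eventually_ge_atTop _)))))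
  have hlog : Filter.Tendsto (fun N : ℕ => Real.log (N : ℝ)) Filter.atTop Filter.atTop :=
    Real.tendsto_log_atTop.comp tendsto_natCast_atTop_atTop
  obtain ⟨N0, hN0⟩ := Filter.eventually_atTop.1 (hlog.eventually hev)
  refine ⟨(A + 1) * C1 + 1, max N0 2, fun N hN => ?_⟩
  obtain ⟨hL1, hL2, hL3, hL4, hL5, hL6⟩ := hN0 N ((le_max_left _ _).trans hN)
  have hN2 : 2 ≤ N := (le_max_right _ _).trans hN
  set L := Real.log (N : ℝ) with hL_def
  have hL0 : 0 < L := by linarith only [hL5]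
  have hNr : (0 : ℝ) < N := by exact_mod_cast (by omega : 0 < N)
  have hNexp : (N : ℝ) = Real.exp L := by rw [hL_def, Real.exp_log hNr]
  set LL := Real.log L with hLL_def
  have hLL1 : 1 ≤ LL := by
    rw [hLL_def, Real.le_log_iff_exp_le hL0]
    exact hL3
  -- y
  set Y : ℕ := ⌈L ^ A⌉₊ with hY_def
  have hLA : L ≤ L ^ A := le_self_pow₀ (by linarith only [hL5]) (by omega)
  have hYL : L ^ A ≤ (Y : ℝ) := Nat.le_ceil _
  have hYY0 : Y0 ≤ Y := by
    have : (Y0 : ℝ) ≤ Y := by linarith only [hL4, hLA, hYL]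
    exact_mod_cast this
  have hYup : (Y : ℝ) ≤ L ^ (A + 1) := by
    have h1 : (Y : ℝ) < L ^ A + 1 := Nat.ceil_lt_add_one (by positivity)
    have h2 : L ^ (A + 1) = L ^ A * L := pow_succ _ _
    rw [h2]
    have h3 : L ^ A * 2 ≤ L ^ A * L := mul_le_mul_of_nonneg_left hL5 (by positivity)
    linarith
  obtain ⟨y, hYy, hyY, hPPc⟩ := hmp Y hYY0
  set PP := (Finset.range (y + 1)).filter (fun p => p.Prime ∧ p % 8 = 1) with hPP_def
  have hPP : ∀ p ∈ PP, p.Prime ∧ p % 8 = 1 := fun p hp => (Finset.mem_filter.1 hp).2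
  have hPPy : ∀ p ∈ PP, p ≤ y := fun p hp => by
    have := (Finset.mem_range.1 (Finset.mem_filter.1 hp).1); omega
  have hyr : (Y : ℝ) ≤ y := by exact_mod_cast hYy
  have hy2 : (2 : ℝ) ≤ y := by linarith only [hL5, hLA, hYL, hyr]
  have hy2' : 2 ≤ y := by exact_mod_cast hy2
  have hy0 : (0 : ℝ) < y := by linarith only [hy2]
  have hyup : (y : ℝ) ≤ L ^ ((A + 1) * C1) := by
    calc (y : ℝ) ≤ (Y : ℝ) ^ C1 := by exact_mod_cast hyY
      _ ≤ (L ^ (A + 1)) ^ C1 := pow_le_pow_left₀ (Nat.cast_nonneg _) hYup _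
      _ = _ := by rw [← pow_mul]
  have hyup2 : (y : ℝ) + 1 ≤ L ^ ((A + 1) * C1 + 1) := by
    rw [pow_succ]
    have h3 : L ^ ((A + 1) * C1) * 2 ≤ L ^ ((A + 1) * C1) * L :=
      mul_le_mul_of_nonneg_left hL5 (by positivity)
    linarith only [hy2, hyup, h3]
  refine ⟨PP.image pi, ?_, ?_, ?_⟩
  · refine le_trans ?_ hyup2
    have h1 : (PP.image pi).card ≤ y + 1 := by
      refine Finset.card_image_le.trans ?_
      refine (Finset.card_filter_le _ _).trans ?_
      rw [Finset.card_range]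
    exact_mod_cast h1
  · intro u hu
    obtain ⟨p, hp, rfl⟩ := Finset.mem_image.1 hu
    obtain ⟨h1, h2⟩ := hpi p (hPP p hp).1 (hPP p hp).2
    refine ⟨h1, ?_, ?_⟩
    · rw [h2]
      have : (p : ℝ) ≤ y := by exact_mod_cast hPPy p hp
      push_cast
      linarith only [hyup2, this]
    · have h3 : ((pi p).re ^ 2 - 2 * (pi p).im ^ 2) = (p : ℤ) := h2
      have h4 : p % 8 = 1 := (hPP p hp).2
      rcases Int.emod_two_eq_zero_or_one (pi p).re with h5 | h5
      · exfalso
        obtain ⟨t, ht⟩ : ∃ t, (pi p).re = 2 * t := ⟨(pi p).re / 2, by omega⟩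
        rw [ht] at h3
        have h6 : (p : ℤ) = 2 * (2 * t ^ 2 - (pi p).im ^ 2) := by rw [← h3]; ring
        omega
      · exact h5
  · intro s hs M hM hM2
    -- exponents
    set l : ℕ := Nat.clog y (N ^ 3) with hl_def
    have hN3 : 1 < N ^ 3 := Nat.one_lt_pow (by norm_num) (by omega)
    have hl1 : N ^ 3 ≤ y ^ l := Nat.le_pow_clog (by omega) _
    have hl2 : y ^ (l - 1) < N ^ 3 := by
      have := Nat.pow_pred_clog_lt_self (b := y) (by omega) hN3
      simpa [Nat.pred_eq_sub_one] using this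
    have hl3 : 1 ≤ l := Nat.one_le_iff_ne_zero.2 (by
      intro h
      rw [h] at hl1
      simp at hl1
      omega)
    set H : ℕ := y * N ^ 3 with hH_def
    have hH1 : 1 ≤ H := Nat.mul_pos (by omega) (by omega)
    have hyH : y ^ l ≤ H := by
      obtain ⟨k, hk⟩ : ∃ k, l = k + 1 := ⟨l - 1, by omega⟩
      rw [hk, Nat.add_sub_cancel] at hl2
      rw [hk, pow_succ, mul_comm, hH_def]
      exact Nat.mul_le_mul_left _ hl2.le
    have hcore := freq_core PP hPP pi hpi y l H hPPy hH1 hyH s hs M (by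
      intro m hm
      refine (hM m hm).trans ?_
      have : N ^ 3 ≤ 8 * H := by
        rw [hH_def]
        linarith only [hl1, hH_def, hyH]
      exact_mod_cast this) (fun m hm p hp => hM2 m hm _ (Finset.mem_image_of_mem _ hp))
    -- logarithms
    have hly : (A : ℝ) * LL ≤ Real.log y := by
      have h1 : Real.log (L ^ A) ≤ Real.log y := Real.log_le_log (by positivity) (hYL.trans hyr)
      rwa [Real.log_pow] at h1
    have hll : ((l : ℝ) - 1) * Real.log y ≤ 3 * L := by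
      have h1 : ((y : ℝ)) ^ (l - 1) ≤ (N : ℝ) ^ 3 := by exact_mod_cast hl2.le
      have h2 := Real.log_le_log (by positivity) h1
      rw [Real.log_pow, Real.log_pow] at h2
      rw [Nat.cast_sub hl3] at h2
      push_cast at h2
      exact h2
    have h4l := freq_num1 L LL (Real.log y) e A l he hA he1 hLL1 rfl hL0 hL1 hly hl3 hll
    -- the size of PP
    set P : ℝ := (PP.card : ℝ) with hP_def
    have hP0 : 0 < P := lt_of_lt_of_le (Real.rpow_pos_of_pos hy0 _) hPPc
    have hPl : Real.exp ((3 - 3 * e / 100) * L) ≤ P ^ l := by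
      calc Real.exp ((3 - 3 * e / 100) * L) = ((N : ℝ) ^ 3) ^ (1 - e / 100) := by
            rw [hNexp, ← Real.exp_nat_mul, ← Real.exp_mul]
            congr 1
            push_cast
            ring
        _ ≤ ((y : ℝ) ^ l) ^ (1 - e / 100) := by
            refine Real.rpow_le_rpow (by positivity) ?_ (by linarith only [he1])
            exact_mod_cast hl1
        _ = ((y : ℝ) ^ (1 - e / 100)) ^ l := by
            rw [← Real.rpow_natCast, ← Real.rpow_natCast, ← Real.rpow_mul hy0.le,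
              ← Real.rpow_mul hy0.le, mul_comm]
        _ ≤ P ^ l := pow_le_pow_left₀ (by positivity) hPPc _
    -- the size of y
    have hyexp : (y : ℝ) ≤ Real.exp (e * L / 10) := by
      refine hyup.trans ?_
      have h1 : L ^ ((A + 1) * C1) = Real.exp (((A + 1) * C1 : ℕ) * LL) := by
        rw [Real.exp_nat_mul, hLL_def, Real.exp_log hL0]
      rw [h1]
      refine Real.exp_le_exp.2 ?_
      push_cast
      rw [div_mul_eq_mul_div, div_le_iff₀ he] at hL2
      linarith only [hL2]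
    have h64 : (64 : ℝ) ≤ Real.exp (e * L / 10) := by
      have h1 : (64 : ℝ) = Real.exp (Real.log 64) := (Real.exp_log (by norm_num)).symm
      rw [h1]
      refine Real.exp_le_exp.2 ?_
      rw [div_le_iff₀ he] at hL6
      linarith only [hL6]
    -- conclusion
    have hfin : (M.card : ℝ) * P ^ l ≤ 64 * H * (4 * l : ℝ) ^ l := by
      have h1 : (P / 2) ^ (2 * l) = P ^ l * P ^ l / 4 ^ l := by
        rw [pow_mul, ← mul_pow, ← div_pow]
        congr 1
        ring
      rw [h1] at hcore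
      have h2 : (M.card : ℝ) * (P ^ l * P ^ l / 4 ^ l) = ((M.card : ℝ) * P ^ l) * (P ^ l / 4 ^ l) := by
        ring
      have h3 : 64 * (H : ℝ) * ((l : ℝ) ^ l * P ^ l)
          = (64 * H * (4 * l : ℝ) ^ l) * (P ^ l / 4 ^ l) := by
        have h4 : (4 : ℝ) ^ l ≠ 0 := by positivity
        rw [mul_pow, show (64 * (H : ℝ) * ((4 : ℝ) ^ l * (l : ℝ) ^ l)) * (P ^ l / 4 ^ l)
          = 64 * (H : ℝ) * ((l : ℝ) ^ l * P ^ l) * ((4 : ℝ) ^ l / 4 ^ l) by ring, div_self h4, mul_one]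
      rw [h2, h3] at hcore
      exact le_of_mul_le_mul_right hcore (div_pos (pow_pos hP0 _) (pow_pos (by norm_num) _))
    have hH' : (H : ℝ) = y * Real.exp (3 * L) := by
      rw [hH_def]
      push_cast
      rw [hNexp, ← Real.exp_nat_mul]
      norm_num
    have h5 : (M.card : ℝ) * Real.exp ((3 - 3 * e / 100) * L) ≤
        Real.exp (e * L / 10) * (Real.exp (e * L / 10) * Real.exp (3 * L)) *
          Real.exp (e * L / 25) := by
      calc (M.card : ℝ) * Real.exp ((3 - 3 * e / 100) * L) ≤ (M.card : ℝ) * P ^ l :=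
            mul_le_mul_of_nonneg_left hPl (Nat.cast_nonneg _)
        _ ≤ 64 * H * (4 * l : ℝ) ^ l := hfin
        _ ≤ _ := by
            rw [hH']
            gcongr
    rw [← Real.exp_add, ← Real.exp_add, ← Real.exp_add] at h5
    have h6 : (M.card : ℝ) ≤ Real.exp (e * L / 10 + (e * L / 10 + 3 * L) + e * L / 25 -
        (3 - 3 * e / 100) * L) := by
      rw [Real.exp_sub, le_div_iff₀ (Real.exp_pos _)]
      exact h5
    refine h6.trans ?_
    rw [hNexp, ← Real.exp_mul]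
    refine Real.exp_le_exp.2 ?_
    linarith only [mul_pos he hL0, mul_le_mul_of_nonneg_right heε hL0.le]

end

end Pool.Agent.Lib.MP_0b748d_nt
end
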