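import Pool.Agent.Lib.MP_0b748d_nt.Chain
import Pool.Agent.Lib.MP_0b748d_nt.P.Counting
import Pool.Agent.Lib.MP_0b748d_nt.P.FourierCore
import Pool.Agent.Lib.MP_0b748d_nt.P.NearOrth
import Pool.Agent.Lib.MP_0b748d_nt.P.Freq
import Pool.Agent.Lib.MP_0b748d_nt.P.MomentGen

section

set_option autoImplicit false

/-!
# The sign function on the circle of angles, and the contradiction
-/

namespace Pool.Agent.Lib.MP_0b748d_nt

open Zsqrtd

noncomputable section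

variable {g : ℕ → ℤ}

open Classical in
/-- the sign of an element as a real number -/
def tS (g : ℕ → ℤ) (u : ℤ√2) : ℝ := if F g u = -1 then -1 else 1

lemma tS_val (g : ℕ → ℤ) (u : ℤ√2) : tS g u = 1 ∨ tS g u = -1 := by
  simp only [tS]
  split_ifs <;> simp

lemma tS_mul (hg : CM g) {z w : ℤ√2} (hz : TP z) (hw : TP w) :
    tS g (z * w) = tS g z * tS g w := by
  simp only [tS, F_mul hg hz hw]
  rcases F_val hg hz with h1 | h1 <;> rcases F_val hg hw with h2 | h2 <;>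
    rw [h1, h2] <;> norm_num

/-- there is a totally positive element with sign `-1` close to the angle -/
def NegAt (g : ℕ → ℤ) (c : Bool) (N Y' : ℕ) (x : ℝ) : Prop :=
  ∃ z, TP z ∧ Q c z ∧ nm z ≤ N ∧ |th z - th uu * x| ≤ 1 / (4 * Y' : ℝ) ∧ F g z = -1

open Classical in
/-- the sign function on the circle -/
def sgn (g : ℕ → ℤ) (c : Bool) (N Y' : ℕ) (x : ℝ) : ℝ := if NegAt g c N Y' x then -1 else 1

lemma sgn_val (g : ℕ → ℤ) (c : Bool) (N Y' : ℕ) (x : ℝ) :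
    sgn g c N Y' x = 1 ∨ sgn g c N Y' x = -1 := by
  simp only [sgn]
  split_ifs <;> simp

lemma sgn_per (g : ℕ → ℤ) (c : Bool) (N Y' : ℕ) (x : ℝ) :
    sgn g c N Y' (x + 1) = sgn g c N Y' x := by
  have h : NegAt g c N Y' (x + 1) ↔ NegAt g c N Y' x := by
    constructor
    · rintro ⟨z, h1, h2, h3, h4, h5⟩
      refine ⟨star uu * z, TP_uu.star.mul h1, Q_uu' c z h2, ?_, ?_, ?_⟩
      · rw [nm_mul, nm_star, nm_uu, one_mul]; exact h3
      · rw [th_mul TP_uu.star h1, th_star]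
        have e : -th uu + th z - th uu * x = th z - th uu * (x + 1) := by ring
        rw [e]; exact h4
      · rw [← h5]; simp only [F, nm_mul, nm_star, nm_uu, one_mul]
    · rintro ⟨z, h1, h2, h3, h4, h5⟩
      refine ⟨uu * z, TP_uu.mul h1, Q_uu c z h2, ?_, ?_, ?_⟩
      · rw [nm_mul, nm_uu, one_mul]; exact h3
      · rw [th_mul TP_uu h1]
        have e : th uu + th z - th uu * (x + 1) = th z - th uu * x := by ring
        rw [e]; exact h4
      · rw [← h5]; simp only [F, nm_mul, nm_uu, one_mul]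
  have h2 : NegAt g c N Y' (x + 1) = NegAt g c N Y' x := propext h
  simp only [sgn]
  rw [h2]

lemma sgn_eq {c : Bool} {N Z Y' : ℕ} {x : ℝ} (hG : Gd g c N Z (1 / (4 * Y' : ℝ)) (th uu * x))
    {z : ℤ√2} (h1 : TP z) (h2 : Q c z) (h3 : nm z ≤ N)
    (h4 : |th z - th uu * x| ≤ 1 / (4 * Y' : ℝ)) : sgn g c N Y' x = tS g z := by
  simp only [sgn, tS]
  by_cases h5 : F g z = -1
  · rw [if_pos h5, if_pos ⟨z, h1, h2, h3, h4, h5⟩]
  · rw [if_neg h5, if_neg]
    rintro ⟨w, w1, w2, w3, w4, w5⟩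
    exact h5 ((hG.1 z w h1 w1 h2 w2 h3 w3 h4 w4).trans w5)

lemma Safe_self {c : Bool} {N Z Y' : ℕ} {x : ℝ} (h : Safe g c N Z Y' x) :
    Gd g c N Z (1 / (4 * Y' : ℝ)) (th uu * x) := by
  apply h
  rw [sub_self, abs_zero]
  positivity

lemma Q_mul {c : Bool} {z w : ℤ√2} (hz : Q c z) (hw : Q c w) : Q c (z * w) := by
  intro hc
  have h1 := hz hc
  have h2 := hw hc
  rw [re_mul]
  have h3 : z.re * w.re % 2 = 1 := by
    rw [Int.mul_emod, h1, h2]; norm_num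
  have h4 : 2 * z.im * w.im = 2 * (z.im * w.im) := by ring
  rw [h4]
  omega

open Classical in
theorem contra (hg : CM g) (c : Bool) (N Z Y' B j r : ℕ) (b : ℝ) (U : Finset (ℤ√2))
    (hN : 1000 ≤ N) (hB : 1 ≤ B) (hY' : 1 ≤ Y') (hY'N : 16 * Y' ≤ N)
    (hZN : Z ≤ N) (hBN : (32 * B) ^ 4 ≤ N)
    (hj : 2 ≤ j) (hjc : j % 2 = par c) (hgj : g (j ^ 2 - 2) = -1) (hjZ : j ^ 2 * Z ≤ N)
    (hU1 : ∀ u ∈ U, TP u ∧ nm u * Z ≤ N ∧ u.re % 2 = 1)
    (hU2 : ∀ M : Finset ℤ, (∀ m ∈ M, |m| < ((N ^ 3 : ℕ) : ℤ)) →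
      (∀ m ∈ M, ∀ u ∈ U, ‖ee (m * al u) - tS g u‖ ≤ 1 / 16) →
      ∑ m ∈ M, ‖(∑ p ∈ bx B, (tS g (zz p) : ℂ) * ee (m * al (zz p))) / ((bx B).card : ℂ)‖ ^ 2 ≤
        13 / 10)
    (hb : 0 ≤ b)
    (H4 : ∀ τ : ℝ, (((bx B ×ˢ bx B).filter
      (fun p => ¬ Safe g c N Z Y' (al (zz p.1) + al (zz p.2) + τ))).card : ℝ) ≤
      b * ((bx B).card : ℝ) ^ 2)
    (hr : 2048 * ((U.card : ℝ) + 1) * (3 * Real.log N) ≤ r)
    (hsmall : (r : ℝ) * (b + 1 / N) ≤ 1 / 100) : False := by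
  have hNR : (1000 : ℝ) ≤ N := by exact_mod_cast hN
  have hN0 : (0 : ℝ) < N := by linarith
  have hP := th_uu_pos
  have hP2 := th_uu_le
  have hYR' : (1 : ℝ) ≤ Y' := by exact_mod_cast hY'
  have hYN : (16 : ℝ) * Y' ≤ N := by exact_mod_cast hY'N
  have hη : th uu * (1 / (N : ℝ)) ≤ 1 / (4 * Y' : ℝ) / 2 := by
    calc th uu * (1 / (N : ℝ)) ≤ 2 * (1 / (16 * Y' : ℝ)) := by gcongr
      _ = 1 / (4 * Y' : ℝ) / 2 := by ring
  have hη2 : (1 / (4 * Y' : ℝ)) / 2 ≤ 1 / (4 * Y' : ℝ) := by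
    have : (0 : ℝ) ≤ 1 / (4 * Y' : ℝ) := by positivity
    linarith
  have hPal : ∀ z : ℤ√2, th uu * al z = th z := by
    intro z
    simp only [al]
    field_simp
  have hF : F g (tx j) = -1 := by
    simp only [F, nm_tx]
    have h4 : 4 ≤ j ^ 2 := by nlinarith
    have e : ((j : ℤ) ^ 2 - 2).toNat = j ^ 2 - 2 := by
      have : ((j : ℤ) ^ 2 - 2) = ((j ^ 2 - 2 : ℕ) : ℤ) := by
        push_cast [show 2 ≤ j ^ 2 by omega]
        ring
      rw [this, Int.toNat_natCast]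
    rw [e, hgj]
  have hQU : ∀ u ∈ insert (tx j) U, TP u ∧ nm u * Z ≤ N ∧ Q c u := by
    intro u hu
    rw [Finset.mem_insert] at hu
    rcases hu with rfl | hu
    · refine ⟨TP_tx hj, ?_, ?_⟩
      · rw [nm_tx]
        have h1 : ((j : ℤ) ^ 2) * Z ≤ N := by exact_mod_cast hjZ
        have h2 : (0 : ℤ) ≤ Z := by positivity
        nlinarith
      · intro hc
        rw [hc] at hjc
        simp only [par, if_true] at hjc
        simp only [tx]
        omega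
    · obtain ⟨h1, h2, h3⟩ := hU1 u hu
      exact ⟨h1, h2, fun _ => h3⟩
  have hcard : (bx B).Nonempty := by
    refine ⟨(8 * B, B), ?_⟩
    rw [mem_bx]
    simp only
    omega
  refine fourier_core (bx B) hcard (fun p => al (zz p)) (fun p => tS g (zz p))
    (fun p => tS_val g _) (insert (tx j) U) al (tS g) (tS_val g) (tx j) (Finset.mem_insert_self _ _)
    ?_ (sgn g c N Y') (sgn_val g c N Y') (sgn_per g c N Y') (Safe g c N Z Y') (N ^ 3) r
    (1 / (N : ℝ)) b (by positivity) hb ?_ ?_ ?_ ?_ H4 ?_ ?_ ?_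
  · simp only [tS, hF, if_true]
  · calc 100 ≤ 1000 := by norm_num
      _ ≤ N := hN
      _ = N ^ 1 := (pow_one N).symm
      _ ≤ N ^ 3 := Nat.pow_le_pow_right (by omega) (by norm_num)
  · intro x hx x' hx'
    have hG := Safe_self hx
    have hG' := hx x' hx'
    obtain ⟨z, z1, z2, z3, z4⟩ := hG.2
    have hzN : nm z ≤ N := by
      have : (Z : ℤ) ≤ N := by exact_mod_cast hZN
      omega
    rw [sgn_eq hG z1 z2 hzN (z4.trans hη2)]
    apply sgn_eq hG' z1 z2 hzN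
    have h1 : |th uu * x - th uu * x'| ≤ th uu * (1 / (N : ℝ)) := by
      rw [← mul_sub, abs_mul, abs_of_pos hP]
      rw [abs_sub_comm] at hx'
      gcongr
    calc |th z - th uu * x'| = |(th z - th uu * x) + (th uu * x - th uu * x')| := by
          congr 1; ring
      _ ≤ |th z - th uu * x| + |th uu * x - th uu * x'| := abs_add_le _ _
      _ ≤ 1 / (4 * Y' : ℝ) / 2 + 1 / (4 * Y' : ℝ) / 2 := add_le_add z4 (h1.trans hη)
      _ = _ := by ring
  · intro x u hu hx hxu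
    have hG := Safe_self hx
    have hG' := Safe_self hxu
    obtain ⟨z, z1, z2, z3, z4⟩ := hG.2
    obtain ⟨u1, u2, u3⟩ := hQU u hu
    have hzN : nm z ≤ N := by
      have : (Z : ℤ) ≤ N := by exact_mod_cast hZN
      omega
    rw [sgn_eq hG z1 z2 hzN (z4.trans hη2), ← tS_mul hg u1 z1]
    apply sgn_eq hG' (u1.mul z1) (Q_mul u3 z2)
    · rw [nm_mul]
      refine le_trans ?_ u2
      exact mul_le_mul_of_nonneg_left z3 u1.nm_pos.le
    · rw [th_mul u1 z1, mul_add, hPal]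
      have e : th u + th z - (th uu * x + th u) = th z - th uu * x := by ring
      rw [e]
      exact z4.trans hη2
  · intro p hp q hq hs
    have hG := Safe_self hs
    have hT := TP_zz hp
    have hT' := TP_zz hq
    rw [← tS_mul hg hT hT']
    apply sgn_eq hG (hT.mul hT')
    · apply Q_mul
      · intro _; simp only [zz]; omega
      · intro _; simp only [zz]; omega
    · rw [nm_mul]
      have a1 := nm_zz hp
      have a2 := nm_zz hq
      have a4 := hT'.nm_pos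
      calc nm (zz p) * nm (zz q) ≤ (((32 * B) ^ 2 : ℕ) : ℤ) * (((32 * B) ^ 2 : ℕ) : ℤ) :=
            mul_le_mul a1 a2 a4.le (by positivity)
        _ = (((32 * B) ^ 4 : ℕ) : ℤ) := by push_cast; ring
        _ ≤ N := by exact_mod_cast hBN
    · rw [th_mul hT hT', mul_add, hPal, hPal, sub_self, abs_zero]
      positivity
  · intro M hM1 hM2
    exact hU2 M hM1 (fun m hm u hu => hM2 m hm u (Finset.mem_insert_of_mem hu))
  · refine le_trans ?_ hr
    have h1 : ((insert (tx j) U).card : ℝ) ≤ U.card + 1 := by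
      exact_mod_cast Finset.card_insert_le (tx j) U
    have h2 : Real.log ((N ^ 3 : ℕ) : ℝ) = 3 * Real.log N := by
      push_cast
      rw [Real.log_pow]
      push_cast
      ring
    rw [h2]
    have h3 : 0 ≤ Real.log N := Real.log_nonneg (by linarith)
    gcongr
  · have e : (((N ^ 3 : ℕ) : ℝ) * (1 / (N : ℝ)) ^ 2) = N := by
      push_cast
      field_simp
    rw [e]
    exact hsmall

end

end Pool.Agent.Lib.MP_0b748d_nt
end

section

set_option autoImplicit false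

/-!
# Near orthogonality on the surviving frequencies
-/

namespace Pool.Agent.Lib.MP_0b748d_nt

open Zsqrtd

noncomputable section

lemma nearfin_pow (ε δ : ℝ) (hδ : 0 < δ) (hε : ε = δ / 8) :
    ∀ᶠ N : ℕ in Filter.atTop, ∀ B : ℕ, N ≤ (64 * B) ^ 4 →
      (N : ℝ) ^ ε * (B : ℝ) ^ (-δ) ≤ 1 / 10 := by
  have h1 : Filter.Tendsto (fun N : ℕ => (N : ℝ) ^ (-(δ / 8))) Filter.atTop (nhds 0) :=
    (tendsto_rpow_neg_atTop (by positivity)).comp tendsto_natCast_atTop_atTop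
  have h2 : Filter.Tendsto (fun N : ℕ => (64 : ℝ) ^ δ * (N : ℝ) ^ (-(δ / 8))) Filter.atTop
      (nhds 0) := by
    simpa using h1.const_mul ((64 : ℝ) ^ δ)
  have h3 := h2.eventually_lt_const (show (0 : ℝ) < 1 / 10 by norm_num)
  filter_upwards [h3, Filter.eventually_ge_atTop 1] with N h4 hN1 B hB
  have hNR : (1 : ℝ) ≤ N := by exact_mod_cast hN1
  have hN0 : (0 : ℝ) < N := by linarith
  have hBR : (N : ℝ) ≤ (64 * (B : ℝ)) ^ 4 := by exact_mod_cast hB
  have hB0 : (0 : ℝ) < B := by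
    rcases Nat.eq_zero_or_pos B with h | h
    · subst h
      norm_num at hBR
      linarith
    · exact_mod_cast h
  refine le_trans ?_ h4.le
  have e1 : (N : ℝ) ^ (1 / 4 : ℝ) ≤ 64 * B := by
    calc (N : ℝ) ^ (1 / 4 : ℝ) ≤ ((64 * (B : ℝ)) ^ 4) ^ (1 / 4 : ℝ) := by gcongr
      _ = 64 * B := by
        rw [← Real.rpow_natCast, ← Real.rpow_mul (by positivity)]
        norm_num
  have e2 : (64 * (B : ℝ)) ^ (-δ) ≤ ((N : ℝ) ^ (1 / 4 : ℝ)) ^ (-δ) :=
    Real.rpow_le_rpow_of_nonpos (by positivity) e1 (by linarith)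
  have e3 : ((N : ℝ) ^ (1 / 4 : ℝ)) ^ (-δ) = (N : ℝ) ^ (-(δ / 4)) := by
    rw [← Real.rpow_mul hN0.le]
    congr 1
    ring
  have e4 : (64 * (B : ℝ)) ^ (-δ) = (64 : ℝ) ^ (-δ) * (B : ℝ) ^ (-δ) :=
    Real.mul_rpow (by norm_num) hB0.le
  have e5 : (64 : ℝ) ^ δ * (64 : ℝ) ^ (-δ) = 1 := by
    rw [← Real.rpow_add (by norm_num)]
    simp
  have e6 : (B : ℝ) ^ (-δ) ≤ (64 : ℝ) ^ δ * (N : ℝ) ^ (-(δ / 4)) := by
    rw [e3, e4] at e2
    calc (B : ℝ) ^ (-δ) = (64 : ℝ) ^ δ * ((64 : ℝ) ^ (-δ) * (B : ℝ) ^ (-δ)) := by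
          rw [← mul_assoc, e5, one_mul]
      _ ≤ _ := by gcongr
  calc (N : ℝ) ^ ε * (B : ℝ) ^ (-δ) ≤ (N : ℝ) ^ ε * ((64 : ℝ) ^ δ * (N : ℝ) ^ (-(δ / 4))) := by
        gcongr
    _ = (64 : ℝ) ^ δ * ((N : ℝ) ^ ε * (N : ℝ) ^ (-(δ / 4))) := by ring
    _ = (64 : ℝ) ^ δ * (N : ℝ) ^ (-(δ / 8)) := by
        rw [← Real.rpow_add hN0, hε]
        congr 2
        ring
    _ ≤ _ := le_rfl

theorem near_orth_final : ∃ C N0 : ℕ, ∀ N : ℕ, N0 ≤ N → ∃ U : Finset (ℤ√2),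
    ((U.card : ℝ) ≤ (Real.log N) ^ C) ∧
    (∀ u ∈ U, TP u ∧ (nm u : ℝ) ≤ (Real.log N) ^ C ∧ u.re % 2 = 1) ∧
    ∀ t : ℤ√2 → ℝ, (∀ u, t u = 1 ∨ t u = -1) → ∀ B : ℕ, N ≤ (64 * B) ^ 4 →
      ∀ M : Finset ℤ, (∀ m ∈ M, |m| < ((N ^ 3 : ℕ) : ℤ)) →
      (∀ m ∈ M, ∀ u ∈ U, ‖ee (m * al u) - t u‖ ≤ 1 / 16) →
      ∑ m ∈ M, ‖(∑ p ∈ bx B, (t (zz p) : ℂ) * ee (m * al (zz p))) / ((bx B).card : ℂ)‖ ^ 2 ≤
        13 / 10 := by
  obtain ⟨C1, δ, hC1, hδ, B0, hexp⟩ := expsum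
  obtain ⟨C2, N2, hfreq⟩ := freq (δ / 8) (by positivity)
  have hlog : Filter.Tendsto (fun N : ℕ => Real.log N) Filter.atTop Filter.atTop :=
    Real.tendsto_log_atTop.comp tendsto_natCast_atTop_atTop
  have f1 := nearfin_pow (δ / 8) δ hδ rfl
  have f2 := hlog.eventually_ge_atTop (1100 * C1 + 20)
  obtain ⟨N3, hN3⟩ := Filter.eventually_atTop.1 (f1.and f2)
  obtain ⟨K0, hK0⟩ : ∃ K0 : ℕ, K0 = 2 * 64 ^ 12 := ⟨_, rfl⟩
  have hK0R : (K0 : ℝ) = 2 * 64 ^ 12 := by rw [hK0]; push_cast; ring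
  have hK0pos : 1 ≤ K0 := by rw [hK0]; norm_num
  clear hK0
  refine ⟨C2 + 5, max (max N2 N3) (max ((64 * (B0 + 1)) ^ 4) ((64 * K0) ^ 4)), ?_⟩
  intro N hN
  obtain ⟨a1, a2⟩ := hN3 N (le_trans (le_trans (le_max_right _ _) (le_max_left _ _)) hN)
  have hb1 : (64 * (B0 + 1)) ^ 4 ≤ N := le_trans (le_trans (le_max_left _ _) (le_max_right _ _)) hN
  have hb2 : (64 * K0) ^ 4 ≤ N :=
    le_trans (le_trans (le_max_right _ _) (le_max_right _ _)) hN
  obtain ⟨U1, hU1, hU2, hU3⟩ := hfreq N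
    (le_trans (le_trans (le_max_left _ _) (le_max_left _ _)) hN)
  clear hN
  set L := Real.log N with hL
  have hL20 : 20 ≤ L := by linarith
  have hL1 : 1 ≤ L := by linarith
  set S : ℕ := ⌈100 * C1 * L⌉₊ with hS
  have hS1 : 100 * C1 * L ≤ S := Nat.le_ceil _
  have hS2 : (S : ℝ) < 100 * C1 * L + 1 := Nat.ceil_lt_add_one (by positivity)
  have hSpos : 1 ≤ S := by
    have : (1 : ℝ) ≤ S := by nlinarith only [hC1, hL1, hS1]
    exact_mod_cast this
  set X : ℕ := 10 * S with hX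
  have hXL : (X : ℝ) + 1 ≤ L ^ 2 := by
    rw [hX]
    push_cast
    nlinarith only [a2, hL1, hS2]
  have hLpow : ∀ a b : ℕ, a ≤ b → L ^ a ≤ L ^ b := fun a b hab => pow_le_pow_right₀ hL1 hab
  set U2 : Finset (ℤ√2) := ((Finset.Icc 3 X).filter (fun x => x % 2 = 1)).image tx with hU2def
  have hU2card : (U2.card : ℝ) ≤ L ^ 2 := by
    have h1 : U2.card ≤ X := by
      calc U2.card ≤ ((Finset.Icc 3 X).filter (fun x => x % 2 = 1)).card := Finset.card_image_le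
        _ ≤ (Finset.Icc 3 X).card := Finset.card_filter_le _ _
        _ ≤ X := by rw [Nat.card_Icc]; omega
    have : (U2.card : ℝ) ≤ X := by exact_mod_cast h1
    linarith
  refine ⟨U1 ∪ U2, ?_, ?_, ?_⟩
  · have h1 : ((U1 ∪ U2).card : ℝ) ≤ U1.card + U2.card := by
      exact_mod_cast Finset.card_union_le U1 U2
    have h2 : L ^ C2 ≤ L ^ (C2 + 4) := hLpow _ _ (by omega)
    have h3 : L ^ 2 ≤ L ^ (C2 + 4) := hLpow _ _ (by omega)
    have h4 : L ^ (C2 + 5) = L * L ^ (C2 + 4) := by rw [pow_succ' L (C2 + 4)]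
    have h5 : 0 ≤ L ^ (C2 + 4) := by positivity
    rw [h4]
    nlinarith only [hU1, hL20, hU2card, h1, h2, h3]
  · intro u hu
    rw [Finset.mem_union] at hu
    rcases hu with hu | hu
    · obtain ⟨h1, h2, h3⟩ := hU2 u hu
      exact ⟨h1, h2.trans (hLpow _ _ (by omega)), h3⟩
    · rw [hU2def, Finset.mem_image] at hu
      obtain ⟨x, hx, rfl⟩ := hu
      rw [Finset.mem_filter, Finset.mem_Icc] at hx
      refine ⟨TP_tx (by omega), ?_, ?_⟩
      · rw [nm_tx]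
        push_cast
        have h1 : (x : ℝ) ≤ L ^ 2 := by
          have : (x : ℝ) ≤ X := by exact_mod_cast hx.1.2
          linarith
        have h2 : (x : ℝ) ^ 2 ≤ (L ^ 2) ^ 2 := by gcongr
        have h3 : (L ^ 2) ^ 2 ≤ L ^ (C2 + 5) := by
          rw [← pow_mul]
          exact hLpow _ _ (by omega)
        linarith
      · simp only [tx]
        omega
  · intro t ht B hB M hM1 hM2
    have hBbig : K0 ≤ B := by
      by_contra hc
      push Not at hc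
      have h1 : (64 * B) ^ 4 < (64 * K0) ^ 4 :=
        Nat.pow_lt_pow_left (by omega) (by norm_num)
      omega
    have hBB0 : B0 ≤ B := by
      by_contra hc
      push Not at hc
      have h1 : (64 * B) ^ 4 < (64 * (B0 + 1)) ^ 4 :=
        Nat.pow_lt_pow_left (by omega) (by norm_num)
      omega
    have hBpos : 1 ≤ B := le_trans hK0pos hBbig
    have hcard : (bx B).card = 8 * B * B := by
      simp only [bx, Finset.card_product, Nat.card_Ico]
      have h1 : 16 * B - 8 * B = 8 * B := by omega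
      have h2 : 2 * B - B = B := by omega
      rw [h1, h2]
    have hcard0 : (0 : ℝ) < (bx B).card := by
      rw [hcard]
      have : 0 < 8 * B * B := by positivity
      exact_mod_cast this
    have hne : (bx B).Nonempty := by
      rw [← Finset.card_pos]
      exact_mod_cast hcard0
    have hMcard : (M.card : ℝ) ≤ (N : ℝ) ^ (δ / 8) := by
      apply hU3 t ht M
      · intro m hm
        have := hM1 m hm
        push_cast at this
        exact this.le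
      · intro m hm u hu
        exact (hM2 m hm u (Finset.mem_union_left _ hu)).trans (by norm_num)
    have hsep : ∀ m ∈ M, ∀ m' ∈ M, m ≠ m' → (S : ℤ) ≤ |m - m'| := by
      intro m hm m' hm' hmm
      have h1 := sep X m m' (fun x => t (tx x)) (by
        intro x hx3 hxX hx2
        have hmem : tx x ∈ U1 ∪ U2 := by
          apply Finset.mem_union_right
          rw [hU2def, Finset.mem_image]
          exact ⟨x, by rw [Finset.mem_filter, Finset.mem_Icc]; exact ⟨⟨hx3, hxX⟩, hx2⟩, rfl⟩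
        exact ⟨hM2 m hm _ hmem, hM2 m' hm' _ hmem⟩) hmm
      rw [hX] at h1
      push_cast at h1
      omega
    apply dual_bound (bx B) hne (fun p => al (zz p)) (fun p => t (zz p)) (fun p => ht _) M
    intro m hm
    have hterm : ∀ m' ∈ M.erase m,
        ‖(∑ p ∈ bx B, ee (((m - m' : ℤ) : ℝ) * al (zz p))) / ((bx B).card : ℂ)‖ ≤
          C1 * (1 / |((m - m' : ℤ) : ℝ)|) + (B : ℝ) ^ (-δ) := by
      intro m' hm'
      rw [Finset.mem_erase] at hm'
      have hd : m - m' ≠ 0 := sub_ne_zero.2 (Ne.symm hm'.1)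
      have h1 := hexp B hBB0 (m - m') hd (by
        have h2 := hM1 m hm
        have h3 := hM1 m' hm'.2
        have h4 : |m - m'| ≤ 2 * (N : ℤ) ^ 3 := by
          push_cast at h2 h3
          rw [abs_lt] at h2 h3
          rw [abs_le]
          constructor <;> linarith [h2.1, h2.2, h3.1, h3.2]
        have h5 : (|((m - m' : ℤ) : ℝ)|) ≤ 2 * (N : ℝ) ^ 3 := by exact_mod_cast h4
        have h6 : (N : ℝ) ≤ (64 * (B : ℝ)) ^ 4 := by exact_mod_cast hB
        have h7 : (N : ℝ) ^ 3 ≤ ((64 * (B : ℝ)) ^ 4) ^ 3 := by gcongr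
        have h8 : (2 * 64 ^ 12 : ℝ) ≤ B := by rw [← hK0R]; exact_mod_cast hBbig
        have h9 : 2 * ((64 * (B : ℝ)) ^ 4) ^ 3 = (2 * 64 ^ 12) * (B : ℝ) ^ 12 := by ring
        have h10 : (2 * 64 ^ 12) * (B : ℝ) ^ 12 ≤ (B : ℝ) * (B : ℝ) ^ 12 := by gcongr
        have h11 : (B : ℝ) * (B : ℝ) ^ 12 = (B : ℝ) ^ 13 := by ring
        linarith)
      rw [norm_div, Complex.norm_natCast, div_le_iff₀ hcard0]
      refine h1.trans (le_of_eq ?_)
      ring
    refine (Finset.sum_le_sum hterm).trans ?_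
    rw [Finset.sum_add_distrib, ← Finset.mul_sum, Finset.sum_const, nsmul_eq_mul]
    have h1 := harm M S (N ^ 3) hSpos (by
        apply Nat.one_le_pow
        have : 1 ≤ (64 * (B0 + 1)) ^ 4 := Nat.one_le_pow _ _ (by positivity)
        omega) (fun m hm => (hM1 m hm).le) hsep m hm
    have hNpos : (0 : ℝ) < N := by
      have : 1 ≤ (64 * (B0 + 1)) ^ 4 := Nat.one_le_pow _ _ (by positivity)
      have : 0 < N := by omega
      exact_mod_cast this
    have hlog2 : Real.log (2 * ((N ^ 3 : ℕ) : ℝ)) ≤ 1 + 3 * L := by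
      push_cast
      rw [Real.log_mul (by norm_num) (by positivity), Real.log_pow]
      push_cast
      have := Real.log_two_lt_d9
      linarith only [this]
    have hSR : (0 : ℝ) < S := by exact_mod_cast hSpos
    have h2 : C1 * ∑ m' ∈ M.erase m, 1 / |((m - m' : ℤ) : ℝ)| ≤ 1 / 5 := by
      calc C1 * ∑ m' ∈ M.erase m, 1 / |((m - m' : ℤ) : ℝ)|
          ≤ C1 * (2 / S * (1 + Real.log (2 * ((N ^ 3 : ℕ) : ℝ)))) := by gcongr
        _ ≤ C1 * (2 / S * (2 + 3 * L)) := by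
            apply mul_le_mul_of_nonneg_left _ (by linarith)
            apply mul_le_mul_of_nonneg_left _ (by positivity)
            linarith
        _ = (2 * C1 * (2 + 3 * L)) / S := by ring
        _ ≤ 1 / 5 := by
            rw [div_le_iff₀ hSR]
            nlinarith only [hL1, hS1]
    have h3 : ((M.erase m).card : ℝ) * (B : ℝ) ^ (-δ) ≤ 1 / 10 := by
      have h4 : ((M.erase m).card : ℝ) ≤ M.card := by
        exact_mod_cast Finset.card_le_card (Finset.erase_subset _ _)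
      calc ((M.erase m).card : ℝ) * (B : ℝ) ^ (-δ) ≤ (N : ℝ) ^ (δ / 8) * (B : ℝ) ^ (-δ) := by
            gcongr
            exact h4.trans hMcard
        _ ≤ 1 / 10 := a1 B hB
    linarith only [h2, h3]

end

end Pool.Agent.Lib.MP_0b748d_nt
end

section

set_option autoImplicit false

/-!
# Choice of the parameters, and the final theorem
-/

namespace Pool.Agent.Lib.MP_0b748d_nt

open Zsqrtd

noncomputable section

variable {g : ℕ → ℤ}

lemma div_low (a b : ℕ) (hb : 1 ≤ b) (h : b ≤ a) : (a : ℝ) ≤ 2 * b * ((a / b : ℕ) : ℝ) := by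
  have h1 : a < b * (a / b + 1) := by
    have := Nat.lt_mul_div_succ a (show 0 < b by omega)
    exact this
  have h2 : 1 ≤ a / b := (Nat.one_le_div_iff (by omega)).2 h
  have h3 : a ≤ 2 * b * (a / b) := by
    have : b * (a / b + 1) ≤ 2 * b * (a / b) := by nlinarith only [h2]
    omega
  exact_mod_cast h3

lemma div_up (a b : ℕ) : ((a / b : ℕ) : ℝ) * b ≤ a := by
  exact_mod_cast Nat.div_mul_le_self a b

lemma EK_le (K : ℕ) (hK : 1 ≤ K) (N : ℕ) (hKN : K ≤ N) (e : ℝ)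
    (he : 51 * (1 + Real.log N) ^ 16 ≤ e) : EK K ≤ e * K := by
  have h1 := edges_le K 8 hK
  simp only [EK]
  refine h1.trans ?_
  have hKR : (1 : ℝ) ≤ K := by exact_mod_cast hK
  have hKN' : (K : ℝ) ≤ N := by exact_mod_cast hKN
  have h2 : Real.log K ≤ Real.log N := Real.log_le_log (by linarith) hKN'
  have h3 : 0 ≤ Real.log K := Real.log_nonneg hKR
  have h4 : (1 + Real.log K) ^ 16 ≤ (1 + Real.log N) ^ 16 := by gcongr
  calc 3 * (K : ℝ) * (2 * ((8 : ℕ) : ℝ) + 1) * (1 + Real.log K) ^ 16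
      = K * (51 * (1 + Real.log K) ^ 16) := by push_cast; ring
    _ ≤ K * e := by
        apply mul_le_mul_of_nonneg_left _ (by positivity)
        linarith
    _ = e * K := by ring

/-- the sum of the four terms -/
lemma RR_num (n e A Y Y' V Z1 k1 k2 k3 : ℝ) (he : 1000000 ≤ e) (hn : 0 < n) (hY : 1 ≤ Y)
    (hY' : 1 ≤ Y') (hV : V = Y) (hA : A ≤ Y / e ^ 9) (hk1 : k1 ≤ e * (40 * Y'))
    (hk2 : k2 ≤ e * (40 * Y)) (hk3 : k3 ≤ e * V) (hYY : Y * e ^ 10 ≤ Y')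
    (hYn : Y' * e ^ 40 ≤ n) (hZ1 : Y' * e ^ 14 ≤ Z1) :
    A * (n / Y + 17) + 2 * k1 * (40 * n / Z1 + 17) + 3 * k2 * (2 * n / Y' + 17) +
      2 * k3 * (n / Y' + 17) ≤ n / e ^ 8 := by
  have he0 : (0 : ℝ) < e := by linarith
  have hY0 : (0 : ℝ) < Y := by linarith
  have hY0' : (0 : ℝ) < Y' := by linarith
  have hZ0 : 0 < Z1 := lt_of_lt_of_le (by positivity) hZ1
  have he1 : (1 : ℝ) ≤ e := by linarith
  have pe : ∀ a b : ℕ, a ≤ b → e ^ a ≤ e ^ b := fun a b h => pow_le_pow_right₀ he1 h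
  set X := n / e ^ 9 with hX
  have hX0 : 0 < X := by positivity
  have b1 : Y' * e ≤ X := by
    rw [hX, le_div_iff₀ (by positivity)]
    refine le_trans ?_ hYn
    calc Y' * e * e ^ 9 = Y' * e ^ 10 := by ring
      _ ≤ Y' * e ^ 40 := by
        have := pe 10 40 (by norm_num)
        gcongr
  have b2 : Y * e ≤ X := by
    refine le_trans ?_ b1
    have : Y ≤ Y' := by
      have h1 : Y * 1 ≤ Y * e ^ 10 := by
        have := one_le_pow₀ he1 (n := 10)
        gcongr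
      linarith
    gcongr
  have t1 : A * (n / Y + 17) ≤ 18 * X := by
    calc A * (n / Y + 17) ≤ Y / e ^ 9 * (n / Y + 17) := by gcongr
      _ = X + 17 * (Y / e ^ 9) := by rw [hX]; field_simp
      _ ≤ X + 17 * X := by
          have : Y / e ^ 9 ≤ X := by
            refine le_trans ?_ b2
            rw [div_le_iff₀ (by positivity)]
            have := one_le_pow₀ he1 (n := 10)
            calc Y = Y * 1 := by ring
              _ ≤ Y * e ^ 10 := by gcongr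
              _ = _ := by ring
          linarith
      _ = _ := by ring
  have t2 : 2 * k1 * (40 * n / Z1 + 17) ≤ 4560 * X := by
    have h1 : 40 * n / Z1 ≤ 40 * n / (Y' * e ^ 14) := by gcongr
    calc 2 * k1 * (40 * n / Z1 + 17) ≤ 2 * (e * (40 * Y')) * (40 * n / (Y' * e ^ 14) + 17) := by
          gcongr
      _ = 3200 * (n / e ^ 13) + 1360 * (Y' * e) := by field_simp; ring
      _ ≤ 3200 * X + 1360 * X := by
          have : n / e ^ 13 ≤ X := by
            rw [hX]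
            have := pe 9 13 (by norm_num)
            gcongr
          linarith
      _ = _ := by ring
  have hYe : Y / Y' * e ≤ 1 / e ^ 9 := by
    rw [div_mul_eq_mul_div, div_le_div_iff₀ hY0' (by positivity)]
    calc Y * e * e ^ 9 = Y * e ^ 10 := by ring
      _ ≤ 1 * Y' := by linarith
  have hYn2 : n * (Y / Y' * e) ≤ X := by
    calc n * (Y / Y' * e) ≤ n * (1 / e ^ 9) := by gcongr
      _ = X := by rw [hX]; ring
  have t3 : 3 * k2 * (2 * n / Y' + 17) ≤ 2280 * X := by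
    calc 3 * k2 * (2 * n / Y' + 17) ≤ 3 * (e * (40 * Y)) * (2 * n / Y' + 17) := by gcongr
      _ = 240 * (n * (Y / Y' * e)) + 2040 * (Y * e) := by field_simp; ring
      _ ≤ 240 * X + 2040 * X := by linarith
      _ = _ := by ring
  have t4 : 2 * k3 * (n / Y' + 17) ≤ 36 * X := by
    subst hV
    calc 2 * k3 * (n / Y' + 17) ≤ 2 * (e * V) * (n / Y' + 17) := by gcongr
      _ = 2 * (n * (V / Y' * e)) + 34 * (V * e) := by field_simp; ring
      _ ≤ 2 * X + 34 * X := by linarith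
      _ = _ := by ring
  have h8 : n / e ^ 8 = e * X := by rw [hX]; field_simp
  rw [h8]
  nlinarith only [he, hX0, t1, t2, t3, t4]

lemma box_size (N : ℕ) (hN : 1000000000 ≤ N) :
    ∃ B : ℕ, 1 ≤ B ∧ (32 * B) ^ 4 ≤ N ∧ N ≤ (64 * B) ^ 4 := by
  set s := Nat.sqrt (Nat.sqrt N) with hs
  have h1 : s * s ≤ Nat.sqrt N := Nat.sqrt_le _
  have h2 : Nat.sqrt N * Nat.sqrt N ≤ N := Nat.sqrt_le _
  have h3 : Nat.sqrt N < (s + 1) * (s + 1) := Nat.lt_succ_sqrt _
  have h4 : N < (Nat.sqrt N + 1) * (Nat.sqrt N + 1) := Nat.lt_succ_sqrt _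
  have h5 : s ^ 4 ≤ N := by
    calc s ^ 4 = (s * s) * (s * s) := by ring
      _ ≤ Nat.sqrt N * Nat.sqrt N := Nat.mul_le_mul h1 h1
      _ ≤ N := h2
  have h6 : N ≤ (s + 1) ^ 4 := by
    calc N ≤ (Nat.sqrt N + 1) * (Nat.sqrt N + 1) := h4.le
      _ ≤ ((s + 1) * (s + 1)) * ((s + 1) * (s + 1)) := Nat.mul_le_mul h3 h3
      _ = (s + 1) ^ 4 := by ring
  have h7 : 32 ≤ s := by
    by_contra hc
    push Not at hc
    have : (s + 1) ^ 4 ≤ 32 ^ 4 := Nat.pow_le_pow_left (by omega) 4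
    omega
  refine ⟨s / 32, by omega, ?_, ?_⟩
  · refine le_trans (Nat.pow_le_pow_left ?_ 4) h5
    omega
  · refine le_trans h6 (Nat.pow_le_pow_left ?_ 4)
    omega

lemma bx_card (B : ℕ) : ((bx B).card : ℝ) = 8 * (B : ℝ) ^ 2 := by
  have h : (bx B).card = 8 * B ^ 2 := by
    rw [bx, Finset.card_product, Nat.card_Ico, Nat.card_Ico]
    have h1 : 16 * B - 8 * B = 8 * B := by omega
    have h2 : 2 * B - B = B := by omega
    rw [h1, h2]
    ring
  rw [h]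
  push_cast
  ring

open Classical in
lemma final_aux : ∃ C2 : ℕ, ∀ g : ℕ → ℤ, CM g → ∀ (c : Bool) (N j E k : ℕ) (U : Finset (ℤ√2)),
    1 ≤ k → 17 ^ (k + 1) * 2 ^ (k + 2) * (1 + Real.log N) ^ (2 ^ (2 * k + 3)) ≤ E → 2 ≤ j → j % 2 = par c → g (j ^ 2 - 2) = -1 → 1000000 ≤ E →
    51 * (1 + Real.log N) ^ 16 ≤ E → C2 * (1 + Real.log N) ^ C2 ≤ E →
    2048 * ((U.card : ℝ) + 1) * (3 * Real.log N) ≤ E →
    (∀ u ∈ U, TP u ∧ nm u ≤ E ∧ u.re % 2 = 1) →
    (∀ B : ℕ, N ≤ (64 * B) ^ 4 → ∀ M : Finset ℤ, (∀ m ∈ M, |m| < ((N ^ 3 : ℕ) : ℤ)) →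
      (∀ m ∈ M, ∀ u ∈ U, ‖ee (m * al u) - tS g u‖ ≤ 1 / 16) →
      ∑ m ∈ M, ‖(∑ p ∈ bx B, (tS g (zz p) : ℂ) * ee (m * al (zz p))) / ((bx B).card : ℂ)‖ ^ 2 ≤
        13 / 10) →
    E ^ 130 * j ^ 2 ≤ N →
    (N : ℝ) / ((E : ℝ) ^ 130 * (j : ℝ) ^ (2 + 2 / (k : ℝ))) ≤ (SC g c N).card := by
  obtain ⟨C2, hC2⟩ := counting
  refine ⟨C2, ?_⟩
  intro g hg c N j E k U hk hEk hj hjc hgj hE0 hE1 hE2 hE3 hU1 hU2 hbig
  have heR : (1000000 : ℝ) ≤ E := by exact_mod_cast hE0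
  have he1 : (1 : ℝ) ≤ E := by linarith
  have he0 : (0 : ℝ) < E := by linarith
  have hEpos : 1 ≤ E := by omega
  have hjR : (2 : ℝ) ≤ j := by exact_mod_cast hj
  -- a few sizes in ℕ
  have hpowN : ∀ a : ℕ, a ≤ 130 → E ^ a * j ^ 2 ≤ N := by
    intro a ha
    refine le_trans ?_ hbig
    exact Nat.mul_le_mul_right _ (Nat.pow_le_pow_right hEpos ha)
  have hj2 : 1 ≤ j ^ 2 := Nat.one_le_pow _ _ (by omega)
  have hEN : E ≤ N := by
    calc E = E ^ 1 * 1 := by ring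
      _ ≤ E ^ 1 * j ^ 2 := Nat.mul_le_mul_left _ hj2
      _ ≤ N := hpowN 1 (by norm_num)
  have hE2N : E ^ 2 ≤ N := by
    calc E ^ 2 = E ^ 2 * 1 := by ring
      _ ≤ E ^ 2 * j ^ 2 := Nat.mul_le_mul_left _ hj2
      _ ≤ N := hpowN 2 (by norm_num)
  have hNbig : 1000000000 ≤ N := by nlinarith only [hE0, hE2N]
  have hNR0 : (0 : ℝ) < N := by
    have : 0 < N := by omega
    exact_mod_cast this
  obtain ⟨B, hB1, hB2, hB3⟩ := box_size N hNbig
  -- the parameters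
  obtain ⟨q, hq⟩ : ∃ q, q = E * j ^ 2 := ⟨_, rfl⟩
  have hq1 : 1 ≤ q := by rw [hq]; exact Nat.mul_pos (by omega) (by omega)
  have hqN : q ≤ N := by rw [hq]; simpa using hpowN 1 (by norm_num)
  obtain ⟨Z, hZ⟩ : ∃ Z, Z = N / q := ⟨_, rfl⟩
  have z1 := div_up N q
  have z2 := div_low N q hq1 hqN
  rw [← hZ] at z1 z2
  have hqR : (q : ℝ) = E * (j : ℝ) ^ 2 := by rw [hq]; push_cast; ring
  have hEZ : E ^ 40 ≤ Z := by
    rw [hZ, Nat.le_div_iff_mul_le (by omega), hq]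
    calc E ^ 40 * (E * j ^ 2) = E ^ 41 * j ^ 2 := by ring
      _ ≤ N := hpowN 41 (by norm_num)
  obtain ⟨Y', hY'⟩ : ∃ Y', Y' = Z / E ^ 40 := ⟨_, rfl⟩
  have y1 := div_up Z (E ^ 40)
  have y2 := div_low Z (E ^ 40) (Nat.one_le_pow _ _ (by omega)) hEZ
  rw [← hY'] at y1 y2
  push_cast at y1 y2
  have hEY' : E ^ 10 ≤ Y' := by
    rw [hY', Nat.le_div_iff_mul_le (by positivity), hZ, Nat.le_div_iff_mul_le (by omega), hq]
    calc E ^ 10 * E ^ 40 * (E * j ^ 2) = E ^ 51 * j ^ 2 := by ring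
      _ ≤ N := hpowN 51 (by norm_num)
  obtain ⟨Y, hY⟩ : ∃ Y, Y = Y' / E ^ 10 := ⟨_, rfl⟩
  have v1 := div_up Y' (E ^ 10)
  have v2 := div_low Y' (E ^ 10) (Nat.one_le_pow _ _ (by omega)) hEY'
  have hY1 : 2 ≤ Y := by
    rw [hY, Nat.le_div_iff_mul_le (by positivity), hY', Nat.le_div_iff_mul_le (by positivity), hZ,
      Nat.le_div_iff_mul_le (by omega), hq]
    calc 2 * E ^ 10 * E ^ 40 * (E * j ^ 2) ≤ E * E ^ 10 * E ^ 40 * (E * j ^ 2) := by
          gcongr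
          omega
      _ = E ^ 52 * j ^ 2 := by ring
      _ ≤ N := hpowN 52 (by norm_num)
  rw [← hY] at v1 v2
  push_cast at v1 v2
  have hY'1 : 1 ≤ Y' := le_trans (Nat.one_le_pow _ _ (by omega)) hEY'
  have hZ1' : 1 ≤ Z := le_trans (Nat.one_le_pow _ _ (by omega)) hEZ
  have hYR : (2 : ℝ) ≤ Y := by exact_mod_cast hY1
  have hYR' : (1 : ℝ) ≤ Y' := by exact_mod_cast hY'1
  have hZN : Z ≤ N := by rw [hZ]; exact Nat.div_le_self _ _
  have hZNR : (Z : ℝ) ≤ N := by exact_mod_cast hZN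
  have pe : ∀ a b : ℕ, a ≤ b → (E : ℝ) ^ a ≤ (E : ℝ) ^ b := fun a b h => pow_le_pow_right₀ he1 h
  obtain ⟨Z1, hZ1⟩ : ∃ Z1, Z1 = Nat.sqrt (Y * Z) := ⟨_, rfl⟩
  have w1 : Z1 ^ 2 ≤ Y * Z := by
    rw [hZ1, sq]; exact Nat.sqrt_le _
  have w2 : Y' * E ^ 14 ≤ Z1 := by
    rw [hZ1, Nat.le_sqrt]
    have h1 : ((Y' * E ^ 14 * (Y' * E ^ 14) : ℕ) : ℝ) ≤ ((Y * Z : ℕ) : ℝ) := by
      push_cast
      have hYZ0 : (0 : ℝ) ≤ Y * Z := by positivity
      have h2 : (Y' : ℝ) * (Y' * E ^ 40) ≤ 2 * E ^ 10 * Y * Z :=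
        mul_le_mul v2 y1 (by positivity) (by positivity)
      have h3 : (Y' : ℝ) * E ^ 14 * (Y' * E ^ 14) * E ^ 12 ≤ 2 * E ^ 10 * (Y * Z) := by
        calc (Y' : ℝ) * E ^ 14 * (Y' * E ^ 14) * E ^ 12 = Y' * (Y' * E ^ 40) := by ring
          _ ≤ 2 * (E : ℝ) ^ 10 * Y * Z := h2
          _ = 2 * (E : ℝ) ^ 10 * (Y * Z) := by ring
      have h4 : 2 * (E : ℝ) ^ 10 * (Y * Z) ≤ E ^ 12 * (Y * Z) := by
        apply mul_le_mul_of_nonneg_right _ hYZ0
        have : (E : ℝ) ^ 12 = E ^ 2 * E ^ 10 := by ring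
        rw [this]
        apply mul_le_mul_of_nonneg_right _ (by positivity)
        nlinarith only [heR]
      have h5 : (Y' : ℝ) * E ^ 14 * (Y' * E ^ 14) * E ^ 12 ≤ Y * Z * E ^ 12 := by
        rw [mul_comm (Y * Z : ℝ) (E ^ 12)]
        exact h3.trans h4
      exact le_of_mul_le_mul_right h5 (by positivity)
    exact_mod_cast h1
  have hZ1pos : 1 ≤ Z1 := by
    refine le_trans ?_ w2
    exact Nat.mul_pos (by omega) (Nat.one_le_pow _ _ (by omega))
  have w3 : (Y' : ℝ) * E ^ 14 ≤ Z1 := by exact_mod_cast w2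
  -- bounds for the number of edges
  have hYY' : (Y : ℝ) ≤ Y' := by
    have h1 : (Y : ℝ) * 1 ≤ Y * E ^ 10 := by
      have := one_le_pow₀ he1 (n := 10)
      gcongr
    linarith only [v1, h1]
  have hY'n : (Y' : ℝ) * E ^ 40 ≤ N := y1.trans hZNR
  have h40 : (40 : ℝ) * Y' ≤ N := by
    refine le_trans ?_ hY'n
    rw [mul_comm]
    apply mul_le_mul_of_nonneg_left _ (by positivity)
    calc (40 : ℝ) ≤ E := by linarith only [heR]
      _ = (E : ℝ) ^ 1 := by ring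
      _ ≤ E ^ 40 := pe 1 40 (by norm_num)
  have h40' : 40 * Y' ≤ N := by exact_mod_cast h40
  have h40Y : 40 * Y ≤ N := by
    have : (40 : ℝ) * Y ≤ N := by linarith only [hYY', h40]
    exact_mod_cast this
  have k1 := EK_le (40 * Y') (by omega) N h40' E hE1
  have k2 := EK_le (40 * Y) (by omega) N h40Y E hE1
  have k3 := EK_le Y (by omega) N (by omega) E hE1
  have hmax : max Y 2 = Y := max_eq_left hY1
  push_cast at k1 k2 k3
  have hlogN : 0 ≤ Real.log N := Real.log_nonneg (by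
    have : 1 ≤ N := by omega
    exact_mod_cast this)
  -- the contradiction
  have key : (Y : ℝ) / E ^ 9 < ∑ n ∈ SC g c N, ((EF 8 n).card : ℝ) := by
    by_contra hcon
    push Not at hcon
    have hRR : RR g c N Z1 Y Y Y' ≤ N / E ^ 8 := by
      rw [RR, hmax]
      exact RR_num N E _ Y Y' Y Z1 _ _ _ heR hNR0 (by linarith only [hYR]) hYR' rfl hcon k1 k2 k3 v1 hY'n w3
    refine contra hg c N Z Y' B j E (64 / (E : ℝ) ^ 3) U (by omega) hB1 hY'1 ?_ hZN hB2 hj hjc hgj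
      ?_ ?_ (hU2 B hB3) (by positivity) ?_ ?_ ?_
    · omega
    · have h1 : j ^ 2 ≤ q := by rw [hq]; exact Nat.le_mul_of_pos_left _ (by omega)
      calc j ^ 2 * Z ≤ q * Z := Nat.mul_le_mul_right _ h1
        _ ≤ N := by rw [hZ]; exact Nat.mul_div_le N q
    · intro u hu
      obtain ⟨h1, h2, h3⟩ := hU1 u hu
      refine ⟨h1, ?_, h3⟩
      have h4 : E ≤ q := by rw [hq]; exact Nat.le_mul_of_pos_right _ (by omega)
      have h5 : E * Z ≤ N := by
        calc E * Z ≤ q * Z := Nat.mul_le_mul_right _ h4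
          _ ≤ N := by rw [hZ]; exact Nat.mul_div_le N q
      calc nm u * Z ≤ E * Z := mul_le_mul_of_nonneg_right h2 (by positivity)
        _ ≤ N := by exact_mod_cast h5
    · intro τ
      have h1 := hC2 g hg c N Z Z1 Y Y Y' B (by omega) hY'1 (by omega) hZ1pos w1 (by omega) hB1
        hB2 τ
      refine h1.trans ?_
      rw [bx_card]
      have hBR : (1 : ℝ) ≤ B := by exact_mod_cast hB1
      have hBN : (B : ℝ) ≤ N := by
        have h2 : B ≤ (32 * B) ^ 4 := by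
          calc B ≤ 32 * B := by omega
            _ = (32 * B) ^ 1 := by ring
            _ ≤ (32 * B) ^ 4 := Nat.pow_le_pow_right (by omega) (by norm_num)
        exact_mod_cast h2.trans hB2
      have hlogB : Real.log B ≤ Real.log N := Real.log_le_log (by linarith only [hBR]) hBN
      have hlogB0 : 0 ≤ Real.log B := Real.log_nonneg hBR
      have hs : √(RR g c N Z1 Y Y Y') ≤ (64 * B) ^ 2 / E ^ 4 := by
        rw [Real.sqrt_le_left (by positivity)]
        refine hRR.trans ?_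
        have h3 : (N : ℝ) ≤ (64 * B) ^ 4 := by exact_mod_cast hB3
        calc (N : ℝ) / E ^ 8 ≤ (64 * (B : ℝ)) ^ 4 / (E : ℝ) ^ 8 := by gcongr
          _ = ((64 * (B : ℝ)) ^ 2 / (E : ℝ) ^ 4) ^ 2 := by ring
      calc (C2 : ℝ) * √(RR g c N Z1 Y Y Y') * (B : ℝ) ^ 2 * (1 + Real.log B) ^ C2
          ≤ C2 * ((64 * (B : ℝ)) ^ 2 / (E : ℝ) ^ 4) * (B : ℝ) ^ 2 * (1 + Real.log N) ^ C2 := by
            gcongr
        _ = (C2 * (1 + Real.log N) ^ C2) * (4096 * (B : ℝ) ^ 4 / (E : ℝ) ^ 4) := by ring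
        _ ≤ E * (4096 * (B : ℝ) ^ 4 / (E : ℝ) ^ 4) := by gcongr
        _ = 64 / (E : ℝ) ^ 3 * (8 * (B : ℝ) ^ 2) ^ 2 := by field_simp; ring
    · exact hE3
    · have h2 : (E : ℝ) ^ 2 ≤ N := by exact_mod_cast hE2N
      have h3 : (1 : ℝ) / N ≤ 1 / E ^ 2 := by gcongr
      have h5 : 1 / (E : ℝ) ^ 3 ≤ 1 / E ^ 2 := by
        have := pe 2 3 (by norm_num)
        gcongr
      calc (E : ℝ) * (64 / (E : ℝ) ^ 3 + 1 / N)
          ≤ E * (64 * (1 / (E : ℝ) ^ 2) + 1 / (E : ℝ) ^ 2) := by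
            apply mul_le_mul_of_nonneg_left _ he0.le
            have : 64 / (E : ℝ) ^ 3 = 64 * (1 / (E : ℝ) ^ 3) := by ring
            linarith only [h3, h5, this]
        _ = 65 / (E : ℝ) := by field_simp; norm_num
        _ ≤ 1 / 100 := by
            rw [div_le_div_iff₀ he0 (by norm_num)]
            linarith only [heR]
  -- Hölder
  have hCS := edges_holder k N 8 (SC g c N) (by
    intro n hn
    simp only [SC, Finset.mem_filter] at hn
    exact hn.1)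
  obtain ⟨A, hA⟩ : ∃ A : ℝ, A = ∑ n ∈ SC g c N, ((EF 8 n).card : ℝ) := ⟨_, rfl⟩
  obtain ⟨S, hS⟩ : ∃ S : ℝ, S = ((SC g c N).card : ℝ) := ⟨_, rfl⟩
  rw [← hA, ← hS] at hCS
  rw [← hA] at key
  rw [← hS]
  have hS0 : 0 ≤ S := by rw [hS]; positivity
  have hL32 : (2 * ((8 : ℕ) : ℝ) + 1) ^ (k + 1) *
      (2 ^ (k + 2) * N * (1 + Real.log N) ^ (2 ^ (2 * k + 3))) ≤ N * E := by
    have h4 : (2 * ((8 : ℕ) : ℝ) + 1) ^ (k + 1) *
        (2 ^ (k + 2) * N * (1 + Real.log N) ^ (2 ^ (2 * k + 3))) =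
        (N : ℝ) * (17 ^ (k + 1) * 2 ^ (k + 2) * (1 + Real.log N) ^ (2 ^ (2 * k + 3))) := by
      generalize (1 + Real.log N) ^ (2 ^ (2 * k + 3)) = X
      have e : (2 * ((8 : ℕ) : ℝ) + 1) = 17 := by norm_num
      rw [e]
      ring
    rw [h4]
    exact mul_le_mul_of_nonneg_left hEk hNR0.le
  have h1 : (Y / (E : ℝ) ^ 9) ^ (k + 1) ≤ S ^ k * (N * E) := by
    calc (Y / (E : ℝ) ^ 9) ^ (k + 1) ≤ A ^ (k + 1) := by gcongr
      _ ≤ _ := hCS
      _ ≤ S ^ k * (N * E) := mul_le_mul_of_nonneg_left hL32 (by positivity)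
  -- the size of Y
  have hYlow : (N : ℝ) ≤ E ^ 52 * (j : ℝ) ^ 2 * Y := by
    rw [hqR] at z2
    have hj2R : (0 : ℝ) ≤ (j : ℝ) ^ 2 := by positivity
    calc (N : ℝ) ≤ 2 * (E * (j : ℝ) ^ 2) * Z := z2
      _ ≤ 2 * (E * (j : ℝ) ^ 2) * (2 * E ^ 40 * Y') := by gcongr
      _ ≤ 2 * (E * (j : ℝ) ^ 2) * (2 * E ^ 40 * (2 * E ^ 10 * Y)) := by gcongr
      _ = 8 * (E ^ 51 * (j : ℝ) ^ 2 * Y) := by ring
      _ ≤ E * (E ^ 51 * (j : ℝ) ^ 2 * Y) := by
          apply mul_le_mul_of_nonneg_right _ (by positivity)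
          linarith only [heR]
      _ = _ := by ring
  have h2 : (N : ℝ) / (E ^ 52 * (j : ℝ) ^ 2) ≤ Y := by
    rw [div_le_iff₀ (by positivity)]
    linarith only [hYlow]
  have h3 : ((N : ℝ) / (E ^ 61 * (j : ℝ) ^ 2)) ^ (k + 1) ≤ S ^ k * (N * E) := by
    refine le_trans ?_ h1
    apply pow_le_pow_left₀ (by positivity)
    rw [le_div_iff₀ (by positivity)]
    refine le_trans (le_of_eq ?_) h2
    field_simp
  have hj0 : (0 : ℝ) < j := by linarith only [hjR]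
  have hfin : ((N : ℝ) / ((E : ℝ) ^ 130 * (j : ℝ) ^ (2 + 2 / (k : ℝ)))) ^ k ≤ S ^ k := by
    have hk0 : (0 : ℝ) < k := by exact_mod_cast hk
    have e1 : ((j : ℝ) ^ (2 + 2 / (k : ℝ))) ^ k = ((j : ℝ) ^ 2) ^ (k + 1) := by
      rw [← Real.rpow_natCast ((j : ℝ) ^ (2 + 2 / (k : ℝ))) k, ← Real.rpow_mul hj0.le,
        ← pow_mul, ← Real.rpow_natCast]
      congr 1
      push_cast
      field_simp
    have e2 : ((N : ℝ) / ((E : ℝ) ^ 130 * (j : ℝ) ^ (2 + 2 / (k : ℝ)))) ^ k =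
        N ^ k / (((E : ℝ) ^ 130) ^ k * ((j : ℝ) ^ 2) ^ (k + 1)) := by
      rw [div_pow, mul_pow, e1]
    have e3 : ((N : ℝ) / (E ^ 61 * (j : ℝ) ^ 2)) ^ (k + 1) =
        N ^ k / (((E : ℝ) ^ 61) ^ (k + 1) * E * ((j : ℝ) ^ 2) ^ (k + 1)) * (N * E) := by
      rw [div_pow, mul_pow, pow_succ (N : ℝ) k]
      field_simp
    rw [e3] at h3
    have h5 : (N : ℝ) ^ k / (((E : ℝ) ^ 61) ^ (k + 1) * E * ((j : ℝ) ^ 2) ^ (k + 1)) ≤ S ^ k :=
      le_of_mul_le_mul_right h3 (by positivity)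
    rw [e2]
    refine le_trans ?_ h5
    have h6 : ((E : ℝ) ^ 61) ^ (k + 1) * E ≤ ((E : ℝ) ^ 130) ^ k := by
      rw [← pow_mul, ← pow_mul, ← pow_succ]
      exact pe _ _ (by omega)
    gcongr
  exact le_of_pow_le_pow_left₀ (by omega) hS0 hfin

theorem minus_polylog (ε : ℝ) (hε : 0 < ε) : ∃ C N₀ : ℕ, ∀ N : ℕ, N₀ ≤ N → ∀ g : ℕ → ℤ, CM g →
    ∀ (c : Bool) (j : ℕ), 2 ≤ j → j ≤ N → j % 2 = par c → g (j ^ 2 - 2) = -1 →
    (N : ℝ) / ((Real.log N) ^ C * (j : ℝ) ^ (2 + ε)) ≤ (SC g c N).card := by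
  obtain ⟨k, hk1, hk2⟩ : ∃ k : ℕ, 1 ≤ k ∧ 2 / (k : ℝ) ≤ ε := by
    refine ⟨⌈2 / ε⌉₊, Nat.one_le_ceil_iff.2 (by positivity), ?_⟩
    have h1 : 2 / ε ≤ ⌈2 / ε⌉₊ := Nat.le_ceil _
    have h2 : (0 : ℝ) < ⌈2 / ε⌉₊ := lt_of_lt_of_le (by positivity) h1
    rw [div_le_iff₀ h2]
    rw [div_le_iff₀ hε] at h1
    linarith
  obtain ⟨K, hK⟩ : ∃ K : ℕ, K = 2 ^ (2 * k + 3) := ⟨_, rfl⟩
  obtain ⟨C1, N1, h1⟩ := near_orth_final
  obtain ⟨C2, h2⟩ := final_aux
  have hlog : Filter.Tendsto (fun N : ℕ => Real.log N) Filter.atTop Filter.atTop :=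
    Real.tendsto_log_atTop.comp tendsto_natCast_atTop_atTop
  obtain ⟨N2, hN2⟩ := Filter.eventually_atTop.1
    (hlog.eventually_ge_atTop ((4000000 : ℝ) + C2 * 2 ^ C2 + 17 ^ (k + 1) * 2 ^ (k + 2) * 2 ^ K))
  refine ⟨130 * (C1 + C2 + K + 18), max N1 (max N2 1), ?_⟩
  intro N hN g hg c j hj2 hjN hjc hgj
  obtain ⟨U, hU1, hU2, hU3⟩ := h1 N (by omega)
  have a2 := hN2 N (by omega)
  have hN1' : 1 ≤ N := by omega
  clear hN
  set L := Real.log N with hL
  have hC20 : (0 : ℝ) ≤ C2 * 2 ^ C2 := by positivity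
  have hK20 : (0 : ℝ) ≤ 17 ^ (k + 1) * 2 ^ (k + 2) * 2 ^ K := by positivity
  have hL4 : (4000000 : ℝ) ≤ L := by linarith
  have hL1 : 1 ≤ L := by linarith
  have hL0 : 0 < L := by linarith
  have pl : ∀ a b : ℕ, a ≤ b → L ^ a ≤ L ^ b := fun a b h => pow_le_pow_right₀ hL1 h
  obtain ⟨C0, hC0⟩ : ∃ C0, C0 = C1 + C2 + K + 17 := ⟨_, rfl⟩
  obtain ⟨E, e1, e2⟩ : ∃ E : ℕ, L ^ C0 ≤ E ∧ (E : ℝ) < L ^ C0 + 1 :=
    ⟨⌈L ^ C0⌉₊, Nat.le_ceil _, Nat.ceil_lt_add_one (by positivity)⟩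
  have e3 : (E : ℝ) ≤ L ^ (C0 + 1) := by
    have h3 : (1 : ℝ) ≤ L ^ C0 := one_le_pow₀ hL1
    have h4 : L ^ (C0 + 1) = L * L ^ C0 := by ring
    rw [h4]
    nlinarith only [hL4, e2, h3]
  have hEpos : (1 : ℝ) ≤ E := le_trans (one_le_pow₀ hL1) e1
  obtain ⟨C3, hC3⟩ : ∃ C3, C3 = 130 * (C1 + C2 + K + 18) := ⟨_, rfl⟩
  rw [← hC3]
  have hexp0 : C3 = (C0 + 1) * 130 := by omega
  have hexp : (E : ℝ) ^ 130 ≤ L ^ C3 := by
    rw [hexp0, pow_mul]
    exact pow_le_pow_left₀ (by linarith) e3 130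
  have hjR : (2 : ℝ) ≤ j := by exact_mod_cast hj2
  have hN0 : (0 : ℝ) < N := by exact_mod_cast hN1'
  have hj1 : (1 : ℝ) ≤ j := by linarith
  have hle : (N : ℝ) / (L ^ C3 * (j : ℝ) ^ (2 + ε)) ≤
      N / ((E : ℝ) ^ 130 * (j : ℝ) ^ (2 + 2 / (k : ℝ))) := by
    gcongr
  refine hle.trans ?_
  rcases le_or_gt (E ^ 130 * j ^ 2) N with hb | hb
  · refine h2 g hg c N j E k U hk1 ?_ hj2 hjc hgj ?_ ?_ ?_ ?_ ?_ ?_ hb
    · rw [← hK]
      refine le_trans ?_ e1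
      calc 17 ^ (k + 1) * 2 ^ (k + 2) * (1 + L) ^ K
          ≤ 17 ^ (k + 1) * 2 ^ (k + 2) * (2 * L) ^ K := by gcongr; linarith only [hL1]
        _ = (17 ^ (k + 1) * 2 ^ (k + 2) * 2 ^ K) * L ^ K := by rw [mul_pow]; ring
        _ ≤ L * L ^ K := by gcongr; linarith only [a2, hC20]
        _ = L ^ (K + 1) := by ring
        _ ≤ L ^ C0 := pl _ _ (by omega)
    · have h3 : (1000000 : ℝ) ≤ E := by
        refine le_trans ?_ e1
        calc (1000000 : ℝ) ≤ L := by linarith only [hL4]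
          _ = L ^ 1 := by ring
          _ ≤ L ^ C0 := pl _ _ (by omega)
      exact_mod_cast h3
    · refine le_trans ?_ e1
      calc 51 * (1 + L) ^ 16 ≤ 51 * (2 * L) ^ 16 := by gcongr; linarith only [hL1]
        _ = 3342336 * L ^ 16 := by ring
        _ ≤ L * L ^ 16 := by gcongr; linarith only [hL4]
        _ = L ^ 17 := by ring
        _ ≤ L ^ C0 := pl _ _ (by omega)
    · refine le_trans ?_ e1
      calc (C2 : ℝ) * (1 + L) ^ C2 ≤ C2 * (2 * L) ^ C2 := by gcongr; linarith only [hL1]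
        _ = (C2 * 2 ^ C2) * L ^ C2 := by rw [mul_pow]; ring
        _ ≤ L * L ^ C2 := by gcongr; linarith only [a2, hK20]
        _ = L ^ (C2 + 1) := by ring
        _ ≤ L ^ C0 := pl _ _ (by omega)
    · refine le_trans ?_ e1
      have h3 : (1 : ℝ) ≤ L ^ C1 := one_le_pow₀ hL1
      calc 2048 * ((U.card : ℝ) + 1) * (3 * L) ≤ 2048 * (L ^ C1 + L ^ C1) * (3 * L) := by gcongr
        _ = 12288 * L ^ (C1 + 1) := by ring
        _ ≤ L * L ^ (C1 + 1) := by gcongr; linarith only [hL4]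
        _ = L ^ (C1 + 2) := by ring
        _ ≤ L ^ C0 := pl _ _ (by omega)
    · intro u hu
      obtain ⟨b1, b2, b3⟩ := hU2 u hu
      refine ⟨b1, ?_, b3⟩
      have h3 : ((nm u : ℤ) : ℝ) ≤ ((E : ℤ) : ℝ) := by
        push_cast
        exact b2.trans ((pl _ _ (by omega)).trans e1)
      exact_mod_cast h3
    · intro B hB M hM1 hM2
      exact hU3 (tS g) (tS_val g) B hB M hM1 hM2
  · have h3 : (N : ℝ) / ((E : ℝ) ^ 130 * (j : ℝ) ^ (2 + 2 / (k : ℝ))) ≤ 1 := by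
      rw [div_le_one (by positivity)]
      have h5 : (N : ℝ) ≤ (E : ℝ) ^ 130 * (j : ℝ) ^ 2 := by exact_mod_cast hb.le
      refine h5.trans ?_
      apply mul_le_mul_of_nonneg_left _ (by positivity)
      rw [← Real.rpow_natCast]
      apply Real.rpow_le_rpow_of_exponent_le hj1
      push_cast
      have : (0 : ℝ) ≤ 2 / (k : ℝ) := by positivity
      linarith only [this]
    refine h3.trans ?_
    have h4 : 1 ≤ (SC g c N).card := by
      apply Finset.card_pos.2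
      exact ⟨j, by
        simp only [SC, Finset.mem_filter, Finset.mem_Icc]
        exact ⟨⟨hj2, hjN⟩, hjc, hgj⟩⟩
    exact_mod_cast h4

end

end Pool.Agent.Lib.MP_0b748d_nt
end

section

set_option autoImplicit false

/-!
# Twisting: both signs
-/

namespace Pool.Agent.Lib.MP_0b748d_nt

noncomputable section

variable {g : ℕ → ℤ}

/-- the completely multiplicative function `(-1) ^ v₂` -/
def chiE (m : ℕ) : ℤ := (-1) ^ (padicValNat 2 m)

/-- the nontrivial character mod 4 of the odd part -/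
def chiO (m : ℕ) : ℤ := if (ordCompl[2] m) % 4 = 3 then -1 else 1

lemma chiE_mul {m n : ℕ} (hm : 0 < m) (hn : 0 < n) : chiE (m * n) = chiE m * chiE n := by
  haveI : Fact (Nat.Prime 2) := ⟨Nat.prime_two⟩
  simp only [chiE]
  rw [padicValNat.mul hm.ne' hn.ne', pow_add]

lemma chiE_val (m : ℕ) : chiE m = 1 ∨ chiE m = -1 := by
  simp only [chiE]
  exact neg_one_pow_eq_or ℤ _

lemma chiO_val (m : ℕ) : chiO m = 1 ∨ chiO m = -1 := by
  simp only [chiO]
  split_ifs <;> simp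

lemma chiO_mul {m n : ℕ} (hm : 0 < m) (hn : 0 < n) : chiO (m * n) = chiO m * chiO n := by
  simp only [chiO]
  rw [Nat.ordCompl_mul]
  have h1 : ¬ 2 ∣ ordCompl[2] m := Nat.not_dvd_ordCompl Nat.prime_two hm.ne'
  have h2 : ¬ 2 ∣ ordCompl[2] n := Nat.not_dvd_ordCompl Nat.prime_two hn.ne'
  generalize ordCompl[2] m = a at *
  generalize ordCompl[2] n = b at *
  have ha : a % 4 = 1 ∨ a % 4 = 3 := by omega
  have hb : b % 4 = 1 ∨ b % 4 = 3 := by omega
  rw [Nat.mul_mod]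
  rcases ha with ha | ha <;> rcases hb with hb | hb <;> rw [ha, hb] <;> norm_num

lemma chiE_even {n : ℕ} (hn : 2 ≤ n) (h : n % 2 = 0) : chiE (n ^ 2 - 2) = -1 := by
  haveI : Fact (Nat.Prime 2) := ⟨Nat.prime_two⟩
  obtain ⟨k, rfl⟩ : ∃ k, n = 2 * k := ⟨n / 2, by omega⟩
  have hk : 1 ≤ k ^ 2 := Nat.one_le_pow _ _ (by omega)
  have e : (2 * k) ^ 2 - 2 = 2 * (2 * k ^ 2 - 1) := by
    have : (2 * k) ^ 2 = 4 * k ^ 2 := by ring
    omega
  simp only [chiE]
  rw [e, padicValNat.mul (by norm_num) (by omega), padicValNat.self (by norm_num),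
    padicValNat.eq_zero_of_not_dvd (by omega)]
  norm_num

lemma chiO_odd {n : ℕ} (hn : 2 ≤ n) (h : n % 2 = 1) : chiO (n ^ 2 - 2) = -1 := by
  obtain ⟨k, rfl⟩ : ∃ k, n = 2 * k + 1 := ⟨n / 2, by omega⟩
  have e : (2 * k + 1) ^ 2 = 4 * (k ^ 2 + k) + 1 := by ring
  have hk : 1 ≤ k ^ 2 + k := by nlinarith
  have hnd : ¬ 2 ∣ (2 * k + 1) ^ 2 - 2 := by omega
  have e2 : ordCompl[2] ((2 * k + 1) ^ 2 - 2) = (2 * k + 1) ^ 2 - 2 := by
    rw [Nat.factorization_eq_zero_of_not_dvd hnd]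
    simp
  simp only [chiO]
  rw [e2, if_pos (by omega)]

lemma CM_twist {χ : ℕ → ℤ} (hg : CM g) (h1 : ∀ m n : ℕ, 0 < m → 0 < n → χ (m * n) = χ m * χ n)
    (h2 : ∀ m, χ m = 1 ∨ χ m = -1) : CM (fun m => g m * χ m) := by
  constructor
  · intro m n hm hn
    rw [hg.mul m n hm hn, h1 m n hm hn]
    ring
  · intro m hm
    rcases hg.val m hm with a | a <;> rcases h2 m with b | b <;> rw [a, b] <;> norm_num

theorem sign_persistence (ε : ℝ) (hε : 0 < ε) : ∃ C N₀ : ℕ, ∀ N : ℕ, N₀ ≤ N → ∀ g : ℕ → ℤ,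
    CM g → ∀ j : ℕ, 2 ≤ j → j ≤ N →
    (N : ℝ) / ((Real.log N) ^ C * (j : ℝ) ^ (2 + ε)) ≤
      (((Finset.Icc 2 N).filter
        (fun n => n % 2 = j % 2 ∧ g (n ^ 2 - 2) = g (j ^ 2 - 2))).card : ℝ) := by
  obtain ⟨C, N₀, h⟩ := minus_polylog ε hε
  refine ⟨C, N₀, ?_⟩
  intro N hN g hg j hj hjN
  have hj2 : 4 ≤ j ^ 2 := by nlinarith
  rcases hg.val (j ^ 2 - 2) (by omega) with hs | hs
  · -- sign +1: twist
    rcases Nat.mod_two_eq_zero_or_one j with hp | hp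
    · have hg' := CM_twist hg (fun m n hm hn => chiE_mul hm hn) chiE_val
      have h1 := h N hN _ hg' false j hj hjN (by simp [par, hp])
        (by simp only [hs, chiE_even hj hp]; norm_num)
      refine h1.trans ?_
      have h2 : SC (fun m => g m * chiE m) false N ⊆ (Finset.Icc 2 N).filter
          (fun n => n % 2 = j % 2 ∧ g (n ^ 2 - 2) = g (j ^ 2 - 2)) := by
        intro n hn
        simp only [SC, Finset.mem_filter, Finset.mem_Icc, par, Bool.false_eq_true, if_false] at hn ⊢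
        obtain ⟨⟨a1, a2⟩, a3, a4⟩ := hn
        rw [chiE_even a1 a3] at a4
        exact ⟨⟨a1, a2⟩, by omega, by rw [hs]; omega⟩
      exact_mod_cast Finset.card_le_card h2
    · have hg' := CM_twist hg (fun m n hm hn => chiO_mul hm hn) chiO_val
      have h1 := h N hN _ hg' true j hj hjN (by simp [par, hp])
        (by simp only [hs, chiO_odd hj hp]; norm_num)
      refine h1.trans ?_
      have h2 : SC (fun m => g m * chiO m) true N ⊆ (Finset.Icc 2 N).filter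
          (fun n => n % 2 = j % 2 ∧ g (n ^ 2 - 2) = g (j ^ 2 - 2)) := by
        intro n hn
        simp only [SC, Finset.mem_filter, Finset.mem_Icc, par, if_true] at hn ⊢
        obtain ⟨⟨a1, a2⟩, a3, a4⟩ := hn
        rw [chiO_odd a1 a3] at a4
        exact ⟨⟨a1, a2⟩, by omega, by rw [hs]; omega⟩
      exact_mod_cast Finset.card_le_card h2
  · rcases Nat.mod_two_eq_zero_or_one j with hp | hp
    · have h1 := h N hN g hg false j hj hjN (by simp [par, hp]) hs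
      refine h1.trans ?_
      have h2 : SC g false N ⊆ (Finset.Icc 2 N).filter
          (fun n => n % 2 = j % 2 ∧ g (n ^ 2 - 2) = g (j ^ 2 - 2)) := by
        intro n hn
        simp only [SC, Finset.mem_filter, Finset.mem_Icc, par, Bool.false_eq_true, if_false] at hn ⊢
        obtain ⟨⟨a1, a2⟩, a3, a4⟩ := hn
        exact ⟨⟨a1, a2⟩, by omega, by rw [hs]; exact a4⟩
      exact_mod_cast Finset.card_le_card h2
    · have h1 := h N hN g hg true j hj hjN (by simp [par, hp]) hs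
      refine h1.trans ?_
      have h2 : SC g true N ⊆ (Finset.Icc 2 N).filter
          (fun n => n % 2 = j % 2 ∧ g (n ^ 2 - 2) = g (j ^ 2 - 2)) := by
        intro n hn
        simp only [SC, Finset.mem_filter, Finset.mem_Icc, par, if_true] at hn ⊢
        obtain ⟨⟨a1, a2⟩, a3, a4⟩ := hn
        exact ⟨⟨a1, a2⟩, by omega, by rw [hs]; exact a4⟩
      exact_mod_cast Finset.card_le_card h2

end

end Pool.Agent.Lib.MP_0b748d_nt
end
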